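import Mathlib

/-! # Abstract systems for 2-convergence (helper591, MP_e53872_an) -/

open scoped ComplexConjugate InnerProductSpace

namespace Pool.TC

/-- uniform average over a finite type -/
noncomputable def avg {ι : Type} [Fintype ι] {V : Type*} [AddCommGroup V] [Module ℝ V]
    (f : ι → V) : V := (Fintype.card ι : ℝ)⁻¹ • ∑ i, f i

/-- An abstract probability measure preserving `ℤ`-system: `A` plays the role of the bounded
measurable functions, `E` the integral, `tau n` composition with `T ^ n`, `ball` the functions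
bounded by `1`. -/
class PSys (A : Type) [CommRing A] [StarRing A] [Algebra ℂ A] [StarModule ℂ A] where
  E : A →ₗ[ℂ] ℂ
  E_one : E 1 = 1
  E_star : ∀ a, E (star a) = conj (E a)
  E_nonneg : ∀ a, 0 ≤ (E (star a * a)).re
  tau : ℤ → A →⋆ₐ[ℂ] A
  tau_zero : ∀ a, tau 0 a = a
  tau_add : ∀ m n a, tau (m + n) a = tau m (tau n a)
  E_tau : ∀ n a, E (tau n a) = E a
  ball : Set A
  one_mem : (1 : A) ∈ ball
  mul_mem : ∀ a ∈ ball, ∀ b ∈ ball, a * b ∈ ball
  star_mem : ∀ a ∈ ball, star a ∈ ball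
  tau_mem : ∀ n, ∀ a ∈ ball, tau n a ∈ ball
  smul_mem : ∀ (c : ℂ), ‖c‖ ≤ 1 → ∀ a ∈ ball, c • a ∈ ball
  avg_mem : ∀ {ι : Type} [Fintype ι] [Nonempty ι] (f : ι → A), (∀ i, f i ∈ ball) → avg f ∈ ball
  ball_le : ∀ f ∈ ball, ∀ a, (E (star (f * a) * (f * a))).re ≤ (E (star a * a)).re

variable {A : Type} [CommRing A] [StarRing A] [Algebra ℂ A] [StarModule ℂ A] [PSys A]

@[reducible] noncomputable def psCore : PreInnerProductSpace.Core ℂ A where
  inner a b := PSys.E (star a * b)
  conj_inner_symm a b := by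
    rw [← PSys.E_star]; simp [mul_comm]
  re_inner_nonneg a := PSys.E_nonneg a
  add_left a b c := by simp [add_mul]
  smul_left a b r := by simp

noncomputable instance instSNACG : SeminormedAddCommGroup A :=
  @InnerProductSpace.Core.toSeminormedAddCommGroup ℂ A _ _ _ psCore

noncomputable instance instIPS : InnerProductSpace ℂ A :=
  InnerProductSpace.ofCore psCore

theorem inner_def (a b : A) : ⟪a, b⟫_ℂ = PSys.E (star a * b) := rfl

theorem norm_sq_def (a : A) : ‖a‖ ^ 2 = (PSys.E (star a * a)).re := by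
  rw [← inner_self_eq_norm_sq (𝕜 := ℂ)]; rfl


/-! ## Parameters and stage laws -/

/-- `Q m = 4^(m+1)`: ratio of the scales and number of scales at level `m` -/
def Q (m : ℕ) : ℕ := 4 ^ (m + 1)

/-- window length of level `m` at scale `k` -/
def Hw (m k : ℕ) : ℕ := Q m ^ (k + 1)

/-- sample space of the stage with the levels `0, …, N-1`: scale path, residue bits, window variables -/
abbrev Om (N : ℕ) : Type :=
  ((m : Fin N) → Fin (Q m)) × (Fin N → Bool) × ((m : Fin N) → Fin (Hw m (Q m)))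

/-- the digit `d_m + 3 r_m` of a sample; `r_m` is uniform on `[0, Hw m (κ_m + 1))` -/
def dig {N : ℕ} (ω : Om N) (m : Fin N) : ℤ :=
  (if ω.2.1 m then 1 else 0) + 3 * (((ω.2.2 m : ℕ) % Hw m ((ω.1 m : ℕ) + 1) : ℕ) : ℤ)

/-- the random integer of the stage -/
def aval (L : ℕ → ℤ) {N : ℕ} (ω : Om N) : ℤ := ∑ m : Fin N, dig ω m * L m

/-- number of residue digits equal to one -/
def Wd {N : ℕ} (ω : Om N) : ℕ := ∑ m : Fin N, (if ω.2.1 m then 1 else 0)

/-- `psi = 1_{W = 0} - 1_{W = 3}`, `W = Wd mod 9` -/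
def psi {N : ℕ} (ω : Om N) : ℤ :=
  if Wd ω % 9 = 0 then 1 else if Wd ω % 9 = 3 then -1 else 0

/-- `e^{2 π i t}` -/
noncomputable def ee (t : ℝ) : ℂ := Complex.exp (2 * Real.pi * t * Complex.I)

/-- the levels actually used -/
def Lv : ℕ → ℤ
  | 0 => 1
  | (m + 1) => 3 * 4 ^ (m + 10) * (3 * (Hw m (Q m) : ℤ) + 2) * Lv m

end Pool.TC
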