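import Pool.Agent.Helper591.TC.Base

/-! # Averages of the stages -/

open scoped ComplexConjugate InnerProductSpace

namespace Pool.TC

section ifacedefs

variable {A : Type} [CommRing A] [StarRing A] [Algebra ℂ A] [StarModule ℂ A] [PSys A]

/-- the base average of stage `N` -/
noncomputable def baseAvg (L : ℕ → ℤ) (N : ℕ) (f₁ f₂ : A) : A :=
  avg fun ω : Om N => PSys.tau (aval L ω) f₁ * PSys.tau (2 * aval L ω) f₂

/-- average over residue bits (levels of `D`) and windows (levels of `I`) at the scale path `κ` -/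
noncomputable def AV (L : ℕ → ℤ) (I D : Finset ℕ) (κ : ℕ → ℕ) (f₁ f₂ : A) : A :=
  avg fun d : I → Bool => avg fun r : (m : I) → Fin (Hw m (κ m)) =>
    PSys.tau (∑ m : I, ((if (m : ℕ) ∈ D ∧ d m = true then 1 else 0) + 3 * ((r m : ℕ) : ℤ)) * L m) f₁ *
    PSys.tau (2 * ∑ m : I, ((if (m : ℕ) ∈ D ∧ d m = true then 1 else 0) + 3 * ((r m : ℕ) : ℤ)) * L m) f₂

/-- scale path of a sample, shifted by `j`, extended by `0` -/
def kp (I : Finset ℕ) (j : ℕ) (u : (m : I) → Fin (Q m)) (m : ℕ) : ℕ :=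
  if h : m ∈ I then (u ⟨m, h⟩ : ℕ) + 1 + j else 0

end ifacedefs

end Pool.TC
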