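import Pool.Agent.Helper591.TC.PartU
import Pool.Agent.Helper591.TC.IfaceDefs

/-! # Concrete windows, random scales, Theorem D -/

open scoped ComplexConjugate InnerProductSpace

namespace Pool.TC

instance instNeZeroQ (m : ℕ) : NeZero (Q m) := ⟨by unfold Q; positivity⟩

instance instNeZeroHw (m k : ℕ) : NeZero (Hw m k) := ⟨by unfold Hw Q; positivity⟩

/-- the levels of the finite set `I` -/
def LI (L : ℕ → ℤ) (I : Finset ℕ) : I → ℤ := fun m => L m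

/-- window variables of the levels in `I` with scales `g` -/
abbrev WI (I : Finset ℕ) (g : I → ℕ) : Type := (m : I) → Fin (Hw m (g m))

/-- the window law `3 ∑ r_m L_m` -/
def RI (L : ℕ → ℤ) (I : Finset ℕ) (g : I → ℕ) (r : WI I g) : ℤ :=
  ∑ m : I, 3 * ((r m : ℕ) : ℤ) * L m

/-- the levels of `I` below `n` -/
def DI (I : Finset ℕ) (n : ℕ) : Finset I := Finset.univ.filter fun m => (m : ℕ) < n

/-- scales of a sample, shifted by `j` -/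
def kI {I : Finset ℕ} (u : (m : I) → Fin (Q m)) (j : ℕ) (m : I) : ℕ := (u m : ℕ) + 1 + j

/-- the error of the environment with levels `≥ m₀` -/
noncomputable def om (m₀ : ℕ) : ℝ := 8 / 4 ^ m₀

/-- restriction of a family on `I'` to `I` -/
def rs {I I' : Finset ℕ} (hI : I ⊆ I') (g : I' → ℕ) : I → ℕ := fun m => g ⟨m, hI m.2⟩

/-- scales increased by `2` on `J` -/
def gsh {I' : Finset ℕ} (J : Finset ℕ) (g : I' → ℕ) : I' → ℕ :=
  fun m => if (m : ℕ) ∈ J then g m + 2 else g m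

section inst
variable {A : Type} [CommRing A] [StarRing A] [Algebra ℂ A] [StarModule ℂ A] [PSys A]

/-- `A`-energy: residue digits on the levels `< n`, windows on all levels of `I` -/
noncomputable def EA (L : ℕ → ℤ) (I : Finset ℕ) (g : I → ℕ) (n : ℕ) (f₂ : A) : ℝ :=
  BA (LI L I) (RI L I g) (RI L I fun m => g m - 1) (DI I n) f₂ 0 0

/-- `U`-energy -/
noncomputable def EU (L : ℕ → ℤ) (I : Finset ℕ) (g : I → ℕ) (n : ℕ) (f₂ : A) : ℝ :=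
  BU (LI L I) (RI L I fun m => g m - 1) (DI I n) f₂ 0 0

/-- `Ξ` -/
noncomputable def XI (L : ℕ → ℤ) (I : Finset ℕ) (g : I → ℕ) (n : ℕ) (f₁ f₂ : A) : ℝ :=
  Th (LI L I) (RI L I g) (RI L I fun m => g m - 1) (DI I n) f₁ f₂ 0 0


/-! #### avg_split -/


theorem avg_split {I J I' : Finset ℕ} (hI : I ⊆ I') (hJ : J ⊆ I') (hd : Disjoint I J)
    (hu : ∀ m ∈ I', m ∈ I ∨ m ∈ J) {κ : I' → Type} [∀ m, Fintype (κ m)] [∀ m, Nonempty (κ m)]
    {V : Type*} [AddCommGroup V] [Module ℝ V]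
    (F : ((m : I) → κ ⟨m, hI m.2⟩) → ((m : J) → κ ⟨m, hJ m.2⟩) → V) :
    avg (fun w : (m : I') → κ m => F (fun m => w ⟨m, hI m.2⟩) (fun m => w ⟨m, hJ m.2⟩)) =
      avg fun u => avg fun v => F u v := by
  classical
  let e : ((m : I') → κ m) ≃
      (((m : I) → κ ⟨m, hI m.2⟩) × ((m : J) → κ ⟨m, hJ m.2⟩)) :=
    { toFun := fun w => (fun m => w ⟨m, hI m.2⟩, fun m => w ⟨m, hJ m.2⟩)
      invFun := fun p m => if h : (m : ℕ) ∈ I then p.1 ⟨m, h⟩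
        else p.2 ⟨m, (hu m m.2).resolve_left h⟩
      left_inv := by
        intro w
        funext m
        by_cases h : (m : ℕ) ∈ I
        · simp only [dif_pos h]
        · simp only [dif_neg h]
      right_inv := by
        rintro ⟨p, q⟩
        refine Prod.ext ?_ ?_
        · funext m
          have h : ((⟨m, hI m.2⟩ : I') : ℕ) ∈ I := m.2
          simp only [dif_pos h]
        · funext m
          have h : ¬ ((⟨m, hJ m.2⟩ : I') : ℕ) ∈ I := fun h =>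
            Finset.disjoint_left.1 hd h m.2
          simp only [dif_neg h] }
  have h1 := avg_equiv e (fun p => F p.1 p.2)
  have h2 := avg_prod (fun p : ((m : I) → κ ⟨m, hI m.2⟩) × ((m : J) → κ ⟨m, hJ m.2⟩) =>
    F p.1 p.2)
  exact h1.trans h2



/-! #### RI_ni -/


theorem RI_ni_sumrange (H : ℕ) (ψ : ℤ → ℝ) (hψ : ∀ n, |ψ n| ≤ 1) (k : ℕ) :
    |∑ i ∈ Finset.range H, ψ ((i : ℤ) + k) - ∑ i ∈ Finset.range H, ψ (i : ℤ)| ≤ 2 * k := by
  induction k with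
  | zero => simp
  | succ k ih =>
    have h1 : ∑ i ∈ Finset.range H, ψ ((i : ℤ) + (k + 1 : ℕ)) -
        ∑ i ∈ Finset.range H, ψ ((i : ℤ) + k) = ψ ((H : ℤ) + k) - ψ ((0 : ℤ) + k) := by
      rw [← Finset.sum_sub_distrib]
      have := Finset.sum_range_sub (fun i : ℕ => ψ ((i : ℤ) + k)) H
      rw [← Int.natCast_zero, ← this]
      refine Finset.sum_congr rfl fun i _ => ?_
      congr 2
      push_cast
      ring
    have h2 : |ψ ((H : ℤ) + k) - ψ ((0 : ℤ) + k)| ≤ 2 := by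
      have a1 := hψ ((H : ℤ) + k)
      have a2 := hψ ((0 : ℤ) + k)
      have a3 := abs_sub (ψ ((H : ℤ) + k)) (ψ ((0 : ℤ) + k))
      linarith
    have h3 : ∑ i ∈ Finset.range H, ψ ((i : ℤ) + (k + 1 : ℕ)) - ∑ i ∈ Finset.range H, ψ (i : ℤ) =
        (∑ i ∈ Finset.range H, ψ ((i : ℤ) + (k + 1 : ℕ)) -
          ∑ i ∈ Finset.range H, ψ ((i : ℤ) + k)) +
        (∑ i ∈ Finset.range H, ψ ((i : ℤ) + k) - ∑ i ∈ Finset.range H, ψ (i : ℤ)) := by ring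
    rw [h3, h1]
    have h4 := abs_add_le (ψ ((H : ℤ) + k) - ψ ((0 : ℤ) + k))
      (∑ i ∈ Finset.range H, ψ ((i : ℤ) + k) - ∑ i ∈ Finset.range H, ψ (i : ℤ))
    push_cast
    linarith

theorem RI_ni_sumrangeZ (H : ℕ) (ψ : ℤ → ℝ) (hψ : ∀ n, |ψ n| ≤ 1) (k : ℤ) :
    |∑ i ∈ Finset.range H, ψ ((i : ℤ) + k) - ∑ i ∈ Finset.range H, ψ (i : ℤ)| ≤ 2 * |(k : ℝ)| := by
  rcases Int.eq_nat_or_neg k with ⟨n, rfl | rfl⟩
  · have := RI_ni_sumrange H ψ hψ n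
    simpa using this
  · have := RI_ni_sumrange H (fun m => ψ (m + -(n : ℤ))) (fun m => hψ _) n
    rw [abs_sub_comm]
    simpa using this

theorem RI_ni_avgFin (H : ℕ) (ψ : ℤ → ℝ) (hψ : ∀ n, |ψ n| ≤ 1) (k : ℤ) :
    |avg (fun i : Fin H => ψ (((i : ℕ) : ℤ) + k)) - avg (fun i : Fin H => ψ ((i : ℕ) : ℤ))| ≤
      2 * |(k : ℝ)| / H := by
  have h := RI_ni_sumrangeZ H ψ hψ k
  unfold avg
  rw [Finset.sum_range, Finset.sum_range] at h
  rw [← smul_sub, Fintype.card_fin, smul_eq_mul, abs_mul, abs_of_nonneg (by positivity),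
    div_eq_inv_mul]
  exact mul_le_mul_of_nonneg_left h (by positivity)

theorem RI_ni_split (I : Finset ℕ) (g : I → ℕ) (m₀ : I) (F : WI I g → ℝ) :
    avg F = avg fun y : ((j : {j // j ≠ m₀}) → Fin (Hw j (g j))) => avg fun a : Fin (Hw m₀ (g m₀)) =>
      F ((Equiv.piSplitAt m₀ (fun m : I => Fin (Hw m (g m)))).symm (a, y)) := by
  rw [← avg_equiv (Equiv.piSplitAt m₀ (fun m : I => Fin (Hw m (g m)))).symm F, avg_prod, avg_comm]

theorem RI_ni_RI (L : ℕ → ℤ) (I : Finset ℕ) (g : I → ℕ) (m₀ : I)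
    (y : (j : {j // j ≠ m₀}) → Fin (Hw j (g j))) (a : Fin (Hw m₀ (g m₀))) :
    RI L I g ((Equiv.piSplitAt m₀ (fun m : I => Fin (Hw m (g m)))).symm (a, y)) =
      3 * ((a : ℕ) : ℤ) * L m₀ + ∑ j : {j // j ≠ m₀}, 3 * ((y j : ℕ) : ℤ) * L j := by
  unfold RI
  rw [Fintype.sum_eq_add_sum_subtype_ne _ m₀]
  congr 1
  · simp
  · refine Finset.sum_congr rfl fun j _ => ?_
    have : (j : I) ≠ m₀ := j.2
    simp [this]

theorem RI_ni_single (L : ℕ → ℤ) (I : Finset ℕ) (g : I → ℕ) (m₀ : I) (e : ℤ) :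
    NI (RI L I g) (2 * |(e : ℝ)| / Hw m₀ (g m₀)) (3 * e * L m₀) := by
  intro φ hφ
  rw [RI_ni_split I g m₀ (fun r => φ (RI L I g r + 3 * e * L m₀)),
    RI_ni_split I g m₀ (fun r => φ (RI L I g r)), ← avg_sub]
  refine (abs_avg_le _).trans (avg_le _ _ fun y => ?_)
  simp only [RI_ni_RI]
  obtain ⟨B, hB⟩ : ∃ B : ℤ, B = ∑ j : {j // j ≠ m₀}, 3 * ((y j : ℕ) : ℤ) * L j := ⟨_, rfl⟩
  rw [← hB]
  have h := RI_ni_avgFin (Hw m₀ (g m₀)) (fun n => φ (3 * n * L m₀ + B)) (fun n => hφ _) e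
  have h1 : ∀ i : Fin (Hw m₀ (g m₀)), 3 * ((i : ℕ) : ℤ) * L m₀ + B + 3 * e * L m₀ =
      3 * (((i : ℕ) : ℤ) + e) * L m₀ + B := fun i => by ring
  simp only [h1]
  exact h

theorem RI_ni_finset (L : ℕ → ℤ) (I : Finset ℕ) (g : I → ℕ) (e : I → ℤ) (s : Finset I) :
    NI (RI L I g) (∑ m ∈ s, 2 * |(e m : ℝ)| / Hw m (g m)) (∑ m ∈ s, 3 * e m * L m) := by
  classical
  induction s using Finset.induction_on with
  | empty =>
    intro φ hφ
    simp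
  | insert a s ha ih =>
    rw [Finset.sum_insert ha, Finset.sum_insert ha]
    exact (RI_ni_single L I g a (e a)).add ih

theorem RI_ni (L : ℕ → ℤ) (I : Finset ℕ) (g : I → ℕ) (e : I → ℤ) :
    NI (RI L I g) (∑ m : I, 2 * |(e m : ℝ)| / Hw m (g m)) (∑ m : I, 3 * e m * L m) :=
  RI_ni_finset L I g e Finset.univ



/-! #### env_inst -/


omit A in
theorem env_inst_geo (m₀ K : ℕ) :
    ∑ m ∈ Finset.Ico m₀ (m₀ + K), (24 : ℝ) / 4 ^ (m + 1) = 8 / 4 ^ m₀ - 8 / 4 ^ (m₀ + K) := by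
  induction K with
  | zero => simp
  | succ K ih =>
    rw [← add_assoc, Finset.sum_Ico_succ_top (by omega), ih, pow_succ]
    have h : (4 : ℝ) ^ (m₀ + K) ≠ 0 := by positivity
    field_simp
    ring

omit A in
theorem env_inst_geo2 (I : Finset ℕ) (m₀ : ℕ) (hI : ∀ m ∈ I, m₀ ≤ m) :
    ∑ m : I, (24 : ℝ) / 4 ^ ((m : ℕ) + 1) ≤ om m₀ := by
  have h1 : ∑ m : I, (24 : ℝ) / 4 ^ ((m : ℕ) + 1) = ∑ m ∈ I, (24 : ℝ) / 4 ^ (m + 1) :=
    Finset.sum_coe_sort I (fun m => (24 : ℝ) / 4 ^ (m + 1))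
  rw [h1]
  have h2 : I ⊆ Finset.Ico m₀ (m₀ + (I.sup id + 1)) := by
    intro m hm
    have h3 : m ≤ I.sup id := Finset.le_sup (f := id) hm
    have h4 := hI m hm
    rw [Finset.mem_Ico]
    omega
  refine (Finset.sum_le_sum_of_subset_of_nonneg h2 (fun _ _ _ => by positivity)).trans ?_
  rw [env_inst_geo, om]
  have : (0 : ℝ) ≤ 8 / 4 ^ (m₀ + (I.sup id + 1)) := by positivity
  linarith

omit A in
theorem env_inst_Hw (m k : ℕ) : (4 : ℝ) ^ (m + 1) ≤ (Hw m k : ℝ) := by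
  have h : 4 ^ (m + 1) ≤ Hw m k := by
    unfold Hw Q
    calc 4 ^ (m + 1) = (4 ^ (m + 1)) ^ 1 := (pow_one _).symm
      _ ≤ (4 ^ (m + 1)) ^ (k + 1) := Nat.pow_le_pow_right (by positivity) (by omega)
  exact_mod_cast h

omit A in
theorem env_inst_NI3 (L : ℕ → ℤ) (I : Finset ℕ) (m₀ : ℕ) (hI : ∀ m ∈ I, m₀ ≤ m) (g : I → ℕ) :
    NI3 (LI L I) (RI L I g) (om m₀) := by
  intro e he
  have h1 := RI_ni L I g e
  have h2 : 3 * lin (LI L I) Finset.univ e = ∑ m : I, 3 * e m * L m := by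
    unfold lin LI
    rw [Finset.mul_sum]
    exact Finset.sum_congr rfl fun m _ => by ring
  rw [h2]
  refine h1.mono (le_trans (Finset.sum_le_sum fun m _ => ?_) (env_inst_geo2 I m₀ hI))
  have h3 : |(e m : ℝ)| ≤ 12 := by exact_mod_cast he m
  have h4 := env_inst_Hw (m : ℕ) (g m)
  have h5 : (0 : ℝ) < 4 ^ ((m : ℕ) + 1) := by positivity
  exact div_le_div₀ (by norm_num) (by linarith) h5 h4

theorem env_inst (L : ℕ → ℤ) (I : Finset ℕ) (m₀ : ℕ) (hI : ∀ m ∈ I, m₀ ≤ m) (g : I → ℕ)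
    (hg : ∀ m, 1 ≤ g m) :
    Env (LI L I) (RI L I g) (RI L I fun m => g m - 1) (om m₀) := by
  refine ⟨env_inst_NI3 L I m₀ hI g, env_inst_NI3 L I m₀ hI _, fun t => ?_⟩
  have h1 := RI_ni L I g (fun m => ((t m : ℕ) : ℤ))
  have h2 : RI L I (fun m => g m - 1) t = ∑ m : I, 3 * ((t m : ℕ) : ℤ) * L m := rfl
  rw [h2]
  refine h1.mono (le_trans (Finset.sum_le_sum fun m _ => ?_) (env_inst_geo2 I m₀ hI))
  have hgm := hg m
  have h3 : ((t m : ℕ) : ℝ) ≤ (Hw m (g m - 1) : ℝ) := by exact_mod_cast (t m).2.le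
  have h4 : (Hw (m : ℕ) (g m) : ℝ) = 4 ^ ((m : ℕ) + 1) * (Hw m (g m - 1) : ℝ) := by
    have : Hw (m : ℕ) (g m) = 4 ^ ((m : ℕ) + 1) * Hw m (g m - 1) := by
      unfold Hw Q
      have e : g m - 1 + 1 = g m := by omega
      rw [e, pow_succ, mul_comm]
    exact_mod_cast this
  have h5 : (0 : ℝ) < 4 ^ ((m : ℕ) + 1) := by positivity
  have h6 : (0 : ℝ) < (Hw (m : ℕ) (g m - 1) : ℝ) := lt_of_lt_of_le h5 (env_inst_Hw _ _)
  have h7 : |((((t m : ℕ) : ℤ)) : ℝ)| = ((t m : ℕ) : ℝ) := by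
    rw [Int.cast_natCast]
    exact abs_of_nonneg (Nat.cast_nonneg _)
  rw [h4, h7, div_le_div_iff₀ (by positivity) h5]
  have h8 : 0 ≤ (4 : ℝ) ^ ((m : ℕ) + 1) * (Hw (m : ℕ) (g m - 1) : ℝ) := by positivity
  nlinarith [mul_le_mul_of_nonneg_right h3 h5.le]



/-! #### BG_tr -/


theorem BG_tr_lin (L : ℕ → ℤ) {I J I' : Finset ℕ} (hI : I ⊆ I')
    (hu : ∀ m ∈ I', m ∈ I ∨ m ∈ J) (n : ℕ) (hn : ∀ m ∈ J, n ≤ m) (c : I' → ℤ) :
    lin (LI L I') (DI I' n) c = lin (LI L I) (DI I n) (fun m => c ⟨m, hI m.2⟩) := by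
  unfold lin DI
  symm
  refine Finset.sum_bij (fun (m : I) _ => (⟨(m : ℕ), hI m.2⟩ : I')) ?_ ?_ ?_ ?_
  · intro m hm
    rw [Finset.mem_filter] at hm ⊢
    exact ⟨Finset.mem_univ _, hm.2⟩
  · intro m _ m' _ h
    exact Subtype.ext (Subtype.mk_eq_mk.1 h)
  · intro m hm
    rw [Finset.mem_filter] at hm
    rcases hu m m.2 with h | h
    · exact ⟨⟨m, h⟩, by rw [Finset.mem_filter]; exact ⟨Finset.mem_univ _, hm.2⟩, rfl⟩
    · exact absurd hm.2 (not_lt.2 (hn m h))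
  · intro m _
    rfl

theorem BG_tr_RI (L : ℕ → ℤ) {I J I' : Finset ℕ} (hI : I ⊆ I') (hJ : J ⊆ I')
    (hd : Disjoint I J) (hu : ∀ m ∈ I', m ∈ I ∨ m ∈ J) (g : I' → ℕ) (w : WI I' g) :
    RI L I' g w = RI L I (rs hI g) (fun m => w ⟨m, hI m.2⟩) +
      RI L J (rs hJ g) (fun m => w ⟨m, hJ m.2⟩) := by
  classical
  obtain ⟨G, hG⟩ : ∃ G : ℕ → ℤ, ∀ (m : ℕ) (h : m ∈ I'), G m = 3 * ((w ⟨m, h⟩ : ℕ) : ℤ) * L m :=
    ⟨fun m => if h : m ∈ I' then 3 * ((w ⟨m, h⟩ : ℕ) : ℤ) * L m else 0, fun m h => by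
      beta_reduce; rw [dif_pos h]⟩
  have hII : I' = I ∪ J := by
    ext m
    rw [Finset.mem_union]
    exact ⟨hu m, fun h => h.elim (fun h => hI h) (fun h => hJ h)⟩
  have e1 : RI L I' g w = ∑ m ∈ I', G m := by
    rw [← Finset.sum_coe_sort]
    exact Finset.sum_congr rfl fun m _ => (hG m m.2).symm
  have e2 : RI L I (rs hI g) (fun m => w ⟨m, hI m.2⟩) = ∑ m ∈ I, G m := by
    rw [← Finset.sum_coe_sort]
    exact Finset.sum_congr rfl fun m _ => (hG m (hI m.2)).symm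
  have e3 : RI L J (rs hJ g) (fun m => w ⟨m, hJ m.2⟩) = ∑ m ∈ J, G m := by
    rw [← Finset.sum_coe_sort]
    exact Finset.sum_congr rfl fun m _ => (hG m (hJ m.2)).symm
  have e4 : ∑ m ∈ I', G m = ∑ m ∈ I, G m + ∑ m ∈ J, G m := by
    have h := Finset.sum_union (f := G) hd
    rw [← hII] at h
    exact h
  rw [e1, e2, e3, e4]

theorem BG_tr_single (L : ℕ → ℤ) {I J I' : Finset ℕ} (hI : I ⊆ I') (hJ : J ⊆ I')
    (hd : Disjoint I J) (hu : ∀ m ∈ I', m ∈ I ∨ m ∈ J) (g : I' → ℕ) (F : ℤ → ℝ) :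
    avg (fun w : WI I' g => F (RI L I' g w)) =
      avg (fun p : WI I (rs hI g) × WI J (rs hJ g) =>
        F (RI L I (rs hI g) p.1 + RI L J (rs hJ g) p.2)) := by
  have h1 : (fun w : WI I' g => F (RI L I' g w)) = fun w : WI I' g =>
      F (RI L I (rs hI g) (fun m => w ⟨m, hI m.2⟩) + RI L J (rs hJ g) (fun m => w ⟨m, hJ m.2⟩)) := by
    funext w
    rw [BG_tr_RI L hI hJ hd hu g w]
  rw [h1, avg_prod]
  exact avg_split hI hJ hd hu (κ := fun m => Fin (Hw m (g m)))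
    (fun u v => F (RI L I (rs hI g) u + RI L J (rs hJ g) v))

theorem BG_tr_double {ι ι' : Type} [Fintype ι] [Fintype ι'] (P : ι → ℤ) (P' : ι' → ℤ)
    (h : ∀ F : ℤ → ℝ, avg (fun w => F (P w)) = avg (fun w => F (P' w))) (F : ℤ → ℤ → ℝ) :
    avg (fun p : ι × ι => F (P p.1) (P p.2)) = avg (fun p : ι' × ι' => F (P' p.1) (P' p.2)) := by
  rw [avg_prod, avg_prod]
  have h1 : (fun i => avg fun j => F (P i) (P j)) = fun i => avg fun j => F (P i) (P' j) := by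
    funext i
    exact h (F (P i))
  calc avg (fun i => avg fun j => F (P i) (P j)) = avg (fun i => avg fun j => F (P i) (P' j)) := by
        rw [h1]
    _ = avg (fun i => avg fun j => F (P' i) (P' j)) := h (fun z => avg fun j => F z (P' j))

/-- more levels with windows = enlarging the window laws -/
theorem BG_tr (L : ℕ → ℤ) (a b : ℤ) (f : A) {I J I' : Finset ℕ} (hI : I ⊆ I') (hJ : J ⊆ I')
    (hd : Disjoint I J) (hu : ∀ m ∈ I', m ∈ I ∨ m ∈ J) (n : ℕ) (hn : ∀ m ∈ J, n ≤ m)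
    (g₁ g₂ : I' → ℕ) (x y : ℤ) :
    BG (LI L I') a b f (RI L I' g₁) (RI L I' g₂) (DI I' n) x y =
      BG (LI L I) a b f
        (fun p : WI I (rs hI g₁) × WI J (rs hJ g₁) =>
          RI L I (rs hI g₁) p.1 + RI L J (rs hJ g₁) p.2)
        (fun s : WI I (rs hI g₂) × WI J (rs hJ g₂) =>
          RI L I (rs hI g₂) s.1 + RI L J (rs hJ g₂) s.2) (DI I n) x y := by
  have hs := fun (g : I' → ℕ) => BG_tr_single L hI hJ hd hu g
  have hd1 := BG_tr_double (RI L I' g₁) (fun p : WI I (rs hI g₁) × WI J (rs hJ g₁) =>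
          RI L I (rs hI g₁) p.1 + RI L J (rs hJ g₁) p.2) (hs g₁)
  have hd2 := BG_tr_double (RI L I' g₂) (fun p : WI I (rs hI g₂) × WI J (rs hJ g₂) =>
          RI L I (rs hI g₂) p.1 + RI L J (rs hJ g₂) p.2) (hs g₂)
  have key : ∀ c1 c2 : ℤ,
      (avg fun p : WI I' g₁ × WI I' g₁ => avg fun s : WI I' g₂ × WI I' g₂ =>
        beta a b f (c1 + RI L I' g₁ p.2 - RI L I' g₁ p.1 + x)
          (c2 + RI L I' g₂ s.2 - RI L I' g₂ s.1 + y)) =
      avg fun p : (WI I (rs hI g₁) × WI J (rs hJ g₁)) × (WI I (rs hI g₁) × WI J (rs hJ g₁)) =>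
        avg fun s : (WI I (rs hI g₂) × WI J (rs hJ g₂)) × (WI I (rs hI g₂) × WI J (rs hJ g₂)) =>
        beta a b f (c1 + (RI L I (rs hI g₁) p.2.1 + RI L J (rs hJ g₁) p.2.2) -
            (RI L I (rs hI g₁) p.1.1 + RI L J (rs hJ g₁) p.1.2) + x)
          (c2 + (RI L I (rs hI g₂) s.2.1 + RI L J (rs hJ g₂) s.2.2) -
            (RI L I (rs hI g₂) s.1.1 + RI L J (rs hJ g₂) s.1.2) + y) := by
    intro c1 c2
    rw [show (fun p : WI I' g₁ × WI I' g₁ => avg fun s : WI I' g₂ × WI I' g₂ =>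
        beta a b f (c1 + RI L I' g₁ p.2 - RI L I' g₁ p.1 + x)
          (c2 + RI L I' g₂ s.2 - RI L I' g₂ s.1 + y)) = fun p : WI I' g₁ × WI I' g₁ =>
        avg fun s : (WI I (rs hI g₂) × WI J (rs hJ g₂)) × (WI I (rs hI g₂) × WI J (rs hJ g₂)) =>
        beta a b f (c1 + RI L I' g₁ p.2 - RI L I' g₁ p.1 + x)
          (c2 + (RI L I (rs hI g₂) s.2.1 + RI L J (rs hJ g₂) s.2.2) -
            (RI L I (rs hI g₂) s.1.1 + RI L J (rs hJ g₂) s.1.2) + y) from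
      funext fun p => hd2 (fun z1 z2 =>
        beta a b f (c1 + RI L I' g₁ p.2 - RI L I' g₁ p.1 + x) (c2 + z2 - z1 + y))]
    exact hd1 (fun z1 z2 => avg fun s : (WI I (rs hI g₂) × WI J (rs hJ g₂)) ×
        (WI I (rs hI g₂) × WI J (rs hJ g₂)) =>
        beta a b f (c1 + z2 - z1 + x)
          (c2 + (RI L I (rs hI g₂) s.2.1 + RI L J (rs hJ g₂) s.2.2) -
            (RI L I (rs hI g₂) s.1.1 + RI L J (rs hJ g₂) s.1.2) + y))
  unfold BG
  simp only [key, BG_tr_lin L hI hu n hn]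
  exact avg_inj (M := I') (M' := I)
    ⟨fun m => ⟨(m : ℕ), hI m.2⟩, fun m m' h => Subtype.ext (Subtype.mk_eq_mk.1 h)⟩
    (κ := fun _ => B4) (fun w =>
      avg fun p : (WI I (rs hI g₁) × WI J (rs hJ g₁)) × (WI I (rs hI g₁) × WI J (rs hJ g₁)) =>
        avg fun s : (WI I (rs hI g₂) × WI J (rs hJ g₂)) × (WI I (rs hI g₂) × WI J (rs hJ g₂)) =>
        beta a b f (lin (LI L I) (DI I n) (fun m => Pool.TC.hd (w m)) +
            (RI L I (rs hI g₁) p.2.1 + RI L J (rs hJ g₁) p.2.2) -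
            (RI L I (rs hI g₁) p.1.1 + RI L J (rs hJ g₁) p.1.2) + x)
          (lin (LI L I) (DI I n) (fun m => kd (w m)) +
            (RI L I (rs hI g₂) s.2.1 + RI L J (rs hJ g₂) s.2.2) -
            (RI L I (rs hI g₂) s.1.1 + RI L J (rs hJ g₂) s.1.2) + y))



/-! #### Th_tr -/


theorem Th_tr_lin (L : ℕ → ℤ) {I J I' : Finset ℕ} (hI : I ⊆ I')
    (hu : ∀ m ∈ I', m ∈ I ∨ m ∈ J) (n : ℕ) (hn : ∀ m ∈ J, n ≤ m) (c : I' → ℤ) :
    lin (LI L I') (DI I' n) c = lin (LI L I) (DI I n) (fun m => c ⟨m, hI m.2⟩) := by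
  unfold lin
  symm
  refine Finset.sum_bij (fun (m : I) _ => (⟨m, hI m.2⟩ : I')) ?_ ?_ ?_ ?_
  · intro m hm
    simp only [DI, Finset.mem_filter, Finset.mem_univ, true_and] at hm ⊢
    exact hm
  · intro m _ m' _ h
    have h1 := congrArg Subtype.val h
    exact Subtype.ext h1
  · intro m hm
    simp only [DI, Finset.mem_filter, Finset.mem_univ, true_and] at hm
    rcases hu m m.2 with h | h
    · exact ⟨⟨m, h⟩, by simp only [DI, Finset.mem_filter, Finset.mem_univ, true_and]; exact hm, rfl⟩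
    · exact absurd (hn m h) (not_le.2 hm)
  · intro m _
    rfl

theorem Th_tr_RI (L : ℕ → ℤ) {I J I' : Finset ℕ} (hI : I ⊆ I') (hJ : J ⊆ I')
    (hd : Disjoint I J) (hu : ∀ m ∈ I', m ∈ I ∨ m ∈ J) (g : I' → ℕ) (w : WI I' g) :
    RI L I' g w = RI L I (rs hI g) (fun m => w ⟨m, hI m.2⟩) +
      RI L J (rs hJ g) (fun m => w ⟨m, hJ m.2⟩) := by
  classical
  obtain ⟨G, hG⟩ : ∃ G : ℕ → ℤ, ∀ (m : ℕ) (h : m ∈ I'), G m = 3 * ((w ⟨m, h⟩ : ℕ) : ℤ) * L m :=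
    ⟨fun m => if h : m ∈ I' then 3 * ((w ⟨m, h⟩ : ℕ) : ℤ) * L m else 0,
      fun m h => by simp only [h, dite_true]⟩
  have hII : I' = I ∪ J := by
    ext m
    rw [Finset.mem_union]
    exact ⟨hu m, fun h => h.elim (fun h => hI h) (fun h => hJ h)⟩
  have e1 : RI L I' g w = ∑ m ∈ I', G m := by
    unfold RI
    rw [← Finset.sum_coe_sort I' G]
    exact Finset.sum_congr rfl fun m _ => (hG m m.2).symm
  have e2 : RI L I (rs hI g) (fun m => w ⟨m, hI m.2⟩) = ∑ m ∈ I, G m := by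
    unfold RI
    rw [← Finset.sum_coe_sort I G]
    exact Finset.sum_congr rfl fun m _ => (hG m (hI m.2)).symm
  have e3 : RI L J (rs hJ g) (fun m => w ⟨m, hJ m.2⟩) = ∑ m ∈ J, G m := by
    unfold RI
    rw [← Finset.sum_coe_sort J G]
    exact Finset.sum_congr rfl fun m _ => (hG m (hJ m.2)).symm
  rw [e1, e2, e3, ← Finset.sum_union hd]
  exact Finset.sum_congr hII fun _ _ => rfl

theorem Th_tr_one {I J I' : Finset ℕ} (hI : I ⊆ I') (hJ : J ⊆ I')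
    (hd : Disjoint I J) (hu : ∀ m ∈ I', m ∈ I ∨ m ∈ J) (g : I' → ℕ)
    {V : Type*} [AddCommGroup V] [Module ℝ V]
    (G : WI I (rs hI g) × WI J (rs hJ g) → V) :
    avg (fun w : WI I' g => G (fun m => w ⟨m, hI m.2⟩, fun m => w ⟨m, hJ m.2⟩)) = avg G := by
  rw [avg_prod]
  exact avg_split hI hJ hd hu (κ := fun m => Fin (Hw m (g m))) (fun u v => G (u, v))

theorem Th_tr_pair {I J I' : Finset ℕ} (hI : I ⊆ I') (hJ : J ⊆ I')
    (hd : Disjoint I J) (hu : ∀ m ∈ I', m ∈ I ∨ m ∈ J) (g : I' → ℕ)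
    {V : Type*} [AddCommGroup V] [Module ℝ V]
    (G : WI I (rs hI g) × WI J (rs hJ g) → WI I (rs hI g) × WI J (rs hJ g) → V) :
    avg (fun r : WI I' g × WI I' g =>
      G (fun m => r.1 ⟨m, hI m.2⟩, fun m => r.1 ⟨m, hJ m.2⟩)
        (fun m => r.2 ⟨m, hI m.2⟩, fun m => r.2 ⟨m, hJ m.2⟩)) =
      avg (fun r : (WI I (rs hI g) × WI J (rs hJ g)) × (WI I (rs hI g) × WI J (rs hJ g)) =>
        G r.1 r.2) := by
  rw [avg_prod, avg_prod]
  have h1 : (avg fun i : WI I' g => avg fun j : WI I' g =>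
      G (fun m => i ⟨m, hI m.2⟩, fun m => i ⟨m, hJ m.2⟩)
        (fun m => j ⟨m, hI m.2⟩, fun m => j ⟨m, hJ m.2⟩)) =
      avg fun i : WI I' g => avg fun j : WI I (rs hI g) × WI J (rs hJ g) =>
        G (fun m => i ⟨m, hI m.2⟩, fun m => i ⟨m, hJ m.2⟩) j := by
    congr 1
    funext i
    exact Th_tr_one hI hJ hd hu g (fun j => G (fun m => i ⟨m, hI m.2⟩, fun m => i ⟨m, hJ m.2⟩) j)
  exact h1.trans (Th_tr_one hI hJ hd hu g
    (fun p => avg fun j : WI I (rs hI g) × WI J (rs hJ g) => G p j))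

theorem Th_tr (L : ℕ → ℤ) (f₁ f₂ : A) {I J I' : Finset ℕ} (hI : I ⊆ I') (hJ : J ⊆ I')
    (hd : Disjoint I J) (hu : ∀ m ∈ I', m ∈ I ∨ m ∈ J) (n : ℕ) (hn : ∀ m ∈ J, n ≤ m)
    (g₁ g₂ : I' → ℕ) (ρ z : ℤ) :
    Th (LI L I') (RI L I' g₁) (RI L I' g₂) (DI I' n) f₁ f₂ ρ z =
      Th (LI L I)
        (fun p : WI I (rs hI g₁) × WI J (rs hJ g₁) =>
          RI L I (rs hI g₁) p.1 + RI L J (rs hJ g₁) p.2)
        (fun s : WI I (rs hI g₂) × WI J (rs hJ g₂) =>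
          RI L I (rs hI g₂) s.1 + RI L J (rs hJ g₂) s.2) (DI I n) f₁ f₂ ρ z := by
  unfold Th
  obtain ⟨R', hR'⟩ : ∃ R' : WI I (rs hI g₁) × WI J (rs hJ g₁) → ℤ,
    R' = fun p => RI L I (rs hI g₁) p.1 + RI L J (rs hJ g₁) p.2 := ⟨_, rfl⟩
  obtain ⟨T', hT'⟩ : ∃ T' : WI I (rs hI g₂) × WI J (rs hJ g₂) → ℤ,
    T' = fun p => RI L I (rs hI g₂) p.1 + RI L J (rs hJ g₂) p.2 := ⟨_, rfl⟩
  have hR1 : ∀ w : WI I' g₁, RI L I' g₁ w =
      R' (fun m => w ⟨m, hI m.2⟩, fun m => w ⟨m, hJ m.2⟩) := by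
    intro w
    rw [hR']
    exact Th_tr_RI L hI hJ hd hu g₁ w
  have hT1 : ∀ w : WI I' g₂, RI L I' g₂ w =
      T' (fun m => w ⟨m, hI m.2⟩, fun m => w ⟨m, hJ m.2⟩) := by
    intro w
    rw [hT']
    exact Th_tr_RI L hI hJ hd hu g₂ w
  rw [← hR', ← hT']
  -- the integrand
  obtain ⟨G, hG⟩ : ∃ G : (I → B4) → WI I (rs hI g₁) × WI J (rs hJ g₁) →
      WI I (rs hI g₁) × WI J (rs hJ g₁) → WI I (rs hI g₂) × WI J (rs hJ g₂) →
      WI I (rs hI g₂) × WI J (rs hJ g₂) → ℝ,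
    G = fun w r1 r2 p1 p2 => gam f₁ f₂
      (lin (LI L I) (DI I n) (fun m => io (w m).1 (w m).2.1 (w m).2.2.1
        - io (w m).1 (w m).2.1 (w m).2.2.2) + T' p1 - T' p2 + z)
      (lin (LI L I) (DI I n) (fun m => 2 * bz (w m).1 - bz (w m).2.1
        + 3 * io (w m).1 (w m).2.1 (w m).2.2.1) + 2 * R' r1 - R' r2 + 3 * T' p1 + ρ) := ⟨_, rfl⟩
  have hL : ∀ w : I' → B4, (avg fun r : WI I' g₁ × WI I' g₁ => avg fun p : WI I' g₂ × WI I' g₂ =>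
      gam f₁ f₂
      (lin (LI L I') (DI I' n) (fun m => io (w m).1 (w m).2.1 (w m).2.2.1
        - io (w m).1 (w m).2.1 (w m).2.2.2) + RI L I' g₂ p.1 - RI L I' g₂ p.2 + z)
      (lin (LI L I') (DI I' n) (fun m => 2 * bz (w m).1 - bz (w m).2.1
        + 3 * io (w m).1 (w m).2.1 (w m).2.2.1) + 2 * RI L I' g₁ r.1 - RI L I' g₁ r.2
        + 3 * RI L I' g₂ p.1 + ρ)) =
      avg fun r : (WI I (rs hI g₁) × WI J (rs hJ g₁)) × (WI I (rs hI g₁) × WI J (rs hJ g₁)) =>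
        avg fun p : (WI I (rs hI g₂) × WI J (rs hJ g₂)) × (WI I (rs hI g₂) × WI J (rs hJ g₂)) =>
          G (fun m => w ⟨m, hI m.2⟩) r.1 r.2 p.1 p.2 := by
    intro w
    rw [← Th_tr_pair hI hJ hd hu g₁ (fun r1 r2 =>
      avg fun p : (WI I (rs hI g₂) × WI J (rs hJ g₂)) × (WI I (rs hI g₂) × WI J (rs hJ g₂)) =>
          G (fun m => w ⟨m, hI m.2⟩) r1 r2 p.1 p.2)]
    congr 1
    funext r
    rw [← Th_tr_pair hI hJ hd hu g₂ (fun p1 p2 => G (fun m => w ⟨m, hI m.2⟩)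
      (fun m => r.1 ⟨m, hI m.2⟩, fun m => r.1 ⟨m, hJ m.2⟩)
      (fun m => r.2 ⟨m, hI m.2⟩, fun m => r.2 ⟨m, hJ m.2⟩) p1 p2)]
    congr 1
    funext p
    rw [hG]
    simp only [Th_tr_lin L hI hu n hn, hR1, hT1]
  simp only [hL]
  refine (avg_inj (⟨fun m : I => (⟨m, hI m.2⟩ : I'), fun m m' h =>
    Subtype.ext (by have h1 := congrArg (fun x : I' => (x : ℕ)) h; exact h1)⟩ : I ↪ I') (κ := fun _ => B4) (fun w =>
      avg fun r : (WI I (rs hI g₁) × WI J (rs hJ g₁)) × (WI I (rs hI g₁) × WI J (rs hJ g₁)) =>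
        avg fun p : (WI I (rs hI g₂) × WI J (rs hJ g₂)) × (WI I (rs hI g₂) × WI J (rs hJ g₂)) =>
          G w r.1 r.2 p.1 p.2)).trans ?_
  rw [hG]



/-! #### E_abs -/


theorem EA_abs_le (L : ℕ → ℤ) (I : Finset ℕ) (g : I → ℕ) (n : ℕ) (f₂ : A)
    (h₂ : f₂ ∈ PSys.ball) : |EA L I g n f₂| ≤ 1 := by
  unfold EA BA
  exact BG_abs_le _ _ _ _ _ _ _ h₂ _ _

theorem EU_abs_le (L : ℕ → ℤ) (I : Finset ℕ) (g : I → ℕ) (n : ℕ) (f₂ : A)
    (h₂ : f₂ ∈ PSys.ball) : |EU L I g n f₂| ≤ 1 := by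
  unfold EU BU
  exact BG_abs_le _ _ _ _ _ _ _ (PSys.star_mem _ h₂) _ _

theorem XI_abs_le (L : ℕ → ℤ) (I : Finset ℕ) (g : I → ℕ) (n : ℕ) (f₁ f₂ : A)
    (h₁ : f₁ ∈ PSys.ball) (h₂ : f₂ ∈ PSys.ball) : |XI L I g n f₁ f₂| ≤ 1 := by
  unfold XI
  exact Th_abs_le _ _ _ _ _ _ h₁ h₂ _ _



/-! #### E_mono_n -/


theorem E_mono_n_DI (I : Finset ℕ) (n n' : ℕ) (hn : n ≤ n') : DI I n ⊆ DI I n' := by
  intro m hm
  rw [DI, Finset.mem_filter] at hm ⊢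
  exact ⟨hm.1, lt_of_lt_of_le hm.2 hn⟩

theorem EA_mono_n (L : ℕ → ℤ) (I : Finset ℕ) (m₀ : ℕ) (hI : ∀ m ∈ I, m₀ ≤ m) (g : I → ℕ)
    (hg : ∀ m, 1 ≤ g m) (n n' : ℕ) (hn : n ≤ n') (f₂ : A) (h₂ : f₂ ∈ PSys.ball) :
    EA L I g n' f₂ ≤ EA L I g n f₂ + 2 * om m₀ := by
  have h1 := BG_mono (LI L I) 2 1 f₂ (RI L I g) (RI L I fun m => g m - 1) (DI I n) h₂ (om m₀)
    (env_inst L I m₀ hI g hg).r3 (DI I n' \ DI I n) Finset.disjoint_sdiff
  rw [Finset.union_sdiff_of_subset (E_mono_n_DI I n n' hn)] at h1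
  exact h1

theorem EU_mono_n (L : ℕ → ℤ) (I : Finset ℕ) (m₀ : ℕ) (hI : ∀ m ∈ I, m₀ ≤ m) (g : I → ℕ)
    (hg : ∀ m, 1 ≤ g m) (n n' : ℕ) (hn : n ≤ n') (f₂ : A) (h₂ : f₂ ∈ PSys.ball) :
    EU L I g n' f₂ ≤ EU L I g n f₂ + 2 * om m₀ := by
  have h1 := BG_mono (LI L I) 1 (-2) (star f₂) (RI L I fun m => g m - 1) (RI L I fun m => g m - 1)
    (DI I n) (PSys.star_mem _ h₂) (om m₀)
    (env_inst L I m₀ hI g hg).t3 (DI I n' \ DI I n) Finset.disjoint_sdiff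
  rw [Finset.union_sdiff_of_subset (E_mono_n_DI I n n' hn)] at h1
  exact h1



/-! #### E_mono_I -/


theorem EA_mono_I (L : ℕ → ℤ) {I J I' : Finset ℕ} (hI : I ⊆ I') (hJ : J ⊆ I')
    (hd : Disjoint I J) (hu : ∀ m ∈ I', m ∈ I ∨ m ∈ J) (m₀ : ℕ) (hm : ∀ m ∈ I', m₀ ≤ m)
    (n : ℕ) (hn : ∀ m ∈ J, n ≤ m) (g : I' → ℕ) (hg : ∀ m, 1 ≤ g m)
    (f₂ : A) (h₂ : f₂ ∈ PSys.ball) :
    EA L I' g n f₂ ≤ EA L I (rs hI g) n f₂ + 2 * om m₀ := by
  have henv := env_inst L I m₀ (fun m hm' => hm m (hI hm')) (rs hI g) (fun m => hg _)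
  have h1 := BG_tr L 2 1 f₂ hI hJ hd hu n hn g (fun m => g m - 1) 0 0
  have h2 := env_mono (LI L I) 2 1 f₂ (RI L I (rs hI g)) (RI L I (rs hI fun m => g m - 1)) (DI I n)
    h₂ (om m₀) henv.r3 (RI L J (rs hJ g)) (RI L J (rs hJ fun m => g m - 1))
  unfold EA BA
  rw [h1]
  exact h2

theorem EU_mono_I (L : ℕ → ℤ) {I J I' : Finset ℕ} (hI : I ⊆ I') (hJ : J ⊆ I')
    (hd : Disjoint I J) (hu : ∀ m ∈ I', m ∈ I ∨ m ∈ J) (m₀ : ℕ) (hm : ∀ m ∈ I', m₀ ≤ m)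
    (n : ℕ) (hn : ∀ m ∈ J, n ≤ m) (g : I' → ℕ) (hg : ∀ m, 1 ≤ g m)
    (f₂ : A) (h₂ : f₂ ∈ PSys.ball) :
    EU L I' g n f₂ ≤ EU L I (rs hI g) n f₂ + 2 * om m₀ := by
  have henv := env_inst L I m₀ (fun m hm' => hm m (hI hm')) (rs hI g) (fun m => hg _)
  have h1 := BG_tr L 1 (-2) (star f₂) hI hJ hd hu n hn (fun m => g m - 1) (fun m => g m - 1) 0 0
  have h2 := env_mono (LI L I) 1 (-2) (star f₂) (RI L I (rs hI fun m => g m - 1))
    (RI L I (rs hI fun m => g m - 1)) (DI I n)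
    (PSys.star_mem _ h₂) (om m₀) henv.t3 (RI L J (rs hJ fun m => g m - 1))
    (RI L J (rs hJ fun m => g m - 1))
  unfold EU BU
  rw [h1]
  exact h2



/-! #### XI_mono_n -/


theorem XI_mono_n (L : ℕ → ℤ) (I : Finset ℕ) (m₀ : ℕ) (hI : ∀ m ∈ I, m₀ ≤ m) (g : I → ℕ)
    (hg : ∀ m, 1 ≤ g m) (n n' : ℕ) (hn : n ≤ n') (f₁ f₂ : A)
    (h₁ : f₁ ∈ PSys.ball) (h₂ : f₂ ∈ PSys.ball) :
    XI L I g n' f₁ f₂ ≤ XI L I g n f₁ f₂ +
      40 * √(EU L I g n f₂ - EU L I g n' f₂ + 3 * om m₀) := by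
  have hom : 0 < om m₀ := by unfold om; positivity
  obtain ⟨ε, hε⟩ : ∃ ε : ℝ, ε = EU L I g n f₂ - EU L I g n' f₂ + 3 * om m₀ := ⟨_, rfl⟩
  rw [← hε]
  have hm := EU_mono_n L I m₀ hI g hg n n' hn f₂ h₂
  have hωε : om m₀ ≤ ε := by linarith
  rcases le_or_gt ε 1 with h1 | h1
  · have hun : DI I n' = DI I n ∪ (Finset.univ.filter fun m : I => n ≤ (m : ℕ) ∧ (m : ℕ) < n') := by
      ext m
      simp only [DI, Finset.mem_filter, Finset.mem_univ, true_and, Finset.mem_union]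
      omega
    have hdis : Disjoint (DI I n)
        (Finset.univ.filter fun m : I => n ≤ (m : ℕ) ∧ (m : ℕ) < n') := by
      rw [Finset.disjoint_left]
      intro m hm1 hm2
      simp only [DI, Finset.mem_filter, Finset.mem_univ, true_and] at hm1 hm2
      omega
    have hE := env_inst L I m₀ hI g hg
    have hX := X3 (LI L I) (RI L I g) (RI L I fun m => g m - 1) (DI I n) f₁ f₂ h₁ h₂ (om m₀) ε hE
      hωε h1 (Finset.univ.filter fun m : I => n ≤ (m : ℕ) ∧ (m : ℕ) < n') hdis (by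
        rw [← hun]
        have : EU L I g n f₂ - EU L I g n' f₂ ≤ ε := by linarith
        exact this)
    rw [← hun] at hX
    exact hX
  · have h2 := (abs_le.1 (XI_abs_le L I g n' f₁ f₂ h₁ h₂)).2
    have h3 : 0 ≤ XI L I g n f₁ f₂ := Th_nonneg (LI L I) (RI L I g) (RI L I fun m => g m - 1)
      (DI I n) f₁ f₂ 0
    have h4 : 1 ≤ √ε := by
      rw [show (1:ℝ) = √1 by simp]
      exact Real.sqrt_le_sqrt h1.le
    linarith



/-! #### XI_mono_I -/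


theorem XI_mono_I_geom (J : Finset ℕ) (m₀ : ℕ) (hJ : ∀ m ∈ J, m₀ ≤ m) :
    ∑ m ∈ J, (6 : ℝ) / 4 ^ (m + 1) ≤ om m₀ := by
  have h1 : ∀ N, m₀ ≤ N → ∑ m ∈ Finset.Ico m₀ N, (6 : ℝ) / 4 ^ (m + 1) =
      2 / 4 ^ m₀ - 2 / 4 ^ N := by
    intro N hN
    induction N, hN using Nat.le_induction with
    | base => simp
    | succ N hN ih =>
      rw [Finset.sum_Ico_succ_top hN, ih, pow_succ]
      field_simp
      ring
  obtain ⟨N, hN⟩ := J.exists_nat_subset_range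
  have h2 : J ⊆ Finset.Ico m₀ (max m₀ N) := by
    intro m hm
    rw [Finset.mem_Ico]
    exact ⟨hJ m hm, lt_of_lt_of_le (Finset.mem_range.1 (hN hm)) (le_max_right _ _)⟩
  have h3 : ∑ m ∈ J, (6 : ℝ) / 4 ^ (m + 1) ≤
      ∑ m ∈ Finset.Ico m₀ (max m₀ N), (6 : ℝ) / 4 ^ (m + 1) :=
    Finset.sum_le_sum_of_subset_of_nonneg h2 (fun _ _ _ => by positivity)
  have h4 : (0 : ℝ) < 2 / 4 ^ (max m₀ N) := by positivity
  have h5 : (2 : ℝ) / 4 ^ m₀ ≤ 8 / 4 ^ m₀ := by gcongr; norm_num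
  rw [h1 _ (le_max_left _ _)] at h3
  unfold om
  linarith

theorem XI_mono_I_ni (L : ℕ → ℤ) (J : Finset ℕ) (m₀ : ℕ) (hJm : ∀ m ∈ J, m₀ ≤ m)
    (g g' g'' : J → ℕ) (hg : ∀ m, 1 ≤ g m) (hg' : ∀ m, g' m = g m + 1)
    (hg'' : ∀ m, g'' m = g m - 1) (r r' : WI J g) (p : WI J g'') :
    NI (RI L J g') (om m₀) (2 * RI L J g r - RI L J g r' + 3 * RI L J g'' p) := by
  have h := RI_ni L J g' (fun m => 2 * ((r m : ℕ) : ℤ) - ((r' m : ℕ) : ℤ) + 3 * ((p m : ℕ) : ℤ))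
  have heq : ∑ m : J, 3 * (2 * ((r m : ℕ) : ℤ) - ((r' m : ℕ) : ℤ) + 3 * ((p m : ℕ) : ℤ)) * L m =
      2 * RI L J g r - RI L J g r' + 3 * RI L J g'' p := by
    unfold RI
    rw [Finset.mul_sum, Finset.mul_sum, ← Finset.sum_sub_distrib, ← Finset.sum_add_distrib]
    refine Finset.sum_congr rfl fun m _ => ?_
    ring
  rw [heq] at h
  refine h.mono ?_
  calc _ ≤ ∑ m : J, (6 : ℝ) / 4 ^ ((m : ℕ) + 1) := by
        refine Finset.sum_le_sum fun m _ => ?_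
        have hQ : Q (m : ℕ) = 4 ^ ((m : ℕ) + 1) := rfl
        have hH : Hw m (g' m) = 4 ^ ((m : ℕ) + 1) * Hw m (g m) := by
          rw [hg' m]; unfold Hw; rw [pow_succ, hQ, mul_comm]
        have hH2 : Hw m (g m) = 4 ^ ((m : ℕ) + 1) * Hw m (g'' m) := by
          rw [hg'' m]; unfold Hw
          rw [Nat.sub_add_cancel (hg m), pow_succ, hQ, mul_comm]
        have h4 : 4 * Hw m (g'' m) ≤ Hw m (g m) := by
          rw [hH2]
          refine Nat.mul_le_mul_right _ ?_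
          calc 4 = 4 ^ 1 := rfl
            _ ≤ 4 ^ ((m : ℕ) + 1) := Nat.pow_le_pow_right (by norm_num) (by omega)
        have hr := (r m).isLt
        have hr' := (r' m).isLt
        have hp := (p m).isLt
        have habs : |2 * ((r m : ℕ) : ℤ) - ((r' m : ℕ) : ℤ) + 3 * ((p m : ℕ) : ℤ)| ≤
            3 * (Hw m (g m) : ℤ) := by
          rw [abs_le]
          constructor <;> omega
        have habs' : |((2 * ((r m : ℕ) : ℤ) - ((r' m : ℕ) : ℤ) + 3 * ((p m : ℕ) : ℤ) : ℤ) : ℝ)| ≤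
            3 * (Hw m (g m) : ℝ) := by
          exact_mod_cast habs
        have hpos : (0 : ℝ) < Hw m (g m) := by
          have : 0 < Hw m (g m) := Nat.pos_of_ne_zero (NeZero.ne _)
          exact_mod_cast this
        have hHr : (Hw m (g' m) : ℝ) = 4 ^ ((m : ℕ) + 1) * Hw m (g m) := by
          exact_mod_cast hH
        rw [hHr, div_le_div_iff₀ (by positivity) (by positivity)]
        have h5 : (0 : ℝ) < 4 ^ ((m : ℕ) + 1) := by positivity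
        nlinarith [mul_le_mul_of_nonneg_right habs' h5.le]
    _ = ∑ m ∈ J, (6 : ℝ) / 4 ^ (m + 1) := Finset.sum_coe_sort J (fun m => (6 : ℝ) / 4 ^ (m + 1))
    _ ≤ om m₀ := XI_mono_I_geom J m₀ hJm

theorem XI_mono_I (L : ℕ → ℤ) {I J I' : Finset ℕ} (hI : I ⊆ I') (hJ : J ⊆ I')
    (hd : Disjoint I J) (hu : ∀ m ∈ I', m ∈ I ∨ m ∈ J) (m₀ : ℕ) (hm : ∀ m ∈ I', m₀ ≤ m)
    (n : ℕ) (hn : ∀ m ∈ J, n ≤ m) (g : I' → ℕ) (hg : ∀ m, 1 ≤ g m) (f₁ f₂ : A)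
    (h₁ : f₁ ∈ PSys.ball) (h₂ : f₂ ∈ PSys.ball) :
    XI L I' g n f₁ f₂ ≤ XI L I (rs hI g) n f₁ f₂ +
      √(40 * (EU L I (rs hI g) n f₂ - EU L I' (gsh J g) n f₂ + 6 * om m₀)) + 10 * om m₀ := by
  have hom : 0 ≤ om m₀ := by unfold om; positivity
  have hgs : ∀ m, 1 ≤ gsh J g m := by
    intro m
    unfold gsh
    split_ifs
    · omega
    · exact hg m
  have hrs : rs hI (gsh J g) = rs hI g := by
    funext m
    have : (m : ℕ) ∉ J := fun h => (Finset.disjoint_left.1 hd) m.2 h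
    unfold rs gsh
    rw [if_neg this]
  have hrs1 : rs hI (fun m => gsh J g m - 1) = fun m => rs hI g m - 1 := by
    funext m
    have h := congrFun hrs m
    show rs hI (gsh J g) m - 1 = rs hI g m - 1
    rw [h]
  have hEU := EU_mono_I L hI hJ hd hu m₀ hm n hn (gsh J g) hgs f₂ h₂
  rw [hrs] at hEU
  have hE : Env (LI L I) (RI L I (rs hI g)) (RI L I fun m => rs hI g m - 1) (om m₀) :=
    env_inst L I m₀ (fun m hmI => hm m (hI hmI)) (rs hI g) (fun m => hg _)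
  have hB := BG_tr L 1 (-2) (star f₂) hI hJ hd hu n hn (fun m => gsh J g m - 1)
    (fun m => gsh J g m - 1) 0 0
  rw [hrs1] at hB
  have hδ : ∀ (r r' : WI J (rs hJ g)) (p : WI J (rs hJ fun m => g m - 1)),
      Bc (LI L I) 1 (-2) (star f₂) (RI L I fun m => rs hI g m - 1)
        (RI L I fun m => rs hI g m - 1) (DI I n) 0 0 -
      Bc (LI L I) 1 (-2) (star f₂) (RI L I fun m => rs hI g m - 1)
        (RI L I fun m => rs hI g m - 1) (DI I n)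
        (2 * RI L J (rs hJ g) r - RI L J (rs hJ g) r' +
          3 * RI L J (rs hJ fun m => g m - 1) p) 0 ≤
      20 * ((EU L I (rs hI g) n f₂ - EU L I' (gsh J g) n f₂ + 2 * om m₀) + om m₀ + om m₀) := by
    intro r r' p
    refine env_lossB (LI L I) 1 (-2) (star f₂) (RI L I fun m => rs hI g m - 1)
      (RI L I fun m => rs hI g m - 1) (DI I n) (PSys.star_mem _ h₂) (om m₀) _ (om m₀)
      (by linarith) hE.t3 (RI L J (rs hJ fun m => gsh J g m - 1))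
      (RI L J (rs hJ fun m => gsh J g m - 1)) ?_ _ ?_
    · rw [← hB]
      have h1 : EU L I (rs hI g) n f₂ = BG (LI L I) 1 (-2) (star f₂)
        (RI L I fun m => rs hI g m - 1) (RI L I fun m => rs hI g m - 1) (DI I n) 0 0 := rfl
      have h2 : EU L I' (gsh J g) n f₂ = BG (LI L I') 1 (-2) (star f₂)
        (RI L I' fun m => gsh J g m - 1) (RI L I' fun m => gsh J g m - 1) (DI I' n) 0 0 := rfl
      rw [h1, h2]
      linarith
    · refine XI_mono_I_ni L J m₀ (fun m hmJ => hm m (hJ hmJ)) _ _ _ (fun m => hg _) ?_ ?_ r r' p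
      · intro m
        show gsh J g ⟨m, hJ m.2⟩ - 1 = g ⟨m, hJ m.2⟩ + 1
        unfold gsh
        rw [if_pos m.2]
        omega
      · intro m
        rfl
  have hT := Th_env_mono (LI L I) (RI L I (rs hI g)) (RI L I fun m => rs hI g m - 1) (DI I n)
    f₁ f₂ h₁ h₂ (om m₀) _ hE (RI L J (rs hJ g)) (RI L J (rs hJ fun m => g m - 1)) hδ
  have hX : XI L I' g n f₁ f₂ = Th (LI L I)
      (fun p : WI I (rs hI g) × WI J (rs hJ g) =>
          RI L I (rs hI g) p.1 + RI L J (rs hJ g) p.2)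
      (fun s : WI I (rs hI fun m => g m - 1) × WI J (rs hJ fun m => g m - 1) =>
          RI L I (rs hI fun m => g m - 1) s.1 + RI L J (rs hJ fun m => g m - 1) s.2)
      (DI I n) f₁ f₂ 0 0 := Th_tr L f₁ f₂ hI hJ hd hu n hn g (fun m => g m - 1) 0 0
  rw [hX]
  refine le_trans hT ?_
  have hsq : √(2 * (20 * ((EU L I (rs hI g) n f₂ - EU L I' (gsh J g) n f₂ + 2 * om m₀) +
      om m₀ + om m₀))) ≤
      √(40 * (EU L I (rs hI g) n f₂ - EU L I' (gsh J g) n f₂ + 6 * om m₀)) := by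
    apply Real.sqrt_le_sqrt
    linarith
  have hXI : XI L I (rs hI g) n f₁ f₂ = Th (LI L I) (RI L I (rs hI g))
    (RI L I fun m => rs hI g m - 1) (DI I n) f₁ f₂ 0 0 := rfl
  rw [hXI]
  linarith




/-! #### path_shift -/


theorem path_shift_sum (ψ : ℕ → ℝ) (K : ℕ) :
    ∑ k ∈ Finset.range K, (ψ (k + 1 + 2) - ψ (k + 1)) = ψ (K + 2) + ψ (K + 1) - ψ 2 - ψ 1 := by
  induction K with
  | zero => simp
  | succ K ih =>
    rw [Finset.sum_range_succ, ih]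
    have : K + 1 + 2 = K + 3 := by omega
    have h2 : K + 1 + 1 = K + 2 := by omega
    rw [h2]
    ring

theorem path_shift_one (ψ : ℕ → ℝ) (hψ : ∀ t, |ψ t| ≤ 1) (K : ℕ) (hK : 0 < K) :
    |avg (fun k : Fin K => ψ ((k : ℕ) + 1 + 2)) - avg (fun k : Fin K => ψ ((k : ℕ) + 1))| ≤ 4 / K := by
  rw [← avg_sub]
  have hK' : (0 : ℝ) < K := by exact_mod_cast hK
  unfold avg
  rw [Fintype.card_fin, smul_eq_mul, Fin.sum_univ_eq_sum_range (fun k => ψ (k + 1 + 2) - ψ (k + 1)) K,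
    path_shift_sum, abs_mul, abs_of_pos (by positivity : (0 : ℝ) < (K : ℝ)⁻¹), mul_comm,
    ← div_eq_mul_inv]
  refine div_le_div_of_nonneg_right ?_ hK'.le
  have h1 := abs_le.1 (hψ (K + 2))
  have h2 := abs_le.1 (hψ (K + 1))
  have h3 := abs_le.1 (hψ 2)
  have h4 := abs_le.1 (hψ 1)
  rw [abs_le]
  constructor <;> linarith [h1.1, h1.2, h2.1, h2.2, h3.1, h3.2, h4.1, h4.2]

theorem path_shift_coord {I' : Finset ℕ} (m₁ : I') (Φ : (I' → ℕ) → ℝ) (hΦ : ∀ g, |Φ g| ≤ 1) :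
    |avg (fun u : (m : I') → Fin (Q m) => Φ (fun m => if m = m₁ then (u m : ℕ) + 1 + 2 else (u m : ℕ) + 1)) -
      avg (fun u : (m : I') → Fin (Q m) => Φ (fun m => (u m : ℕ) + 1))| ≤ 4 / (Q m₁ : ℝ) := by
  classical
  have hQ : 0 < Q m₁ := by unfold Q; positivity
  have : ∀ m : ℕ, Nonempty (Fin (Q m)) := fun m => ⟨⟨0, by unfold Q; positivity⟩⟩
  let e := (Equiv.piSplitAt m₁ (fun m : I' => Fin (Q m))).symm
  -- the function of the value at `m₁` and the rest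
  let Ψ : ((j : {j : I' // j ≠ m₁}) → Fin (Q j)) → ℕ → ℝ := fun r t =>
    Φ (fun m => if h : m = m₁ then t else (r ⟨m, h⟩ : ℕ) + 1)
  have eA : avg (fun u : (m : I') → Fin (Q m) =>
      Φ (fun m => if m = m₁ then (u m : ℕ) + 1 + 2 else (u m : ℕ) + 1)) =
      avg fun r => avg fun k : Fin (Q m₁) => Ψ r ((k : ℕ) + 1 + 2) := by
    rw [← avg_equiv e, avg_prod, avg_comm]
    congr 1
    funext r
    congr 1
    funext k
    show Φ _ = Φ _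
    congr 1
    funext m
    by_cases h : m = m₁
    · subst h
      simp [e, Equiv.piSplitAt]
    · simp [e, Equiv.piSplitAt, h]
  have eB : avg (fun u : (m : I') → Fin (Q m) => Φ (fun m => (u m : ℕ) + 1)) =
      avg fun r => avg fun k : Fin (Q m₁) => Ψ r ((k : ℕ) + 1) := by
    rw [← avg_equiv e, avg_prod, avg_comm]
    congr 1
    funext r
    congr 1
    funext k
    show Φ _ = Φ _
    congr 1
    funext m
    by_cases h : m = m₁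
    · subst h
      simp [e, Equiv.piSplitAt]
    · simp [e, Equiv.piSplitAt, h]
  rw [eA, eB, ← avg_sub]
  refine (abs_avg_le _).trans (avg_le _ _ fun r => ?_)
  exact path_shift_one (Ψ r) (fun t => hΦ _) (Q m₁) hQ

theorem path_shift_geom (m₀ N : ℕ) (h : m₀ ≤ N) :
    ∑ m ∈ Finset.Ico m₀ N, (1 / 4 : ℝ) ^ m = (4 / 3) * ((1 / 4 : ℝ) ^ m₀ - (1 / 4 : ℝ) ^ N) := by
  induction N, h using Nat.le_induction with
  | base => simp
  | succ N h ih =>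
    rw [Finset.sum_Ico_succ_top h, ih, pow_succ]
    ring

theorem path_shift_tot {I' : Finset ℕ} (F : (I' → ℕ) → ℝ) (hF : ∀ g, |F g| ≤ 1) (D : Finset I') :
    |avg (fun u : (m : I') → Fin (Q m) => F (fun m => if m ∈ D then (u m : ℕ) + 1 + 2 else (u m : ℕ) + 1)) -
      avg (fun u : (m : I') → Fin (Q m) => F (fun m => (u m : ℕ) + 1))| ≤ ∑ m ∈ D, 4 / (Q m : ℝ) := by
  classical
  induction D using Finset.induction_on with
  | empty => simp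
  | insert m₁ D hm ih =>
    rw [Finset.sum_insert hm]
    have h := path_shift_coord m₁ (fun g => F (fun m => if m ∈ D then g m + 2 else g m))
      (fun g => hF _)
    have e1 : ∀ u : (m : I') → Fin (Q m),
        (fun m : I' => if m ∈ D then (if m = m₁ then (u m : ℕ) + 1 + 2 else (u m : ℕ) + 1) + 2
          else (if m = m₁ then (u m : ℕ) + 1 + 2 else (u m : ℕ) + 1)) =
        (fun m : I' => if m ∈ insert m₁ D then (u m : ℕ) + 1 + 2 else (u m : ℕ) + 1) := by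
      intro u
      funext m
      by_cases h1 : m = m₁
      · subst h1
        simp [hm]
      · simp [Finset.mem_insert, h1]
    simp only [e1] at h
    refine le_trans ?_ (add_le_add h ih)
    exact abs_sub_le _ _ _

theorem path_shift {I' : Finset ℕ} (J : Finset ℕ) (m₀ : ℕ) (hJ : ∀ m ∈ J, m₀ ≤ m)
    (F : (I' → ℕ) → ℝ) (hF : ∀ g, |F g| ≤ 1) :
    |avg (fun u : (m : I') → Fin (Q m) => F (gsh J (kI u 0))) -
      avg (fun u : (m : I') → Fin (Q m) => F (kI u 0))| ≤ om m₀ := by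
  classical
  set D : Finset I' := Finset.univ.filter (fun m : I' => (m : ℕ) ∈ J) with hD
  have h := path_shift_tot F hF D
  have e1 : ∀ u : (m : I') → Fin (Q m), gsh J (kI u 0) =
      fun m : I' => if m ∈ D then (u m : ℕ) + 1 + 2 else (u m : ℕ) + 1 := by
    intro u
    funext m
    have hmem : m ∈ D ↔ (m : ℕ) ∈ J := by simp [hD]
    unfold gsh kI
    by_cases h1 : (m : ℕ) ∈ J
    · rw [if_pos h1, if_pos (hmem.2 h1)]
    · rw [if_neg h1, if_neg (fun h2 => h1 (hmem.1 h2))]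
  have e2 : ∀ u : (m : I') → Fin (Q m), kI u 0 = fun m : I' => (u m : ℕ) + 1 := by
    intro u
    rfl
  have e1' : (fun u : (m : I') → Fin (Q m) => F (gsh J (kI u 0))) =
      fun u => F (fun m : I' => if m ∈ D then (u m : ℕ) + 1 + 2 else (u m : ℕ) + 1) := by
    funext u
    rw [e1 u]
  have e2' : (fun u : (m : I') → Fin (Q m) => F (kI u 0)) =
      fun u => F (fun m : I' => (u m : ℕ) + 1) := by
    funext u
    rw [e2 u]
  rw [e1', e2']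
  refine h.trans ?_
  have e3 : ∀ m : ℕ, 4 / (Q m : ℝ) = (1 / 4 : ℝ) ^ m := by
    intro m
    unfold Q
    push_cast
    rw [pow_succ, one_div, inv_pow]
    field_simp
  have e4 : ∑ m ∈ D, 4 / (Q m : ℝ) = ∑ n ∈ D.map (Function.Embedding.subtype _), (1 / 4 : ℝ) ^ n := by
    rw [Finset.sum_map]
    exact Finset.sum_congr rfl fun m _ => e3 m
  rw [e4]
  set S := D.map (Function.Embedding.subtype (fun x => x ∈ I')) with hS
  have hSJ : ∀ n ∈ S, m₀ ≤ n := by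
    intro n hn
    obtain ⟨m, hm, rfl⟩ := Finset.mem_map.1 hn
    exact hJ _ (Finset.mem_filter.1 hm).2
  have hsub : S ⊆ Finset.Ico m₀ (max m₀ (S.sup id + 1)) := by
    intro n hn
    rw [Finset.mem_Ico]
    refine ⟨hSJ n hn, ?_⟩
    have : n ≤ S.sup id := Finset.le_sup (f := id) hn
    omega
  refine (Finset.sum_le_sum_of_subset_of_nonneg hsub fun _ _ _ => by positivity).trans ?_
  rw [path_shift_geom _ _ (le_max_left _ _)]
  unfold om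
  have h5 : (0 : ℝ) ≤ (1 / 4 : ℝ) ^ (max m₀ (S.sup id + 1)) := by positivity
  have h6 : (8 : ℝ) / 4 ^ m₀ = 8 * (1 / 4 : ℝ) ^ m₀ := by
    rw [one_div, inv_pow]; rfl
  have h7 : (0 : ℝ) ≤ (1 / 4 : ℝ) ^ m₀ := by positivity
  rw [h6]
  linarith


/-- averages over the scale path, levels `[m₀, N)` -/
noncomputable def eA (L : ℕ → ℤ) (m₀ n N : ℕ) (f₂ : A) : ℝ :=
  avg fun u : (m : Finset.Ico m₀ N) → Fin (Q m) => EA L (Finset.Ico m₀ N) (kI u 0) n f₂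

noncomputable def eU (L : ℕ → ℤ) (m₀ n N : ℕ) (f₂ : A) : ℝ :=
  avg fun u : (m : Finset.Ico m₀ N) → Fin (Q m) => EU L (Finset.Ico m₀ N) (kI u 0) n f₂

noncomputable def eX (L : ℕ → ℤ) (m₀ n N : ℕ) (f₁ f₂ : A) : ℝ :=
  avg fun u : (m : Finset.Ico m₀ N) → Fin (Q m) => XI L (Finset.Ico m₀ N) (kI u 0) n f₁ f₂


/-! #### e_mono -/


theorem e_mono_core (EE : (I : Finset ℕ) → (I → ℕ) → ℕ → ℝ) (m₀ n n' N N' : ℕ) (hn : n ≤ n')
    (hnN : n ≤ N) (hm : m₀ ≤ N) (hN : N ≤ N')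
    (hEn : ∀ (I : Finset ℕ), (∀ m ∈ I, m₀ ≤ m) → ∀ g : I → ℕ, (∀ m, 1 ≤ g m) →
      EE I g n' ≤ EE I g n + 2 * om m₀)
    (hEI : ∀ (I J I' : Finset ℕ) (hI : I ⊆ I') (_ : J ⊆ I') (_ : Disjoint I J)
      (_ : ∀ m ∈ I', m ∈ I ∨ m ∈ J) (_ : ∀ m ∈ I', m₀ ≤ m) (_ : ∀ m ∈ J, n ≤ m)
      (g : I' → ℕ) (_ : ∀ m, 1 ≤ g m), EE I' g n ≤ EE I (rs hI g) n + 2 * om m₀) :
    (avg fun u : (m : Finset.Ico m₀ N') → Fin (Q m) => EE (Finset.Ico m₀ N') (kI u 0) n') ≤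
      (avg fun u : (m : Finset.Ico m₀ N) → Fin (Q m) => EE (Finset.Ico m₀ N) (kI u 0) n) +
        4 * om m₀ := by
  have hI : Finset.Ico m₀ N ⊆ Finset.Ico m₀ N' := Finset.Ico_subset_Ico le_rfl hN
  have hJ : Finset.Ico N N' ⊆ Finset.Ico m₀ N' := Finset.Ico_subset_Ico hm le_rfl
  have hd : Disjoint (Finset.Ico m₀ N) (Finset.Ico N N') := by
    rw [Finset.disjoint_left]
    intro m h1 h2
    rw [Finset.mem_Ico] at h1 h2
    omega
  have hu : ∀ m ∈ Finset.Ico m₀ N', m ∈ Finset.Ico m₀ N ∨ m ∈ Finset.Ico N N' := by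
    intro m h1
    rw [Finset.mem_Ico] at h1
    rw [Finset.mem_Ico, Finset.mem_Ico]
    omega
  have hm' : ∀ m ∈ Finset.Ico m₀ N', m₀ ≤ m := fun m h => (Finset.mem_Ico.1 h).1
  have hnJ : ∀ m ∈ Finset.Ico N N', n ≤ m := fun m h => hnN.trans (Finset.mem_Ico.1 h).1
  have hk : ∀ u : (m : Finset.Ico m₀ N') → Fin (Q m), ∀ m, 1 ≤ kI u 0 m := by
    intro u m
    unfold kI
    omega
  have h1 : (avg fun u : (m : Finset.Ico m₀ N') → Fin (Q m) =>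
      EE (Finset.Ico m₀ N') (kI u 0) n') ≤
      avg fun u : (m : Finset.Ico m₀ N') → Fin (Q m) =>
        (EE (Finset.Ico m₀ N) (rs hI (kI u 0)) n + 4 * om m₀) := by
    apply avg_mono
    intro u
    have h2 := hEn (Finset.Ico m₀ N') hm' (kI u 0) (hk u)
    have h3 := hEI _ _ _ hI hJ hd hu hm' hnJ (kI u 0) (hk u)
    linarith
  have h4 : (avg fun u : (m : Finset.Ico m₀ N') → Fin (Q m) =>
        (EE (Finset.Ico m₀ N) (rs hI (kI u 0)) n + 4 * om m₀)) =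
      (avg fun u : (m : Finset.Ico m₀ N') → Fin (Q m) =>
        EE (Finset.Ico m₀ N) (rs hI (kI u 0)) n) + 4 * om m₀ := by
    rw [avg_add, avg_const]
  have h5 : (avg fun u : (m : Finset.Ico m₀ N') → Fin (Q m) =>
        EE (Finset.Ico m₀ N) (rs hI (kI u 0)) n) =
      avg fun u : (m : Finset.Ico m₀ N) → Fin (Q m) => EE (Finset.Ico m₀ N) (kI u 0) n := by
    have h6 := avg_split hI hJ hd hu (κ := fun m => Fin (Q m))
      (fun (x : (m : Finset.Ico m₀ N) → Fin (Q m)) (_ : (m : Finset.Ico N N') → Fin (Q m)) =>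
        EE (Finset.Ico m₀ N) (kI x 0) n)
    refine h6.trans ?_
    congr 1
    funext x
    exact avg_const _
  rw [h4, h5] at h1
  exact h1

theorem eA_mono (L : ℕ → ℤ) (m₀ n n' N N' : ℕ) (hn : n ≤ n') (hnN : n ≤ N)
    (hm : m₀ ≤ N) (hN : N ≤ N') (f₂ : A) (h₂ : f₂ ∈ PSys.ball) :
    eA L m₀ n' N' f₂ ≤ eA L m₀ n N f₂ + 4 * om m₀ := by
  refine e_mono_core (fun I g n => EA L I g n f₂) m₀ n n' N N' hn hnN hm hN ?_ ?_
  · intro I hI g hg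
    exact EA_mono_n L I m₀ hI g hg n n' hn f₂ h₂
  · intro I J I' hI hJ hd hu hm hnJ g hg
    exact EA_mono_I L hI hJ hd hu m₀ hm n hnJ g hg f₂ h₂

theorem eU_mono (L : ℕ → ℤ) (m₀ n n' N N' : ℕ) (hn : n ≤ n') (hnN : n ≤ N)
    (hm : m₀ ≤ N) (hN : N ≤ N') (f₂ : A) (h₂ : f₂ ∈ PSys.ball) :
    eU L m₀ n' N' f₂ ≤ eU L m₀ n N f₂ + 4 * om m₀ := by
  refine e_mono_core (fun I g n => EU L I g n f₂) m₀ n n' N N' hn hnN hm hN ?_ ?_
  · intro I hI g hg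
    exact EU_mono_n L I m₀ hI g hg n n' hn f₂ h₂
  · intro I J I' hI hJ hd hu hm hnJ g hg
    exact EU_mono_I L hI hJ hd hu m₀ hm n hnJ g hg f₂ h₂



/-! #### eX_mono -/


theorem eX_mono_a (L : ℕ → ℤ) (m₀ n n' N' : ℕ) (hn : n ≤ n') (f₁ f₂ : A) (h₁ : f₁ ∈ PSys.ball)
    (h₂ : f₂ ∈ PSys.ball) :
    0 ≤ eU L m₀ n N' f₂ - eU L m₀ n' N' f₂ + 3 * om m₀ ∧
    eX L m₀ n' N' f₁ f₂ ≤ eX L m₀ n N' f₁ f₂ +
      40 * √(eU L m₀ n N' f₂ - eU L m₀ n' N' f₂ + 3 * om m₀) := by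
  have hom : 0 ≤ om m₀ := by unfold om; positivity
  have hI : ∀ m ∈ Finset.Ico m₀ N', m₀ ≤ m := fun m hm => (Finset.mem_Ico.1 hm).1
  have hg : ∀ (u : (m : Finset.Ico m₀ N') → Fin (Q m)) m, 1 ≤ kI u 0 m := fun u m => by
    unfold kI; omega
  have hpt := fun u : (m : Finset.Ico m₀ N') → Fin (Q m) =>
    XI_mono_n L (Finset.Ico m₀ N') m₀ hI (kI u 0) (hg u) n n' hn f₁ f₂ h₁ h₂
  have hnn := fun u : (m : Finset.Ico m₀ N') → Fin (Q m) =>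
    EU_mono_n L (Finset.Ico m₀ N') m₀ hI (kI u 0) (hg u) n n' hn f₂ h₂
  have e1 : avg (fun u : (m : Finset.Ico m₀ N') → Fin (Q m) =>
      EU L (Finset.Ico m₀ N') (kI u 0) n f₂ - EU L (Finset.Ico m₀ N') (kI u 0) n' f₂
        + 3 * om m₀) = eU L m₀ n N' f₂ - eU L m₀ n' N' f₂ + 3 * om m₀ := by
    rw [avg_add, avg_sub, avg_const]
    rfl
  have hin : ∀ u : (m : Finset.Ico m₀ N') → Fin (Q m), 0 ≤
      EU L (Finset.Ico m₀ N') (kI u 0) n f₂ - EU L (Finset.Ico m₀ N') (kI u 0) n' f₂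
        + 3 * om m₀ := fun u => by linarith [hnn u]
  constructor
  · rw [← e1]
    exact avg_nonneg _ hin
  · unfold eX
    refine (avg_mono _ _ hpt).trans ?_
    rw [avg_add, avg_mul_left, ← e1]
    have := avg_sqrt_le _ hin
    linarith

theorem eX_mono_rs {I J I' : Finset ℕ} (hI : I ⊆ I') (hJ : J ⊆ I') (hd : Disjoint I J)
    (hu : ∀ m ∈ I', m ∈ I ∨ m ∈ J) (G : (I → ℕ) → ℝ) :
    avg (fun u : (m : I') → Fin (Q m) => G (rs hI (kI u 0))) =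
      avg (fun u : (m : I) → Fin (Q m) => G (kI u 0)) := by
  have h := avg_split hI hJ hd hu (κ := fun m : I' => Fin (Q m))
    (fun (u : (m : I) → Fin (Q m)) (_ : (m : J) → Fin (Q m)) => G (kI u 0))
  refine Eq.trans h ?_
  congr 1
  funext u
  exact avg_const _

theorem eX_mono_b (L : ℕ → ℤ) (m₀ n N N' : ℕ) (hnN : n ≤ N)
    (hm : m₀ ≤ N) (hN : N ≤ N') (f₁ f₂ : A) (h₁ : f₁ ∈ PSys.ball)
    (h₂ : f₂ ∈ PSys.ball) :
    0 ≤ eU L m₀ n N f₂ - eU L m₀ n N' f₂ + 7 * om m₀ ∧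
    eX L m₀ n N' f₁ f₂ ≤ eX L m₀ n N f₁ f₂ +
      √(40 * (eU L m₀ n N f₂ - eU L m₀ n N' f₂ + 7 * om m₀)) + 10 * om m₀ := by
  have hom : 0 ≤ om m₀ := by unfold om; positivity
  have hI : Finset.Ico m₀ N ⊆ Finset.Ico m₀ N' := Finset.Ico_subset_Ico_right hN
  have hJ : Finset.Ico N N' ⊆ Finset.Ico m₀ N' := Finset.Ico_subset_Ico_left hm
  have hd : Disjoint (Finset.Ico m₀ N) (Finset.Ico N N') := by
    rw [Finset.disjoint_left]
    intro a ha hb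
    simp only [Finset.mem_Ico] at ha hb
    omega
  have hu : ∀ m ∈ Finset.Ico m₀ N', m ∈ Finset.Ico m₀ N ∨ m ∈ Finset.Ico N N' := by
    intro m h
    simp only [Finset.mem_Ico] at h ⊢
    omega
  have hm' : ∀ m ∈ Finset.Ico m₀ N', m₀ ≤ m := fun m hm => (Finset.mem_Ico.1 hm).1
  have hnJ : ∀ m ∈ Finset.Ico N N', n ≤ m := fun m h => hnN.trans (Finset.mem_Ico.1 h).1
  have hmJ : ∀ m ∈ Finset.Ico N N', m₀ ≤ m := fun m h => hm.trans (Finset.mem_Ico.1 h).1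
  have hg : ∀ (u : (m : Finset.Ico m₀ N') → Fin (Q m)) m, 1 ≤ kI u 0 m := fun u m => by
    unfold kI; omega
  have hg' : ∀ (u : (m : Finset.Ico m₀ N') → Fin (Q m)) m,
      1 ≤ gsh (Finset.Ico N N') (kI u 0) m := fun u m => by
    unfold gsh
    have := hg u m
    split_ifs <;> omega
  have hrs : ∀ (u : (m : Finset.Ico m₀ N') → Fin (Q m)),
      rs hI (gsh (Finset.Ico N N') (kI u 0)) = rs hI (kI u 0) := fun u => by
    funext m
    have hmm : (m : ℕ) ∉ Finset.Ico N N' := fun h => (Finset.disjoint_left.1 hd) m.2 h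
    unfold rs gsh
    exact if_neg hmm
  have hpt := fun u : (m : Finset.Ico m₀ N') → Fin (Q m) =>
    XI_mono_I L hI hJ hd hu m₀ hm' n hnJ (kI u 0) (hg u) f₁ f₂ h₁ h₂
  have hnn := fun u : (m : Finset.Ico m₀ N') → Fin (Q m) =>
    EU_mono_I L hI hJ hd hu m₀ hm' n hnJ (gsh (Finset.Ico N N') (kI u 0)) (hg' u) f₂ h₂
  have hin : ∀ u : (m : Finset.Ico m₀ N') → Fin (Q m), 0 ≤
      40 * (EU L (Finset.Ico m₀ N) (rs hI (kI u 0)) n f₂ -
        EU L (Finset.Ico m₀ N') (gsh (Finset.Ico N N') (kI u 0)) n f₂ + 6 * om m₀) := fun u => by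
    have := hnn u
    rw [hrs u] at this
    linarith
  have e1 : avg (fun u : (m : Finset.Ico m₀ N') → Fin (Q m) =>
      XI L (Finset.Ico m₀ N) (rs hI (kI u 0)) n f₁ f₂) = eX L m₀ n N f₁ f₂ :=
    eX_mono_rs hI hJ hd hu (fun g => XI L (Finset.Ico m₀ N) g n f₁ f₂)
  have e2 : avg (fun u : (m : Finset.Ico m₀ N') → Fin (Q m) =>
      EU L (Finset.Ico m₀ N) (rs hI (kI u 0)) n f₂) = eU L m₀ n N f₂ :=
    eX_mono_rs hI hJ hd hu (fun g => EU L (Finset.Ico m₀ N) g n f₂)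
  have e3 := path_shift (I' := Finset.Ico m₀ N') (Finset.Ico N N') m₀ hmJ
    (fun g => EU L (Finset.Ico m₀ N') g n f₂) (fun g => EU_abs_le L _ g n f₂ h₂)
  have e4 : avg (fun u : (m : Finset.Ico m₀ N') → Fin (Q m) =>
      EU L (Finset.Ico m₀ N') (kI u 0) n f₂) = eU L m₀ n N' f₂ := rfl
  rw [e4] at e3
  have e5 := (abs_le.1 e3).1
  have e6 : avg (fun u : (m : Finset.Ico m₀ N') → Fin (Q m) =>
      40 * (EU L (Finset.Ico m₀ N) (rs hI (kI u 0)) n f₂ -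
        EU L (Finset.Ico m₀ N') (gsh (Finset.Ico N N') (kI u 0)) n f₂ + 6 * om m₀)) =
      40 * (eU L m₀ n N f₂ - avg (fun u : (m : Finset.Ico m₀ N') → Fin (Q m) =>
        EU L (Finset.Ico m₀ N') (gsh (Finset.Ico N N') (kI u 0)) n f₂) + 6 * om m₀) := by
    rw [avg_mul_left, avg_add, avg_sub, avg_const, e2]
  have e7 : 0 ≤ 40 * (eU L m₀ n N f₂ - avg (fun u : (m : Finset.Ico m₀ N') → Fin (Q m) =>
        EU L (Finset.Ico m₀ N') (gsh (Finset.Ico N N') (kI u 0)) n f₂) + 6 * om m₀) := by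
    rw [← e6]
    exact avg_nonneg _ hin
  constructor
  · linarith
  · have e8 : eX L m₀ n N' f₁ f₂ ≤ avg (fun u : (m : Finset.Ico m₀ N') → Fin (Q m) =>
        XI L (Finset.Ico m₀ N) (rs hI (kI u 0)) n f₁ f₂ +
        √(40 * (EU L (Finset.Ico m₀ N) (rs hI (kI u 0)) n f₂ -
          EU L (Finset.Ico m₀ N') (gsh (Finset.Ico N N') (kI u 0)) n f₂ + 6 * om m₀))
          + 10 * om m₀) := avg_mono _ _ hpt
    rw [avg_add, avg_add, avg_const, e1] at e8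
    have e9 := avg_sqrt_le _ hin
    rw [e6] at e9
    have e10 : √(40 * (eU L m₀ n N f₂ - avg (fun u : (m : Finset.Ico m₀ N') → Fin (Q m) =>
        EU L (Finset.Ico m₀ N') (gsh (Finset.Ico N N') (kI u 0)) n f₂) + 6 * om m₀)) ≤
        √(40 * (eU L m₀ n N f₂ - eU L m₀ n N' f₂ + 7 * om m₀)) :=
      Real.sqrt_le_sqrt (by linarith)
    linarith

theorem eX_mono (L : ℕ → ℤ) (m₀ n n' N N' : ℕ) (hn : n ≤ n') (hnN : n ≤ N)
    (hm : m₀ ≤ N) (hN : N ≤ N') (f₁ f₂ : A) (h₁ : f₁ ∈ PSys.ball)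
    (h₂ : f₂ ∈ PSys.ball) (η : ℝ)
    (h1 : eU L m₀ n N f₂ - eU L m₀ n N' f₂ ≤ η) (h2 : eU L m₀ n N' f₂ - eU L m₀ n' N' f₂ ≤ η) :
    eX L m₀ n' N' f₁ f₂ ≤ eX L m₀ n N f₁ f₂ + 60 * √(η + 10 * om m₀) + 10 * om m₀ := by
  have hom : 0 ≤ om m₀ := by unfold om; positivity
  obtain ⟨ha0, ha⟩ := eX_mono_a L m₀ n n' N' hn f₁ f₂ h₁ h₂
  obtain ⟨hb0, hb⟩ := eX_mono_b L m₀ n N N' hnN hm hN f₁ f₂ h₁ h₂
  have hη : 0 ≤ η + 10 * om m₀ := by linarith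
  have s1 : √(eU L m₀ n N' f₂ - eU L m₀ n' N' f₂ + 3 * om m₀) ≤ √(η + 10 * om m₀) :=
    Real.sqrt_le_sqrt (by linarith)
  have s2 : √(40 * (eU L m₀ n N f₂ - eU L m₀ n N' f₂ + 7 * om m₀)) ≤ 7 * √(η + 10 * om m₀) := by
    rw [Real.sqrt_le_left (by positivity)]
    rw [mul_pow, Real.sq_sqrt hη]
    nlinarith
  have s3 : 0 ≤ √(η + 10 * om m₀) := Real.sqrt_nonneg _
  linarith



/-! #### inf_arg -/


theorem inf_arg (e : ℕ → ℕ → ℝ) (m₀ : ℕ) (η : ℝ) (hη : 0 < η) (hb : ∀ n N, |e n N| ≤ 1)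
    (hm : ∀ n n' N N', m₀ ≤ n → n ≤ n' → n' ≤ N' → n ≤ N → N ≤ N' → e n' N' ≤ e n N + η) :
    ∃ n₀ ≥ m₀, ∀ n ≥ n₀, ∀ N ≥ n, ∀ n' ≥ m₀, ∀ N' ≥ n', e n N - e n' N' ≤ 2 * η := by
  have hbdd : BddBelow {x : ℝ | ∃ n N : ℕ, m₀ ≤ n ∧ n ≤ N ∧ e n N = x} := by
    refine ⟨-1, ?_⟩
    rintro x ⟨n, N, _, _, rfl⟩
    exact (abs_le.1 (hb n N)).1
  have hne : {x : ℝ | ∃ n N : ℕ, m₀ ≤ n ∧ n ≤ N ∧ e n N = x}.Nonempty :=
    ⟨e m₀ m₀, m₀, m₀, le_rfl, le_rfl, rfl⟩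
  obtain ⟨x, ⟨n1, N1, h1, h2, rfl⟩, hx⟩ := exists_lt_of_csInf_lt hne
    (lt_add_of_pos_right (sInf {x : ℝ | ∃ n N : ℕ, m₀ ≤ n ∧ n ≤ N ∧ e n N = x}) hη)
  refine ⟨N1, h1.trans h2, ?_⟩
  intro n hn N hN n' hn' N' hN'
  have h3 := hm n1 n N1 N h1 (h2.trans hn) hN h2 (hn.trans hN)
  have h4 := csInf_le hbdd (show e n' N' ∈ {x : ℝ | ∃ n N : ℕ, m₀ ≤ n ∧ n ≤ N ∧ e n N = x} from
    ⟨n', N', hn', hN', rfl⟩)
  linarith



/-! #### losses -/


theorem losses_om_pos (m₀ : ℕ) : 0 < om m₀ := by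
  unfold om
  positivity

theorem losses_om_le (m₀ : ℕ) (hm : 1 ≤ m₀) : om m₀ ≤ 2 := by
  unfold om
  rw [div_le_iff₀ (by positivity)]
  have h : (4 : ℝ) ^ 1 ≤ 4 ^ m₀ := pow_le_pow_right₀ (by norm_num) hm
  linarith

theorem losses_sqrt (t : ℝ) (h0 : 0 < t) (h2 : t ≤ 2) :
    60 * √(8 * t + 10 * t) + 10 * t ≤ 1000 * √t := by
  have h1 : √(8 * t + 10 * t) ≤ 5 * √t := by
    rw [show (8 * t + 10 * t) = 18 * t by ring]
    calc √(18 * t) ≤ √(5 ^ 2 * t) := Real.sqrt_le_sqrt (by nlinarith)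
      _ = 5 * √t := by
        rw [Real.sqrt_mul (by positivity), Real.sqrt_sq (by norm_num)]
  have h3 : t = √t * √t := (Real.mul_self_sqrt h0.le).symm
  have h4 : √t ≤ 2 := by
    rw [Real.sqrt_le_left (by norm_num)]
    linarith
  have h5 : t ≤ 2 * √t := by
    nlinarith [Real.sqrt_nonneg t]
  have h6 := Real.sqrt_nonneg t
  linarith

theorem losses_avg {ι : Type} [Fintype ι] [Nonempty ι] (f : ι → ℝ) (h : ∀ i, |f i| ≤ 1) :
    |avg f| ≤ 1 :=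
  (abs_avg_le f).trans (avg_le _ 1 h)

/-- all three losses are small from some point on -/
theorem losses (L : ℕ → ℤ) (m₀ : ℕ) (hm : 1 ≤ m₀) (f₁ f₂ : A) (h₁ : f₁ ∈ PSys.ball)
    (h₂ : f₂ ∈ PSys.ball) :
    ∃ n₀ ≥ m₀, ∀ n ≥ n₀, ∀ N ≥ n,
      eA L m₀ n N f₂ - eA L m₀ N N f₂ ≤ 8 * om m₀ ∧
      eU L m₀ n N f₂ - eU L m₀ N N f₂ ≤ 8 * om m₀ ∧
      eX L m₀ n N f₁ f₂ - eX L m₀ N N f₁ f₂ ≤ 2000 * √(om m₀) := by
  have hpos := losses_om_pos m₀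
  have hle := losses_om_le m₀ hm
  obtain ⟨nA, hnA, hA⟩ := inf_arg (fun n N => eA L m₀ n N f₂) m₀ (4 * om m₀) (by linarith)
    (fun n N => losses_avg _ fun u => EA_abs_le L _ _ n f₂ h₂)
    (fun n n' N N' h1 h2 h3 h4 h5 => eA_mono L m₀ n n' N N' h2 h4 (h1.trans h4) h5 f₂ h₂)
  obtain ⟨nU, hnU, hU⟩ := inf_arg (fun n N => eU L m₀ n N f₂) m₀ (4 * om m₀) (by linarith)
    (fun n N => losses_avg _ fun u => EU_abs_le L _ _ n f₂ h₂)
    (fun n n' N N' h1 h2 h3 h4 h5 => eU_mono L m₀ n n' N N' h2 h4 (h1.trans h4) h5 f₂ h₂)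
  obtain ⟨nX, hnX, hX⟩ := inf_arg (fun n N => eX L m₀ n N f₁ f₂) nU (1000 * √(om m₀))
    (mul_pos (by norm_num) (Real.sqrt_pos.2 hpos))
    (fun n N => losses_avg _ fun u => XI_abs_le L _ _ n f₁ f₂ h₁ h₂)
    (by
      intro n n' N N' h1 h2 h3 h4 h5
      have e1 : eU L m₀ n N f₂ - eU L m₀ n N' f₂ ≤ 8 * om m₀ := by
        have := hU n h1 N h4 n (hnU.trans h1) N' (h4.trans h5)

        linarith
      have e2 : eU L m₀ n N' f₂ - eU L m₀ n' N' f₂ ≤ 8 * om m₀ := by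
        have := hU n h1 N' (h4.trans h5) n' ((hnU.trans h1).trans h2) N' h3

        linarith
      have e3 := eX_mono L m₀ n n' N N' h2 h4 ((hnU.trans h1).trans h4) h5 f₁ f₂ h₁ h₂
        (8 * om m₀) e1 e2
      have e4 := losses_sqrt (om m₀) hpos hle

      linarith)
  refine ⟨max nA (max nU nX), le_max_of_le_left hnA, ?_⟩
  intro n hn N hN
  have g1 : nA ≤ n := (le_max_left _ _).trans hn
  have g2 : nU ≤ n := ((le_max_left _ _).trans (le_max_right _ _)).trans hn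
  have g3 : nX ≤ n := ((le_max_right _ _).trans (le_max_right _ _)).trans hn
  refine ⟨?_, ?_, ?_⟩
  · have := hA n g1 N hN N ((hnA.trans g1).trans hN) N le_rfl

    linarith
  · have := hU n g2 N hN N ((hnU.trans g2).trans hN) N le_rfl

    linarith
  · have := hX n g3 N hN N (g2.trans hN) N le_rfl

    linarith



/-! #### AV_eq -/


noncomputable def AV_eq_g (L : ℕ → ℤ) (I D : Finset ℕ) (g : I → ℕ) (f₁ f₂ : A) : A :=
  avg fun d : I → Bool => avg fun r : (m : I) → Fin (Hw m (g m)) =>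
    PSys.tau (∑ m : I, ((if (m : ℕ) ∈ D ∧ d m = true then 1 else 0) + 3 * ((r m : ℕ) : ℤ)) * L m) f₁ *
    PSys.tau (2 * ∑ m : I, ((if (m : ℕ) ∈ D ∧ d m = true then 1 else 0) + 3 * ((r m : ℕ) : ℤ)) * L m) f₂

theorem AV_eq_sum (L : ℕ → ℤ) (m₀ n N : ℕ) (g : Finset.Ico m₀ N → ℕ)
    (d : Finset.Ico m₀ N → Bool) (r : (m : Finset.Ico m₀ N) → Fin (Hw m (g m))) :
    ∑ m : Finset.Ico m₀ N,
      ((if (m : ℕ) ∈ Finset.Ico m₀ n ∧ d m = true then 1 else 0) + 3 * ((r m : ℕ) : ℤ)) * L m =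
    lin (LI L (Finset.Ico m₀ N)) (DI (Finset.Ico m₀ N) n) (fun m => bz (d m)) +
      RI L (Finset.Ico m₀ N) g r + 0 := by
  unfold lin RI DI LI
  rw [add_zero, Finset.sum_filter, ← Finset.sum_add_distrib]
  refine Finset.sum_congr rfl fun m _ => ?_
  have hm := (Finset.mem_Ico.mp m.2).1
  by_cases h1 : (m : ℕ) < n
  · by_cases h2 : d m = true
    · simp [h1, h2, hm, bz]; ring
    · simp [h1, h2, bz]
  · simp [h1]

theorem AV_eq (L : ℕ → ℤ) (m₀ n N : ℕ) (u : (m : Finset.Ico m₀ N) → Fin (Q m)) (f₁ f₂ : A) :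
    AV L (Finset.Ico m₀ N) (Finset.Ico m₀ n) (kp _ 0 u) f₁ f₂ =
      vv (LI L (Finset.Ico m₀ N)) (RI L (Finset.Ico m₀ N) (kI u 0)) (DI (Finset.Ico m₀ N) n)
        f₁ f₂ 0 := by
  have h1 : AV L (Finset.Ico m₀ N) (Finset.Ico m₀ n) (kp _ 0 u) f₁ f₂ =
      AV_eq_g L (Finset.Ico m₀ N) (Finset.Ico m₀ n) (fun m => kp _ 0 u m) f₁ f₂ := rfl
  have h2 : (fun m : Finset.Ico m₀ N => kp (Finset.Ico m₀ N) 0 u m) = kI u 0 := by
    funext m
    unfold kp kI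
    rw [dif_pos m.2]
  rw [h1, h2]
  unfold AV_eq_g vv
  congr 1
  funext d
  congr 1
  funext r
  rw [AV_eq_sum L m₀ n N (kI u 0) d r]



/-! #### DC_path -/


/-- Theorem DC for a fixed scale path, without smallness assumption -/
theorem DC_path (L : ℕ → ℤ) (m₀ n N : ℕ) (hnN : n ≤ N) (f₁ f₂ : A) (h₁ : f₁ ∈ PSys.ball)
    (h₂ : f₂ ∈ PSys.ball) (u : (m : Finset.Ico m₀ N) → Fin (Q m)) (ε : ℝ) (hε : om m₀ ≤ ε)
    (hA : EA L (Finset.Ico m₀ N) (kI u 0) n f₂ - EA L (Finset.Ico m₀ N) (kI u 0) N f₂ ≤ ε)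
    (hU : EU L (Finset.Ico m₀ N) (kI u 0) n f₂ - EU L (Finset.Ico m₀ N) (kI u 0) N f₂ ≤ ε)
    (hX : XI L (Finset.Ico m₀ N) (kI u 0) n f₁ f₂ -
      XI L (Finset.Ico m₀ N) (kI u 0) N f₁ f₂ ≤ ε) :
    ‖AV L (Finset.Ico m₀ N) (Finset.Ico m₀ N) (kp _ 0 u) f₁ f₂ -
      AV L (Finset.Ico m₀ N) (Finset.Ico m₀ n) (kp _ 0 u) f₁ f₂‖ ^ 2 ≤ 1000 * √(√ε) := by
  rw [AV_eq L m₀ N N u f₁ f₂, AV_eq L m₀ n N u f₁ f₂]
  by_cases hε1 : ε ≤ 1
  · obtain ⟨R', hR'⟩ : ∃ R' : Finset (Finset.Ico m₀ N),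
        R' = Finset.univ.filter fun m : Finset.Ico m₀ N => n ≤ (m : ℕ) := ⟨_, rfl⟩
    have hU' : DI (Finset.Ico m₀ N) N = DI (Finset.Ico m₀ N) n ∪ R' := by
      ext m
      have hm := (Finset.mem_Ico.1 m.2).2
      rw [hR', Finset.mem_union]
      unfold DI
      simp only [Finset.mem_filter, Finset.mem_univ, true_and]
      constructor
      · intro _
        exact lt_or_ge _ _
      · intro _
        exact hm
    have hdis : Disjoint (DI (Finset.Ico m₀ N) n) R' := by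
      rw [hR']
      unfold DI
      rw [Finset.disjoint_filter]
      intro m _ h1 h2
      exact absurd h1 (not_lt.2 h2)
    have hE : Env (LI L (Finset.Ico m₀ N)) (RI L (Finset.Ico m₀ N) (kI u 0))
        (RI L (Finset.Ico m₀ N) fun m => kI u 0 m - 1) (om m₀) :=
      env_inst L (Finset.Ico m₀ N) m₀ (fun m hm => (Finset.mem_Ico.1 hm).1) (kI u 0)
        (fun m => by unfold kI; omega)
    rw [hU']
    unfold EA at hA
    unfold EU at hU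
    unfold XI at hX
    rw [hU'] at hA hU hX
    exact DC (LI L (Finset.Ico m₀ N)) (RI L (Finset.Ico m₀ N) (kI u 0))
      (RI L (Finset.Ico m₀ N) fun m => kI u 0 m - 1) (DI (Finset.Ico m₀ N) n) f₁ f₂ h₁ h₂
      (om m₀) ε hE hε hε1 R' hdis hA hU hX
  · push Not at hε1
    have a1 := norm_vv_le (LI L (Finset.Ico m₀ N)) (RI L (Finset.Ico m₀ N) (kI u 0))
      (DI (Finset.Ico m₀ N) N) f₁ f₂ h₁ h₂ 0
    have a2 := norm_vv_le (LI L (Finset.Ico m₀ N)) (RI L (Finset.Ico m₀ N) (kI u 0))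
      (DI (Finset.Ico m₀ N) n) f₁ f₂ h₁ h₂ 0
    have a3 := norm_sub_le
      (vv (LI L (Finset.Ico m₀ N)) (RI L (Finset.Ico m₀ N) (kI u 0))
        (DI (Finset.Ico m₀ N) N) f₁ f₂ 0)
      (vv (LI L (Finset.Ico m₀ N)) (RI L (Finset.Ico m₀ N) (kI u 0))
        (DI (Finset.Ico m₀ N) n) f₁ f₂ 0)
    have h1 : (1:ℝ) ≤ √(√ε) := by
      rw [Real.one_le_sqrt, Real.one_le_sqrt]
      exact hε1.le
    have a4 := norm_nonneg (vv (LI L (Finset.Ico m₀ N)) (RI L (Finset.Ico m₀ N) (kI u 0))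
        (DI (Finset.Ico m₀ N) N) f₁ f₂ 0 - vv (LI L (Finset.Ico m₀ N))
        (RI L (Finset.Ico m₀ N) (kI u 0)) (DI (Finset.Ico m₀ N) n) f₁ f₂ 0)
    generalize ‖vv (LI L (Finset.Ico m₀ N)) (RI L (Finset.Ico m₀ N) (kI u 0))
        (DI (Finset.Ico m₀ N) N) f₁ f₂ 0 - vv (LI L (Finset.Ico m₀ N))
        (RI L (Finset.Ico m₀ N) (kI u 0)) (DI (Finset.Ico m₀ N) n) f₁ f₂ 0‖ = x at a3 a4 ⊢
    have a5 : x ≤ 2 := by linarith
    nlinarith



/-! #### thmD -/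


theorem thmD_om_pos (m : ℕ) : 0 < om m := by unfold om; positivity

theorem thmD_lim (ε : ℝ) (hε : 0 < ε) : ∃ m₁ : ℕ, 1 ≤ m₁ ∧ ∀ m₀ ≥ m₁,
    1000 * √(√(22 * om m₀ + 2000 * √(om m₀) + 40 * √(11 * om m₀))) ≤ ε := by
  have h1 : Filter.Tendsto om Filter.atTop (nhds 0) := by
    have h2 : Filter.Tendsto (fun m : ℕ => 8 * (1 / 4 : ℝ) ^ m) Filter.atTop (nhds (8 * 0)) :=
      (tendsto_pow_atTop_nhds_zero_of_lt_one (by norm_num) (by norm_num)).const_mul 8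
    rw [mul_zero] at h2
    refine h2.congr fun m => ?_
    unfold om
    rw [one_div, inv_pow]
    rfl
  have hc : Continuous (fun x : ℝ => 1000 * √(√(22 * x + 2000 * √x + 40 * √(11 * x)))) := by
    fun_prop
  have h3 : Filter.Tendsto (fun m : ℕ =>
      1000 * √(√(22 * om m + 2000 * √(om m) + 40 * √(11 * om m)))) Filter.atTop (nhds 0) := by
    have h4 := (hc.tendsto 0).comp h1
    simpa [Function.comp_def] using h4
  have h5 := h3.eventually_le_const hε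
  obtain ⟨m₁, hm₁⟩ := Filter.eventually_atTop.1 h5
  exact ⟨max 1 m₁, le_max_left _ _, fun m₀ hm₀ => hm₁ m₀ (le_trans (le_max_right _ _) hm₀)⟩

/-- THEOREM D -/
theorem thmD (L : ℕ → ℤ) (ε : ℝ) (hε : 0 < ε) :
    ∃ m₁ : ℕ, ∀ m₀ ≥ m₁, ∀ f₁ ∈ (PSys.ball : Set A), ∀ f₂ ∈ (PSys.ball : Set A),
      ∃ n₀ ≥ m₀, ∀ n ≥ n₀, ∀ N ≥ n,
        (avg fun u : (m : Finset.Ico m₀ N) → Fin (Q m) =>
          ‖AV L (Finset.Ico m₀ N) (Finset.Ico m₀ N) (kp _ 0 u) f₁ f₂ -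
            AV L (Finset.Ico m₀ N) (Finset.Ico m₀ n) (kp _ 0 u) f₁ f₂‖ ^ 2) ≤ ε := by
  obtain ⟨m₁, h1m, hm₁⟩ := thmD_lim ε hε
  refine ⟨m₁, fun m₀ hm₀ f₁ h₁ f₂ h₂ => ?_⟩
  obtain ⟨n₀, hn₀, hloss⟩ := losses L m₀ (le_trans h1m hm₀) f₁ f₂ h₁ h₂
  refine ⟨n₀, hn₀, fun n hn N hN => le_trans ?_ (hm₁ m₀ hm₀)⟩
  obtain ⟨hlA, hlU, hlX⟩ := hloss n hn N hN
  have hom := thmD_om_pos m₀
  have hI : ∀ m ∈ Finset.Ico m₀ N, m₀ ≤ m := fun m hm => (Finset.mem_Ico.1 hm).1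
  -- the losses for one path
  let lA : ((m : Finset.Ico m₀ N) → Fin (Q m)) → ℝ := fun u =>
    EA L (Finset.Ico m₀ N) (kI u 0) n f₂ - EA L (Finset.Ico m₀ N) (kI u 0) N f₂
  let lU : ((m : Finset.Ico m₀ N) → Fin (Q m)) → ℝ := fun u =>
    EU L (Finset.Ico m₀ N) (kI u 0) n f₂ - EU L (Finset.Ico m₀ N) (kI u 0) N f₂
  let lX : ((m : Finset.Ico m₀ N) → Fin (Q m)) → ℝ := fun u =>
    XI L (Finset.Ico m₀ N) (kI u 0) n f₁ f₂ - XI L (Finset.Ico m₀ N) (kI u 0) N f₁ f₂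
  have hg : ∀ (u : (m : Finset.Ico m₀ N) → Fin (Q m)) m, 1 ≤ kI u 0 m := by
    intro u m; unfold kI; omega
  have bA : ∀ u, -(2 * om m₀) ≤ lA u := by
    intro u
    have := EA_mono_n L (Finset.Ico m₀ N) m₀ hI (kI u 0) (hg u) n N hN f₂ h₂
    change _ ≤ EA L (Finset.Ico m₀ N) (kI u 0) n f₂ - EA L (Finset.Ico m₀ N) (kI u 0) N f₂
    linarith
  have bU : ∀ u, -(2 * om m₀) ≤ lU u := by
    intro u
    have := EU_mono_n L (Finset.Ico m₀ N) m₀ hI (kI u 0) (hg u) n N hN f₂ h₂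
    change _ ≤ EU L (Finset.Ico m₀ N) (kI u 0) n f₂ - EU L (Finset.Ico m₀ N) (kI u 0) N f₂
    linarith
  have bX : ∀ u, 0 ≤ lX u + 40 * √(lU u + 3 * om m₀) := by
    intro u
    have := XI_mono_n L (Finset.Ico m₀ N) m₀ hI (kI u 0) (hg u) n N hN f₁ f₂ h₁ h₂
    change 0 ≤ XI L (Finset.Ico m₀ N) (kI u 0) n f₁ f₂ - XI L (Finset.Ico m₀ N) (kI u 0) N f₁ f₂ +
      40 * √(EU L (Finset.Ico m₀ N) (kI u 0) n f₂ - EU L (Finset.Ico m₀ N) (kI u 0) N f₂ + 3 * om m₀)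
    linarith
  let eps : ((m : Finset.Ico m₀ N) → Fin (Q m)) → ℝ := fun u =>
    (lA u + 3 * om m₀) + ((lU u + 3 * om m₀) + (lX u + 40 * √(lU u + 3 * om m₀)))
  have heps : ∀ u, om m₀ ≤ eps u := by
    intro u
    have h1 := bA u; have h2 := bU u; have h3 := bX u
    change _ ≤ (lA u + 3 * om m₀) + ((lU u + 3 * om m₀) + (lX u + 40 * √(lU u + 3 * om m₀)))
    linarith
  have hpath : ∀ u : (m : Finset.Ico m₀ N) → Fin (Q m),
      ‖AV L (Finset.Ico m₀ N) (Finset.Ico m₀ N) (kp _ 0 u) f₁ f₂ -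
            AV L (Finset.Ico m₀ N) (Finset.Ico m₀ n) (kp _ 0 u) f₁ f₂‖ ^ 2 ≤ 1000 * √(√(eps u)) := by
    intro u
    have h1 := bA u; have h2 := bU u; have h3 := bX u
    have h4 : 0 ≤ √(lU u + 3 * om m₀) := Real.sqrt_nonneg _
    apply DC_path L m₀ n N hN f₁ f₂ h₁ h₂ u (eps u) (heps u)
    · change lA u ≤ (lA u + 3 * om m₀) + ((lU u + 3 * om m₀) + (lX u + 40 * √(lU u + 3 * om m₀)))
      linarith
    · change lU u ≤ (lA u + 3 * om m₀) + ((lU u + 3 * om m₀) + (lX u + 40 * √(lU u + 3 * om m₀)))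
      linarith
    · change lX u ≤ (lA u + 3 * om m₀) + ((lU u + 3 * om m₀) + (lX u + 40 * √(lU u + 3 * om m₀)))
      linarith
  have aA : avg lA ≤ 8 * om m₀ := by
    refine le_trans (le_of_eq ?_) hlA
    unfold eA
    rw [← avg_sub]
  have aU : avg lU ≤ 8 * om m₀ := by
    refine le_trans (le_of_eq ?_) hlU
    unfold eU
    rw [← avg_sub]
  have aX : avg lX ≤ 2000 * √(om m₀) := by
    refine le_trans (le_of_eq ?_) hlX
    unfold eX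
    rw [← avg_sub]
  have aU3 : avg (fun u => lU u + 3 * om m₀) ≤ 11 * om m₀ := by
    rw [avg_add, avg_const]; linarith
  have aS : avg (fun u => √(lU u + 3 * om m₀)) ≤ √(11 * om m₀) := by
    refine le_trans (avg_sqrt_le _ fun u => ?_) (Real.sqrt_le_sqrt aU3)
    have := bU u
    linarith
  have aeps : avg eps ≤ 22 * om m₀ + 2000 * √(om m₀) + 40 * √(11 * om m₀) := by
    have e1 : avg eps = (avg lA + 3 * om m₀) + ((avg lU + 3 * om m₀) +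
        (avg lX + 40 * avg (fun u => √(lU u + 3 * om m₀)))) := by
      change avg (fun u => (lA u + 3 * om m₀) + ((lU u + 3 * om m₀) + (lX u + 40 * √(lU u + 3 * om m₀)))) = _
      rw [avg_add, avg_add, avg_add, avg_add, avg_add, avg_const, avg_mul_left]
    rw [e1]
    linarith
  calc (avg fun u : (m : Finset.Ico m₀ N) → Fin (Q m) =>
          ‖AV L (Finset.Ico m₀ N) (Finset.Ico m₀ N) (kp _ 0 u) f₁ f₂ -
            AV L (Finset.Ico m₀ N) (Finset.Ico m₀ n) (kp _ 0 u) f₁ f₂‖ ^ 2)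
      ≤ avg (fun u => 1000 * √(√(eps u))) := avg_mono _ _ hpath
    _ = 1000 * avg (fun u => √(√(eps u))) := avg_mul_left _ _
    _ ≤ 1000 * √(avg (fun u => √(eps u))) :=
        mul_le_mul_of_nonneg_left (avg_sqrt_le _ fun u => Real.sqrt_nonneg _) (by norm_num)
    _ ≤ 1000 * √(√(avg eps)) :=
        mul_le_mul_of_nonneg_left (Real.sqrt_le_sqrt (avg_sqrt_le _ fun u =>
          le_trans hom.le (heps u))) (by norm_num)
    _ ≤ 1000 * √(√(22 * om m₀ + 2000 * √(om m₀) + 40 * √(11 * om m₀))) :=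
        mul_le_mul_of_nonneg_left (Real.sqrt_le_sqrt (Real.sqrt_le_sqrt aeps)) (by norm_num)


end inst

end Pool.TC
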