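import Mathlib

open scoped ComplexConjugate InnerProductSpace
open MeasureTheory Filter Topology

namespace Pool.TC

/-- block starts -/
def NNs (ℓ : ℕ → List ℤ) : ℕ → ℕ
  | 0 => 0
  | (j+1) => NNs ℓ j + ((j+1)*(NNs ℓ j + (ℓ (j+1)).length) + 1) * (ℓ j).length

theorem NNs_succ (ℓ : ℕ → List ℤ) (hℓ : ∀ j, ℓ j ≠ []) (j : ℕ) :
    (j+1) * NNs ℓ j ≤ NNs ℓ (j+1) ∧ (j+1) * (ℓ (j+1)).length ≤ NNs ℓ (j+1) ∧
      NNs ℓ j + 1 ≤ NNs ℓ (j+1) := by
  have h1 : 1 ≤ (ℓ j).length := List.length_pos_iff.mpr (hℓ j)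
  have h2 : (j+1)*(NNs ℓ j + (ℓ (j+1)).length) + 1 ≤
      ((j+1)*(NNs ℓ j + (ℓ (j+1)).length) + 1) * (ℓ j).length :=
    Nat.le_mul_of_pos_right _ h1
  have h3 : (j+1)*(NNs ℓ j + (ℓ (j+1)).length) = (j+1) * NNs ℓ j + (j+1) * (ℓ (j+1)).length := by ring
  have h4 : NNs ℓ (j+1) = NNs ℓ j + ((j+1)*(NNs ℓ j + (ℓ (j+1)).length) + 1) * (ℓ j).length := rfl
  omega

theorem NNs_ge (ℓ : ℕ → List ℤ) (hℓ : ∀ j, ℓ j ≠ []) (j : ℕ) : j ≤ NNs ℓ j := by
  induction j with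
  | zero => simp
  | succ j ih => have := (NNs_succ ℓ hℓ j).2.2; omega

theorem NNs_mono (ℓ : ℕ → List ℤ) (hℓ : ∀ j, ℓ j ≠ []) : StrictMono (NNs ℓ) :=
  strictMono_nat_of_lt_succ (fun j => by have := (NNs_succ ℓ hℓ j).2.2; omega)

theorem blk (ℓ : ℕ → List ℤ) (hℓ : ∀ j, ℓ j ≠ []) : ∃ jx : ℕ → ℕ,
    (∀ n, NNs ℓ (jx n) ≤ n ∧ n < NNs ℓ (jx n + 1)) ∧
    (∀ n j, NNs ℓ j ≤ n → n < NNs ℓ (j+1) → jx n = j) := by
  have hex : ∀ n, ∃ j, n < NNs ℓ (j+1) := fun n => ⟨n, by have := NNs_ge ℓ hℓ (n+1); omega⟩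
  have hm := NNs_mono ℓ hℓ
  have key : ∀ n, ∃ j, NNs ℓ j ≤ n ∧ n < NNs ℓ (j+1) := by
    intro n
    classical
    refine ⟨Nat.find (hex n), ?_, Nat.find_spec (hex n)⟩
    rcases Nat.eq_zero_or_pos (Nat.find (hex n)) with h | h
    · rw [h]; simp [NNs]
    · by_contra hc
      push Not at hc
      have : n < NNs ℓ ((Nat.find (hex n) - 1) + 1) := by
        rw [Nat.sub_add_cancel h]; exact hc
      exact Nat.find_min (hex n) (by omega : Nat.find (hex n) - 1 < Nat.find (hex n)) this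
  choose jx hjx using key
  refine ⟨jx, hjx, ?_⟩
  intro n j h1 h2
  obtain ⟨a1, a2⟩ := hjx n
  have c1 : jx n < j + 1 := hm.lt_iff_lt.mp (lt_of_le_of_lt a1 h2)
  have c2 : j < jx n + 1 := hm.lt_iff_lt.mp (lt_of_le_of_lt h1 a2)
  omega

theorem sum_getD {V : Type} [AddCommMonoid V] (F : ℤ → V) (l : List ℤ) :
    ∑ i ∈ Finset.range l.length, F (l.getD i 0) = (l.map F).sum := by
  induction l with
  | nil => simp
  | cons x l ih =>
    rw [List.length_cons, Finset.sum_range_succ', List.map_cons, List.sum_cons, ← ih, add_comm]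
    simp

theorem sum_blk {V : Type} [AddCommMonoid V] (F : ℤ → V) (l : List ℤ) (hl : l ≠ []) (g : ℕ → ℤ)
    (q : ℕ) (hg : ∀ i < q * l.length, g i = l.getD (i % l.length) 0) :
    ∑ i ∈ Finset.range (q * l.length), F (g i) = q • (l.map F).sum := by
  induction q with
  | zero => simp
  | succ q ih =>
    have h1 : 0 < l.length := List.length_pos_iff.mpr hl
    rw [Nat.succ_mul, Finset.sum_range_add, ih (fun i hi => hg i (by rw [Nat.succ_mul]; omega)), succ_nsmul]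
    congr 1
    rw [← sum_getD F l]
    apply Finset.sum_congr rfl
    intro i hi
    have hi' := Finset.mem_range.mp hi
    rw [hg (q * l.length + i) (by rw [Nat.succ_mul]; omega), Nat.mul_add_mod_of_lt hi']

/-- SEQ: a sequence running through long blocks -/
theorem seq_exists (ℓ : ℕ → List ℤ) (hℓ : ∀ j, ℓ j ≠ []) :
    ∃ a : ℕ → ℤ, ∀ (V : Type) [SeminormedAddCommGroup V] [NormedSpace ℝ V] (F : ℤ → V) (C : ℝ),
      (∀ n, ‖F n‖ ≤ C) → ∀ y : V,
      (Tendsto (fun N : ℕ => (N : ℝ)⁻¹ • ∑ n ∈ Finset.Icc 1 N, F (a n)) atTop (𝓝 y) ↔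
       Tendsto (fun j : ℕ => ((ℓ j).length : ℝ)⁻¹ • ((ℓ j).map F).sum) atTop (𝓝 y)) := by
  obtain ⟨jx, hj1, hj2⟩ := blk ℓ hℓ
  refine ⟨fun n => (ℓ (jx (n-1))).getD (((n-1) - NNs ℓ (jx (n-1))) % (ℓ (jx (n-1))).length) 0, ?_⟩
  intro V _ _ F C hF y
  have hC : 0 ≤ C := (norm_nonneg _).trans (hF 0)
  obtain ⟨b, hb⟩ : ∃ b : ℕ → ℤ, ∀ n, b n = (ℓ (jx n)).getD ((n - NNs ℓ (jx n)) % (ℓ (jx n)).length) 0 :=
    ⟨_, fun n => rfl⟩
  simp only [← hb]
  obtain ⟨N, hN⟩ : ∃ N : ℕ → ℕ, N = NNs ℓ := ⟨_, rfl⟩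
  have hlen : ∀ j, 0 < (ℓ j).length := fun j => List.length_pos_iff.mpr (hℓ j)
  obtain ⟨S, hSd⟩ : ∃ S : ℕ → V, ∀ n, S n = ∑ i ∈ Finset.range n, F (b i) := ⟨_, fun n => rfl⟩
  have hS : ∀ n, ∑ i ∈ Finset.Icc 1 n, F (b (i-1)) = S n := by
    intro n
    rw [hSd]
    induction n with
    | zero => simp
    | succ n ih =>
      rw [Finset.sum_Icc_succ_top (by omega), ih, Finset.sum_range_succ]; simp
  simp only [hS]
  have hSb : ∀ n m, ‖S (n+m) - S n‖ ≤ C * m := by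
    intro n m
    rw [hSd, hSd, Finset.sum_range_add, add_sub_cancel_left]
    refine (norm_sum_le _ _).trans ?_
    refine (Finset.sum_le_card_nsmul _ _ C (fun i _ => hF _)).trans ?_
    simp [mul_comm]
  have hS0 : ∀ n, ‖S n‖ ≤ C * n := by
    intro n
    have := hSb 0 n
    rw [hSd 0] at this
    simpa using this
  obtain ⟨T, hT⟩ : ∃ T : ℕ → V, ∀ j, T j = ((ℓ j).map F).sum := ⟨_, fun j => rfl⟩
  have hTb : ∀ j, ‖T j‖ ≤ C * (ℓ j).length := by
    intro j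
    rw [hT, ← sum_getD F (ℓ j)]
    refine (norm_sum_le _ _).trans ?_
    refine (Finset.sum_le_card_nsmul _ _ C (fun i _ => hF _)).trans ?_
    simp [mul_comm]
  have hq : ∀ j q, N j + q * (ℓ j).length ≤ N (j+1) →
      S (N j + q * (ℓ j).length) = S (N j) + (q:ℝ) • T j := by
    intro j q hq
    rw [hSd, hSd, Finset.sum_range_add]
    congr 1
    rw [hT, sum_blk F (ℓ j) (hℓ j) (fun i => b (N j + i)) q, Nat.cast_smul_eq_nsmul]
    intro i hi
    have e : jx (N j + i) = j := hj2 _ _ (by rw [hN]; omega) (by rw [← hN]; omega)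
    show b (N j + i) = _
    rw [hb, e, ← hN, Nat.add_sub_cancel_left]
  simp only [← hT]
  obtain ⟨m, hm⟩ : ∃ m : ℕ → V, ∀ j, m j = ((ℓ j).length : ℝ)⁻¹ • T j := ⟨_, fun j => rfl⟩
  simp only [← hm]
  have hlR : ∀ j, (0:ℝ) < (ℓ j).length := fun j => by exact_mod_cast hlen j
  have hmT : ∀ j, T j = ((ℓ j).length : ℝ) • m j := by
    intro j; rw [hm, smul_inv_smul₀ (hlR j).ne']
  have hmb : ∀ j, ‖m j‖ ≤ C := by
    intro j
    rw [hm, norm_smul, norm_inv, Real.norm_of_nonneg (hlR j).le, inv_mul_le_iff₀ (hlR j)]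
    linarith [hTb j, mul_comm C ((ℓ j).length : ℝ)]
  obtain ⟨A1, hA1⟩ : ∃ A1 : ℕ → V, ∀ n, A1 n = (n:ℝ)⁻¹ • S n := ⟨_, fun n => rfl⟩
  simp only [← hA1]
  have hNs := NNs_succ ℓ hℓ
  rw [← hN] at hNs
  -- (A)
  have hA : ∀ j, ‖A1 (N (j+1)) - m j‖ ≤ 2*C/((j:ℝ)+1) := by
    intro j
    obtain ⟨h1, h2, h3⟩ := hNs j
    obtain ⟨r, hr⟩ : ∃ r : ℕ, N (j+1) = N j + r * (ℓ j).length := ⟨_, by rw [hN]; rfl⟩
    have e1 := hq j r (le_of_eq hr.symm)
    rw [← hr] at e1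
    have n1 : (0:ℝ) < N (j+1) := by exact_mod_cast (by omega : 0 < N (j+1))
    have hrR : (N (j+1) : ℝ) = N j + r * (ℓ j).length := by rw [hr]; push_cast; ring
    have e2 : A1 (N (j+1)) - m j = (N (j+1) : ℝ)⁻¹ • (S (N j) - (N j : ℝ) • m j) := by
      have : m j = (N (j+1) : ℝ)⁻¹ • ((N (j+1) : ℝ) • m j) := by rw [inv_smul_smul₀ n1.ne']
      rw [hA1, e1]
      conv_lhs => rw [this]
      rw [← smul_sub]
      congr 1
      rw [hmT j, smul_smul, hrR, add_smul]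
      abel
    rw [e2, norm_smul, norm_inv, Real.norm_of_nonneg n1.le]
    have b1 : ‖S (N j) - (N j : ℝ) • m j‖ ≤ 2 * C * N j := by
      refine (norm_sub_le _ _).trans ?_
      rw [norm_smul, Real.norm_of_nonneg (Nat.cast_nonneg _)]
      have := mul_le_mul_of_nonneg_left (hmb j) (Nat.cast_nonneg (N j) : (0:ℝ) ≤ N j)
      linarith [hS0 (N j)]
    have b2 : ((j:ℝ)+1) * N j ≤ N (j+1) := by exact_mod_cast h1
    rw [inv_mul_le_iff₀ n1, mul_div_assoc']
    rw [le_div_iff₀ (by positivity)]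
    have b3 := mul_le_mul_of_nonneg_left b2 (by positivity : 0 ≤ 2 * C)
    have b4 := mul_le_mul_of_nonneg_right b1 (by positivity : (0:ℝ) ≤ (j:ℝ)+1)
    linarith
  -- (B)
  have hB : ∀ n, 1 ≤ jx n → ‖A1 n - y‖ ≤ ‖A1 (N (jx n)) - y‖ + ‖m (jx n) - y‖ + (C + ‖y‖)/(jx n : ℝ) := by
    intro n hj
    obtain ⟨j, hjd⟩ : ∃ j, j = jx n := ⟨_, rfl⟩
    rw [← hjd] at hj ⊢
    obtain ⟨k1, k2⟩ := hj1 n
    rw [← hjd, ← hN] at k1 k2
    obtain ⟨q, hqd⟩ : ∃ q, q = (n - N j) / (ℓ j).length := ⟨_, rfl⟩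
    obtain ⟨s, hsd⟩ : ∃ s, s = (n - N j) % (ℓ j).length := ⟨_, rfl⟩
    have hs : s < (ℓ j).length := by rw [hsd]; exact Nat.mod_lt _ (hlen j)
    have hn : n = N j + q * (ℓ j).length + s := by
      have := Nat.div_add_mod (n - N j) (ℓ j).length
      rw [← hqd, ← hsd, mul_comm] at this
      omega
    have e1 := hq j q (by omega)
    have e2 := hSb (N j + q * (ℓ j).length) s
    rw [← hn, e1] at e2
    obtain ⟨E, hE⟩ : ∃ E : V, E = S n - (S (N j) + (q:ℝ) • T j) := ⟨_, rfl⟩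
    rw [← hE] at e2
    have hlj : j * (ℓ j).length ≤ N j := by
      obtain ⟨j', rfl⟩ : ∃ j', j = j' + 1 := ⟨j - 1, by omega⟩
      exact (hNs j').2.1
    have hN0 : 0 < N j := lt_of_lt_of_le (Nat.mul_pos hj (hlen j)) hlj
    have hN0R : (0:ℝ) < N j := by exact_mod_cast hN0
    have hnR : (0:ℝ) < n := by exact_mod_cast (by omega : 0 < n)
    have hnR2 : (n:ℝ) = N j + q * (ℓ j).length + s := by exact_mod_cast hn
    have e3 : A1 n - y = (n:ℝ)⁻¹ • ((N j : ℝ) • (A1 (N j) - y) + ((q:ℝ) * (ℓ j).length) • (m j - y) + (E - (s:ℝ) • y)) := by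
      have h1 : y = (n:ℝ)⁻¹ • ((n:ℝ) • y) := by rw [inv_smul_smul₀ hnR.ne']
      have h2 : (N j : ℝ) • A1 (N j) = S (N j) := by rw [hA1, smul_inv_smul₀ hN0R.ne']
      rw [smul_sub, smul_sub, h2, mul_smul, mul_smul, ← smul_sub, ← smul_sub]
      rw [smul_sub ((ℓ j).length : ℝ), ← hmT j, hE]
      conv_lhs => rw [h1]
      rw [hA1, ← smul_sub]
      congr 1
      rw [hnR2, add_smul, add_smul, mul_smul, smul_sub]
      abel
    have hjR : (0:ℝ) < j := by exact_mod_cast hj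
    have c1 : ‖(N j : ℝ) • (A1 (N j) - y) + ((q:ℝ) * (ℓ j).length) • (m j - y) + (E - (s:ℝ) • y)‖
        ≤ n * (‖A1 (N j) - y‖ + ‖m j - y‖ + (C + ‖y‖)/(j : ℝ)) := by
      refine (norm_add₃_le).trans ?_
      have u1 : ‖(N j : ℝ) • (A1 (N j) - y)‖ ≤ n * ‖A1 (N j) - y‖ := by
        rw [norm_smul, Real.norm_of_nonneg hN0R.le]
        apply mul_le_mul_of_nonneg_right _ (norm_nonneg _)
        exact_mod_cast k1
      have u2 : ‖((q:ℝ) * (ℓ j).length) • (m j - y)‖ ≤ n * ‖m j - y‖ := by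
        rw [norm_smul, Real.norm_of_nonneg (by positivity)]
        apply mul_le_mul_of_nonneg_right _ (norm_nonneg _)
        have : q * (ℓ j).length ≤ n := by omega
        exact_mod_cast this
      have u3 : ‖E - (s:ℝ) • y‖ ≤ n * ((C + ‖y‖)/(j : ℝ)) := by
        refine (norm_sub_le _ _).trans ?_
        rw [norm_smul, Real.norm_of_nonneg (Nat.cast_nonneg _)]
        have v1 : (j:ℝ) * s ≤ n := by
          have : j * s ≤ n := by
            calc j * s ≤ j * (ℓ j).length := Nat.mul_le_mul_left _ hs.le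
              _ ≤ N j := hlj
              _ ≤ n := k1
          exact_mod_cast this
        have v2 : (s:ℝ) ≤ n / j := by rw [le_div_iff₀ hjR]; linarith
        have v3 : ‖E‖ + s * ‖y‖ ≤ s * (C + ‖y‖) := by linarith
        refine v3.trans ?_
        have := mul_le_mul_of_nonneg_right v2 (by positivity : 0 ≤ C + ‖y‖)
        refine this.trans (le_of_eq ?_)
        field_simp
      linarith
    rw [e3, norm_smul, norm_inv, Real.norm_of_nonneg hnR.le, inv_mul_le_iff₀ hnR]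
    exact c1
  have hsm := NNs_mono ℓ hℓ
  rw [← hN] at hsm
  have hjx : Tendsto jx atTop atTop := by
    rw [tendsto_atTop]
    intro J
    filter_upwards [eventually_ge_atTop (N J)] with n hn
    have h1 := (hj1 n).2
    rw [← hN] at h1
    have := hsm.lt_iff_lt.mp (lt_of_le_of_lt hn h1)
    omega
  have hA0 : Tendsto (fun j : ℕ => 2*C/((j:ℝ)+1)) atTop (𝓝 0) := by
    have := (tendsto_one_div_add_atTop_nhds_zero_nat (𝕜 := ℝ)).const_mul (2*C)
    simp only [mul_zero] at this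
    refine this.congr (fun j => ?_)
    ring
  constructor
  · intro h
    rw [tendsto_iff_norm_sub_tendsto_zero] at h ⊢
    have h1 : Tendsto (fun j => ‖A1 (N (j+1)) - y‖) atTop (𝓝 0) :=
      h.comp (hsm.tendsto_atTop.comp (tendsto_add_atTop_nat 1))
    have h2 := h1.add hA0
    rw [add_zero] at h2
    refine squeeze_zero (fun _ => norm_nonneg _) (fun j => ?_) h2
    have e : m j - y = (A1 (N (j+1)) - y) - (A1 (N (j+1)) - m j) := by abel
    rw [e]
    refine (norm_sub_le _ _).trans ?_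
    linarith [hA j]
  · intro h
    rw [tendsto_iff_norm_sub_tendsto_zero] at h ⊢
    have h1 : Tendsto (fun j => ‖A1 (N j) - y‖) atTop (𝓝 0) := by
      rw [← tendsto_add_atTop_iff_nat 1]
      have h2 := hA0.add h
      rw [add_zero] at h2
      refine squeeze_zero (fun _ => norm_nonneg _) (fun j => ?_) h2
      have e : A1 (N (j+1)) - y = (A1 (N (j+1)) - m j) + (m j - y) := by abel
      rw [e]
      refine (norm_add_le _ _).trans ?_
      linarith [hA j]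
    have h3 : Tendsto (fun j : ℕ => (C + ‖y‖)/(j:ℝ)) atTop (𝓝 0) := tendsto_const_div_atTop_nhds_zero_nat _
    have h4 := ((h1.add h).add h3).comp hjx
    simp only [add_zero] at h4
    refine squeeze_zero' (Eventually.of_forall (fun _ => norm_nonneg _)) ?_ h4
    filter_upwards [hjx.eventually_ge_atTop 1] with n hn
    exact hB n hn

end Pool.TC
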