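import Pool.Agent.Helper591.TC.IfaceDefs
import Pool.Agent.Helper591.TC.Seq
import Pool.Agent.Helper306.TC.Corner
import Pool.Agent.Helper376.TC.Base2
import Pool.Agent.Helper591.TC.PartD
import Pool.Agent.Helper757.TCDecay
import Pool.Agent.Helper338.TC.FW

/-! # Top statements of the project MP_e53872_an -/

open scoped ComplexConjugate InnerProductSpace
open MeasureTheory Filter Topology

namespace Pool.TC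

/-- CORNER: one commuting system sees the exotic phase `e(Wd/9)` at all stages -/
theorem corner :
    ∃ (X : Type) (_ : MeasurableSpace X) (μ : Measure X) (_ : IsProbabilityMeasure μ)
      (T₁ T₂ : X ≃ᵐ X), MeasurePreserving T₁ μ μ ∧ MeasurePreserving T₂ μ μ ∧
      (∀ x, T₁ (T₂ x) = T₂ (T₁ x)) ∧
      ∃ f₀ f₁ f₂ : X → ℂ, Measurable f₀ ∧ Measurable f₁ ∧ Measurable f₂ ∧
        (∀ x, ‖f₀ x‖ ≤ 1) ∧ (∀ x, ‖f₁ x‖ ≤ 1) ∧ (∀ x, ‖f₂ x‖ ≤ 1) ∧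
        ∀ (N : ℕ) (ω : Om N),
          ‖(∫ x, f₀ x * f₁ (((T₁.toEquiv : Equiv.Perm X) ^ (aval Lv ω)) x) *
              f₂ (((T₂.toEquiv : Equiv.Perm X) ^ (aval Lv ω)) x) ∂μ) - ee (Wd ω / 9)‖ ≤ 1 / 20 :=
  Pool.Agent.Helper306.Corner.corner

variable {A : Type} [CommRing A] [StarRing A] [Algebra ℂ A] [StarModule ℂ A] [PSys A]

/-- FW: windows only. -/
theorem fw (L : ℕ → ℤ) (m₀ : ℕ) (f₁ f₂ : A) (h₁ : f₁ ∈ PSys.ball) (h₂ : f₂ ∈ PSys.ball)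
    (ε : ℝ) (hε : 0 < ε) :
    ∃ N₀, ∀ N ≥ N₀, ∀ N' ≥ N₀,
      ‖(avg fun u : (m : Finset.Ico m₀ N) → Fin (Q m) =>
          AV L (Finset.Ico m₀ N) ∅ (kp _ 0 u) f₁ f₂) -
        (avg fun u : (m : Finset.Ico m₀ N') → Fin (Q m) =>
          AV L (Finset.Ico m₀ N') ∅ (kp _ 0 u) f₁ f₂)‖ ≤ ε :=
  FWx.fw L m₀ f₁ f₂ h₁ h₂ ε hε

/-- BASE -/
theorem base_cauchy (L : ℕ → ℤ) (f₁ f₂ : A) (h₁ : f₁ ∈ PSys.ball) (h₂ : f₂ ∈ PSys.ball)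
    (ε : ℝ) (hε : 0 < ε) :
    ∃ N₀, ∀ N ≥ N₀, ∀ N' ≥ N₀, ‖baseAvg L N f₁ f₂ - baseAvg L N' f₁ f₂‖ ≤ ε :=
  base_cauchy_of L (fw L) (thmD L) f₁ f₂ h₁ h₂ ε hε

end Pool.TC
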