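import Pool.Agent.Helper591.TC.Base

/-! # Averages, laws of integers, basic facts on `PSys` -/

open scoped ComplexConjugate InnerProductSpace

namespace Pool.TC

section avgAPI
variable {ι κ : Type} [Fintype ι] [Fintype κ] {V : Type*} [AddCommGroup V] [Module ℝ V]


/-! #### basic1 -/


theorem avg_add (f g : ι → V) : avg (fun i => f i + g i) = avg f + avg g := by
  simp only [avg, Finset.sum_add_distrib, smul_add]

theorem avg_sub (f g : ι → V) : avg (fun i => f i - g i) = avg f - avg g := by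
  simp only [avg, Finset.sum_sub_distrib, smul_sub]

theorem avg_smul (c : ℝ) (f : ι → V) : avg (fun i => c • f i) = c • avg f := by
  simp only [avg, ← Finset.smul_sum]
  rw [smul_comm]

theorem avg_const [Nonempty ι] (v : V) : avg (fun _ : ι => v) = v := by
  simp only [avg, Finset.sum_const, Finset.card_univ]
  rw [← Nat.cast_smul_eq_nsmul ℝ, smul_smul, inv_mul_cancel₀, one_smul]
  exact Nat.cast_ne_zero.2 Fintype.card_ne_zero

theorem avg_comm (f : ι → κ → V) :
    avg (fun i => avg fun j => f i j) = avg fun j => avg fun i => f i j := by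
  simp only [avg, ← Finset.smul_sum]
  rw [Finset.sum_comm, smul_comm]

theorem avg_prod (f : ι × κ → V) : avg f = avg fun i => avg fun j => f (i, j) := by
  simp only [avg, ← Finset.smul_sum]
  rw [smul_smul, Fintype.sum_prod_type, Fintype.card_prod]
  congr 1
  push_cast
  rw [mul_inv]

theorem avg_equiv (e : ι ≃ κ) (f : κ → V) : avg (fun i => f (e i)) = avg f := by
  simp only [avg]
  rw [Equiv.sum_comp e f, Fintype.card_congr e]

theorem avg_fst [Nonempty κ] (f : ι → V) : avg (fun p : ι × κ => f p.1) = avg f := by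
  rw [avg_prod]
  congr 1
  funext i
  exact avg_const (f i)

theorem avg_snd [Nonempty ι] (f : κ → V) : avg (fun p : ι × κ => f p.2) = avg f := by
  rw [avg_prod]
  exact avg_const (avg f)

theorem avg_linear {W : Type*} [AddCommGroup W] [Module ℝ W] (T : V →ₗ[ℝ] W) (f : ι → V) :
    avg (fun i => T (f i)) = T (avg f) := by
  simp only [avg]
  rw [map_smul, map_sum]

theorem avg_mul_left (c : ℝ) (f : ι → ℝ) : avg (fun i => c * f i) = c * avg f :=
  avg_smul c f

theorem avg_mono (f g : ι → ℝ) (h : ∀ i, f i ≤ g i) : avg f ≤ avg g := by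
  simp only [avg, smul_eq_mul]
  exact mul_le_mul_of_nonneg_left (Finset.sum_le_sum fun i _ => h i) (by positivity)

theorem avg_nonneg (f : ι → ℝ) (h : ∀ i, 0 ≤ f i) : 0 ≤ avg f := by
  simp only [avg, smul_eq_mul]
  exact mul_nonneg (by positivity) (Finset.sum_nonneg fun i _ => h i)

theorem avg_le [Nonempty ι] (f : ι → ℝ) (C : ℝ) (h : ∀ i, f i ≤ C) : avg f ≤ C := by
  have h1 := avg_mono f (fun _ => C) h
  rwa [avg_const] at h1

theorem le_avg [Nonempty ι] (f : ι → ℝ) (C : ℝ) (h : ∀ i, C ≤ f i) : C ≤ avg f := by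
  have h1 := avg_mono (fun _ => C) f h
  rwa [avg_const] at h1

theorem abs_avg_le (f : ι → ℝ) : |avg f| ≤ avg fun i => |f i| := by
  simp only [avg, smul_eq_mul]
  rw [abs_mul, abs_of_nonneg (by positivity : (0 : ℝ) ≤ (Fintype.card ι : ℝ)⁻¹)]
  exact mul_le_mul_of_nonneg_left (Finset.abs_sum_le_sum_abs _ _) (by positivity)

theorem avg_sq_le [Nonempty ι] (f : ι → ℝ) : (avg f) ^ 2 ≤ avg fun i => f i ^ 2 := by
  simp only [avg, smul_eq_mul]
  have h1 : (∑ i, f i) ^ 2 ≤ (Fintype.card ι : ℝ) * ∑ i, f i ^ 2 := by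
    have := sq_sum_le_card_mul_sum_sq (s := (Finset.univ : Finset ι)) (f := f)
    simpa using this
  have hc : (0 : ℝ) < (Fintype.card ι : ℝ) := Nat.cast_pos.2 Fintype.card_pos
  rw [mul_pow]
  calc ((Fintype.card ι : ℝ)⁻¹) ^ 2 * (∑ i, f i) ^ 2
      ≤ ((Fintype.card ι : ℝ)⁻¹) ^ 2 * ((Fintype.card ι : ℝ) * ∑ i, f i ^ 2) :=
        mul_le_mul_of_nonneg_left h1 (by positivity)
    _ = (Fintype.card ι : ℝ)⁻¹ * ∑ i, f i ^ 2 := by
        field_simp

theorem avg_sqrt_le [Nonempty ι] (f : ι → ℝ) (h : ∀ i, 0 ≤ f i) :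
    avg (fun i => √(f i)) ≤ √(avg f) := by
  apply Real.le_sqrt_of_sq_le
  refine (avg_sq_le _).trans (le_of_eq ?_)
  congr 1
  funext i
  exact Real.sq_sqrt (h i)

theorem norm_avg_le {V : Type*} [SeminormedAddCommGroup V] [NormedSpace ℝ V] (f : ι → V) :
    ‖avg f‖ ≤ avg fun i => ‖f i‖ := by
  simp only [avg, smul_eq_mul]
  rw [norm_smul, Real.norm_eq_abs, abs_of_nonneg (by positivity : (0 : ℝ) ≤ (Fintype.card ι : ℝ)⁻¹)]
  exact mul_le_mul_of_nonneg_left (norm_sum_le _ _) (by positivity)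

theorem norm_avg_sq_le [Nonempty ι] {V : Type*} [SeminormedAddCommGroup V] [NormedSpace ℝ V]
    (f : ι → V) : ‖avg f‖ ^ 2 ≤ avg fun i => ‖f i‖ ^ 2 := by
  refine (pow_le_pow_left₀ (norm_nonneg _) (norm_avg_le f) 2).trans ?_
  exact avg_sq_le _


end avgAPI

section piAPI
variable {M : Type} [Fintype M] [DecidableEq M] {V : Type*} [AddCommGroup V] [Module ℝ V]


/-! #### avg_piecewise -/


theorem avg_piecewise {κ : M → Type} [∀ m, Fintype (κ m)] [∀ m, Nonempty (κ m)] (D : Finset M)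
    (F : ((m : M) → κ m) → V) :
    avg F = avg fun x : (m : M) → κ m => avg fun y : (m : M) → κ m => F (D.piecewise x y) := by
  have hinv : Function.Involutive (fun p : ((m : M) → κ m) × ((m : M) → κ m) =>
      (D.piecewise p.1 p.2, D.piecewise p.2 p.1)) := by
    rintro ⟨x, y⟩
    apply Prod.ext
    · funext m
      by_cases hm : m ∈ D <;> simp [Finset.piecewise, hm]
    · funext m
      by_cases hm : m ∈ D <;> simp [Finset.piecewise, hm]
  have h1 : avg (fun p : ((m : M) → κ m) × ((m : M) → κ m) => F p.1) = avg F := avg_fst F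
  have h2 := avg_equiv hinv.toPerm (fun p : ((m : M) → κ m) × ((m : M) → κ m) => F p.1)
  have h3 := avg_prod (fun p : ((m : M) → κ m) × ((m : M) → κ m) => F (D.piecewise p.1 p.2))
  rw [← h1, ← h2]
  exact h3



/-! #### avg_inj -/


/-- dummy coordinates may be dropped -/
theorem avg_inj {M' : Type} [Fintype M'] [DecidableEq M'] (i : M' ↪ M) {κ : M → Type}
    [∀ m, Fintype (κ m)] [∀ m, Nonempty (κ m)] (F : ((m : M') → κ (i m)) → V) :
    avg (fun w : (m : M) → κ m => F fun m => w (i m)) = avg F := by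
  classical
  let e1 := Equiv.piEquivPiSubtypeProd (fun m => m ∈ Set.range i) κ
  have s1 : avg (fun w : (m : M) → κ m => F fun m => w (i m)) =
      avg (fun q : ((m : {m // m ∈ Set.range i}) → κ m) × ((m : {m // m ∉ Set.range i}) → κ m) =>
        F (fun m => q.1 ⟨i m, ⟨m, rfl⟩⟩)) :=
    avg_equiv e1 (fun q : ((m : {m // m ∈ Set.range i}) → κ m) ×
      ((m : {m // m ∉ Set.range i}) → κ m) => F (fun m => q.1 ⟨i m, ⟨m, rfl⟩⟩))
  have s2 := avg_fst (κ := (m : {m // m ∉ Set.range i}) → κ m)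
    (fun a : ((m : {m // m ∈ Set.range i}) → κ m) => F (fun m => a ⟨i m, ⟨m, rfl⟩⟩))
  have s3 : avg (fun a : ((m : {m // m ∈ Set.range i}) → κ m) =>
      F (fun m => a ⟨i m, ⟨m, rfl⟩⟩)) = avg F :=
    avg_equiv (Equiv.piCongrLeft (fun b : {m // m ∈ Set.range i} => κ b.1)
      (Equiv.ofInjective i i.injective)).symm F
  rw [s1, s2, s3]


/-- two functions on finite probability spaces with the same law -/
def SameLaw {κ κ' : Type} [Fintype κ] [Fintype κ'] {X : Type} (g : κ → X) (g' : κ' → X) : Prop :=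
  ∀ F : X → ℝ, avg (fun k => F (g k)) = avg (fun k => F (g' k))


/-! #### sameLaw_count -/


theorem SameLaw.of_count {κ κ' : Type} [Fintype κ] [Fintype κ'] [Nonempty κ] [Nonempty κ']
    {X : Type} [DecidableEq X] (g : κ → X) (g' : κ' → X)
    (h : ∀ k : κ, Fintype.card κ' * (Finset.univ.filter fun a => g a = g k).card =
      Fintype.card κ * (Finset.univ.filter fun a => g' a = g k).card) : SameLaw g g' := by
  have hκ : 0 < Fintype.card κ := Fintype.card_pos
  have hκ' : 0 < Fintype.card κ' := Fintype.card_pos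
  have hI : ∀ x ∈ Finset.univ.image g,
      Fintype.card κ' * (Finset.univ.filter fun a => g a = x).card =
        Fintype.card κ * (Finset.univ.filter fun a => g' a = x).card := by
    intro x hx
    obtain ⟨k, -, rfl⟩ := Finset.mem_image.1 hx
    exact h k
  have h1 : Fintype.card κ = ∑ x ∈ Finset.univ.image g,
      (Finset.univ.filter fun a => g a = x).card := by
    rw [← Finset.card_univ]
    exact Finset.card_eq_sum_card_image g Finset.univ
  have h2 : (Finset.univ.filter fun a => g' a ∈ Finset.univ.image g).card =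
      ∑ x ∈ Finset.univ.image g, (Finset.univ.filter fun a => g' a = x).card := by
    rw [Finset.card_eq_sum_card_fiberwise (f := g') (t := Finset.univ.image g)]
    · refine Finset.sum_congr rfl fun x hx => ?_
      congr 1
      ext a
      simp only [Finset.mem_filter, Finset.mem_univ, true_and]
      constructor
      · exact fun h => h.2
      · intro h
        exact ⟨h ▸ hx, h⟩
    · intro a ha
      exact (Finset.mem_filter.1 (Finset.mem_coe.1 ha)).2
  have h3 : Fintype.card κ' * Fintype.card κ = Fintype.card κ *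
      (Finset.univ.filter fun a => g' a ∈ Finset.univ.image g).card := by
    rw [h2, Finset.mul_sum]
    conv_lhs => rw [h1]
    rw [Finset.mul_sum]
    exact Finset.sum_congr rfl hI
  have h4 : (Finset.univ.filter fun a => g' a ∈ Finset.univ.image g).card = Fintype.card κ' := by
    rw [mul_comm] at h3
    exact (Nat.eq_of_mul_eq_mul_left hκ h3).symm
  have h5 : ∀ a, g' a ∈ Finset.univ.image g := by
    have h6 : (Finset.univ.filter fun a => g' a ∈ Finset.univ.image g) = Finset.univ :=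
      (Finset.card_eq_iff_eq_univ _).1 h4
    intro a
    have h7 : a ∈ (Finset.univ.filter fun a => g' a ∈ Finset.univ.image g) := by
      rw [h6]
      exact Finset.mem_univ a
    exact (Finset.mem_filter.1 h7).2
  intro F
  have s1 : ∑ k, F (g k) = ∑ x ∈ Finset.univ.image g,
      ((Finset.univ.filter fun a => g a = x).card : ℝ) * F x := by
    rw [← Finset.sum_fiberwise_of_maps_to (s := Finset.univ) (t := Finset.univ.image g) (g := g)
      (fun k _ => Finset.mem_image_of_mem g (Finset.mem_univ k))]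
    refine Finset.sum_congr rfl fun x _ => ?_
    rw [Finset.sum_congr rfl fun k hk => by rw [(Finset.mem_filter.1 hk).2], Finset.sum_const,
      nsmul_eq_mul]
  have s2 : ∑ k, F (g' k) = ∑ x ∈ Finset.univ.image g,
      ((Finset.univ.filter fun a => g' a = x).card : ℝ) * F x := by
    rw [← Finset.sum_fiberwise_of_maps_to (s := Finset.univ) (t := Finset.univ.image g) (g := g')
      (fun k _ => h5 k)]
    refine Finset.sum_congr rfl fun x _ => ?_
    rw [Finset.sum_congr rfl fun k hk => by rw [(Finset.mem_filter.1 hk).2], Finset.sum_const,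
      nsmul_eq_mul]
  unfold avg
  rw [s1, s2, smul_eq_mul, smul_eq_mul, Finset.mul_sum, Finset.mul_sum]
  refine Finset.sum_congr rfl fun x hx => ?_
  have hx' : (Fintype.card κ' : ℝ) * ((Finset.univ.filter fun a => g a = x).card : ℝ) =
      (Fintype.card κ : ℝ) * ((Finset.univ.filter fun a => g' a = x).card : ℝ) := by
    exact_mod_cast hI x hx
  have c1 : (Fintype.card κ : ℝ) ≠ 0 := by exact_mod_cast hκ.ne'
  have c2 : (Fintype.card κ' : ℝ) ≠ 0 := by exact_mod_cast hκ'.ne'
  field_simp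
  linear_combination F x * hx'



/-! #### sameLaw_pi -/


theorem sameLaw_pi_expand {ι : Type} [Fintype ι] {X : Type} [DecidableEq X] (a : ι → X)
    (S : Finset X) (hS : ∀ i, a i ∈ S) {V : Type*} [AddCommGroup V] [Module ℝ V] (F : X → V) :
    avg (fun i => F (a i)) =
      ∑ x ∈ S, (avg (fun i => if a i = x then (1 : ℝ) else 0)) • F x := by
  unfold avg
  simp_rw [smul_eq_mul, mul_smul, Finset.sum_smul]
  rw [← Finset.smul_sum]
  congr 1
  rw [Finset.sum_comm]
  refine Finset.sum_congr rfl fun i _ => ?_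
  rw [Finset.sum_eq_single (a i)]
  · simp
  · intro b _ hb
    rw [if_neg (Ne.symm hb), zero_smul]
  · intro h
    exact absurd (hS i) h

theorem sameLaw_pi_prod {M : Type} [Fintype M] [DecidableEq M] {κ : Type} [Fintype κ]
    (f : M → κ → ℝ) :
    avg (fun w : M → κ => ∏ m, f m (w m)) = ∏ m, avg (f m) := by
  unfold avg
  simp_rw [smul_eq_mul]
  rw [Finset.prod_mul_distrib, Finset.prod_univ_sum, Finset.prod_const, Finset.card_univ,
    Fintype.piFinset_univ, Fintype.card_fun, Nat.cast_pow, inv_pow]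

theorem SameLaw.avg_pi {κ κ' : Type} [Fintype κ] [Fintype κ'] [Nonempty κ] [Nonempty κ']
    {X : Type} {g : κ → X} {g' : κ' → X} (h : SameLaw g g') (F : (M → X) → V) :
    avg (fun w : M → κ => F fun m => g (w m)) = avg fun w : M → κ' => F fun m => g' (w m) := by
  classical
  set S : Finset (M → X) := Finset.univ.image (fun (w : M → κ) (m : M) => g (w m)) ∪
    Finset.univ.image (fun (w : M → κ') (m : M) => g' (w m)) with hS
  have e1 := sameLaw_pi_expand (fun (w : M → κ) (m : M) => g (w m)) S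
    (fun w => Finset.mem_union_left _ (Finset.mem_image_of_mem _ (Finset.mem_univ w))) F
  have e2 := sameLaw_pi_expand (fun (w : M → κ') (m : M) => g' (w m)) S
    (fun w => Finset.mem_union_right _ (Finset.mem_image_of_mem _ (Finset.mem_univ w))) F
  rw [e1, e2]
  refine Finset.sum_congr rfl fun v _ => ?_
  congr 1
  have h1 : ∀ (κ₀ : Type) (g₀ : κ₀ → X) (w : M → κ₀),
      (if (fun m => g₀ (w m)) = v then (1 : ℝ) else 0) =
        ∏ m, (if g₀ (w m) = v m then (1 : ℝ) else 0) := by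
    intro κ₀ g₀ w
    rw [Finset.prod_ite_zero]
    simp [funext_iff]
  simp_rw [h1]
  rw [sameLaw_pi_prod (fun m k => if g k = v m then (1 : ℝ) else 0),
    sameLaw_pi_prod (fun m k => if g' k = v m then (1 : ℝ) else 0)]
  exact Finset.prod_congr rfl fun m _ => h (fun x => if x = v m then (1 : ℝ) else 0)


end piAPI

/-- the law of `R` is invariant under the shift by `c` up to `ω` in total variation -/
def NI {ι : Type} [Fintype ι] (R : ι → ℤ) (ω : ℝ) (c : ℤ) : Prop :=
  ∀ φ : ℤ → ℝ, (∀ n, |φ n| ≤ 1) → |avg (fun r => φ (R r + c)) - avg (fun r => φ (R r))| ≤ ω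

section NIAPI
variable {ι : Type} [Fintype ι] {R : ι → ℤ}


/-! #### ni_basic -/


theorem ni_basic_scal {ω : ℝ} {c : ℤ} (h : NI R ω c) (C : ℝ) (hC : 0 ≤ C) (φ : ℤ → ℝ)
    (hφ : ∀ n, |φ n| ≤ C) :
    |avg (fun r => φ (R r + c)) - avg (fun r => φ (R r))| ≤ C * ω := by
  rcases hC.lt_or_eq with hC' | hC'
  · have h1 := h (fun n => C⁻¹ * φ n) (by
      intro n
      rw [abs_mul, abs_of_pos (inv_pos.2 hC')]
      calc C⁻¹ * |φ n| ≤ C⁻¹ * C := mul_le_mul_of_nonneg_left (hφ n) (inv_pos.2 hC').le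
        _ = 1 := inv_mul_cancel₀ hC'.ne')
    rw [avg_mul_left C⁻¹ (fun r => φ (R r + c)), avg_mul_left C⁻¹ (fun r => φ (R r)), ← mul_sub,
      abs_mul, abs_of_pos (inv_pos.2 hC')] at h1
    calc |avg (fun r => φ (R r + c)) - avg (fun r => φ (R r))|
        = C * (C⁻¹ * |avg (fun r => φ (R r + c)) - avg (fun r => φ (R r))|) := by
          rw [← mul_assoc, mul_inv_cancel₀ hC'.ne', one_mul]
      _ ≤ C * ω := mul_le_mul_of_nonneg_left h1 hC
  · have h0 : ∀ n, φ n = 0 := fun n => by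
      have := hφ n
      rw [← hC'] at this
      exact abs_nonpos_iff.1 this
    simp only [h0, sub_self, abs_zero, ← hC', zero_mul, le_refl]

theorem NI.norm' {ω : ℝ} {c : ℤ} (h : NI R ω c) {V : Type*} [SeminormedAddCommGroup V]
    [NormedSpace ℝ V] (C : ℝ) (hC : 0 ≤ C) (Φ : ℤ → V) (hΦ : ∀ n, ‖Φ n‖ ≤ C) :
    ‖avg (fun r => Φ (R r + c)) - avg (fun r => Φ (R r))‖ ≤ C * ω := by
  obtain ⟨g, hg1, hg2⟩ := exists_dual_vector'' ℝ
    (avg (fun r => Φ (R r + c)) - avg (fun r => Φ (R r)))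
  have h1 : g (avg (fun r => Φ (R r + c)) - avg (fun r => Φ (R r)))
      = avg (fun r => g (Φ (R r + c))) - avg (fun r => g (Φ (R r))) := by
    rw [map_sub]
    have e1 := avg_linear (g : V →ₗ[ℝ] ℝ) (fun r => Φ (R r + c))
    have e2 := avg_linear (g : V →ₗ[ℝ] ℝ) (fun r => Φ (R r))
    exact congrArg₂ (fun a b : ℝ => a - b) e1.symm e2.symm
  have h2 := ni_basic_scal h C hC (fun n => g (Φ n)) (by
    intro n
    rw [← Real.norm_eq_abs]
    calc ‖g (Φ n)‖ ≤ ‖g‖ * ‖Φ n‖ := g.le_opNorm _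
      _ ≤ 1 * C := mul_le_mul hg1 (hΦ n) (norm_nonneg _) zero_le_one
      _ = C := one_mul C)
  have h3 : ‖avg (fun r => Φ (R r + c)) - avg (fun r => Φ (R r))‖
      = avg (fun r => g (Φ (R r + c))) - avg (fun r => g (Φ (R r))) := by
    rw [← h1, hg2]
    rfl
  rw [h3]
  exact (le_abs_self _).trans h2

theorem NI.norm {ω : ℝ} {c : ℤ} (h : NI R ω c) {V : Type*} [SeminormedAddCommGroup V]
    [NormedSpace ℝ V] (Φ : ℤ → V) (hΦ : ∀ n, ‖Φ n‖ ≤ 1) :
    ‖avg (fun r => Φ (R r + c)) - avg (fun r => Φ (R r))‖ ≤ ω := by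
  have := NI.norm' h 1 zero_le_one Φ hΦ
  rwa [one_mul] at this

theorem NI.nonneg {ω : ℝ} {c : ℤ} (h : NI R ω c) : 0 ≤ ω :=
  (abs_nonneg _).trans (h (fun _ => 0) (fun _ => by simp))

theorem NI.mono {ω ω' : ℝ} {c : ℤ} (h : NI R ω c) (hω : ω ≤ ω') : NI R ω' c :=
  fun φ hφ => (h φ hφ).trans hω

theorem NI.add {ω ω' : ℝ} {c c' : ℤ} (h : NI R ω c) (h' : NI R ω' c') :
    NI R (ω + ω') (c + c') := by
  intro φ hφ
  have h1 := h φ hφ
  have h2 := h' (fun n => φ (n + c)) (fun n => hφ _)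
  have e1 : (fun r => φ (R r + (c + c'))) = fun r => φ (R r + c' + c) := by
    funext r
    congr 1
    ring
  rw [e1]
  calc |avg (fun r => φ (R r + c' + c)) - avg (fun r => φ (R r))|
      = |(avg (fun r => φ (R r + c)) - avg (fun r => φ (R r)))
        + (avg (fun r => φ (R r + c' + c)) - avg (fun r => φ (R r + c)))| := by
        congr 1
        ring
    _ ≤ _ := (abs_add_le _ _).trans (add_le_add h1 h2)

theorem NI.neg {ω : ℝ} {c : ℤ} (h : NI R ω c) : NI R ω (-c) := by
  intro φ hφ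
  have h1 := h (fun n => φ (n - c)) (fun n => hφ _)
  have e1 : (fun r => φ (R r + c - c)) = fun r => φ (R r) := by
    funext r
    congr 1
    ring
  have e2 : (fun r => φ (R r + -c)) = fun r => φ (R r - c) := by
    funext r
    congr 1
  rw [e2, abs_sub_comm]
  have h2 : |avg (fun r => φ (R r + c - c)) - avg (fun r => φ (R r - c))| ≤ ω := h1
  rwa [e1] at h2

theorem NI.nsmul {ω : ℝ} {c : ℤ} (h : NI R ω c) (n : ℕ) : NI R (n * ω) (n * c) := by
  induction n with
  | zero =>
    intro φ hφ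
    simp
  | succ n ih =>
    have h1 := NI.add ih h
    have e1 : ((n + 1 : ℕ) : ℝ) * ω = n * ω + ω := by push_cast; ring
    have e2 : ((n + 1 : ℕ) : ℤ) * c = n * c + c := by push_cast; ring
    rw [e1, e2]
    exact h1

theorem NI.add_left {ι' : Type} [Fintype ι'] [Nonempty ι] [Nonempty ι'] {R' : ι' → ℤ} {ω : ℝ}
    {c : ℤ} (h : NI R ω c) : NI (fun p : ι × ι' => R p.1 + R' p.2) ω c := by
  intro φ hφ
  have h1 : ∀ j : ι', |avg (fun i => φ (R i + R' j + c)) - avg (fun i => φ (R i + R' j))| ≤ ω := by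
    intro j
    have h2 := h (fun n => φ (n + R' j)) (fun n => hφ _)
    have e1 : (fun i => φ (R i + R' j + c)) = fun i => φ (R i + c + R' j) := by
      funext i
      congr 1
      ring
    rw [e1]
    exact h2
  rw [avg_prod (fun p : ι × ι' => φ (R p.1 + R' p.2 + c)),
    avg_prod (fun p : ι × ι' => φ (R p.1 + R' p.2)), avg_comm (fun i j => φ (R i + R' j + c)),
    avg_comm (fun i j => φ (R i + R' j)), ← avg_sub]
  exact (abs_avg_le _).trans (avg_le _ _ h1)

theorem NI.add_right {ι' : Type} [Fintype ι'] [Nonempty ι] [Nonempty ι'] {R' : ι' → ℤ} {ω : ℝ}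
    {c : ℤ} (h : NI R' ω c) : NI (fun p : ι × ι' => R p.1 + R' p.2) ω c := by
  intro φ hφ
  have h1 : ∀ i : ι, |avg (fun j => φ (R i + R' j + c)) - avg (fun j => φ (R i + R' j))| ≤ ω := by
    intro i
    have h2 := h (fun n => φ (R i + n)) (fun n => hφ _)
    have e1 : (fun j => φ (R i + R' j + c)) = fun j => φ (R i + (R' j + c)) := by
      funext j
      congr 1
      ring
    rw [e1]
    exact h2
  rw [avg_prod (fun p : ι × ι' => φ (R p.1 + R' p.2 + c)),
    avg_prod (fun p : ι × ι' => φ (R p.1 + R' p.2)), ← avg_sub]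
  exact (abs_avg_le _).trans (avg_le _ _ h1)


end NIAPI

section sysAPI
variable {A : Type} [CommRing A] [StarRing A] [Algebra ℂ A] [StarModule ℂ A] [PSys A]


/-! #### sys_basic -/


theorem inner_tau (n : ℤ) (a b : A) : ⟪PSys.tau n a, PSys.tau n b⟫_ℂ = ⟪a, b⟫_ℂ := by
  rw [inner_def, inner_def, ← map_star, ← map_mul, PSys.E_tau]

theorem norm_tau (n : ℤ) (a : A) : ‖PSys.tau n a‖ = ‖a‖ := by
  have h : ‖PSys.tau n a‖ ^ 2 = ‖a‖ ^ 2 := by
    rw [norm_sq_def, norm_sq_def, ← map_star, ← map_mul, PSys.E_tau]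
  exact (sq_eq_sq₀ (norm_nonneg _) (norm_nonneg _)).1 h

theorem tau_tau (m n : ℤ) (a : A) : PSys.tau m (PSys.tau n a) = PSys.tau (m + n) a := by
  rw [PSys.tau_add]

theorem norm_le_one_of_ball {f : A} (hf : f ∈ PSys.ball) : ‖f‖ ≤ 1 := by
  have h1 : ‖f‖ ^ 2 ≤ 1 := by
    have h := PSys.ball_le f hf 1
    rw [mul_one, star_one, one_mul, PSys.E_one] at h
    rw [norm_sq_def]
    simpa using h
  have h2 : 0 ≤ ‖f‖ := norm_nonneg _
  nlinarith

theorem norm_ball_mul_le {f : A} (hf : f ∈ PSys.ball) (a : A) : ‖f * a‖ ≤ ‖a‖ := by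
  have h : ‖f * a‖ ^ 2 ≤ ‖a‖ ^ 2 := by
    rw [norm_sq_def, norm_sq_def]
    exact PSys.ball_le f hf a
  exact (sq_le_sq₀ (norm_nonneg _) (norm_nonneg _)).1 h

theorem sys_basic_norm_one_le : ‖(1 : A)‖ ≤ 1 := norm_le_one_of_ball PSys.one_mem

theorem sys_basic_norm_E_le (a : A) : ‖PSys.E a‖ ≤ ‖a‖ := by
  have h : PSys.E a = ⟪(1 : A), a⟫_ℂ := by
    rw [inner_def, star_one, one_mul]
  rw [h]
  refine (norm_inner_le_norm (𝕜 := ℂ) (1 : A) a).trans ?_
  have h1 := sys_basic_norm_one_le (A := A)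
  have h2 : 0 ≤ ‖a‖ := norm_nonneg _
  nlinarith

theorem norm_E_mul_le {f : A} (hf : f ∈ PSys.ball) (a : A) : ‖PSys.E (f * a)‖ ≤ ‖a‖ := by
  exact (sys_basic_norm_E_le (f * a)).trans (norm_ball_mul_le hf a)

theorem norm_E_le (a : A) : ‖PSys.E a‖ ≤ ‖a‖ := by
  exact sys_basic_norm_E_le a

theorem tau_avg {ι : Type} [Fintype ι] (n : ℤ) (f : ι → A) :
    PSys.tau n (avg f) = avg fun i => PSys.tau n (f i) := by
  unfold avg
  rw [← Complex.coe_smul, ← Complex.coe_smul, map_smul, map_sum]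

theorem mul_avg {ι : Type} [Fintype ι] (a : A) (f : ι → A) :
    a * avg f = avg fun i => a * f i := by
  unfold avg
  rw [← Complex.coe_smul, ← Complex.coe_smul, mul_smul_comm, Finset.mul_sum]

theorem avg_mul {ι : Type} [Fintype ι] (a : A) (f : ι → A) :
    avg f * a = avg fun i => f i * a := by
  unfold avg
  rw [← Complex.coe_smul, ← Complex.coe_smul, smul_mul_assoc, Finset.sum_mul]

theorem star_avg {ι : Type} [Fintype ι] (f : ι → A) :
    star (avg f) = avg fun i => star (f i) := by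
  unfold avg
  rw [← Complex.coe_smul, ← Complex.coe_smul, star_smul, star_sum]
  congr 1
  simp

theorem E_avg {ι : Type} [Fintype ι] (f : ι → A) :
    PSys.E (avg f) = avg fun i => PSys.E (f i) := by
  unfold avg
  rw [← Complex.coe_smul, ← Complex.coe_smul, map_smul, map_sum]

theorem re_avg {ι : Type} [Fintype ι] (f : ι → ℂ) : (avg f).re = avg fun i => (f i).re := by
  unfold avg
  rw [Complex.smul_re, Complex.re_sum]

theorem re_inner_avg_left {ι : Type} [Fintype ι] (f : ι → A) (a : A) :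
    (⟪avg f, a⟫_ℂ).re = avg fun i => (⟪f i, a⟫_ℂ).re := by
  rw [← re_avg, inner_def, star_avg, avg_mul, E_avg]
  rfl

theorem re_inner_avg_right {ι : Type} [Fintype ι] (f : ι → A) (a : A) :
    (⟪a, avg f⟫_ℂ).re = avg fun i => (⟪a, f i⟫_ℂ).re := by
  rw [← re_avg, inner_def, mul_avg, E_avg]
  rfl

theorem re_inner_comm (a b : A) : (⟪a, b⟫_ℂ).re = (⟪b, a⟫_ℂ).re := by
  exact inner_re_symm (𝕜 := ℂ) a b

theorem re_inner_self (a : A) : (⟪a, a⟫_ℂ).re = ‖a‖ ^ 2 := by
  exact inner_self_eq_norm_sq (𝕜 := ℂ) a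

theorem norm_sub_sq_re (a b : A) :
    ‖a - b‖ ^ 2 = ‖a‖ ^ 2 + ‖b‖ ^ 2 - 2 * (⟪a, b⟫_ℂ).re := by
  have h := norm_sub_sq (𝕜 := ℂ) a b
  have h2 : (RCLike.re ⟪a, b⟫_ℂ : ℝ) = (⟪a, b⟫_ℂ).re := rfl
  rw [h2] at h
  linarith

theorem abs_re_inner_le (a b : A) : |(⟪a, b⟫_ℂ).re| ≤ ‖a‖ * ‖b‖ := by
  exact (Complex.abs_re_le_norm _).trans (norm_inner_le_norm a b)


end sysAPI

end Pool.TC
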