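import Pool.Agent.Helper591.TC.Basic

/-! # Core definitions: digits, energies, U-level -/

open scoped ComplexConjugate InnerProductSpace

namespace Pool.TC

/-! ## Digits -/

/-- a bit as an integer -/
def bz (b : Bool) : ℤ := if b then 1 else 0

/-- four bits `(d, d', e, e')` or `(d, d', j, j~)` -/
abbrev B4 : Type := Bool × Bool × Bool × Bool

/-- `∑_{m ∈ D} c_m L_m` -/
def lin {M : Type} (L : M → ℤ) (D : Finset M) (c : M → ℤ) : ℤ := ∑ m ∈ D, c m * L m

/-- `h`-digit `d' - d` -/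
def hd (w : B4) : ℤ := bz w.2.1 - bz w.1

/-- `k`-digit: `e' - e` if `d = d'`, and `0` otherwise -/
def kd (w : B4) : ℤ := if w.1 = w.2.1 then bz w.2.2.2 - bz w.2.2.1 else 0

/-- resampled bit -/
def resd (d d' e : Bool) : Bool := if d = d' then e else d

/-- the digit `ι` of the change of variables: `j` if `(d,d') = (1,0)`, `-j` if `(0,1)`, else `0` -/
def io (d d' j : Bool) : ℤ := if d = true ∧ d' = false then bz j else
  if d = false ∧ d' = true then -bz j else 0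

section core
variable {M : Type} [Fintype M] [DecidableEq M] (L : M → ℤ)
variable {ιR ιP ιS ιT : Type} [Fintype ιR] [Fintype ιP] [Fintype ιS] [Fintype ιT]
variable {A : Type} [CommRing A] [StarRing A] [Algebra ℂ A] [StarModule ℂ A] [PSys A]

/-! ## The energy -/

/-- `β(h,k) = Re ∫ f* τ_{ah} f τ_{bk} f τ_{ah+bk} f*` -/
noncomputable def beta (a b : ℤ) (f : A) (h k : ℤ) : ℝ :=
  (PSys.E (star f * PSys.tau (a * h) f * PSys.tau (b * k) f * PSys.tau (a * h + b * k) (star f))).re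

/-- the energy functional: `P` = window law of the `h`-part, `S` = window law of the `k`-part -/
noncomputable def BG (a b : ℤ) (f : A) (P : ιP → ℤ) (S : ιS → ℤ) (D : Finset M) (x y : ℤ) : ℝ :=
  avg fun w : M → B4 => avg fun p : ιP × ιP => avg fun s : ιS × ιS =>
    beta a b f (lin L D (fun m => hd (w m)) + P p.2 - P p.1 + x)
      (lin L D (fun m => kd (w m)) + S s.2 - S s.1 + y)

/-- `f τ_{ah} f*` -/
noncomputable def Zf (a : ℤ) (f : A) (h : ℤ) : A := f * PSys.tau (a * h) (star f)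

/-- row vectors -/
noncomputable def Wrow (a b : ℤ) (f : A) (S : ιS → ℤ) (D : Finset M) (d : M → Bool × Bool)
    (h : ℤ) : A :=
  avg fun e : M → Bool => avg fun s : ιS =>
    PSys.tau (b * (lin L D (fun m => bz (resd (d m).1 (d m).2 (e m))) + S s)) (Zf a f h)

/-- the `h`-variable of a row index -/
def hrow (P : ιP → ℤ) (D : Finset M) (d : M → Bool × Bool) (p : ιP × ιP) : ℤ :=
  lin L D (fun m => bz (d m).2 - bz (d m).1) + P p.2 - P p.1

/-- column vectors; `κ` = the `k`-digits -/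
noncomputable def Vcol (a b : ℤ) (f : A) (P : ιP → ℤ) (D : Finset M) (κ : M → ℤ) (k : ℤ) : A :=
  avg fun c : M → Fin 3 => avg fun p : ιP =>
    PSys.tau (a * (lin L D (fun m => if κ m = 0 then ((c m : ℕ) : ℤ) else 2) + P p)) (Zf b f k)

/-- the `k`-variable of a column index -/
def kcol (S : ιS → ℤ) (D : Finset M) (w : M → B4) (s : ιS × ιS) : ℤ :=
  lin L D (fun m => kd (w m)) + S s.2 - S s.1

/-- column version of the energy -/
noncomputable def Bc (a b : ℤ) (f : A) (P : ιP → ℤ) (S : ιS → ℤ) (D : Finset M) (x y : ℤ) : ℝ :=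
  avg fun w : M → B4 => avg fun s : ιS × ιS =>
    (⟪Vcol L a b f P D (fun m => kd (w m)) (kcol L S D w s + y),
      PSys.tau (a * x) (Vcol L a b f P D (fun m => kd (w m)) (kcol L S D w s + y))⟫_ℂ).re

/-- `P` is `ω`-invariant under `3 lin e`, `|e_m| ≤ 12` -/
def NI3 (P : ιP → ℤ) (ω : ℝ) : Prop :=
  ∀ e : M → ℤ, (∀ m, |e m| ≤ 12) → NI P ω (3 * lin L Finset.univ e)

/-! ## Averages and U-level -/

/-- `v_b = A_D(τ_b f₁, τ_{2b} f₂)` -/
noncomputable def vv (R : ιR → ℤ) (D : Finset M) (f₁ f₂ : A) (b : ℤ) : A :=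
  avg fun d : M → Bool => avg fun r : ιR =>
    PSys.tau (lin L D (fun m => bz (d m)) + R r + b) f₁ *
      PSys.tau (2 * (lin L D (fun m => bz (d m)) + R r + b)) f₂

/-- `σ` -/
def sg1 (R : ιR → ℤ) (D : Finset M) (d : M → Bool × Bool) (r : ιR × ιR) : ℤ :=
  lin L D (fun m => bz (d m).1) + R r.1

/-- `σ'` -/
def sg2 (R : ιR → ℤ) (D : Finset M) (d : M → Bool × Bool) (r : ιR × ιR) : ℤ :=
  lin L D (fun m => bz (d m).2) + R r.2

/-- `q = lin ι(d,d',j) + p` -/
def qv (T : ιT → ℤ) (D : Finset M) (d : M → Bool × Bool) (j : M → Bool) (p : ιT) : ℤ :=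
  lin L D (fun m => io (d m).1 (d m).2 (j m)) + T p

/-- `U(s,t)` -/
noncomputable def UU (R : ιR → ℤ) (T : ιT → ℤ) (D : Finset M) (f₁ f₂ : A)
    (d : M → Bool × Bool) (r : ιR × ιR) (s t : ℤ) : A :=
  avg fun j : M → Bool => avg fun p : ιT =>
    PSys.tau (sg2 L R D d r + s - qv L T D d j p) f₁ *
      PSys.tau (2 * sg1 L R D d r + t + 2 * qv L T D d j p) (star f₂)

/-- `FF(s,t)` -/
noncomputable def FF (R : ιR → ℤ) (D : Finset M) (f₁ f₂ : A)
    (d : M → Bool × Bool) (r : ιR × ιR) (s t : ℤ) : A :=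
  PSys.tau (sg1 L R D d r + s) f₁ * PSys.tau (2 * sg2 L R D d r + t) (star f₂)

/-- `γ(u,w) = Re ∫ f₁ τ_u f₁* τ_w f₂* τ_{w-2u} f₂` -/
noncomputable def gam (f₁ f₂ : A) (u w : ℤ) : ℝ :=
  (PSys.E (f₁ * PSys.tau u (star f₁) * PSys.tau w (star f₂) * PSys.tau (w - 2 * u) f₂)).re

/-- `Θ(ρ,z)` -/
noncomputable def Th (R : ιR → ℤ) (T : ιT → ℤ) (D : Finset M) (f₁ f₂ : A) (ρ z : ℤ) : ℝ :=
  avg fun w : M → B4 => avg fun r : ιR × ιR => avg fun p : ιT × ιT =>
    gam f₁ f₂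
      (lin L D (fun m => io (w m).1 (w m).2.1 (w m).2.2.1 - io (w m).1 (w m).2.1 (w m).2.2.2)
        + T p.1 - T p.2 + z)
      (lin L D (fun m => 2 * bz (w m).1 - bz (w m).2.1 + 3 * io (w m).1 (w m).2.1 (w m).2.2.1)
        + 2 * R r.1 - R r.2 + 3 * T p.1 + ρ)

/-- the `U`-energy functional (column form is `Bc` with the same arguments) -/
noncomputable def BU (T : ιT → ℤ) (D : Finset M) (f₂ : A) (x y : ℤ) : ℝ :=
  BG L 1 (-2) (star f₂) T T D x y

/-- the `A`-energy functional -/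
noncomputable def BA (R : ιR → ℤ) (T : ιT → ℤ) (D : Finset M) (f₂ : A) (x y : ℤ) : ℝ :=
  BG L 2 1 f₂ R T D x y

/-- environment: `R` = large windows, `T` = small windows -/
structure Env (R : ιR → ℤ) (T : ιT → ℤ) (ω : ℝ) : Prop where
  r3 : NI3 L R ω
  t3 : NI3 L T ω
  rt : ∀ t, NI R ω (T t)

end core

end Pool.TC
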