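import Mathlib

/-! # Final statement of MP_e53872_an (assembly) -/

open scoped ComplexConjugate InnerProductSpace
open MeasureTheory Filter Topology

namespace Pool.TC

/-- `(a(n))` is good for 2-convergence of powers: for every invertible measure preserving system
`(X, μ, T)` and all `f₁, f₂ ∈ L^∞(μ)` the averages `(1/N) ∑_{n=1}^N T^{a(n)} f₁ · T^{2a(n)} f₂`
converge in `L²(μ)`. -/
def GoodPow2 (a : ℕ → ℤ) : Prop :=
  ∀ (X : Type) [MeasurableSpace X] (μ : Measure X) [IsProbabilityMeasure μ] (T : X ≃ᵐ X),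
    MeasurePreserving T μ μ → ∀ f₁ f₂ : X → ℂ, MemLp f₁ ⊤ μ → MemLp f₂ ⊤ μ →
    ∃ g : X → ℂ, MemLp g 2 μ ∧
      Tendsto (fun N : ℕ => eLpNorm (fun x => (N : ℂ)⁻¹ * ∑ n ∈ Finset.Icc 1 N,
          f₁ (((T.toEquiv : Equiv.Perm X) ^ (a n)) x) *
            f₂ (((T.toEquiv : Equiv.Perm X) ^ (2 * a n)) x) - g x) 2 μ) atTop (𝓝 0)

/-- `(a(n))` is good for 2-convergence of commuting transformations: for every probability space
`(X, μ)`, all commuting invertible measure preserving maps `T₁, T₂` and all `f₁, f₂ ∈ L^∞(μ)` the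
averages `(1/N) ∑_{n=1}^N T₁^{a(n)} f₁ · T₂^{a(n)} f₂` converge in `L²(μ)`. -/
def GoodComm2 (a : ℕ → ℤ) : Prop :=
  ∀ (X : Type) [MeasurableSpace X] (μ : Measure X) [IsProbabilityMeasure μ] (T₁ T₂ : X ≃ᵐ X),
    MeasurePreserving T₁ μ μ → MeasurePreserving T₂ μ μ → (∀ x, T₁ (T₂ x) = T₂ (T₁ x)) →
    ∀ f₁ f₂ : X → ℂ, MemLp f₁ ⊤ μ → MemLp f₂ ⊤ μ →
    ∃ g : X → ℂ, MemLp g 2 μ ∧
      Tendsto (fun N : ℕ => eLpNorm (fun x => (N : ℂ)⁻¹ * ∑ n ∈ Finset.Icc 1 N,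
          f₁ (((T₁.toEquiv : Equiv.Perm X) ^ (a n)) x) *
            f₂ (((T₂.toEquiv : Equiv.Perm X) ^ (a n)) x) - g x) 2 μ) atTop (𝓝 0)

end Pool.TC
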