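import Pool.Agent.Helper591.TC.Core

/-! # Energy theory -/

open scoped ComplexConjugate InnerProductSpace

namespace Pool.TC

section gapsec


/-! #### gap -/


theorem gap_re_linear {H : Type} [SeminormedAddCommGroup H] [InnerProductSpace ℂ H] {ι : Type}
    [Fintype ι] (f : ι → H) (h : H) :
    avg (fun i => (⟪f i, h⟫_ℂ).re) = (⟪avg f, h⟫_ℂ).re := by
  let T : H →ₗ[ℝ] ℝ :=
    { toFun := fun v => (⟪v, h⟫_ℂ).re
      map_add' := by
        intro x y
        rw [inner_add_left, Complex.add_re]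
      map_smul' := by
        intro r x
        have : r • x = ((r : ℂ)) • x := (Complex.coe_smul r x).symm
        rw [this, inner_smul_left, Complex.conj_ofReal, Complex.re_ofReal_mul]
        rfl }
  exact avg_linear T f

theorem gap_re_linear' {H : Type} [SeminormedAddCommGroup H] [InnerProductSpace ℂ H] {ι : Type}
    [Fintype ι] (f : ι → H) (h : H) :
    avg (fun i => (⟪h, f i⟫_ℂ).re) = (⟪h, avg f⟫_ℂ).re := by
  have h1 : ∀ v : H, (⟪h, v⟫_ℂ).re = (⟪v, h⟫_ℂ).re := by
    intro v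
    rw [← inner_conj_symm, Complex.conj_re]
  rw [h1]
  simp only [h1]
  exact gap_re_linear f h

theorem gap_idb {H : Type} [SeminormedAddCommGroup H] [InnerProductSpace ℂ H] {ι : Type}
    [Fintype ι] [Nonempty ι] (f g : ι → H) :
    avg (fun x => avg fun x' => ‖f x - g x'‖ ^ 2) =
      ‖avg f - avg g‖ ^ 2 + (avg (fun x => ‖f x‖ ^ 2) - ‖avg f‖ ^ 2) +
        (avg (fun x => ‖g x‖ ^ 2) - ‖avg g‖ ^ 2) := by
  have h1 : ∀ x y : H, ‖x - y‖ ^ 2 = ‖x‖ ^ 2 - 2 * (⟪x, y⟫_ℂ).re + ‖y‖ ^ 2 := by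
    intro x y
    exact norm_sub_sq (𝕜 := ℂ) x y
  have h2 : ∀ x, (avg fun x' => ‖f x - g x'‖ ^ 2) =
      ‖f x‖ ^ 2 - 2 * (⟪f x, avg g⟫_ℂ).re + avg (fun x' => ‖g x'‖ ^ 2) := by
    intro x
    simp only [h1]
    rw [avg_add, avg_sub, avg_const, avg_mul_left, gap_re_linear']
  simp only [h2]
  rw [avg_add, avg_sub, avg_const, avg_mul_left, gap_re_linear, h1]
  ring

theorem gap_cons {V : Type*} [AddCommGroup V] [Module ℝ V] {X : Type} [Fintype X] {n : ℕ}
    (F : (Fin (n + 1) → X) → V) :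
    avg F = avg fun x : X => avg fun a : Fin n → X => F (Fin.cons x a) := by
  rw [← avg_equiv (Fin.consEquiv fun _ => X) F, avg_prod]
  rfl

theorem gap_swap4 {A B C D : Type} [Fintype A] [Fintype B] [Fintype C] [Fintype D]
    (F : A → B → C → D → ℝ) :
    (avg fun a => avg fun b => avg fun c => avg fun d => F a b c d) =
      avg fun c => avg fun d => avg fun a => avg fun b => F a b c d := by
  have e1 : (avg fun a => avg fun b => avg fun c => avg fun d => F a b c d) =
      avg fun a => avg fun c => avg fun b => avg fun d => F a b c d := by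
    congr 1
    funext a
    exact avg_comm _
  rw [e1, avg_comm]
  congr 1
  funext c
  have e2 : (avg fun a => avg fun b => avg fun d => F a b c d) =
      avg fun a => avg fun d => avg fun b => F a b c d := by
    congr 1
    funext a
    exact avg_comm _
  rw [e2, avg_comm]

theorem gap_mix {N : Type} [Fintype N] [Nonempty N] (ν : N → ZMod 3) (q : ℝ)
    (h1 : avg (fun n : N => if ν n = 1 then (1 : ℝ) else 0) = q)
    (h2 : avg (fun n : N => if ν n = -1 then (1 : ℝ) else 0) = q) (G : ZMod 3 → ℝ) :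
    avg (fun n : N => G (ν n)) = (1 - 3 * q) * G 0 + 3 * q * avg G := by
  have hG : ∀ z : ZMod 3, G z = G 0 + (G 1 - G 0) * (if z = 1 then (1 : ℝ) else 0) +
      (G (-1) - G 0) * (if z = -1 then (1 : ℝ) else 0) := by
    intro z
    have hz : z = 0 ∨ z = 1 ∨ z = -1 := by
      revert z
      decide
    have h01 : (0 : ZMod 3) ≠ 1 := by decide
    have h02 : (0 : ZMod 3) ≠ -1 := by decide
    have h12 : (1 : ZMod 3) ≠ -1 := by decide
    rcases hz with rfl | rfl | rfl
    · rw [if_neg h01, if_neg h02]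
      ring
    · rw [if_pos rfl, if_neg h12]
      ring
    · rw [if_neg h12.symm, if_pos rfl]
      ring
  have e1 : avg (fun n : N => G (ν n)) =
      avg (fun n : N => (G 0 + (G 1 - G 0) * (if ν n = 1 then (1 : ℝ) else 0)) +
        (G (-1) - G 0) * (if ν n = -1 then (1 : ℝ) else 0)) := by
    congr 1
    funext n
    exact hG (ν n)
  have e2 : avg G = (G 0 + G 1 + G (-1)) / 3 := by
    unfold avg
    have : (∑ i : ZMod 3, G i) = G 0 + G 1 + G (-1) := by
      have h3 : (Finset.univ : Finset (ZMod 3)) = {0, 1, -1} := by decide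
      rw [h3, Finset.sum_insert (by decide), Finset.sum_insert (by decide),
        Finset.sum_singleton]
      ring
    rw [this, ZMod.card]
    simp only [smul_eq_mul]
    push_cast
    ring
  rw [e1, avg_add, avg_add, avg_const, avg_mul_left, avg_mul_left, h1, h2, e2]
  ring

/-- noise energy -/
noncomputable def gapS {H : Type} [SeminormedAddCommGroup H] {N : Type} [Fintype N]
    (ν : N → ZMod 3) (n : ℕ) (e : (Fin n → ZMod 3) → H) : ℝ :=
  avg fun a : Fin n → ZMod 3 => avg fun y : Fin n → N =>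
    ‖e (fun m => a m + ν (y m)) - e a‖ ^ 2

/-- total energy -/
noncomputable def gapT {H : Type} [SeminormedAddCommGroup H] (n : ℕ)
    (e : (Fin n → ZMod 3) → H) : ℝ :=
  avg fun a : Fin n → ZMod 3 => avg fun a' : Fin n → ZMod 3 => ‖e a - e a'‖ ^ 2

/-- mean in the first coordinate -/
noncomputable def gapM {H : Type} [SeminormedAddCommGroup H] [InnerProductSpace ℂ H] {n : ℕ}
    (e : (Fin (n + 1) → ZMod 3) → H) (a : Fin n → ZMod 3) : H :=
  avg fun x : ZMod 3 => e (Fin.cons x a)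

/-- variance in the first coordinate -/
noncomputable def gapP {H : Type} [SeminormedAddCommGroup H] [InnerProductSpace ℂ H] {n : ℕ}
    (e : (Fin (n + 1) → ZMod 3) → H) (a : Fin n → ZMod 3) : ℝ :=
  avg (fun x : ZMod 3 => ‖e (Fin.cons x a)‖ ^ 2) - ‖gapM e a‖ ^ 2

theorem gap_T_succ {H : Type} [SeminormedAddCommGroup H] [InnerProductSpace ℂ H] (n : ℕ)
    (e : (Fin (n + 1) → ZMod 3) → H) :
    gapT (n + 1) e = gapT n (gapM e) + 2 * avg (gapP e) := by
  unfold gapT
  rw [gap_cons]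
  have e1 : ∀ x : ZMod 3, ∀ a : Fin n → ZMod 3,
      (avg fun a' : Fin (n + 1) → ZMod 3 => ‖e (Fin.cons x a) - e a'‖ ^ 2) =
        avg fun x' : ZMod 3 => avg fun a' : Fin n → ZMod 3 =>
          ‖e (Fin.cons x a) - e (Fin.cons x' a')‖ ^ 2 := by
    intro x a
    exact gap_cons _
  simp only [e1]
  have e2 : ∀ x : ZMod 3, (avg fun a : Fin n → ZMod 3 => avg fun x' : ZMod 3 =>
      avg fun a' : Fin n → ZMod 3 => ‖e (Fin.cons x a) - e (Fin.cons x' a')‖ ^ 2) =
      avg fun x' : ZMod 3 => avg fun a : Fin n → ZMod 3 =>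
      avg fun a' : Fin n → ZMod 3 => ‖e (Fin.cons x a) - e (Fin.cons x' a')‖ ^ 2 := by
    intro x
    exact avg_comm _
  simp only [e2]
  rw [gap_swap4 (fun x x' a a' => ‖e (Fin.cons x a) - e (Fin.cons x' a')‖ ^ 2)]
  have e3 : ∀ a a' : Fin n → ZMod 3, (avg fun x : ZMod 3 => avg fun x' : ZMod 3 =>
      ‖e (Fin.cons x a) - e (Fin.cons x' a')‖ ^ 2) =
      (‖gapM e a - gapM e a'‖ ^ 2 + gapP e a) + gapP e a' := by
    intro a a'
    exact gap_idb (fun x => e (Fin.cons x a)) (fun x => e (Fin.cons x a'))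
  simp only [e3]
  have e4 : ∀ a : Fin n → ZMod 3, (avg fun a' : Fin n → ZMod 3 =>
      (‖gapM e a - gapM e a'‖ ^ 2 + gapP e a) + gapP e a') =
      ((avg fun a' : Fin n → ZMod 3 => ‖gapM e a - gapM e a'‖ ^ 2) + gapP e a) +
        avg (gapP e) := by
    intro a
    rw [avg_add, avg_add, avg_const]
  simp only [e4]
  rw [avg_add, avg_add, avg_const]
  ring

theorem gap_cons_add {N : Type} (ν : N → ZMod 3) {n : ℕ} (x : ZMod 3) (a : Fin n → ZMod 3)
    (z : N) (y : Fin n → N) :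
    (fun m => (Fin.cons x a : Fin (n + 1) → ZMod 3) m + ν ((Fin.cons z y : Fin (n + 1) → N) m)) =
      Fin.cons (x + ν z) (fun m => a m + ν (y m)) := by
  funext m
  refine Fin.cases ?_ (fun i => ?_) m
  · simp
  · simp

theorem gap_transl {N : Type} [Fintype N] [Nonempty N] (ν : N → ZMod 3) {n : ℕ}
    (φ : (Fin n → ZMod 3) → ℝ) :
    (avg fun a : Fin n → ZMod 3 => avg fun y : Fin n → N => φ (fun m => a m + ν (y m))) =
      avg φ := by
  rw [avg_comm]
  have e1 : ∀ y : Fin n → N,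
      (avg fun a : Fin n → ZMod 3 => φ (fun m => a m + ν (y m))) = avg φ := by
    intro y
    exact avg_equiv (Equiv.addRight (fun m => ν (y m))) φ
  simp only [e1]
  rw [avg_const]

theorem gap_S_succ {H : Type} [SeminormedAddCommGroup H] [InnerProductSpace ℂ H]
    {N : Type} [Fintype N] [Nonempty N] (ν : N → ZMod 3) (q : ℝ)
    (h1 : avg (fun n : N => if ν n = 1 then (1 : ℝ) else 0) = q)
    (h2 : avg (fun n : N => if ν n = -1 then (1 : ℝ) else 0) = q) (n : ℕ)
    (e : (Fin (n + 1) → ZMod 3) → H) :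
    gapS ν (n + 1) e =
      (1 - 3 * q) * (avg fun x : ZMod 3 => gapS ν n (fun a => e (Fin.cons x a))) +
        3 * q * (gapS ν n (gapM e) + 2 * avg (gapP e)) := by
  obtain ⟨G, hG⟩ : ∃ G : ZMod 3 → ZMod 3 → ℝ, G = fun x z =>
      avg fun a : Fin n → ZMod 3 => avg fun y : Fin n → N =>
        ‖e (Fin.cons z (fun m => a m + ν (y m))) - e (Fin.cons x a)‖ ^ 2 := ⟨_, rfl⟩
  have e0 : gapS ν (n + 1) e = avg fun x : ZMod 3 => avg fun z : N => G x (x + ν z) := by
    unfold gapS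
    rw [gap_cons]
    congr 1
    funext x
    have e1 : ∀ a : Fin n → ZMod 3,
        (avg fun y : Fin (n + 1) → N =>
          ‖e (fun m => (Fin.cons x a : Fin (n + 1) → ZMod 3) m + ν (y m)) -
            e (Fin.cons x a)‖ ^ 2) =
          avg fun z : N => avg fun y : Fin n → N =>
            ‖e (Fin.cons (x + ν z) (fun m => a m + ν (y m))) - e (Fin.cons x a)‖ ^ 2 := by
      intro a
      rw [gap_cons]
      simp only [gap_cons_add]
    simp only [e1]
    rw [avg_comm, hG]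
  have e5 : ∀ x : ZMod 3, (avg fun z : N => G x (x + ν z)) =
      (1 - 3 * q) * G x x + 3 * q * avg (G x) := by
    intro x
    rw [gap_mix ν q h1 h2 (fun z => G x (x + z)), add_zero]
    congr 2
    exact avg_equiv (Equiv.addLeft x) (G x)
  rw [e0]
  simp only [e5]
  rw [avg_add, avg_mul_left, avg_mul_left]
  congr 1
  · rw [hG]
    rfl
  congr 1
  have e6 : (avg fun x : ZMod 3 => avg (G x)) =
      avg fun a : Fin n → ZMod 3 => avg fun y : Fin n → N =>
        avg fun x : ZMod 3 => avg fun z : ZMod 3 =>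
          ‖e (Fin.cons z (fun m => a m + ν (y m))) - e (Fin.cons x a)‖ ^ 2 := by
    have e61 : (avg fun x : ZMod 3 => avg (G x)) =
        avg fun x : ZMod 3 => avg fun z : ZMod 3 => avg fun a : Fin n → ZMod 3 =>
          avg fun y : Fin n → N =>
            ‖e (Fin.cons z (fun m => a m + ν (y m))) - e (Fin.cons x a)‖ ^ 2 := by
      rw [hG]
    rw [e61]
    exact gap_swap4 (A := ZMod 3) (B := ZMod 3) (C := Fin n → ZMod 3) (D := Fin n → N)
      (fun (x z : ZMod 3) (a : Fin n → ZMod 3) (y : Fin n → N) =>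
      ‖e (Fin.cons z (fun m => a m + ν (y m))) - e (Fin.cons x a)‖ ^ 2)
  rw [e6]
  have e7 : ∀ a a' : Fin n → ZMod 3, (avg fun x : ZMod 3 => avg fun z : ZMod 3 =>
      ‖e (Fin.cons z a') - e (Fin.cons x a)‖ ^ 2) =
      (‖gapM e a' - gapM e a‖ ^ 2 + gapP e a') + gapP e a := by
    intro a a'
    rw [avg_comm]
    exact gap_idb (fun x => e (Fin.cons x a')) (fun x => e (Fin.cons x a))
  simp only [e7]
  have e8 : ∀ a : Fin n → ZMod 3, (avg fun y : Fin n → N =>
      (‖gapM e (fun m => a m + ν (y m)) - gapM e a‖ ^ 2 + gapP e (fun m => a m + ν (y m))) +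
        gapP e a) =
      ((avg fun y : Fin n → N => ‖gapM e (fun m => a m + ν (y m)) - gapM e a‖ ^ 2) +
        (avg fun y : Fin n → N => gapP e (fun m => a m + ν (y m)))) + gapP e a := by
    intro a
    rw [avg_add, avg_add, avg_const]
  simp only [e8]
  rw [avg_add, avg_add, gap_transl]
  unfold gapS
  have e9 : (avg fun a : Fin n → ZMod 3 => gapP e a) = avg (gapP e) := rfl
  rw [e9]
  ring

theorem gap_jensen {H : Type} [SeminormedAddCommGroup H] [InnerProductSpace ℂ H]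
    {N : Type} [Fintype N] [Nonempty N] (ν : N → ZMod 3) (n : ℕ)
    (e : (Fin (n + 1) → ZMod 3) → H) :
    gapS ν n (gapM e) ≤ avg fun x : ZMod 3 => gapS ν n (fun a => e (Fin.cons x a)) := by
  have e1 : (avg fun x : ZMod 3 => gapS ν n (fun a => e (Fin.cons x a))) =
      avg fun a : Fin n → ZMod 3 => avg fun y : Fin n → N => avg fun x : ZMod 3 =>
        ‖e (Fin.cons x (fun m => a m + ν (y m))) - e (Fin.cons x a)‖ ^ 2 := by
    unfold gapS
    rw [avg_comm]
    congr 1
    funext a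
    rw [avg_comm]
  rw [e1]
  unfold gapS
  apply avg_mono
  intro a
  apply avg_mono
  intro y
  unfold gapM
  rw [← avg_sub]
  exact norm_avg_sq_le _

theorem gap_S_nonneg {H : Type} [SeminormedAddCommGroup H] {N : Type} [Fintype N]
    (ν : N → ZMod 3) (n : ℕ) (e : (Fin n → ZMod 3) → H) : 0 ≤ gapS ν n e := by
  unfold gapS
  apply avg_nonneg
  intro a
  apply avg_nonneg
  intro y
  positivity

theorem gap_fin {H : Type} [SeminormedAddCommGroup H]
    [InnerProductSpace ℂ H] {N : Type} [Fintype N] [Nonempty N] (ν : N → ZMod 3) (q : ℝ)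
    (hq : 0 < q) (hq' : q ≤ 1 / 3)
    (h1 : avg (fun n : N => if ν n = 1 then (1 : ℝ) else 0) = q)
    (h2 : avg (fun n : N => if ν n = -1 then (1 : ℝ) else 0) = q) (n : ℕ) :
    ∀ e : (Fin n → ZMod 3) → H, 3 * q * gapT n e ≤ gapS ν n e := by
  induction n with
  | zero =>
    intro e
    have : gapT 0 e = 0 := by
      unfold gapT
      have e1 : ∀ a a' : Fin 0 → ZMod 3, ‖e a - e a'‖ ^ 2 = (0 : ℝ) := by
        intro a a'
        rw [Subsingleton.elim a a', sub_self, norm_zero]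
        norm_num
      simp only [e1]
      rw [avg_const, avg_const]
    rw [this, mul_zero]
    exact gap_S_nonneg ν 0 e
  | succ n ih =>
    intro e
    rw [gap_T_succ, gap_S_succ ν q h1 h2]
    have h3 := ih (gapM e)
    have h4 := gap_jensen ν n e
    have h5 : 0 ≤ 1 - 3 * q := by linarith
    have h6 := mul_le_mul_of_nonneg_left h4 h5
    linarith

/-- Lemma G: Poincare inequality for product noise on `F₃^R` -/
theorem gap {R : Type} [Fintype R] [DecidableEq R] {H : Type} [SeminormedAddCommGroup H]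
    [InnerProductSpace ℂ H] {N : Type} [Fintype N] [Nonempty N] (ν : N → ZMod 3) (q : ℝ)
    (hq : 0 < q) (hq' : q ≤ 1 / 3)
    (h1 : avg (fun n : N => if ν n = 1 then (1 : ℝ) else 0) = q)
    (h2 : avg (fun n : N => if ν n = -1 then (1 : ℝ) else 0) = q)
    (e : (R → ZMod 3) → H) :
    (avg fun a : R → ZMod 3 => avg fun a' : R → ZMod 3 => ‖e a - e a'‖ ^ 2) ≤
      (3 * q)⁻¹ * avg fun a : R → ZMod 3 => avg fun y : R → N =>
        ‖e (fun m => a m + ν (y m)) - e a‖ ^ 2 := by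
  have σ := Fintype.equivFin R
  have htr : ∀ (X : Type) [Fintype X] [DecidableEq (R → X)] (F : (R → X) → ℝ),
      avg F = avg fun a : Fin (Fintype.card R) → X => F (fun m => a (σ m)) := by
    intro X _ _ F
    exact (avg_equiv (Equiv.arrowCongr σ.symm (Equiv.refl X)) F).symm
  classical
  obtain ⟨e', he'⟩ : ∃ e' : (Fin (Fintype.card R) → ZMod 3) → H,
      e' = fun a => e (fun m => a (σ m)) := ⟨_, rfl⟩
  have hT : (avg fun a : R → ZMod 3 => avg fun a' : R → ZMod 3 => ‖e a - e a'‖ ^ 2) =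
      gapT (Fintype.card R) e' := by
    unfold gapT
    rw [htr (ZMod 3), he']
    congr 1
    funext a
    rw [htr (ZMod 3)]
  have hS : (avg fun a : R → ZMod 3 => avg fun y : R → N =>
        ‖e (fun m => a m + ν (y m)) - e a‖ ^ 2) = gapS ν (Fintype.card R) e' := by
    unfold gapS
    rw [htr (ZMod 3), he']
    congr 1
    funext a
    rw [htr N]
  rw [hT, hS, le_inv_mul_iff₀ (by positivity)]
  exact gap_fin ν q hq hq' h1 h2 _ e'


end gapsec

section energy
variable {M : Type} [Fintype M] [DecidableEq M] (L : M → ℤ)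
variable {ιP ιS ιP' ιS' : Type} [Fintype ιP] [Fintype ιS] [Nonempty ιP] [Nonempty ιS]
  [Fintype ιP'] [Fintype ιS'] [Nonempty ιP'] [Nonempty ιS']
variable {A : Type} [CommRing A] [StarRing A] [Algebra ℂ A] [StarModule ℂ A] [PSys A]


/-! #### gapw -/


/-- the integer representative in `{0,1,2}` -/
def gapw_r (α : M → ZMod 3) (m : M) : ℤ := ((α m).val : ℤ)

omit [Fintype M] [DecidableEq M] in
theorem gapw_val (α : M → ZMod 3) (c : M → ℤ) (m : M) :
    gapw_r (fun m => α m + ((c m : ℤ) : ZMod 3)) m =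
      gapw_r α m + c m + 3 * (-((gapw_r α m + c m) / 3)) := by
  have h1 : α m + ((c m : ℤ) : ZMod 3) = (((gapw_r α m + c m : ℤ)) : ZMod 3) := by
    unfold gapw_r
    push_cast
    rw [ZMod.natCast_zmod_val]
  show (((α m + ((c m : ℤ) : ZMod 3)).val : ℕ) : ℤ) = _
  rw [h1, ZMod.val_intCast, Int.emod_def]
  push_cast
  ring

omit [Fintype M] [DecidableEq M] in
theorem gapw_bd (α : M → ZMod 3) (c : M → ℤ) (m : M) (hc : |c m| ≤ 24) :
    |(-((gapw_r α m + c m) / 3))| ≤ 12 := by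
  have h1 : gapw_r α m < 3 := by
    have := ZMod.val_lt (α m)
    unfold gapw_r
    exact_mod_cast this
  have h2 : 0 ≤ gapw_r α m := by unfold gapw_r; positivity
  rw [abs_le] at hc ⊢
  omega

omit [Fintype M] [DecidableEq M] in
theorem gapw_lin (R' : Finset M) (x c e : M → ℤ) :
    lin L R' (fun m => x m + c m + 3 * e m) = lin L R' x + lin L R' c + 3 * lin L R' e := by
  unfold lin
  rw [Finset.mul_sum, ← Finset.sum_add_distrib, ← Finset.sum_add_distrib]
  refine Finset.sum_congr rfl (fun m _ => ?_)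
  ring

/-- the vectors -/
noncomputable def gapw_e (a : ℤ) (W : A) (R' : Finset M) (α : M → ZMod 3) : A :=
  PSys.tau (a * lin L R' (gapw_r α)) W

omit [Fintype M] [DecidableEq M] in
theorem gapw_key (a : ℤ) (W : A) (R' : Finset M) (ω : ℝ)
    (hω : ∀ e : M → ℤ, (∀ m, |e m| ≤ 12) → ‖PSys.tau (a * (3 * lin L R' e)) W - W‖ ≤ ω)
    (α : M → ZMod 3) (c : M → ℤ) (hc : ∀ m, |c m| ≤ 24) :
    ‖gapw_e L a W R' (fun m => α m + ((c m : ℤ) : ZMod 3)) - gapw_e L a W R' α‖ ≤
      ‖PSys.tau (a * lin L R' c) W - W‖ + ω ∧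
    ‖PSys.tau (a * lin L R' c) W - W‖ ≤
      ‖gapw_e L a W R' (fun m => α m + ((c m : ℤ) : ZMod 3)) - gapw_e L a W R' α‖ + ω := by
  obtain ⟨e, he⟩ : ∃ e : M → ℤ, e = fun m => -((gapw_r α m + c m) / 3) := ⟨_, rfl⟩
  have hE := hω e (fun m => by rw [he]; exact gapw_bd α c m (hc m))
  have h1 : gapw_r (fun m => α m + ((c m : ℤ) : ZMod 3)) =
      fun m => gapw_r α m + c m + 3 * e m := by
    funext m
    rw [gapw_val, he]
  have h2 : a * lin L R' (gapw_r (fun m => α m + ((c m : ℤ) : ZMod 3))) =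
      a * lin L R' (gapw_r α) + (a * lin L R' c + a * (3 * lin L R' e)) := by
    rw [h1, gapw_lin]
    ring
  have h3 : gapw_e L a W R' (fun m => α m + ((c m : ℤ) : ZMod 3)) - gapw_e L a W R' α =
      PSys.tau (a * lin L R' (gapw_r α)) (PSys.tau (a * lin L R' c)
        (PSys.tau (a * (3 * lin L R' e)) W) - W) := by
    unfold gapw_e
    rw [h2, map_sub, tau_tau, tau_tau, add_assoc]
  have h4 : ‖gapw_e L a W R' (fun m => α m + ((c m : ℤ) : ZMod 3)) - gapw_e L a W R' α‖ =
      ‖PSys.tau (a * lin L R' c) (PSys.tau (a * (3 * lin L R' e)) W) - W‖ := by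
    rw [h3, norm_tau]
  have h5 : ‖PSys.tau (a * lin L R' c) (PSys.tau (a * (3 * lin L R' e)) W) -
      PSys.tau (a * lin L R' c) W‖ ≤ ω := by
    rw [← map_sub, norm_tau]
    exact hE
  rw [h4]
  obtain ⟨u, hu⟩ : ∃ u : A, u = PSys.tau (a * lin L R' c) (PSys.tau (a * (3 * lin L R' e)) W) :=
    ⟨_, rfl⟩
  obtain ⟨v, hv⟩ : ∃ v : A, v = PSys.tau (a * lin L R' c) W := ⟨_, rfl⟩
  rw [← hu, ← hv] at h5
  rw [← hu, ← hv]
  constructor
  · calc ‖u - W‖ = ‖(v - W) + (u - v)‖ := by congr 1; abel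
      _ ≤ ‖v - W‖ + ‖u - v‖ := norm_add_le _ _
      _ ≤ ‖v - W‖ + ω := by linarith only [h5]
  · calc ‖v - W‖ = ‖(u - W) - (u - v)‖ := by congr 1; abel
      _ ≤ ‖u - W‖ + ‖u - v‖ := norm_sub_le _ _
      _ ≤ ‖u - W‖ + ω := by linarith only [h5]

theorem gapw_sq (x y z : ℝ) (hx : 0 ≤ x) (h : x ≤ y + z) : x ^ 2 ≤ 2 * y ^ 2 + 2 * z ^ 2 := by
  nlinarith only [hx, h, sq_nonneg (y - z), mul_self_le_mul_self hx h]

/-- the gap inequality for a vector of a system -/
theorem gapw (a : ℤ) (W : A) (R' : Finset M) {N : Type} [Fintype N] [Nonempty N] (ν : N → ℤ)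
    (q : ℝ) (hq : 0 < q) (hq' : q ≤ 1 / 3) (hν : ∀ n, ν n = 0 ∨ ν n = 1 ∨ ν n = -1)
    (h1 : avg (fun n : N => if ν n = 1 then (1 : ℝ) else 0) = q)
    (h2 : avg (fun n : N => if ν n = -1 then (1 : ℝ) else 0) = q)
    (ω : ℝ) (hω : ∀ e : M → ℤ, (∀ m, |e m| ≤ 12) →
      ‖PSys.tau (a * (3 * lin L R' e)) W - W‖ ≤ ω)
    (c : M → ℤ) (hc : ∀ m, |c m| ≤ 24) :
    ‖PSys.tau (a * lin L R' c) W - W‖ ^ 2 ≤
      8 / q * ((avg fun y : M → N => ‖PSys.tau (a * lin L R' (fun m => ν (y m))) W - W‖ ^ 2)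
        + ω ^ 2) := by
  obtain ⟨δ, hδ⟩ : ∃ δ : (M → ℤ) → ℝ, δ = fun c => ‖PSys.tau (a * lin L R' c) W - W‖ := ⟨_, rfl⟩
  have hδ' : ∀ c : M → ℤ, ‖PSys.tau (a * lin L R' c) W - W‖ = δ c := fun c => by rw [hδ]
  have hω0 : 0 ≤ ω := (norm_nonneg _).trans (hω (fun _ => 0) (fun m => by simp))
  obtain ⟨e, he⟩ : ∃ e : (M → ZMod 3) → A, e = gapw_e L a W R' := ⟨_, rfl⟩
  have hkey : ∀ (α : M → ZMod 3) (c : M → ℤ), (∀ m, |c m| ≤ 24) →
      ‖e (fun m => α m + ((c m : ℤ) : ZMod 3)) - e α‖ ≤ δ c + ω ∧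
      δ c ≤ ‖e (fun m => α m + ((c m : ℤ) : ZMod 3)) - e α‖ + ω := by
    intro α c hc
    rw [he, ← hδ' c]
    exact gapw_key L a W R' ω hω α c hc
  have hcast1 : ∀ n, (((ν n : ℤ) : ZMod 3) = 1 ↔ ν n = 1) := by
    intro n
    rcases hν n with h | h | h <;> rw [h] <;> decide
  have hcast2 : ∀ n, (((ν n : ℤ) : ZMod 3) = -1 ↔ ν n = -1) := by
    intro n
    rcases hν n with h | h | h <;> rw [h] <;> decide
  have h1' : avg (fun n : N => if ((ν n : ℤ) : ZMod 3) = 1 then (1 : ℝ) else 0) = q := by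
    simp only [hcast1]
    exact h1
  have h2' : avg (fun n : N => if ((ν n : ℤ) : ZMod 3) = -1 then (1 : ℝ) else 0) = q := by
    simp only [hcast2]
    exact h2
  have hgap := gap (fun n => ((ν n : ℤ) : ZMod 3)) q hq hq' h1' h2' e
  obtain ⟨X, hX⟩ : ∃ X : ℝ, X = avg fun α : M → ZMod 3 => avg fun α' : M → ZMod 3 =>
    ‖e α - e α'‖ ^ 2 := ⟨_, rfl⟩
  obtain ⟨lam, hlam⟩ : ∃ lam : ℝ, lam = avg fun y : M → N => (δ (fun m => ν (y m))) ^ 2 :=
    ⟨_, rfl⟩
  have hlam0 : 0 ≤ lam := by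
    rw [hlam]
    exact avg_nonneg _ (fun _ => sq_nonneg _)
  have hX1 : X ≤ (3 * q)⁻¹ * (2 * lam + 2 * ω ^ 2) := by
    rw [hX]
    refine hgap.trans ?_
    refine mul_le_mul_of_nonneg_left ?_ (by positivity)
    refine avg_le _ _ (fun α => ?_)
    have h3 : (avg fun y : M → N => ‖e (fun m => α m + ((ν (y m) : ℤ) : ZMod 3)) - e α‖ ^ 2) ≤
        avg fun y : M → N => (2 * (δ (fun m => ν (y m))) ^ 2 + 2 * ω ^ 2) := by
      refine avg_mono _ _ (fun y => ?_)
      refine gapw_sq _ _ _ (norm_nonneg _) (hkey α (fun m => ν (y m)) (fun m => ?_)).1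
      rcases hν (y m) with h | h | h <;> rw [h] <;> norm_num
    refine h3.trans (le_of_eq ?_)
    rw [avg_add, avg_const, avg_mul_left, hlam]
  have hX2 : (δ c) ^ 2 ≤ 8 * X + 2 * ω ^ 2 := by
    have h4 : ∀ α α' : M → ZMod 3, (δ c) ^ 2 ≤
        4 * ‖e (fun m => α m + ((c m : ℤ) : ZMod 3)) - e α'‖ ^ 2 + 4 * ‖e α - e α'‖ ^ 2 +
          2 * ω ^ 2 := by
      intro α α'
      have h5 := gapw_sq _ _ _ (by rw [hδ]; exact norm_nonneg _) (hkey α c hc).2
      have h6 : ‖e (fun m => α m + ((c m : ℤ) : ZMod 3)) - e α‖ ≤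
          ‖e (fun m => α m + ((c m : ℤ) : ZMod 3)) - e α'‖ + ‖e α - e α'‖ := by
        calc ‖e (fun m => α m + ((c m : ℤ) : ZMod 3)) - e α‖ =
            ‖(e (fun m => α m + ((c m : ℤ) : ZMod 3)) - e α') - (e α - e α')‖ := by
              congr 1; abel
          _ ≤ _ := norm_sub_le _ _
      have h7 := gapw_sq _ _ _ (norm_nonneg _) h6
      linarith only [h5, h7]
    have h8 : (δ c) ^ 2 ≤ avg fun α : M → ZMod 3 => avg fun α' : M → ZMod 3 =>
        (4 * ‖e (fun m => α m + ((c m : ℤ) : ZMod 3)) - e α'‖ ^ 2 + 4 * ‖e α - e α'‖ ^ 2 +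
          2 * ω ^ 2) := by
      refine le_avg _ _ (fun α => le_avg _ _ (fun α' => h4 α α'))
    have h9 : (avg fun α : M → ZMod 3 => avg fun α' : M → ZMod 3 =>
        (4 * ‖e (fun m => α m + ((c m : ℤ) : ZMod 3)) - e α'‖ ^ 2 + 4 * ‖e α - e α'‖ ^ 2 +
          2 * ω ^ 2)) = 4 * X + 4 * X + 2 * ω ^ 2 := by
      have e1 : ∀ α : M → ZMod 3, (avg fun α' : M → ZMod 3 =>
        (4 * ‖e (fun m => α m + ((c m : ℤ) : ZMod 3)) - e α'‖ ^ 2 + 4 * ‖e α - e α'‖ ^ 2 +
          2 * ω ^ 2)) = 4 * (avg fun α' : M → ZMod 3 =>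
            ‖e (fun m => α m + ((c m : ℤ) : ZMod 3)) - e α'‖ ^ 2) +
            4 * (avg fun α' : M → ZMod 3 => ‖e α - e α'‖ ^ 2) + 2 * ω ^ 2 := by
        intro α
        rw [avg_add, avg_add, avg_const, avg_mul_left, avg_mul_left]
      simp only [e1]
      rw [avg_add, avg_add, avg_const, avg_mul_left, avg_mul_left]
      have e2 : (avg fun α : M → ZMod 3 => avg fun α' : M → ZMod 3 =>
          ‖e (fun m => α m + ((c m : ℤ) : ZMod 3)) - e α'‖ ^ 2) = X := by
        rw [hX]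
        exact avg_equiv (Equiv.addRight (fun m => ((c m : ℤ) : ZMod 3)))
          (fun α : M → ZMod 3 => avg fun α' : M → ZMod 3 => ‖e α - e α'‖ ^ 2)
      rw [e2, ← hX]
    rw [h9] at h8
    linarith only [h8]
  rw [hδ']
  simp only [hδ']
  rw [← hlam]
  have h10 : (3 * q)⁻¹ * q = 1 / 3 := by field_simp
  have h11 : 1 ≤ (3 * q)⁻¹ := by
    rw [one_le_inv₀ (by positivity)]
    linarith
  have h12 : (8 : ℝ) / q = 24 * (3 * q)⁻¹ := by field_simp; norm_num
  rw [h12]
  have h13 : 0 ≤ ω ^ 2 := sq_nonneg _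
  have h14 : ω ^ 2 ≤ (3 * q)⁻¹ * ω ^ 2 := by nlinarith only [h11, h13]
  have h15 : 0 ≤ (3 * q)⁻¹ * lam := mul_nonneg (by positivity) hlam0
  have h16 : 0 ≤ (3 * q)⁻¹ * ω ^ 2 := mul_nonneg (by positivity) h13
  nlinarith only [hX1, hX2, h14, h15, h16]


variable (a b : ℤ) (f : A) (P : ιP → ℤ) (S : ιS → ℤ) (D : Finset M)


/-! #### beta_rep -/


theorem beta_rep_star_tau (n : ℤ) (g : A) : star (PSys.tau n (star g)) = PSys.tau n g := by
  rw [← map_star, star_star]

theorem beta_abs_le (hf : f ∈ PSys.ball) (h k : ℤ) : |beta a b f h k| ≤ 1 := by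
  unfold beta
  refine (Complex.abs_re_le_norm _).trans ((norm_E_le _).trans (norm_le_one_of_ball ?_))
  exact PSys.mul_mem _ (PSys.mul_mem _ (PSys.mul_mem _ (PSys.star_mem _ hf) _
    (PSys.tau_mem _ _ hf)) _ (PSys.tau_mem _ _ hf)) _ (PSys.tau_mem _ _ (PSys.star_mem _ hf))

theorem beta_row (h k : ℤ) :
    beta a b f h k = (⟪Zf a f h, PSys.tau (b * k) (Zf a f h)⟫_ℂ).re := by
  rw [inner_def]
  unfold beta Zf
  congr 2
  rw [star_mul, beta_rep_star_tau, map_mul, tau_tau, add_comm (b * k) (a * h)]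
  ring

theorem beta_col (h k : ℤ) :
    beta a b f h k = (⟪Zf b f k, PSys.tau (a * h) (Zf b f k)⟫_ℂ).re := by
  rw [inner_def]
  unfold beta Zf
  congr 2
  rw [star_mul, beta_rep_star_tau, map_mul, tau_tau]
  ring

theorem norm_Zf_le (hf : f ∈ PSys.ball) (h : ℤ) : ‖Zf a f h‖ ≤ 1 := by
  unfold Zf
  exact norm_le_one_of_ball (PSys.mul_mem _ hf _ (PSys.tau_mem _ _ (PSys.star_mem _ hf)))



/-! #### lin_api -/


theorem lin_add (D : Finset M) (c c' : M → ℤ) :
    lin L D (fun m => c m + c' m) = lin L D c + lin L D c' := by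
  unfold lin
  rw [← Finset.sum_add_distrib]
  exact Finset.sum_congr rfl fun m _ => by ring

theorem lin_sub (D : Finset M) (c c' : M → ℤ) :
    lin L D (fun m => c m - c' m) = lin L D c - lin L D c' := by
  unfold lin
  rw [← Finset.sum_sub_distrib]
  exact Finset.sum_congr rfl fun m _ => by ring

theorem lin_mul (D : Finset M) (k : ℤ) (c : M → ℤ) :
    lin L D (fun m => k * c m) = k * lin L D c := by
  unfold lin
  rw [Finset.mul_sum]
  exact Finset.sum_congr rfl fun m _ => by ring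

theorem lin_union (D R' : Finset M) (h : Disjoint D R') (c : M → ℤ) :
    lin L (D ∪ R') c = lin L D c + lin L R' c := by
  unfold lin
  exact Finset.sum_union h

theorem lin_congr (D : Finset M) (c c' : M → ℤ) (h : ∀ m ∈ D, c m = c' m) :
    lin L D c = lin L D c' := by
  unfold lin
  exact Finset.sum_congr rfl fun m hm => by rw [h m hm]

theorem lin_univ (D : Finset M) (c : M → ℤ) :
    lin L D c = lin L Finset.univ (fun m => if m ∈ D then c m else 0) := by
  unfold lin
  symm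
  rw [← Finset.sum_subset (Finset.subset_univ D)]
  · exact Finset.sum_congr rfl fun m hm => by simp only [if_pos hm]
  · intro m _ hm
    simp only [if_neg hm, zero_mul]

theorem NI3.lin {P : ιP → ℤ} {ω : ℝ} (h : NI3 L P ω) (D : Finset M) (e : M → ℤ)
    (he : ∀ m ∈ D, |e m| ≤ 12) : NI P ω (3 * lin L D e) := by
  rw [lin_univ L D e]
  apply h
  intro m
  by_cases hm : m ∈ D
  · rw [if_pos hm]
    exact he m hm
  · rw [if_neg hm]
    norm_num



/-! #### BG_abs -/


theorem BG_abs_aux {κ : Type} [Fintype κ] [Nonempty κ] (g : κ → ℝ) (h : ∀ i, |g i| ≤ 1) :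
    |avg g| ≤ 1 :=
  (abs_avg_le g).trans (avg_le _ 1 h)

theorem BG_abs_le (hf : f ∈ PSys.ball) (x y : ℤ) : |BG L a b f P S D x y| ≤ 1 := by
  unfold BG
  refine BG_abs_aux _ fun w => BG_abs_aux _ fun p => BG_abs_aux _ fun s => ?_
  exact beta_abs_le a b f hf _ _



/-! #### row_rep -/


theorem row_rep_tt (u v y : ℤ) (Z : A) :
    ⟪PSys.tau (b * u) Z, PSys.tau (b * y) (PSys.tau (b * v) Z)⟫_ℂ =
      ⟪Z, PSys.tau (b * (v - u + y)) Z⟫_ℂ := by
  rw [tau_tau, ← inner_tau (b * u) Z (PSys.tau (b * (v - u + y)) Z), tau_tau]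
  have h : b * y + b * v = b * u + b * (v - u + y) := by ring
  rw [h]

theorem row_rep_aux (x y : ℤ) (d : M → Bool × Bool) (p : ιP × ιP) :
    (⟪Wrow L a b f S D d (hrow L P D d p + x),
        PSys.tau (b * y) (Wrow L a b f S D d (hrow L P D d p + x))⟫_ℂ).re =
    avg fun e : M → Bool => avg fun e' : M → Bool => avg fun s : ιS × ιS =>
      beta a b f (lin L D (fun m => bz (d m).2 - bz (d m).1) + P p.2 - P p.1 + x)
       (lin L D (fun m => kd ((d m).1, (d m).2, e m, e' m)) + S s.2 - S s.1 + y) := by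
  have h1 : ∀ (e e' : M → Bool), lin L D (fun m => kd ((d m).1, (d m).2, e m, e' m)) =
      lin L D (fun m => bz (resd (d m).1 (d m).2 (e' m))) -
        lin L D (fun m => bz (resd (d m).1 (d m).2 (e m))) := by
    intro e e'
    rw [← lin_sub]
    apply lin_congr
    intro m _
    simp only [kd, resd]
    split_ifs <;> simp
  have hh : lin L D (fun m => bz (d m).2 - bz (d m).1) + P p.2 - P p.1 + x =
      hrow L P D d p + x := rfl
  rw [hh]
  generalize hrow L P D d p + x = h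
  have h2 : (⟪Wrow L a b f S D d h, PSys.tau (b * y) (Wrow L a b f S D d h)⟫_ℂ).re =
      avg fun e : M → Bool => avg fun s : ιS => avg fun e' : M → Bool => avg fun s' : ιS =>
        (⟪PSys.tau (b * (lin L D (fun m => bz (resd (d m).1 (d m).2 (e m))) + S s)) (Zf a f h),
          PSys.tau (b * y) (PSys.tau (b * (lin L D (fun m =>
            bz (resd (d m).1 (d m).2 (e' m))) + S s')) (Zf a f h))⟫_ℂ).re := by
    unfold Wrow
    rw [re_inner_avg_left]
    congr 1
    funext e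
    rw [re_inner_avg_left]
    congr 1
    funext s
    rw [tau_avg, re_inner_avg_right]
    congr 1
    funext e'
    rw [tau_avg, re_inner_avg_right]
  rw [h2]
  congr 1
  funext e
  rw [avg_comm]
  congr 1
  funext e'
  rw [avg_prod]
  congr 1
  funext s
  congr 1
  funext s'
  rw [row_rep_tt, beta_row, h1 e e']
  congr 3
  ring_nf

/-- index bookkeeping -/
def row_rep_equiv : (M → B4) ≃ (M → Bool × Bool) × (M → Bool) × (M → Bool) where
  toFun w := (fun m => ((w m).1, (w m).2.1), fun m => (w m).2.2.1, fun m => (w m).2.2.2)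
  invFun q := fun m => ((q.1 m).1, (q.1 m).2, q.2.1 m, q.2.2 m)
  left_inv w := rfl
  right_inv q := rfl

theorem row_rep (x y : ℤ) :
    BG L a b f P S D x y = avg fun d : M → Bool × Bool => avg fun p : ιP × ιP =>
      (⟪Wrow L a b f S D d (hrow L P D d p + x),
        PSys.tau (b * y) (Wrow L a b f S D d (hrow L P D d p + x))⟫_ℂ).re := by
  have key : BG L a b f P S D x y =
      avg (fun q : (M → Bool × Bool) × (M → Bool) × (M → Bool) =>
        avg fun p : ιP × ιP => avg fun s : ιS × ιS =>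
        beta a b f (lin L D (fun m => bz (q.1 m).2 - bz (q.1 m).1) + P p.2 - P p.1 + x)
       (lin L D (fun m => kd ((q.1 m).1, (q.1 m).2, q.2.1 m, q.2.2 m)) + S s.2 - S s.1 + y)) :=
    avg_equiv (row_rep_equiv (M := M)) (fun q : (M → Bool × Bool) × (M → Bool) × (M → Bool) =>
        avg fun p : ιP × ιP => avg fun s : ιS × ιS =>
        beta a b f (lin L D (fun m => bz (q.1 m).2 - bz (q.1 m).1) + P p.2 - P p.1 + x)
       (lin L D (fun m => kd ((q.1 m).1, (q.1 m).2, q.2.1 m, q.2.2 m)) + S s.2 - S s.1 + y))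
  rw [key, avg_prod]
  congr 1
  funext d
  rw [avg_prod]
  have h3 : (avg fun e : M → Bool => avg fun e' : M → Bool => avg fun p : ιP × ιP =>
      avg fun s : ιS × ιS =>
        beta a b f (lin L D (fun m => bz (d m).2 - bz (d m).1) + P p.2 - P p.1 + x)
       (lin L D (fun m => kd ((d m).1, (d m).2, e m, e' m)) + S s.2 - S s.1 + y)) =
      avg fun p : ιP × ιP => avg fun e : M → Bool => avg fun e' : M → Bool =>
      avg fun s : ιS × ιS =>
        beta a b f (lin L D (fun m => bz (d m).2 - bz (d m).1) + P p.2 - P p.1 + x)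
       (lin L D (fun m => kd ((d m).1, (d m).2, e m, e' m)) + S s.2 - S s.1 + y) := by
    rw [avg_comm (ι := ιP × ιP) (κ := M → Bool)]
    congr 1
    funext e
    rw [avg_comm]
  refine h3.trans ?_
  congr 1
  funext p
  rw [row_rep_aux]




/-! #### row_loss -/


theorem row_loss (x y : ℤ) :
    BG L a b f P S D x 0 - BG L a b f P S D x y =
      1 / 2 * avg fun d : M → Bool × Bool => avg fun p : ιP × ιP =>
        ‖PSys.tau (b * y) (Wrow L a b f S D d (hrow L P D d p + x)) -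
          Wrow L a b f S D d (hrow L P D d p + x)‖ ^ 2 := by
  rw [row_rep, row_rep, ← avg_sub, ← avg_mul_left]
  congr 1
  funext d
  rw [← avg_sub, ← avg_mul_left]
  congr 1
  funext p
  rw [mul_zero, PSys.tau_zero, re_inner_self, norm_sub_sq_re, norm_tau, re_inner_comm]
  ring



/-! #### W_ni -/


theorem W_ni_norm_avg {κ : Type} [Fintype κ] [Nonempty κ] (g : κ → A) (C : ℝ)
    (h : ∀ i, ‖g i‖ ≤ C) : ‖avg g‖ ≤ C :=
  (norm_avg_le g).trans (avg_le _ C h)

theorem W_ni_norm {κ : Type} [Fintype κ] [Nonempty κ] {σ : Type} [Fintype σ] [Nonempty σ]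
    (q : ℤ) (Z : A) (hZ : ‖Z‖ ≤ 1) (R : σ → ℤ) (ℓ : κ → ℤ) :
    ‖avg fun e : κ => avg fun s : σ => PSys.tau (q * (ℓ e + R s)) Z‖ ≤ 1 := by
  apply W_ni_norm_avg
  intro e
  apply W_ni_norm_avg
  intro s
  rw [norm_tau]
  exact hZ

theorem W_ni_main {κ : Type} [Fintype κ] [Nonempty κ] {σ : Type} [Fintype σ] [Nonempty σ]
    (q : ℤ) (Z : A) (hZ : ‖Z‖ ≤ 1) (R : σ → ℤ) (ℓ : κ → ℤ) (ω : ℝ) (c : ℤ) (hc : NI R ω c) :
    ‖PSys.tau (q * c) (avg fun e : κ => avg fun s : σ => PSys.tau (q * (ℓ e + R s)) Z)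
      - avg fun e : κ => avg fun s : σ => PSys.tau (q * (ℓ e + R s)) Z‖ ≤ ω := by
  rw [tau_avg, ← avg_sub]
  apply W_ni_norm_avg
  intro e
  rw [tau_avg]
  have h1 := hc.norm (fun n => PSys.tau (q * (ℓ e + n)) Z) (fun n => by rw [norm_tau]; exact hZ)
  have h2 : (fun s : σ => PSys.tau (q * c) (PSys.tau (q * (ℓ e + R s)) Z))
      = fun s : σ => PSys.tau (q * (ℓ e + (R s + c))) Z := by
    funext s
    rw [tau_tau]
    congr 2
    ring
  rw [h2]
  exact h1

theorem norm_Wrow_le (hf : f ∈ PSys.ball) (d : M → Bool × Bool) (h : ℤ) :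
    ‖Wrow L a b f S D d h‖ ≤ 1 := by
  exact W_ni_norm b (Zf a f h) (norm_Zf_le a f hf h) S _

theorem Wrow_ni (hf : f ∈ PSys.ball) (d : M → Bool × Bool) (h : ℤ) (ω : ℝ) (c : ℤ)
    (hc : NI S ω c) :
    ‖PSys.tau (b * c) (Wrow L a b f S D d h) - Wrow L a b f S D d h‖ ≤ ω := by
  exact W_ni_main b (Zf a f h) (norm_Zf_le a f hf h) S _ ω c hc

theorem norm_Vcol_le (hf : f ∈ PSys.ball) (κ : M → ℤ) (k : ℤ) :
    ‖Vcol L a b f P D κ k‖ ≤ 1 := by
  exact W_ni_norm a (Zf b f k) (norm_Zf_le b f hf k) P _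

theorem Vcol_ni (hf : f ∈ PSys.ball) (κ : M → ℤ) (k : ℤ) (ω : ℝ) (c : ℤ)
    (hc : NI P ω c) :
    ‖PSys.tau (a * c) (Vcol L a b f P D κ k) - Vcol L a b f P D κ k‖ ≤ ω := by
  exact W_ni_main a (Zf b f k) (norm_Zf_le b f hf k) P _ ω c hc



/-! #### col_rep -/


/-- representative mod `3` of an integer between `-2` and `2` -/
def col_rep_red (n : ℤ) : ℤ := if n = 2 then -1 else if n = -2 then 1 else n

/-- the carry -/
def col_rep_e (n : ℤ) : ℤ := if n = 2 then 1 else if n = -2 then -1 else 0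

theorem col_rep_red_eq (n : ℤ) : col_rep_red n = n - 3 * col_rep_e n := by
  unfold col_rep_red col_rep_e
  split_ifs <;> omega

theorem col_rep_e_abs (n : ℤ) : |col_rep_e n| ≤ 1 := by
  unfold col_rep_e
  split_ifs <;> norm_num

/-- digits of the energy -/
def col_rep_g (w : B4) : ℤ × ℤ := (hd w, kd w)

/-- digits of the column form -/
def col_rep_g' (z : B4 × Fin 3 × Fin 3) : ℤ × ℤ :=
  (if kd z.1 = 0 then col_rep_red (((z.2.2 : ℕ) : ℤ) - ((z.2.1 : ℕ) : ℤ)) else 0, kd z.1)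

set_option maxRecDepth 100000 in
theorem col_rep_law : SameLaw col_rep_g col_rep_g' := by
  refine SameLaw.of_count _ _ ?_
  decide +kernel

/-- the equivalence of index sets -/
def col_rep_equiv (M : Type) :
    (M → B4 × Fin 3 × Fin 3) ≃ (M → B4) × (M → Fin 3) × (M → Fin 3) where
  toFun z := (fun m => (z m).1, fun m => (z m).2.1, fun m => (z m).2.2)
  invFun t := fun m => (t.1 m, t.2.1 m, t.2.2 m)
  left_inv _ := rfl
  right_inv _ := rfl

theorem col_rep_split (F : (M → B4) → (M → Fin 3) → (M → Fin 3) → ℝ) :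
    avg (fun z : M → B4 × Fin 3 × Fin 3 =>
      F (fun m => (z m).1) (fun m => (z m).2.1) (fun m => (z m).2.2))
      = avg fun w => avg fun c => avg fun c' => F w c c' := by
  have h1 := avg_equiv (col_rep_equiv M)
    (fun t : (M → B4) × (M → Fin 3) × (M → Fin 3) => F t.1 t.2.1 t.2.2)
  have h2 : avg (fun z : M → B4 × Fin 3 × Fin 3 =>
      F (fun m => (z m).1) (fun m => (z m).2.1) (fun m => (z m).2.2))
      = avg (fun t : (M → B4) × (M → Fin 3) × (M → Fin 3) => F t.1 t.2.1 t.2.2) := h1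
  rw [h2, avg_prod]
  refine congrArg avg (funext fun w => ?_)
  rw [avg_prod]

theorem col_rep_reorder {σ γ π : Type} [Fintype σ] [Fintype γ] [Fintype π]
    (G : σ → γ → π → γ → π → ℝ) :
    (avg fun s => avg fun c => avg fun p => avg fun c' => avg fun p' => G s c p c' p')
      = avg fun c => avg fun c' => avg fun p => avg fun p' => avg fun s => G s c p c' p' := by
  rw [avg_comm]
  refine congrArg avg (funext fun c => ?_)
  have h1 : (avg fun s => avg fun p => avg fun c' => avg fun p' => G s c p c' p')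
      = avg fun s => avg fun c' => avg fun p => avg fun p' => G s c p c' p' := by
    refine congrArg avg (funext fun s => ?_)
    rw [avg_comm]
  rw [h1, avg_comm]
  refine congrArg avg (funext fun c' => ?_)
  rw [avg_comm]
  refine congrArg avg (funext fun p => ?_)
  rw [avg_comm]

/-- one term of the column form -/
theorem col_rep_inner (h1 h2 x k : ℤ) :
    (⟪PSys.tau (a * h1) (Zf b f k), PSys.tau (a * x) (PSys.tau (a * h2) (Zf b f k))⟫_ℂ).re
      = beta a b f (h2 - h1 + x) k := by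
  rw [beta_col, tau_tau]
  have e : a * x + a * h2 = a * h1 + a * (h2 - h1 + x) := by ring
  rw [e, ← tau_tau, inner_tau]

theorem col_rep_V (κ : M → ℤ) (x k : ℤ) :
    (⟪Vcol L a b f P D κ k, PSys.tau (a * x) (Vcol L a b f P D κ k)⟫_ℂ).re
      = avg fun c : M → Fin 3 => avg fun p : ιP => avg fun c' : M → Fin 3 => avg fun p' : ιP =>
        beta a b f (lin L D (fun m => if κ m = 0 then ((c' m : ℕ) : ℤ) - ((c m : ℕ) : ℤ) else 0)
          + P p' - P p + x) k := by
  unfold Vcol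
  rw [re_inner_avg_left]
  refine congrArg avg (funext fun c => ?_)
  rw [re_inner_avg_left]
  refine congrArg avg (funext fun p => ?_)
  rw [tau_avg, re_inner_avg_right]
  refine congrArg avg (funext fun c' => ?_)
  rw [tau_avg, re_inner_avg_right]
  refine congrArg avg (funext fun p' => ?_)
  rw [col_rep_inner]
  congr 1
  have e : (fun m => if κ m = 0 then ((c' m : ℕ) : ℤ) - ((c m : ℕ) : ℤ) else 0)
      = fun m => (if κ m = 0 then ((c' m : ℕ) : ℤ) else 2)
        - (if κ m = 0 then ((c m : ℕ) : ℤ) else 2) := by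
    funext m
    split_ifs
    · rfl
    · ring
  rw [e, lin_sub]
  ring

/-- the column form as an average over all the variables -/
theorem col_rep_Bc (x y : ℤ) :
    Bc L a b f P S D x y = avg fun w : M → B4 => avg fun c : M → Fin 3 => avg fun c' : M → Fin 3 =>
      avg fun p : ιP => avg fun p' : ιP => avg fun s : ιS × ιS =>
        beta a b f (lin L D (fun m => if kd (w m) = 0 then ((c' m : ℕ) : ℤ) - ((c m : ℕ) : ℤ)
          else 0) + P p' - P p + x) (kcol L S D w s + y) := by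
  unfold Bc
  refine congrArg avg (funext fun w => ?_)
  rw [← col_rep_reorder (fun (s : ιS × ιS) (c : M → Fin 3) (p : ιP) (c' : M → Fin 3) (p' : ιP) =>
    beta a b f (lin L D (fun m => if kd (w m) = 0 then ((c' m : ℕ) : ℤ) - ((c m : ℕ) : ℤ)
          else 0) + P p' - P p + x) (kcol L S D w s + y))]
  refine congrArg avg (funext fun s => ?_)
  rw [col_rep_V]

/-- the energy as an average over all the variables -/
theorem col_rep_BG (x y : ℤ) :
    BG L a b f P S D x y = avg fun w : M → B4 => avg fun c : M → Fin 3 => avg fun c' : M → Fin 3 =>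
      avg fun p : ιP => avg fun p' : ιP => avg fun s : ιS × ιS =>
        beta a b f (lin L D (fun m => if kd (w m) = 0 then
          col_rep_red (((c' m : ℕ) : ℤ) - ((c m : ℕ) : ℤ)) else 0) + P p' - P p + x)
          (kcol L S D w s + y) := by
  have h1 := SameLaw.avg_pi (M := M) col_rep_law (fun X : M → ℤ × ℤ =>
    avg fun p : ιP × ιP => avg fun s : ιS × ιS =>
      beta a b f (lin L D (fun m => (X m).1) + P p.2 - P p.1 + x)
        (lin L D (fun m => (X m).2) + S s.2 - S s.1 + y))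
  have h2 : BG L a b f P S D x y = avg (fun w : M → B4 => (fun X : M → ℤ × ℤ =>
    avg fun p : ιP × ιP => avg fun s : ιS × ιS =>
      beta a b f (lin L D (fun m => (X m).1) + P p.2 - P p.1 + x)
        (lin L D (fun m => (X m).2) + S s.2 - S s.1 + y)) (fun m => col_rep_g (w m))) := rfl
  rw [h2, h1]
  rw [← col_rep_split (fun (w : M → B4) (c c' : M → Fin 3) =>
    avg fun p : ιP => avg fun p' : ιP => avg fun s : ιS × ιS =>
        beta a b f (lin L D (fun m => if kd (w m) = 0 then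
          col_rep_red (((c' m : ℕ) : ℤ) - ((c m : ℕ) : ℤ)) else 0) + P p' - P p + x)
          (kcol L S D w s + y))]
  refine congrArg avg (funext fun z => ?_)
  rw [avg_prod]
  rfl

/-- the energy agrees with its column version up to `ω` -/
theorem col_rep (hf : f ∈ PSys.ball) (ω : ℝ) (hP : NI3 L P ω) (x y : ℤ) :
    |BG L a b f P S D x y - Bc L a b f P S D x y| ≤ ω := by
  rw [col_rep_BG, col_rep_Bc, ← avg_sub]
  refine (abs_avg_le _).trans (avg_le _ _ fun w => ?_)
  rw [← avg_sub]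
  refine (abs_avg_le _).trans (avg_le _ _ fun c => ?_)
  rw [← avg_sub]
  refine (abs_avg_le _).trans (avg_le _ _ fun c' => ?_)
  rw [← avg_sub]
  refine (abs_avg_le _).trans (avg_le _ _ fun p => ?_)
  rw [avg_comm (fun (p' : ιP) (s : ιS × ιS) => beta a b f (lin L D (fun m => if kd (w m) = 0 then
          col_rep_red (((c' m : ℕ) : ℤ) - ((c m : ℕ) : ℤ)) else 0) + P p' - P p + x)
          (kcol L S D w s + y)),
    avg_comm (fun (p' : ιP) (s : ιS × ιS) => beta a b f (lin L D (fun m => if kd (w m) = 0 then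
          ((c' m : ℕ) : ℤ) - ((c m : ℕ) : ℤ) else 0) + P p' - P p + x)
          (kcol L S D w s + y)), ← avg_sub]
  refine (abs_avg_le _).trans (avg_le _ _ fun s => ?_)
  -- the shift
  set e : M → ℤ := fun m => if kd (w m) = 0 then
    - col_rep_e (((c' m : ℕ) : ℤ) - ((c m : ℕ) : ℤ)) else 0 with he
  have hni := hP.lin L D e (by
    intro m _
    rw [he]
    simp only
    split_ifs
    · rw [abs_neg]
      exact (col_rep_e_abs _).trans (by norm_num)
    · norm_num)
  have hlin : lin L D (fun m => if kd (w m) = 0 then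
          col_rep_red (((c' m : ℕ) : ℤ) - ((c m : ℕ) : ℤ)) else 0)
      = lin L D (fun m => if kd (w m) = 0 then ((c' m : ℕ) : ℤ) - ((c m : ℕ) : ℤ) else 0)
        + 3 * lin L D e := by
    rw [← lin_mul, ← lin_add]
    congr 1
    funext m
    rw [he]
    simp only
    split_ifs
    · rw [col_rep_red_eq]
      ring
    · ring
  have hfin := hni (fun n => beta a b f (lin L D (fun m => if kd (w m) = 0 then
    ((c' m : ℕ) : ℤ) - ((c m : ℕ) : ℤ) else 0) + n - P p + x) (kcol L S D w s + y))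
    (fun n => beta_abs_le a b f hf _ _)
  rw [hlin]
  have h3 : (avg fun p' : ιP => beta a b f (lin L D (fun m => if kd (w m) = 0 then
      ((c' m : ℕ) : ℤ) - ((c m : ℕ) : ℤ) else 0) + 3 * lin L D e + P p' - P p + x)
      (kcol L S D w s + y))
      = avg fun p' : ιP => beta a b f (lin L D (fun m => if kd (w m) = 0 then
      ((c' m : ℕ) : ℤ) - ((c m : ℕ) : ℤ) else 0) + (P p' + 3 * lin L D e) - P p + x)
      (kcol L S D w s + y) := by
    refine congrArg avg (funext fun p' => ?_)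
    congr 1
    ring
  rw [h3]
  exact hfin



/-! #### col_loss -/


theorem col_loss (x y : ℤ) :
    Bc L a b f P S D 0 y - Bc L a b f P S D x y =
      1 / 2 * avg fun w : M → B4 => avg fun s : ιS × ιS =>
        ‖PSys.tau (a * x) (Vcol L a b f P D (fun m => kd (w m)) (kcol L S D w s + y)) -
          Vcol L a b f P D (fun m => kd (w m)) (kcol L S D w s + y)‖ ^ 2 := by
  unfold Bc
  rw [← avg_sub, ← avg_mul_left]
  congr 1
  funext w
  rw [← avg_sub, ← avg_mul_left]
  congr 1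
  funext s
  rw [mul_zero, PSys.tau_zero, re_inner_self, norm_sub_sq_re, norm_tau,
    re_inner_comm (PSys.tau (a * x) (Vcol L a b f P D (fun m => kd (w m)) (kcol L S D w s + y)))]
  ring



/-! #### BG_le -/


theorem BG_le_row (x y : ℤ) : BG L a b f P S D x y ≤ BG L a b f P S D x 0 := by
  have h := row_loss L a b f P S D x y
  have h2 : 0 ≤ avg fun d : M → Bool × Bool => avg fun p : ιP × ιP =>
        ‖PSys.tau (b * y) (Wrow L a b f S D d (hrow L P D d p + x)) -
          Wrow L a b f S D d (hrow L P D d p + x)‖ ^ 2 :=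
    avg_nonneg _ fun d => avg_nonneg _ fun p => by positivity
  linarith

theorem BG_le_col (hf : f ∈ PSys.ball) (ω : ℝ) (hP : NI3 L P ω) (x y : ℤ) :
    BG L a b f P S D x y ≤ BG L a b f P S D 0 y + 2 * ω := by
  have h1 := abs_le.1 (col_rep L a b f P S D hf ω hP x y)
  have h2 := abs_le.1 (col_rep L a b f P S D hf ω hP 0 y)
  have h3 := col_loss L a b f P S D x y
  have h4 : 0 ≤ avg fun w : M → B4 => avg fun s : ιS × ιS =>
        ‖PSys.tau (a * x) (Vcol L a b f P D (fun m => kd (w m)) (kcol L S D w s + y)) -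
          Vcol L a b f P D (fun m => kd (w m)) (kcol L S D w s + y)‖ ^ 2 :=
    avg_nonneg _ fun w => avg_nonneg _ fun s => by positivity
  linarith [h1.1, h1.2, h2.1, h2.2]

theorem BG_le (hf : f ∈ PSys.ball) (ω : ℝ) (hP : NI3 L P ω) (x y : ℤ) :
    BG L a b f P S D x y ≤ BG L a b f P S D 0 0 + 2 * ω :=
  (BG_le_row L a b f P S D x y).trans (BG_le_col L a b f P S D hf ω hP x 0)



/-! #### BG_split -/


theorem BG_split (R' : Finset M) (hd' : Disjoint D R') (x y : ℤ) :
    BG L a b f P S (D ∪ R') x y = avg fun w : M → B4 =>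
      BG L a b f P S D (x + lin L R' (fun m => hd (w m))) (y + lin L R' (fun m => kd (w m))) := by
  have key : ∀ (g : B4 → ℤ) (w1 w2 : M → B4),
      lin L (D ∪ R') (fun m => g (R'.piecewise w1 w2 m)) =
        lin L D (fun m => g (w2 m)) + lin L R' (fun m => g (w1 m)) := by
    intro g w1 w2
    rw [lin_union L D R' hd']
    congr 1
    · refine lin_congr L D _ _ (fun m hm => ?_)
      rw [Finset.piecewise_eq_of_notMem _ _ _ (Finset.disjoint_left.mp hd' hm)]
    · refine lin_congr L R' _ _ (fun m hm => ?_)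
      rw [Finset.piecewise_eq_of_mem _ _ _ hm]
  unfold BG
  rw [avg_piecewise R']
  refine congrArg avg (funext fun w1 => ?_)
  refine congrArg avg (funext fun w2 => ?_)
  refine congrArg avg (funext fun p => ?_)
  refine congrArg avg (funext fun s => ?_)
  rw [key hd w1 w2, key kd w1 w2]
  congr 1 <;> ring



/-! #### BG_mono -/


theorem BG_mono (hf : f ∈ PSys.ball) (ω : ℝ) (hP : NI3 L P ω) (R' : Finset M)
    (hd' : Disjoint D R') :
    BG L a b f P S (D ∪ R') 0 0 ≤ BG L a b f P S D 0 0 + 2 * ω := by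
  rw [BG_split L a b f P S D R' hd' 0 0]
  exact avg_le _ _ fun w => BG_le L a b f P S D hf ω hP _ _



/-! #### lossA -/


theorem lossA_h1 : avg (fun n : B4 => if kd n = 1 then (1 : ℝ) else 0) = 1 / 8 := by
  unfold avg
  have h : (∑ i : B4, if kd i = 1 then (1:ℝ) else 0) = 2 := by
    rw [Finset.sum_boole]
    have : (Finset.univ.filter (fun i : B4 => kd i = 1)).card = 2 := by decide
    rw [this]
    norm_num
  have hc : Fintype.card B4 = 16 := by decide
  rw [h, hc, smul_eq_mul]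
  norm_num

theorem lossA_h2 : avg (fun n : B4 => if kd n = -1 then (1 : ℝ) else 0) = 1 / 8 := by
  unfold avg
  have h : (∑ i : B4, if kd i = -1 then (1:ℝ) else 0) = 2 := by
    rw [Finset.sum_boole]
    have : (Finset.univ.filter (fun i : B4 => kd i = -1)).card = 2 := by decide
    rw [this]
    norm_num
  have hc : Fintype.card B4 = 16 := by decide
  rw [h, hc, smul_eq_mul]
  norm_num

theorem lossA_h0 : ∀ w : B4, kd w = 0 ∨ kd w = 1 ∨ kd w = -1 := by decide

theorem lossA (hf : f ∈ PSys.ball) (ω ε : ℝ) (hω : ω ≤ 1) (hε : 0 ≤ ε) (hP : NI3 L P ω)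
    (hS : NI3 L S ω) (R' : Finset M) (hd' : Disjoint D R')
    (hl : BG L a b f P S D 0 0 - BG L a b f P S (D ∪ R') 0 0 ≤ ε)
    (c : M → ℤ) (hc : ∀ m, |c m| ≤ 24) :
    BG L a b f P S D 0 0 - BG L a b f P S D 0 (lin L R' c) ≤ 200 * (ε + ω) := by
  have hω0 : 0 ≤ ω := NI.nonneg (hP (fun _ => 0) (by intro m; simp))
  obtain ⟨W, hW⟩ : ∃ W : (M → Bool × Bool) → (ιP × ιP) → A,
      ∀ d p, W d p = Wrow L a b f S D d (hrow L P D d p + 0) := ⟨_, fun _ _ => rfl⟩
  have hrow : ∀ y : ℤ, BG L a b f P S D 0 0 - BG L a b f P S D 0 y =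
      1 / 2 * avg fun d : M → Bool × Bool => avg fun p : ιP × ιP =>
        ‖PSys.tau (b * y) (W d p) - W d p‖ ^ 2 := by
    intro y
    rw [row_loss]
    simp only [hW]
  have hsplit := BG_split L a b f P S D R' hd' 0 0
  have hmono : (avg fun w : M → B4 =>
      BG L a b f P S D (0 + lin L R' (fun m => hd (w m))) (0 + lin L R' (fun m => kd (w m)))) ≤
      avg fun w : M → B4 => (BG L a b f P S D 0 (lin L R' (fun m => kd (w m))) + 2 * ω) := by
    apply avg_mono
    intro w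
    rw [zero_add, zero_add]
    exact BG_le_col L a b f P S D hf ω hP _ _
  have hconst : (avg fun w : M → B4 =>
      (BG L a b f P S D 0 0 - (BG L a b f P S D 0 0 -
        (BG L a b f P S D 0 (lin L R' (fun m => kd (w m))) + 2 * ω)))) =
      avg fun w : M → B4 => (BG L a b f P S D 0 (lin L R' (fun m => kd (w m))) + 2 * ω) := by
    congr 1
    funext w
    ring
  obtain ⟨lam, hlam⟩ : ∃ lam : (M → Bool × Bool) → (ιP × ιP) → ℝ, ∀ d p, lam d p =
      avg fun w : M → B4 =>
        ‖PSys.tau (b * lin L R' (fun m => kd (w m))) (W d p) - W d p‖ ^ 2 := ⟨_, fun _ _ => rfl⟩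
  have hdiff : (avg fun w : M → B4 =>
      (BG L a b f P S D 0 0 - (BG L a b f P S D 0 (lin L R' (fun m => kd (w m))) + 2 * ω))) =
      1 / 2 * (avg fun d : M → Bool × Bool => avg fun p : ιP × ιP => lam d p) - 2 * ω := by
    have h1 : (fun w : M → B4 =>
        (BG L a b f P S D 0 0 - (BG L a b f P S D 0 (lin L R' (fun m => kd (w m))) + 2 * ω))) =
        fun w : M → B4 => (1 / 2 * avg fun d : M → Bool × Bool => avg fun p : ιP × ιP =>
        ‖PSys.tau (b * lin L R' (fun m => kd (w m))) (W d p) - W d p‖ ^ 2) - 2 * ω := by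
      funext w
      rw [← hrow]
      ring
    rw [h1, avg_sub, avg_const, avg_mul_left, avg_comm]
    congr 3
    funext d
    rw [avg_comm]
    congr 1
    funext p
    rw [hlam]
  have hLam : (avg fun d : M → Bool × Bool => avg fun p : ιP × ιP => lam d p) ≤
      2 * ε + 4 * ω := by
    rw [hsplit] at hl
    rw [← hconst, avg_sub, avg_const, hdiff] at hmono
    linarith
  have hgap : ∀ d p, ‖PSys.tau (b * lin L R' c) (W d p) - W d p‖ ^ 2 ≤
      64 * (lam d p + ω ^ 2) := by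
    intro d p
    have h1 := gapw L b (W d p) R' (N := B4) kd (1 / 8) (by norm_num) (by norm_num) lossA_h0
      lossA_h1 lossA_h2 ω (by
        intro e he
        rw [hW]
        exact Wrow_ni L a b f S D hf d _ ω _ (NI3.lin L hS R' e (fun m _ => he m))) c hc
    rw [← hlam] at h1
    have h2 : (8 : ℝ) / (1 / 8) = 64 := by norm_num
    rw [h2] at h1
    exact h1
  rw [hrow]
  have hfin : (avg fun d : M → Bool × Bool => avg fun p : ιP × ιP =>
      ‖PSys.tau (b * lin L R' c) (W d p) - W d p‖ ^ 2) ≤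
      avg fun d : M → Bool × Bool => avg fun p : ιP × ιP => 64 * (lam d p + ω ^ 2) :=
    avg_mono _ _ (fun d => avg_mono _ _ (fun p => hgap d p))
  have hfin2 : (avg fun d : M → Bool × Bool => avg fun p : ιP × ιP => 64 * (lam d p + ω ^ 2)) =
      64 * ((avg fun d : M → Bool × Bool => avg fun p : ιP × ιP => lam d p) + ω ^ 2) := by
    have h1 : ∀ d : M → Bool × Bool, (avg fun p : ιP × ιP => 64 * (lam d p + ω ^ 2)) =
        64 * ((avg fun p : ιP × ιP => lam d p) + ω ^ 2) := by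
      intro d
      rw [avg_mul_left, avg_add, avg_const]
    simp only [h1]
    rw [avg_mul_left, avg_add, avg_const]
  rw [hfin2] at hfin
  nlinarith



/-! #### lossB -/


omit [Fintype M] [DecidableEq M] in
theorem lossB_hd (n : B4) : hd n = 0 ∨ hd n = 1 ∨ hd n = -1 := by
  obtain ⟨d, d', e, e'⟩ := n
  cases d <;> cases d' <;> simp [hd, bz]

omit [Fintype M] [DecidableEq M] in
theorem lossB_q1 : avg (fun n : B4 => if hd n = 1 then (1 : ℝ) else 0) = 1 / 4 := by
  unfold avg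
  simp only [Fintype.card_prod, Fintype.card_bool, Fintype.sum_prod_type, Fintype.sum_bool]
  simp [hd, bz]
  norm_num

omit [Fintype M] [DecidableEq M] in
theorem lossB_q2 : avg (fun n : B4 => if hd n = -1 then (1 : ℝ) else 0) = 1 / 4 := by
  unfold avg
  simp only [Fintype.card_prod, Fintype.card_bool, Fintype.sum_prod_type, Fintype.sum_bool]
  simp [hd, bz]
  norm_num

theorem lossB (hf : f ∈ PSys.ball) (ω ε : ℝ) (hω : ω ≤ 1) (hε : 0 ≤ ε) (hP : NI3 L P ω)
    (R' : Finset M) (hd' : Disjoint D R')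
    (hl : BG L a b f P S D 0 0 - BG L a b f P S (D ∪ R') 0 0 ≤ ε)
    (c : M → ℤ) (hc : ∀ m, |c m| ≤ 24) :
    Bc L a b f P S D 0 0 - Bc L a b f P S D (lin L R' c) 0 ≤ 200 * (ε + ω) := by
  have hω0 : 0 ≤ ω := (hP (fun _ => 0) (by simp)).nonneg
  -- the quadratic loss
  let V : (M → B4) → ιS × ιS → A := fun w s =>
    Vcol L a b f P D (fun m => kd (w m)) (kcol L S D w s + 0)
  let nn : (M → B4) → ιS × ιS → ℤ → ℝ := fun w s x =>
    ‖PSys.tau (a * x) (V w s) - V w s‖ ^ 2
  have hG : ∀ x : ℤ, Bc L a b f P S D 0 0 - Bc L a b f P S D x 0 =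
      1 / 2 * avg fun w : M → B4 => avg fun s : ιS × ιS => nn w s x :=
    fun x => col_loss L a b f P S D x 0
  have h1 := BG_split L a b f P S D R' hd' 0 0
  have h2 : avg (fun w : M → B4 =>
      BG L a b f P S D (0 + lin L R' (fun m => hd (w m))) (0 + lin L R' (fun m => kd (w m)))) ≤
      avg (fun w : M → B4 => BG L a b f P S D (0 + lin L R' (fun m => hd (w m))) 0) :=
    avg_mono _ _ (fun w => BG_le_row L a b f P S D _ _)
  have h3 : ∀ w : M → B4,
      1 / 2 * (avg fun w' : M → B4 => avg fun s : ιS × ιS =>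
        nn w' s (0 + lin L R' (fun m => hd (w m)))) ≤
      (BG L a b f P S D 0 0 - BG L a b f P S D (0 + lin L R' (fun m => hd (w m))) 0) + 2 * ω := by
    intro w
    rw [← hG]
    have a1 := abs_le.mp (col_rep L a b f P S D hf ω hP 0 0)
    have a2 := abs_le.mp (col_rep L a b f P S D hf ω hP (0 + lin L R' (fun m => hd (w m))) 0)
    linarith [a1.1, a1.2, a2.1, a2.2]
  have h4 := avg_mono _ _ h3
  rw [avg_mul_left, avg_add, avg_sub, avg_const, avg_const] at h4
  have h5 : (avg fun w : M → B4 => avg fun w' : M → B4 => avg fun s : ιS × ιS =>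
      nn w' s (0 + lin L R' (fun m => hd (w m)))) ≤ 2 * (ε + 2 * ω) := by
    linarith
  -- the gap inequality
  have h6 : ∀ (w' : M → B4) (s : ιS × ιS), nn w' s (lin L R' c) ≤
      32 * ((avg fun w : M → B4 => nn w' s (0 + lin L R' (fun m => hd (w m)))) + ω ^ 2) := by
    intro w' s
    have hg := gapw L a (V w' s) R' (N := B4) hd (1 / 4) (by norm_num) (by norm_num) lossB_hd
      lossB_q1 lossB_q2 ω (fun e he => Vcol_ni L a b f P D hf _ _ ω _
        (NI3.lin L hP R' e (fun m _ => he m))) c hc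
    have e1 : (8 : ℝ) / (1 / 4) = 32 := by norm_num
    rw [e1] at hg
    simp only [zero_add]
    exact hg
  have h7 : (avg fun w' : M → B4 => avg fun s : ιS × ιS => nn w' s (lin L R' c)) ≤
      32 * ((avg fun w' : M → B4 => avg fun s : ιS × ιS => avg fun w : M → B4 =>
        nn w' s (0 + lin L R' (fun m => hd (w m)))) + ω ^ 2) := by
    refine (avg_mono _ _ (fun w' => avg_mono _ _ (h6 w'))).trans (le_of_eq ?_)
    have e2 : ∀ w' : M → B4, (avg fun s : ιS × ιS =>
        32 * ((avg fun w : M → B4 => nn w' s (0 + lin L R' (fun m => hd (w m)))) + ω ^ 2)) =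
        32 * ((avg fun s : ιS × ιS => avg fun w : M → B4 =>
          nn w' s (0 + lin L R' (fun m => hd (w m)))) + ω ^ 2) := by
      intro w'
      rw [avg_mul_left, avg_add, avg_const]
    simp only [e2]
    rw [avg_mul_left, avg_add, avg_const]
  have h8 : (avg fun w' : M → B4 => avg fun s : ιS × ιS => avg fun w : M → B4 =>
        nn w' s (0 + lin L R' (fun m => hd (w m)))) =
      avg fun w : M → B4 => avg fun w' : M → B4 => avg fun s : ιS × ιS =>
        nn w' s (0 + lin L R' (fun m => hd (w m))) := by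
    have e3 : ∀ w' : M → B4, (avg fun s : ιS × ιS => avg fun w : M → B4 =>
        nn w' s (0 + lin L R' (fun m => hd (w m)))) =
        avg fun w : M → B4 => avg fun s : ιS × ιS =>
          nn w' s (0 + lin L R' (fun m => hd (w m))) := fun w' => avg_comm _
    simp only [e3]
    rw [avg_comm]
  rw [hG]
  rw [h8] at h7
  nlinarith



/-! #### lossC -/


/-- digits `0, 1, -1` -/
def lossC_nu (n : Fin 3) : ℤ := if n = 1 then 1 else if n = 2 then -1 else 0

theorem lossC_nu_vals (n : Fin 3) : lossC_nu n = 0 ∨ lossC_nu n = 1 ∨ lossC_nu n = -1 := by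
  revert n; decide

theorem lossC_nu_one : avg (fun n : Fin 3 => if lossC_nu n = 1 then (1 : ℝ) else 0) = 1 / 3 := by
  unfold avg
  rw [Fin.sum_univ_three]
  simp [lossC_nu]

theorem lossC_nu_neg : avg (fun n : Fin 3 => if lossC_nu n = -1 then (1 : ℝ) else 0) = 1 / 3 := by
  unfold avg
  rw [Fin.sum_univ_three]
  simp [lossC_nu]

/-- the pair of digits -/
def lossC_g (p : B4 × Fin 3) : ℤ × ℤ := (if kd p.1 = 0 then lossC_nu p.2 else 0, kd p.1)

/-- the pair of digits -/
def lossC_g' (w : B4) : ℤ × ℤ := (hd w, kd w)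

theorem lossC_same : SameLaw lossC_g lossC_g' := by
  apply SameLaw.of_count
  decide

/-- the energy loss -/
noncomputable def lossC_lam (R' : Finset M) (K : M → ℤ) : ℝ :=
  avg fun w : M → B4 => avg fun s : ιS × ιS => avg fun y : M → Fin 3 =>
    ‖PSys.tau (a * lin L (R'.filter (fun m => K m = 0)) (fun m => lossC_nu (y m)))
      (Vcol L a b f P D (fun m => kd (w m)) (kcol L S D w s + lin L R' K)) -
      Vcol L a b f P D (fun m => kd (w m)) (kcol L S D w s + lin L R' K)‖ ^ 2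

theorem lossC_step1 (hf : f ∈ PSys.ball) (ω : ℝ) (hP : NI3 L P ω) (R' : Finset M)
    (K c : M → ℤ) (hc : ∀ m, |c m| ≤ 24) (h0 : ∀ m, K m ≠ 0 → c m = 0) :
    Bc L a b f P S D 0 (lin L R' K) - Bc L a b f P S D (lin L R' c) (lin L R' K) ≤
      12 * (lossC_lam L a b f P S D R' K + ω ^ 2) := by
  have hlin : lin L R' c = lin L (R'.filter (fun m => K m = 0)) c := by
    unfold lin
    rw [Finset.sum_filter]
    apply Finset.sum_congr rfl
    intro m _
    by_cases h : K m = 0
    · rw [if_pos h]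
    · rw [if_neg h, h0 m h, zero_mul]
  rw [col_loss]
  have hpt : ∀ (w : M → B4) (s : ιS × ιS),
      ‖PSys.tau (a * lin L R' c)
        (Vcol L a b f P D (fun m => kd (w m)) (kcol L S D w s + lin L R' K)) -
        Vcol L a b f P D (fun m => kd (w m)) (kcol L S D w s + lin L R' K)‖ ^ 2 ≤
      24 * (avg fun y : M → Fin 3 =>
        ‖PSys.tau (a * lin L (R'.filter (fun m => K m = 0)) (fun m => lossC_nu (y m)))
        (Vcol L a b f P D (fun m => kd (w m)) (kcol L S D w s + lin L R' K)) -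
        Vcol L a b f P D (fun m => kd (w m)) (kcol L S D w s + lin L R' K)‖ ^ 2) + 24 * ω ^ 2 := by
    intro w s
    rw [hlin]
    have h := gapw L a (Vcol L a b f P D (fun m => kd (w m)) (kcol L S D w s + lin L R' K))
      (R'.filter (fun m => K m = 0)) lossC_nu (1 / 3) (by norm_num) le_rfl lossC_nu_vals
      lossC_nu_one lossC_nu_neg ω (by
        intro e he
        exact Vcol_ni L a b f P D hf _ _ ω _ (NI3.lin L hP _ e (fun m _ => he m))) c hc
    have e8 : (8 : ℝ) / (1 / 3) = 24 := by norm_num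
    rw [e8, mul_add] at h
    exact h
  have h1 : (avg fun w : M → B4 => avg fun s : ιS × ιS =>
        ‖PSys.tau (a * lin L R' c)
        (Vcol L a b f P D (fun m => kd (w m)) (kcol L S D w s + lin L R' K)) -
        Vcol L a b f P D (fun m => kd (w m)) (kcol L S D w s + lin L R' K)‖ ^ 2) ≤
      avg fun w : M → B4 => avg fun s : ιS × ιS => (24 * (avg fun y : M → Fin 3 =>
        ‖PSys.tau (a * lin L (R'.filter (fun m => K m = 0)) (fun m => lossC_nu (y m)))
        (Vcol L a b f P D (fun m => kd (w m)) (kcol L S D w s + lin L R' K)) -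
        Vcol L a b f P D (fun m => kd (w m)) (kcol L S D w s + lin L R' K)‖ ^ 2) + 24 * ω ^ 2) :=
    avg_mono _ _ (fun w => avg_mono _ _ (fun s => hpt w s))
  have h2 : (avg fun w : M → B4 => avg fun s : ιS × ιS => (24 * (avg fun y : M → Fin 3 =>
        ‖PSys.tau (a * lin L (R'.filter (fun m => K m = 0)) (fun m => lossC_nu (y m)))
        (Vcol L a b f P D (fun m => kd (w m)) (kcol L S D w s + lin L R' K)) -
        Vcol L a b f P D (fun m => kd (w m)) (kcol L S D w s + lin L R' K)‖ ^ 2) + 24 * ω ^ 2))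
      = 24 * lossC_lam L a b f P S D R' K + 24 * ω ^ 2 := by
    unfold lossC_lam
    rw [← avg_mul_left]
    have e1 : (24 : ℝ) * ω ^ 2 = avg (fun _ : M → B4 => 24 * ω ^ 2) := (avg_const _).symm
    conv_rhs => rw [e1]
    rw [← avg_add]
    congr 1
    funext w
    rw [← avg_mul_left]
    have e2 : (24 : ℝ) * ω ^ 2 = avg (fun _ : ιS × ιS => 24 * ω ^ 2) := (avg_const _).symm
    conv_rhs => rw [e2]
    rw [← avg_add]
  rw [h2] at h1
  linarith

theorem lossC_lam_eq (R' : Finset M) (K : M → ℤ) :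
    lossC_lam L a b f P S D R' K = avg fun y : M → Fin 3 =>
      2 * (Bc L a b f P S D 0 (lin L R' K) -
        Bc L a b f P S D (lin L R' (fun m => if K m = 0 then lossC_nu (y m) else 0))
          (lin L R' K)) := by
  have e1 : ∀ y : M → Fin 3, lin L R' (fun m => if K m = 0 then lossC_nu (y m) else 0) =
      lin L (R'.filter (fun m => K m = 0)) (fun m => lossC_nu (y m)) := by
    intro y
    unfold lin
    rw [Finset.sum_filter]
    apply Finset.sum_congr rfl
    intro m _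
    show (if K m = 0 then lossC_nu (y m) else 0) * L m =
      if K m = 0 then lossC_nu (y m) * L m else 0
    by_cases h : K m = 0
    · rw [if_pos h, if_pos h]
    · rw [if_neg h, if_neg h, zero_mul]
  have e2 : ∀ y : M → Fin 3, 2 * (Bc L a b f P S D 0 (lin L R' K) -
        Bc L a b f P S D (lin L R' (fun m => if K m = 0 then lossC_nu (y m) else 0))
          (lin L R' K)) = avg fun w : M → B4 => avg fun s : ιS × ιS =>
        ‖PSys.tau (a * lin L (R'.filter (fun m => K m = 0)) (fun m => lossC_nu (y m)))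
      (Vcol L a b f P D (fun m => kd (w m)) (kcol L S D w s + lin L R' K)) -
      Vcol L a b f P D (fun m => kd (w m)) (kcol L S D w s + lin L R' K)‖ ^ 2 := by
    intro y
    rw [col_loss, e1]
    ring
  have e3 : (fun y : M → Fin 3 => 2 * (Bc L a b f P S D 0 (lin L R' K) -
        Bc L a b f P S D (lin L R' (fun m => if K m = 0 then lossC_nu (y m) else 0))
          (lin L R' K))) = fun y : M → Fin 3 => avg fun w : M → B4 => avg fun s : ιS × ιS =>
        ‖PSys.tau (a * lin L (R'.filter (fun m => K m = 0)) (fun m => lossC_nu (y m)))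
      (Vcol L a b f P D (fun m => kd (w m)) (kcol L S D w s + lin L R' K)) -
      Vcol L a b f P D (fun m => kd (w m)) (kcol L S D w s + lin L R' K)‖ ^ 2 := funext e2
  rw [e3, avg_comm]
  unfold lossC_lam
  congr 1
  funext w
  rw [avg_comm]

theorem lossC_lam_avg (R' : Finset M) :
    (avg fun w : M → B4 => lossC_lam L a b f P S D R' (fun m => kd (w m))) =
      avg fun w : M → B4 => 2 * (Bc L a b f P S D 0 (lin L R' (fun m => kd (w m))) -
        Bc L a b f P S D (lin L R' (fun m => hd (w m))) (lin L R' (fun m => kd (w m)))) := by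
  set F : (M → ℤ × ℤ) → ℝ := fun q => 2 * (Bc L a b f P S D 0 (lin L R' (fun m => (q m).2)) -
        Bc L a b f P S D (lin L R' (fun m => (q m).1)) (lin L R' (fun m => (q m).2))) with hF
  have h1 : (avg fun w : M → B4 => lossC_lam L a b f P S D R' (fun m => kd (w m))) =
      avg fun w : M → B4 => avg fun y : M → Fin 3 => F (fun m => lossC_g (w m, y m)) := by
    congr 1
    funext w
    rw [lossC_lam_eq]
    rfl
  have h2 : (avg fun w : M → B4 => avg fun y : M → Fin 3 => F (fun m => lossC_g (w m, y m))) =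
      avg fun w : M → B4 × Fin 3 => F (fun m => lossC_g (w m)) := by
    rw [← avg_prod (fun p : (M → B4) × (M → Fin 3) => F (fun m => lossC_g (p.1 m, p.2 m)))]
    exact (avg_equiv (Equiv.arrowProdEquivProdArrow M (fun _ => B4) (fun _ => Fin 3))
      (fun p : (M → B4) × (M → Fin 3) => F (fun m => lossC_g (p.1 m, p.2 m)))).symm
  rw [h1, h2, SameLaw.avg_pi lossC_same F]
  rfl

theorem lossC (hf : f ∈ PSys.ball) (ω ε : ℝ) (hω : ω ≤ 1) (hε : 0 ≤ ε) (hP : NI3 L P ω)
    (R' : Finset M) (hd' : Disjoint D R')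
    (hl : BG L a b f P S D 0 0 - BG L a b f P S (D ∪ R') 0 0 ≤ ε)
    {κ : Type} [Fintype κ] [Nonempty κ] (u c : κ → ℤ) (hu : SameLaw u kd)
    (hc : ∀ i, |c i| ≤ 24) (h0 : ∀ i, u i ≠ 0 → c i = 0) :
    (avg fun w : M → κ => Bc L a b f P S D 0 (lin L R' (fun m => u (w m))) -
      Bc L a b f P S D (lin L R' (fun m => c (w m))) (lin L R' (fun m => u (w m)))) ≤
      200 * (ε + ω) := by
  have hω0 : 0 ≤ ω := by
    have h := hP (fun _ => 0) (fun m => by norm_num)
    exact h.nonneg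
  have hcard : Nonempty (M → B4) := ⟨fun _ => (false, false, false, false)⟩
  -- first step
  have h1 : (avg fun w : M → κ => Bc L a b f P S D 0 (lin L R' (fun m => u (w m))) -
      Bc L a b f P S D (lin L R' (fun m => c (w m))) (lin L R' (fun m => u (w m)))) ≤
      avg fun w : M → κ => 12 * (lossC_lam L a b f P S D R' (fun m => u (w m)) + ω ^ 2) :=
    avg_mono _ _ (fun w => lossC_step1 L a b f P S D hf ω hP R' (fun m => u (w m))
      (fun m => c (w m)) (fun m => hc _) (fun m => h0 _))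
  have h2 : (avg fun w : M → κ => 12 * (lossC_lam L a b f P S D R' (fun m => u (w m)) + ω ^ 2)) =
      avg fun w : M → B4 => 12 * (lossC_lam L a b f P S D R' (fun m => kd (w m)) + ω ^ 2) :=
    SameLaw.avg_pi hu (fun K : M → ℤ => 12 * (lossC_lam L a b f P S D R' K + ω ^ 2))
  have h3 : (avg fun w : M → B4 => 12 * (lossC_lam L a b f P S D R' (fun m => kd (w m)) + ω ^ 2))
      = 12 * ((avg fun w : M → B4 => lossC_lam L a b f P S D R' (fun m => kd (w m))) + ω ^ 2) := by
    rw [avg_mul_left, avg_add, avg_const]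
  have h4 : (avg fun w : M → B4 => lossC_lam L a b f P S D R' (fun m => kd (w m))) ≤
      2 * (2 * ω + ε) := by
    rw [lossC_lam_avg]
    have h5 : (avg fun w : M → B4 => 2 * (Bc L a b f P S D 0 (lin L R' (fun m => kd (w m))) -
        Bc L a b f P S D (lin L R' (fun m => hd (w m))) (lin L R' (fun m => kd (w m))))) ≤
        avg fun w : M → B4 => (2 * (2 * ω + BG L a b f P S D 0 0) -
          2 * BG L a b f P S D (0 + lin L R' (fun m => hd (w m)))
            (0 + lin L R' (fun m => kd (w m)))) := by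
      apply avg_mono
      intro w
      have h6 := abs_le.1 (col_rep L a b f P S D hf ω hP 0 (lin L R' (fun m => kd (w m))))
      have h7 := abs_le.1 (col_rep L a b f P S D hf ω hP (lin L R' (fun m => hd (w m)))
        (lin L R' (fun m => kd (w m))))
      have h8 := BG_le_row L a b f P S D 0 (lin L R' (fun m => kd (w m)))
      rw [zero_add, zero_add]
      linarith [h6.1, h6.2, h7.1, h7.2]
    have e5 : (avg fun w : M → B4 => (2 * (2 * ω + BG L a b f P S D 0 0) -
          2 * BG L a b f P S D (0 + lin L R' (fun m => hd (w m)))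
            (0 + lin L R' (fun m => kd (w m))))) =
        2 * (2 * ω + BG L a b f P S D 0 0) - 2 * BG L a b f P S (D ∪ R') 0 0 := by
      rw [avg_sub, avg_const, avg_mul_left, ← BG_split L a b f P S D R' hd' 0 0]
    rw [e5] at h5
    linarith
  rw [h2, h3] at h1
  have h9 : ω ^ 2 ≤ ω := by nlinarith
  linarith


/-! ## enlarging the windows -/


/-! #### BG_env -/


theorem BG_env_rearr {α β : Type} [Fintype α] [Fintype β] (F : (α × β) × (α × β) → ℝ) :
    avg F = avg fun q : β × β => avg fun p : α × α => F ((p.1, q.1), (p.2, q.2)) := by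
  let e : (β × β) × (α × α) ≃ (α × β) × (α × β) :=
    { toFun := fun z => ((z.2.1, z.1.1), (z.2.2, z.1.2))
      invFun := fun z => ((z.1.2, z.2.2), (z.1.1, z.2.1))
      left_inv := fun z => rfl
      right_inv := fun z => rfl }
  rw [← avg_equiv e F, avg_prod]
  rfl

theorem BG_env (P' : ιP' → ℤ) (S' : ιS' → ℤ) (x y : ℤ) :
    BG L a b f (fun p : ιP × ιP' => P p.1 + P' p.2) (fun s : ιS × ιS' => S s.1 + S' s.2) D x y =
      avg fun p : ιP' × ιP' => avg fun s : ιS' × ιS' =>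
        BG L a b f P S D (x + P' p.2 - P' p.1) (y + S' s.2 - S' s.1) := by
  have e1 : BG L a b f (fun p : ιP × ιP' => P p.1 + P' p.2)
      (fun s : ιS × ιS' => S s.1 + S' s.2) D x y =
      avg fun w : M → B4 => avg fun q : ιP' × ιP' => avg fun p : ιP × ιP =>
        avg fun r : ιS' × ιS' => avg fun s : ιS × ιS =>
        beta a b f (lin L D (fun m => hd (w m)) + P p.2 - P p.1 + (x + P' q.2 - P' q.1))
          (lin L D (fun m => kd (w m)) + S s.2 - S s.1 + (y + S' r.2 - S' r.1)) := by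
    unfold BG
    refine congrArg avg (funext fun w => ?_)
    rw [BG_env_rearr]
    refine congrArg avg (funext fun q => ?_)
    refine congrArg avg (funext fun p => ?_)
    rw [BG_env_rearr]
    refine congrArg avg (funext fun r => ?_)
    refine congrArg avg (funext fun s => ?_)
    congr 1 <;> ring
  rw [e1, avg_comm]
  refine congrArg avg (funext fun q => ?_)
  have e2 : (avg fun w : M → B4 => avg fun p : ιP × ιP =>
        avg fun r : ιS' × ιS' => avg fun s : ιS × ιS =>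
        beta a b f (lin L D (fun m => hd (w m)) + P p.2 - P p.1 + (x + P' q.2 - P' q.1))
          (lin L D (fun m => kd (w m)) + S s.2 - S s.1 + (y + S' r.2 - S' r.1))) =
      avg fun w : M → B4 => avg fun r : ιS' × ιS' => avg fun p : ιP × ιP =>
        avg fun s : ιS × ιS =>
        beta a b f (lin L D (fun m => hd (w m)) + P p.2 - P p.1 + (x + P' q.2 - P' q.1))
          (lin L D (fun m => kd (w m)) + S s.2 - S s.1 + (y + S' r.2 - S' r.1)) := by
    refine congrArg avg (funext fun w => ?_)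
    rw [avg_comm]
  rw [e2, avg_comm]
  rfl



/-! #### env_mono -/


theorem env_mono (hf : f ∈ PSys.ball) (ω : ℝ) (hP : NI3 L P ω) (P' : ιP' → ℤ) (S' : ιS' → ℤ) :
    BG L a b f (fun p : ιP × ιP' => P p.1 + P' p.2) (fun s : ιS × ιS' => S s.1 + S' s.2) D 0 0 ≤
      BG L a b f P S D 0 0 + 2 * ω := by
  rw [BG_env]
  refine avg_le _ _ fun p => avg_le _ _ fun s => ?_
  exact BG_le L a b f P S D hf ω hP _ _



/-! #### env_lossB -/


theorem env_lossB_one (P' : ιP' → ℤ) (V : A) (hV : ‖V‖ ≤ 1) (η : ℝ) (ρ : ℤ) (hρ : NI P' η ρ) :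
    ‖PSys.tau (a * ρ) V - V‖ ^ 2 ≤
      4 * (avg fun p : ιP' × ιP' => ‖PSys.tau (a * (0 + P' p.2 - P' p.1)) V - V‖ ^ 2) + 8 * η := by
  set g : ιP' → ιP' → ℝ := fun p1 p2 => ‖PSys.tau (a * P' p1) V - PSys.tau (a * P' p2) V‖ ^ 2
    with hg
  have htn : ∀ n, ‖PSys.tau n V‖ ≤ 1 := fun n => by rw [norm_tau]; exact hV
  have hX : (avg fun p : ιP' × ιP' => ‖PSys.tau (a * (0 + P' p.2 - P' p.1)) V - V‖ ^ 2) =
      avg fun p1 => avg fun p2 => g p1 p2 := by
    rw [avg_prod]
    congr 1; funext p1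
    congr 1; funext p2
    simp only [hg]
    have e1 : ‖PSys.tau (a * (0 + P' p2 - P' p1)) V - V‖ =
        ‖PSys.tau (a * P' p1) (PSys.tau (a * (0 + P' p2 - P' p1)) V - V)‖ := (norm_tau _ _).symm
    rw [e1, map_sub, tau_tau, norm_sub_rev]
    have e2 : a * P' p1 + a * (0 + P' p2 - P' p1) = a * P' p2 := by ring
    rw [e2]
  have hbd : ∀ n m, ‖PSys.tau n V - PSys.tau m V‖ ^ 2 ≤ 4 := by
    intro n m
    have h1 : ‖PSys.tau n V - PSys.tau m V‖ ≤ 2 := by
      refine (norm_sub_le _ _).trans ?_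
      have := htn n
      have := htn m
      linarith
    have h2 := norm_nonneg (PSys.tau n V - PSys.tau m V)
    nlinarith
  have hφ := hρ (fun n => 1 / 4 * avg fun p2 : ιP' => ‖PSys.tau (a * n) V - PSys.tau (a * P' p2) V‖ ^ 2)
    (by
      intro n
      have h1 : 0 ≤ avg fun p2 : ιP' => ‖PSys.tau (a * n) V - PSys.tau (a * P' p2) V‖ ^ 2 :=
        avg_nonneg _ fun i => by positivity
      have h2 : (avg fun p2 : ιP' => ‖PSys.tau (a * n) V - PSys.tau (a * P' p2) V‖ ^ 2) ≤ 4 :=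
        avg_le _ _ fun i => hbd _ _
      rw [abs_of_nonneg (by positivity)]
      linarith)
  have hφ2 := (abs_le.mp hφ).2
  rw [avg_mul_left, avg_mul_left] at hφ2
  have hpt : ∀ p1 p2 : ιP', ‖PSys.tau (a * ρ) V - V‖ ^ 2 ≤
      2 * ‖PSys.tau (a * (P' p1 + ρ)) V - PSys.tau (a * P' p2) V‖ ^ 2 + 2 * g p1 p2 := by
    intro p1 p2
    have e1 : ‖PSys.tau (a * ρ) V - V‖ = ‖PSys.tau (a * P' p1) (PSys.tau (a * ρ) V - V)‖ :=
      (norm_tau _ _).symm
    have e2 : a * P' p1 + a * ρ = a * (P' p1 + ρ) := by ring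
    rw [e1, map_sub, tau_tau, e2]
    simp only [hg]
    set x := PSys.tau (a * (P' p1 + ρ)) V
    set y := PSys.tau (a * P' p2) V
    set z := PSys.tau (a * P' p1) V
    have h1 : ‖x - z‖ ≤ ‖x - y‖ + ‖z - y‖ := by
      have : x - z = (x - y) - (z - y) := by abel
      rw [this]
      exact norm_sub_le _ _
    have h2 := norm_nonneg (x - z)
    nlinarith [sq_nonneg (‖x - y‖ - ‖z - y‖)]
  have havg : ‖PSys.tau (a * ρ) V - V‖ ^ 2 ≤
      avg fun p1 : ιP' => avg fun p2 : ιP' =>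
        (2 * ‖PSys.tau (a * (P' p1 + ρ)) V - PSys.tau (a * P' p2) V‖ ^ 2 + 2 * g p1 p2) := by
    refine le_avg _ _ fun p1 => le_avg _ _ fun p2 => hpt p1 p2
  have hsplit : (avg fun p1 : ιP' => avg fun p2 : ιP' =>
        (2 * ‖PSys.tau (a * (P' p1 + ρ)) V - PSys.tau (a * P' p2) V‖ ^ 2 + 2 * g p1 p2)) =
      2 * (avg fun p1 : ιP' => avg fun p2 : ιP' =>
        ‖PSys.tau (a * (P' p1 + ρ)) V - PSys.tau (a * P' p2) V‖ ^ 2) +
      2 * avg fun p1 : ιP' => avg fun p2 : ιP' => g p1 p2 := by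
    rw [← avg_mul_left, ← avg_mul_left, ← avg_add]
    congr 1; funext p1
    rw [← avg_mul_left, ← avg_mul_left, ← avg_add]
  rw [hsplit] at havg
  rw [hX]
  have hg' : (avg fun p1 : ιP' => avg fun p2 : ιP' => g p1 p2) =
      avg fun r : ιP' => avg fun p2 : ιP' =>
        ‖PSys.tau (a * P' r) V - PSys.tau (a * P' p2) V‖ ^ 2 := rfl
  rw [hg'] at havg ⊢
  linarith

theorem env_lossB (hf : f ∈ PSys.ball) (ω ε η : ℝ) (hε : 0 ≤ ε)
    (hP : NI3 L P ω) (P' : ιP' → ℤ) (S' : ιS' → ℤ)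
    (hl : BG L a b f P S D 0 0 - BG L a b f (fun p : ιP × ιP' => P p.1 + P' p.2)
      (fun s : ιS × ιS' => S s.1 + S' s.2) D 0 0 ≤ ε)
    (ρ : ℤ) (hρ : NI P' η ρ) :
    Bc L a b f P S D 0 0 - Bc L a b f P S D ρ 0 ≤ 20 * (ε + ω + η) := by
  have hη : 0 ≤ η := hρ.nonneg
  have hω : 0 ≤ ω := (abs_nonneg _).trans (col_rep L a b f P S D hf ω hP 0 0)
  rw [BG_env] at hl
  have h1 : (avg fun p : ιP' × ιP' => avg fun s : ιS' × ιS' =>
        BG L a b f P S D (0 + P' p.2 - P' p.1) (0 + S' s.2 - S' s.1)) ≤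
      avg fun p : ιP' × ιP' => BG L a b f P S D (0 + P' p.2 - P' p.1) 0 := by
    refine avg_mono _ _ fun p => avg_le _ _ fun s => BG_le_row L a b f P S D _ _
  have h2 : (avg fun p : ιP' × ιP' => (Bc L a b f P S D 0 0 -
      Bc L a b f P S D (0 + P' p.2 - P' p.1) 0)) ≤ ε + 2 * ω := by
    have h3 : (avg fun p : ιP' × ιP' => (Bc L a b f P S D 0 0 -
      Bc L a b f P S D (0 + P' p.2 - P' p.1) 0)) ≤
      avg fun p : ιP' × ιP' => ((BG L a b f P S D 0 0 + 2 * ω) -
        BG L a b f P S D (0 + P' p.2 - P' p.1) 0) := by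
      refine avg_mono _ _ fun p => ?_
      have e1 := abs_le.mp (col_rep L a b f P S D hf ω hP 0 0)
      have e2 := abs_le.mp (col_rep L a b f P S D hf ω hP (0 + P' p.2 - P' p.1) 0)
      linarith [e1.1, e1.2, e2.1, e2.2]
    have h3' : (avg fun p : ιP' × ιP' => ((BG L a b f P S D 0 0 + 2 * ω) -
        BG L a b f P S D (0 + P' p.2 - P' p.1) 0)) = (BG L a b f P S D 0 0 + 2 * ω) -
        avg fun p : ιP' × ιP' => BG L a b f P S D (0 + P' p.2 - P' p.1) 0 := by
      rw [avg_sub, avg_const]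
    linarith
  -- the vectors
  set V : (M → B4) → ιS × ιS → A := fun w s =>
    Vcol L a b f P D (fun m => kd (w m)) (kcol L S D w s + 0) with hV
  have hVn : ∀ w s, ‖V w s‖ ≤ 1 := fun w s => norm_Vcol_le L a b f P D hf _ _
  have hloss : ∀ x, Bc L a b f P S D 0 0 - Bc L a b f P S D x 0 =
      1 / 2 * avg fun w : M → B4 => avg fun s : ιS × ιS => ‖PSys.tau (a * x) (V w s) - V w s‖ ^ 2 :=
    fun x => col_loss L a b f P S D x 0
  have h4 : (avg fun p : ιP' × ιP' => avg fun w : M → B4 => avg fun s : ιS × ιS =>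
      ‖PSys.tau (a * (0 + P' p.2 - P' p.1)) (V w s) - V w s‖ ^ 2) ≤ 2 * (ε + 2 * ω) := by
    have h5 : (avg fun p : ιP' × ιP' => (Bc L a b f P S D 0 0 -
      Bc L a b f P S D (0 + P' p.2 - P' p.1) 0)) =
      1 / 2 * avg fun p : ιP' × ιP' => avg fun w : M → B4 => avg fun s : ιS × ιS =>
      ‖PSys.tau (a * (0 + P' p.2 - P' p.1)) (V w s) - V w s‖ ^ 2 := by
      rw [← avg_mul_left]
      congr 1; funext p
      exact hloss _
    rw [h5] at h2
    linarith
  have h6 : (avg fun w : M → B4 => avg fun s : ιS × ιS => avg fun p : ιP' × ιP' =>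
      ‖PSys.tau (a * (0 + P' p.2 - P' p.1)) (V w s) - V w s‖ ^ 2) ≤ 2 * (ε + 2 * ω) := by
    refine le_trans (le_of_eq ?_) h4
    rw [avg_comm (fun (p : ιP' × ιP') (w : M → B4) => avg fun s : ιS × ιS =>
      ‖PSys.tau (a * (0 + P' p.2 - P' p.1)) (V w s) - V w s‖ ^ 2)]
    congr 1; funext w
    rw [avg_comm]
  rw [hloss ρ]
  have h7 : (avg fun w : M → B4 => avg fun s : ιS × ιS => ‖PSys.tau (a * ρ) (V w s) - V w s‖ ^ 2) ≤
      avg fun w : M → B4 => avg fun s : ιS × ιS =>
        (4 * (avg fun p : ιP' × ιP' =>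
          ‖PSys.tau (a * (0 + P' p.2 - P' p.1)) (V w s) - V w s‖ ^ 2) + 8 * η) := by
    refine avg_mono _ _ fun w => avg_mono _ _ fun s => ?_
    exact env_lossB_one a P' (V w s) (hVn w s) η ρ hρ
  have h8 : (avg fun w : M → B4 => avg fun s : ιS × ιS =>
        (4 * (avg fun p : ιP' × ιP' =>
          ‖PSys.tau (a * (0 + P' p.2 - P' p.1)) (V w s) - V w s‖ ^ 2) + 8 * η)) =
      4 * (avg fun w : M → B4 => avg fun s : ιS × ιS => avg fun p : ιP' × ιP' =>
        ‖PSys.tau (a * (0 + P' p.2 - P' p.1)) (V w s) - V w s‖ ^ 2) + 8 * η := by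
    have e1 : ∀ w : M → B4, (avg fun s : ιS × ιS =>
        (4 * (avg fun p : ιP' × ιP' =>
          ‖PSys.tau (a * (0 + P' p.2 - P' p.1)) (V w s) - V w s‖ ^ 2) + 8 * η)) =
        4 * (avg fun s : ιS × ιS => avg fun p : ιP' × ιP' =>
          ‖PSys.tau (a * (0 + P' p.2 - P' p.1)) (V w s) - V w s‖ ^ 2) + 8 * η := by
      intro w
      rw [avg_add, avg_const, avg_mul_left]
    simp only [e1]
    rw [avg_add, avg_const, avg_mul_left]
  rw [h8] at h7
  linarith



/-! #### env_lossA -/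


omit [Fintype M] [DecidableEq M] in
theorem env_lossA_G4 (V : A) (hV : ‖V‖ ≤ 1) (n m : ℤ) :
    ‖PSys.tau n V - PSys.tau m V‖ ^ 2 ≤ 4 := by
  have h1 : ‖PSys.tau n V - PSys.tau m V‖ ≤ 2 := by
    refine (norm_sub_le _ _).trans ?_
    rw [norm_tau, norm_tau]
    linarith
  have h0 : 0 ≤ ‖PSys.tau n V - PSys.tau m V‖ := norm_nonneg _
  nlinarith

theorem env_lossA_shift (V : A) (n m k : ℤ) :
    ‖PSys.tau (k + n) V - PSys.tau (k + m) V‖ = ‖PSys.tau n V - PSys.tau m V‖ := by
  rw [← tau_tau k n, ← tau_tau k m, ← map_sub, norm_tau]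

theorem env_lossA_tri (u v w : A) : ‖u - w‖ ^ 2 ≤ 2 * ‖u - v‖ ^ 2 + 2 * ‖v - w‖ ^ 2 := by
  have h : ‖u - w‖ ≤ ‖u - v‖ + ‖v - w‖ := by
    have : u - w = (u - v) + (v - w) := by abel
    rw [this]
    exact norm_add_le _ _
  have h0 : 0 ≤ ‖u - w‖ := norm_nonneg _
  have h1 : 0 ≤ ‖u - v‖ := norm_nonneg _
  have h2 : 0 ≤ ‖v - w‖ := norm_nonneg _
  nlinarith [sq_nonneg (‖u - v‖ - ‖v - w‖)]

theorem env_lossA_dbl {κ : Type} [Fintype κ] [Nonempty κ] (c : ℤ) (R : κ → ℤ) (η : ℝ) (x : ℤ)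
    (h : NI R η x) (V : A) (hV : ‖V‖ ≤ 1) :
    ‖PSys.tau (c * x) V - V‖ ^ 2 ≤
      4 * avg (fun p : κ × κ => ‖PSys.tau (c * (R p.2 - R p.1)) V - V‖ ^ 2) + 8 * η := by
  set G : ℤ → ℤ → ℝ := fun n m => ‖PSys.tau (c * n) V - PSys.tau (c * m) V‖ ^ 2 with hG
  have hG0 : ∀ n m, 0 ≤ G n m := fun n m => by positivity
  have hG4 : ∀ n m, G n m ≤ 4 := fun n m => env_lossA_G4 V hV _ _
  have hGs : ∀ n m k, G (k + n) (k + m) = G n m := by
    intro n m k
    simp only [hG]
    rw [mul_add, mul_add, env_lossA_shift]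
  have hGsym : ∀ n m, G n m = G m n := by
    intro n m
    simp only [hG]
    rw [norm_sub_rev]
  have hGz : ∀ n, G n 0 = ‖PSys.tau (c * n) V - V‖ ^ 2 := by
    intro n
    simp only [hG]
    rw [mul_zero, PSys.tau_zero]
  have hmain : ∀ p₁ p₂ : κ, G x 0 ≤ 2 * G (R p₁ + x) (R p₂) + 2 * G (R p₂) (R p₁) := by
    intro p₁ p₂
    have := hGs x 0 (R p₁)
    rw [add_zero] at this
    rw [← this]
    exact env_lossA_tri _ _ _
  have h1 : G x 0 ≤ avg fun p₁ : κ => avg fun p₂ : κ =>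
      (2 * G (R p₁ + x) (R p₂) + 2 * G (R p₂) (R p₁)) :=
    le_avg _ _ fun p₁ => le_avg _ _ fun p₂ => hmain p₁ p₂
  have h2 : (avg fun p₁ : κ => avg fun p₂ : κ =>
      (2 * G (R p₁ + x) (R p₂) + 2 * G (R p₂) (R p₁))) =
      2 * (avg fun p₁ : κ => avg fun p₂ : κ => G (R p₁ + x) (R p₂)) +
        2 * (avg fun p₁ : κ => avg fun p₂ : κ => G (R p₂) (R p₁)) := by
    rw [← avg_mul_left, ← avg_mul_left, ← avg_add]
    congr 1
    funext p₁
    rw [← avg_mul_left, ← avg_mul_left, ← avg_add]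
  have hφ := h (fun n => 1 / 4 * avg fun p₂ : κ => G n (R p₂)) (by
    intro n
    have ha : 0 ≤ avg fun p₂ : κ => G n (R p₂) := avg_nonneg _ fun p₂ => hG0 _ _
    have hb : (avg fun p₂ : κ => G n (R p₂)) ≤ 4 := avg_le _ _ fun p₂ => hG4 _ _
    rw [abs_le]
    constructor <;> linarith)
  rw [avg_mul_left, avg_mul_left] at hφ
  have hφ2 := (abs_le.1 hφ).2
  have h3 : (avg fun p₁ : κ => avg fun p₂ : κ => G (R p₁) (R p₂)) =
      avg fun p₁ : κ => avg fun p₂ : κ => G (R p₂) (R p₁) := by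
    congr 1
    funext p₁
    congr 1
    funext p₂
    exact hGsym _ _
  have h4 : avg (fun p : κ × κ => ‖PSys.tau (c * (R p.2 - R p.1)) V - V‖ ^ 2) =
      avg fun p₁ : κ => avg fun p₂ : κ => G (R p₂) (R p₁) := by
    rw [avg_prod]
    congr 1
    funext p₁
    congr 1
    funext p₂
    show ‖PSys.tau (c * (R p₂ - R p₁)) V - V‖ ^ 2 = _
    rw [← hGz, ← hGs _ _ (R p₁)]
    congr 1 <;> ring
  rw [h4, ← hGz]
  linarith

theorem env_lossA_gen {κ I J : Type} [Fintype κ] [Nonempty κ] [Fintype I] [Nonempty I]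
    [Fintype J] [Nonempty J] (c : ℤ) (R : κ → ℤ) (η : ℝ) (x : ℤ)
    (h : NI R η x) (V : I → J → A) (hV : ∀ i j, ‖V i j‖ ≤ 1) :
    (1 / 2 * avg fun i => avg fun j => ‖PSys.tau (c * x) (V i j) - V i j‖ ^ 2) ≤
      4 * avg (fun p : κ × κ => 1 / 2 * avg fun i => avg fun j =>
        ‖PSys.tau (c * (R p.2 - R p.1)) (V i j) - V i j‖ ^ 2) + 4 * η := by
  have h1 : (avg fun i => avg fun j => ‖PSys.tau (c * x) (V i j) - V i j‖ ^ 2) ≤
      avg fun i => avg fun j =>
        (4 * avg (fun p : κ × κ => ‖PSys.tau (c * (R p.2 - R p.1)) (V i j) - V i j‖ ^ 2)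
          + 8 * η) :=
    avg_mono _ _ fun i => avg_mono _ _ fun j => env_lossA_dbl c R η x h (V i j) (hV i j)
  have h2 : (avg fun i => avg fun j =>
        (4 * avg (fun p : κ × κ => ‖PSys.tau (c * (R p.2 - R p.1)) (V i j) - V i j‖ ^ 2)
          + 8 * η)) =
      4 * (avg fun p : κ × κ => avg fun i => avg fun j =>
        ‖PSys.tau (c * (R p.2 - R p.1)) (V i j) - V i j‖ ^ 2) + 8 * η := by
    have e1 : ∀ i, (avg fun j =>
        (4 * avg (fun p : κ × κ => ‖PSys.tau (c * (R p.2 - R p.1)) (V i j) - V i j‖ ^ 2)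
          + 8 * η)) = 4 * (avg fun p : κ × κ => avg fun j =>
            ‖PSys.tau (c * (R p.2 - R p.1)) (V i j) - V i j‖ ^ 2) + 8 * η := by
      intro i
      rw [avg_add, avg_mul_left, avg_const, avg_comm]
    rw [funext e1, avg_add, avg_mul_left, avg_const, avg_comm]
  rw [avg_mul_left]
  linarith

theorem env_lossA_abs (B C : ℤ → ℤ → ℝ) (Av Ap : (ℤ → ℝ) → ℝ) (ω ε η : ℝ) (hω : 0 ≤ ω)
    (hη : 0 ≤ η) (hε : 0 ≤ ε) (x e : ℤ)
    (hBC : ∀ x y, |B x y - C x y| ≤ ω)
    (hrw : ∀ x y, B x y ≤ B x 0)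
    (hcl : ∀ x y, B x y ≤ B 0 y + 2 * ω)
    (hl : B 0 0 - Ap (fun X => Av fun Y => B X Y) ≤ ε)
    (Avmono : ∀ F G : ℤ → ℝ, (∀ y, F y ≤ G y) → Av F ≤ Av G)
    (Apmono : ∀ F G : ℤ → ℝ, (∀ y, F y ≤ G y) → Ap F ≤ Ap G)
    (Avaff : ∀ (F : ℤ → ℝ) (a b : ℝ), Av (fun y => a * F y + b) = a * Av F + b)
    (Apaff : ∀ (F : ℤ → ℝ) (a b : ℝ), Ap (fun y => a * F y + b) = a * Ap F + b)
    (Avsub : ∀ F G : ℤ → ℝ, Av (fun y => F y - G y) = Av F - Av G)
    (Apsub : ∀ F G : ℤ → ℝ, Ap (fun y => F y - G y) = Ap F - Ap G)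
    (hcomm : ∀ F : ℤ → ℤ → ℝ, Av (fun Y => Ap fun X => F X Y) = Ap fun X => Av fun Y => F X Y)
    (s3 : ∀ y, C 0 y - C x y ≤ 4 * Ap (fun X => C 0 y - C X y) + 4 * η)
    (s5 : B x 0 - B x e ≤ 4 * Av (fun Y => B x 0 - B x Y) + 4 * η) :
    B x 0 - B x e ≤ 500 * (ε + ω + η) := by
  have Avconst : ∀ c : ℝ, Av (fun _ => c) = c := fun c => by
    have := Avaff (fun _ => 0) 0 c
    simpa using this
  have Apconst : ∀ c : ℝ, Ap (fun _ => c) = c := fun c => by
    have := Apaff (fun _ => 0) 0 c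
    simpa using this
  have Avc : ∀ (F : ℤ → ℝ) (b : ℝ), Av (fun y => F y + b) = Av F + b := fun F b => by
    have := Avaff F 1 b
    simpa using this
  have Apc : ∀ (F : ℤ → ℝ) (b : ℝ), Ap (fun y => F y + b) = Ap F + b := fun F b => by
    have := Apaff F 1 b
    simpa using this
  have s1 : B 0 0 - Av (fun Y => B 0 Y) ≤ ε + 2 * ω := by
    have h1 : Ap (fun X => Av fun Y => B X Y) ≤ Ap (fun _ => Av (fun Y => B 0 Y + 2 * ω)) :=
      Apmono (fun X => Av fun Y => B X Y) (fun _ => Av (fun Y => B 0 Y + 2 * ω)) fun X =>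
        Avmono (fun Y => B X Y) (fun Y => B 0 Y + 2 * ω) fun Y => hcl X Y
    rw [Apconst, Avc (fun Y => B 0 Y)] at h1
    linarith
  have s2 : Av (fun Y => B 0 Y) - Ap (fun X => Av fun Y => B X Y) ≤ ε := by
    have h1 : Av (fun Y => B 0 Y) ≤ Av (fun _ => B 0 0) :=
      Avmono (fun Y => B 0 Y) (fun _ => B 0 0) fun Y => hrw 0 Y
    rw [Avconst] at h1
    linarith
  have s2' : Av (fun Y => C 0 Y) - Ap (fun X => Av fun Y => C X Y) ≤ ε + 2 * ω := by
    have h1 : Av (fun Y => C 0 Y) ≤ Av (fun Y => B 0 Y + ω) :=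
      Avmono (fun Y => C 0 Y) (fun Y => B 0 Y + ω)
        fun Y => by have := (abs_le.1 (hBC 0 Y)).1; linarith
    have h2 : Ap (fun X => Av fun Y => B X Y) ≤ Ap (fun X => Av (fun Y => C X Y + ω)) :=
      Apmono (fun X => Av fun Y => B X Y) (fun X => Av (fun Y => C X Y + ω)) fun X =>
        Avmono (fun Y => B X Y) (fun Y => C X Y + ω) fun Y => by
          have := (abs_le.1 (hBC X Y)).2; linarith
    rw [Avc (fun Y => B 0 Y)] at h1
    have h3 : Ap (fun X => Av (fun Y => C X Y + ω)) = Ap (fun X => Av fun Y => C X Y) + ω := by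
      rw [← Apc (fun X => Av fun Y => C X Y) ω]
      congr 1
      funext X
      exact Avc (fun Y => C X Y) ω
    rw [h3] at h2
    linarith
  have s3' : Av (fun Y => C 0 Y) - Av (fun Y => C x Y) ≤ 4 * (ε + 2 * ω) + 4 * η := by
    have h1 : Av (fun Y => C 0 Y - C x Y) ≤
        Av (fun Y => 4 * Ap (fun X => C 0 Y - C X Y) + 4 * η) :=
      Avmono (fun Y => C 0 Y - C x Y) (fun Y => 4 * Ap (fun X => C 0 Y - C X Y) + 4 * η) s3
    rw [Avsub (fun Y => C 0 Y) (fun Y => C x Y),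
      Avaff (fun Y => Ap (fun X => C 0 Y - C X Y)) 4 (4 * η)] at h1
    have h2 : Av (fun Y => Ap (fun X => C 0 Y - C X Y)) =
        Av (fun Y => C 0 Y) - Ap (fun X => Av fun Y => C X Y) := by
      have e1 : (fun Y => Ap (fun X => C 0 Y - C X Y)) =
          fun Y => C 0 Y - Ap (fun X => C X Y) := by
        funext Y
        rw [Apsub (fun _ => C 0 Y) (fun X => C X Y), Apconst]
      rw [e1, Avsub (fun Y => C 0 Y) (fun Y => Ap (fun X => C X Y)), hcomm C]
    rw [h2] at h1
    linarith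
  have s3'' : Av (fun Y => B 0 Y) - Av (fun Y => B x Y) ≤ 4 * ε + 10 * ω + 4 * η := by
    have h1 : Av (fun Y => B 0 Y) ≤ Av (fun Y => C 0 Y + ω) :=
      Avmono (fun Y => B 0 Y) (fun Y => C 0 Y + ω)
        fun Y => by have := (abs_le.1 (hBC 0 Y)).2; linarith
    have h2 : Av (fun Y => C x Y) ≤ Av (fun Y => B x Y + ω) :=
      Avmono (fun Y => C x Y) (fun Y => B x Y + ω)
        fun Y => by have := (abs_le.1 (hBC x Y)).1; linarith
    rw [Avc (fun Y => C 0 Y)] at h1
    rw [Avc (fun Y => B x Y)] at h2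
    linarith
  have s4 : B x 0 - Av (fun Y => B x Y) ≤ 5 * ε + 14 * ω + 4 * η := by
    have h1 := hcl x 0
    linarith
  rw [Avsub (fun _ => B x 0) (fun Y => B x Y), Avconst] at s5
  linarith

theorem env_lossA (hf : f ∈ PSys.ball) (ω ε η : ℝ) (hε : 0 ≤ ε)
    (hP : NI3 L P ω) (P' : ιP' → ℤ) (S' : ιS' → ℤ)
    (hl : BG L a b f P S D 0 0 - BG L a b f (fun p : ιP × ιP' => P p.1 + P' p.2)
      (fun s : ιS × ιS' => S s.1 + S' s.2) D 0 0 ≤ ε)
    (x e : ℤ) (hx : NI P' η x) (he : NI S' η e) :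
    BG L a b f P S D x 0 - BG L a b f P S D x e ≤ 500 * (ε + ω + η) := by
  have hη : 0 ≤ η := hx.nonneg
  have hω : 0 ≤ ω := (abs_nonneg _).trans (col_rep L a b f P S D hf ω hP 0 0)
  rw [BG_env] at hl
  simp only [zero_add] at hl
  have aff1 : ∀ {κ : Type} [Fintype κ] [Nonempty κ] (F : κ → ℝ) (a b : ℝ),
      avg (fun y => a * F y + b) = a * avg F + b := by
    intro κ _ _ F a b
    rw [avg_add (fun y => a * F y) (fun _ => b), avg_mul_left, avg_const]
  refine env_lossA_abs (fun x y => BG L a b f P S D x y) (fun x y => Bc L a b f P S D x y)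
    (fun F => avg fun s : ιS' × ιS' => F (S' s.2 - S' s.1))
    (fun F => avg fun p : ιP' × ιP' => F (P' p.2 - P' p.1)) ω ε η hω hη hε x e
    (fun x y => col_rep L a b f P S D hf ω hP x y)
    (fun x y => BG_le_row L a b f P S D x y)
    (fun x y => BG_le_col L a b f P S D hf ω hP x y)
    hl (fun F G hFG => avg_mono _ _ fun s => hFG _) (fun F G hFG => avg_mono _ _ fun s => hFG _)
    (fun F a b => aff1 _ a b) (fun F a b => aff1 _ a b)
    (fun F G => avg_sub _ _) (fun F G => avg_sub _ _) (fun F => avg_comm _) ?_ ?_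
  · intro y
    have h1 := env_lossA_gen a P' η x hx
      (fun (w : M → B4) (s : ιS × ιS) =>
        Vcol L a b f P D (fun m => kd (w m)) (kcol L S D w s + y))
      (fun w s => norm_Vcol_le L a b f P D hf _ _)
    have h2 : ∀ z, Bc L a b f P S D 0 y - Bc L a b f P S D z y =
        1 / 2 * avg fun w : M → B4 => avg fun s : ιS × ιS =>
        ‖PSys.tau (a * z) (Vcol L a b f P D (fun m => kd (w m)) (kcol L S D w s + y)) -
          Vcol L a b f P D (fun m => kd (w m)) (kcol L S D w s + y)‖ ^ 2 :=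
      fun z => col_loss L a b f P S D z y
    simp only [h2]
    exact h1
  · have h1 := env_lossA_gen b S' η e he
      (fun (d : M → Bool × Bool) (p : ιP × ιP) =>
        Wrow L a b f S D d (hrow L P D d p + x))
      (fun w s => norm_Wrow_le L a b f S D hf _ _)
    have h2 : ∀ z, BG L a b f P S D x 0 - BG L a b f P S D x z =
        1 / 2 * avg fun d : M → Bool × Bool => avg fun p : ιP × ιP =>
        ‖PSys.tau (b * z) (Wrow L a b f S D d (hrow L P D d p + x)) -
          Wrow L a b f S D d (hrow L P D d p + x)‖ ^ 2 :=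
      fun z => row_loss L a b f P S D x z
    simp only [h2]
    exact h1


end energy

end Pool.TC
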