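import Pool.Agent.Helper591.TC.PartA

/-! # U-level theory and Theorem DC -/

open scoped ComplexConjugate InnerProductSpace

namespace Pool.TC

section ulevel
variable {M : Type} [Fintype M] [DecidableEq M] (L : M → ℤ)
variable {ιR ιT : Type} [Fintype ιR] [Fintype ιT] [Nonempty ιR] [Nonempty ιT]
variable {A : Type} [CommRing A] [StarRing A] [Algebra ℂ A] [StarModule ℂ A] [PSys A]
variable (R : ιR → ℤ) (T : ιT → ℤ) (D : Finset M) (f₁ f₂ : A)


/-! #### u_basic -/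


theorem norm_vv_le (h₁ : f₁ ∈ PSys.ball) (h₂ : f₂ ∈ PSys.ball) (b : ℤ) :
    ‖vv L R D f₁ f₂ b‖ ≤ 1 := by
  apply norm_le_one_of_ball
  unfold vv
  refine PSys.avg_mem _ fun d => PSys.avg_mem _ fun r => ?_
  exact PSys.mul_mem _ (PSys.tau_mem _ _ h₁) _ (PSys.tau_mem _ _ h₂)

theorem norm_UU_le (h₁ : f₁ ∈ PSys.ball) (h₂ : f₂ ∈ PSys.ball) (d : M → Bool × Bool)
    (r : ιR × ιR) (s t : ℤ) : ‖UU L R T D f₁ f₂ d r s t‖ ≤ 1 := by
  apply norm_le_one_of_ball
  unfold UU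
  refine PSys.avg_mem _ fun d => PSys.avg_mem _ fun r => ?_
  exact PSys.mul_mem _ (PSys.tau_mem _ _ h₁) _ (PSys.tau_mem _ _ (PSys.star_mem _ h₂))

theorem norm_FF_le (h₁ : f₁ ∈ PSys.ball) (h₂ : f₂ ∈ PSys.ball) (d : M → Bool × Bool)
    (r : ιR × ιR) (s t : ℤ) : ‖FF L R D f₁ f₂ d r s t‖ ≤ 1 := by
  apply norm_le_one_of_ball
  unfold FF
  exact PSys.mul_mem _ (PSys.tau_mem _ _ h₁) _ (PSys.tau_mem _ _ (PSys.star_mem _ h₂))

theorem UU_shift (d : M → Bool × Bool) (r : ιR × ιR) (s t c : ℤ) :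
    UU L R T D f₁ f₂ d r (s + c) (t + c) = PSys.tau c (UU L R T D f₁ f₂ d r s t) := by
  unfold UU
  rw [tau_avg]
  congr 1
  funext j
  rw [tau_avg]
  congr 1
  funext p
  rw [map_mul, tau_tau, tau_tau]
  congr 3 <;> ring

theorem FF_shift (d : M → Bool × Bool) (r : ιR × ιR) (s t c : ℤ) :
    FF L R D f₁ f₂ d r (s + c) (t + c) = PSys.tau c (FF L R D f₁ f₂ d r s t) := by
  unfold FF
  rw [map_mul, tau_tau, tau_tau]
  congr 3 <;> ring

theorem UU_ni (h₁ : f₁ ∈ PSys.ball) (h₂ : f₂ ∈ PSys.ball) (d : M → Bool × Bool)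
    (r : ιR × ιR) (s t : ℤ) (ω : ℝ) (c : ℤ) (hc : NI T ω c) :
    ‖UU L R T D f₁ f₂ d r (s + c) (t - 2 * c) - UU L R T D f₁ f₂ d r s t‖ ≤ ω := by
  unfold UU
  rw [← avg_sub]
  refine (norm_avg_le _).trans (avg_le _ _ fun j => ?_)
  have h := NI.norm (NI.neg hc) (fun n =>
    PSys.tau (sg2 L R D d r + s - (lin L D (fun m => io (d m).1 (d m).2 (j m)) + n)) f₁ *
      PSys.tau (2 * sg1 L R D d r + t + 2 * (lin L D (fun m => io (d m).1 (d m).2 (j m)) + n))
        (star f₂)) (fun n => by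
      apply norm_le_one_of_ball
      exact PSys.mul_mem _ (PSys.tau_mem _ _ h₁) _ (PSys.tau_mem _ _ (PSys.star_mem _ h₂)))
  convert! h using 5
  rename_i p
  unfold qv
  congr 3 <;> ring

theorem abs_gam_le (h₁ : f₁ ∈ PSys.ball) (h₂ : f₂ ∈ PSys.ball) (u w : ℤ) :
    |gam f₁ f₂ u w| ≤ 1 := by
  unfold gam
  refine (Complex.abs_re_le_norm _).trans ((norm_E_le _).trans (norm_le_one_of_ball ?_))
  exact PSys.mul_mem _ (PSys.mul_mem _ (PSys.mul_mem _ h₁ _ (PSys.tau_mem _ _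
    (PSys.star_mem _ h₁))) _ (PSys.tau_mem _ _ (PSys.star_mem _ h₂))) _ (PSys.tau_mem _ _ h₂)



/-! #### Th_rep -/


theorem Th_rep_gam (f₁ f₂ : A) (z ρ s s1 s2 q q' : ℤ) :
    (⟪PSys.tau (s2 + (s + z) - q') f₁ * PSys.tau (2 * s1 + (s + ρ - 2 * z) + 2 * q') (star f₂),
      PSys.tau (s2 + s - q) f₁ * PSys.tau (2 * s1 + (s + ρ) + 2 * q) (star f₂)⟫_ℂ).re =
    gam f₁ f₂ (q - q' + z) (2 * s1 - s2 + 3 * q + ρ) := by
  rw [← inner_tau (-(s2 + s - q)), inner_def]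
  unfold gam
  have e1 : -(s2 + s - q) + (s2 + (s + z) - q') = q - q' + z := by ring
  have e2 : -(s2 + s - q) + (2 * s1 + (s + ρ - 2 * z) + 2 * q') =
      2 * s1 - s2 + 3 * q + ρ - 2 * (q - q' + z) := by ring
  have e3 : -(s2 + s - q) + (s2 + s - q) = 0 := by ring
  have e4 : -(s2 + s - q) + (2 * s1 + (s + ρ) + 2 * q) = 2 * s1 - s2 + 3 * q + ρ := by ring
  have g1 : PSys.tau (-(s2 + s - q)) (PSys.tau (s2 + (s + z) - q') f₁ *
      PSys.tau (2 * s1 + (s + ρ - 2 * z) + 2 * q') (star f₂)) =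
      PSys.tau (q - q' + z) f₁ *
        PSys.tau (2 * s1 - s2 + 3 * q + ρ - 2 * (q - q' + z)) (star f₂) := by
    rw [map_mul, tau_tau, tau_tau, e1, e2]
  have g2 : PSys.tau (-(s2 + s - q)) (PSys.tau (s2 + s - q) f₁ *
      PSys.tau (2 * s1 + (s + ρ) + 2 * q) (star f₂)) =
      f₁ * PSys.tau (2 * s1 - s2 + 3 * q + ρ) (star f₂) := by
    rw [map_mul, tau_tau, tau_tau, e3, e4, PSys.tau_zero]
  rw [g1, g2, star_mul, ← map_star, ← map_star, star_star]
  congr 2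
  ring

/-- splitting of the digits -/
def Th_rep_e (M : Type) :
    (M → B4) ≃ (M → Bool × Bool) × (M → Bool) × (M → Bool) where
  toFun w := (fun m => ((w m).1, (w m).2.1), fun m => (w m).2.2.1, fun m => (w m).2.2.2)
  invFun x := fun m => ((x.1 m).1, (x.1 m).2, x.2.1 m, x.2.2 m)
  left_inv w := rfl
  right_inv x := rfl

theorem Th_rep_perm {V : Type*} [AddCommGroup V] [Module ℝ V]
    (G : (M → Bool × Bool) → (M → Bool) → (M → Bool) → ιR × ιR → ιT → ιT → V) :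
    (avg fun w : M → B4 => avg fun r : ιR × ιR => avg fun p : ιT × ιT =>
      G (fun m => ((w m).1, (w m).2.1)) (fun m => (w m).2.2.1) (fun m => (w m).2.2.2) r p.1 p.2) =
    avg fun d : M → Bool × Bool => avg fun r : ιR × ιR => avg fun j' : M → Bool =>
      avg fun p' : ιT => avg fun j : M → Bool => avg fun p : ιT => G d j j' r p p' := by
  have h1 : (avg fun w : M → B4 => avg fun r : ιR × ιR => avg fun p : ιT × ιT =>
      G (fun m => ((w m).1, (w m).2.1)) (fun m => (w m).2.2.1) (fun m => (w m).2.2.2) r p.1 p.2) =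
      avg fun x : (M → Bool × Bool) × (M → Bool) × (M → Bool) => avg fun r : ιR × ιR =>
        avg fun p : ιT × ιT => G x.1 x.2.1 x.2.2 r p.1 p.2 :=
    avg_equiv (Th_rep_e M) (fun x => avg fun r : ιR × ιR =>
        avg fun p : ιT × ιT => G x.1 x.2.1 x.2.2 r p.1 p.2)
  rw [h1, avg_prod]
  congr 1
  funext d
  rw [avg_prod]
  simp only
  rw [avg_comm]
  have h2 : ∀ j' j : M → Bool, (avg fun r : ιR × ιR => avg fun p : ιT × ιT =>
      G d j j' r p.1 p.2) = avg fun r : ιR × ιR => avg fun p' : ιT => avg fun p : ιT =>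
      G d j j' r p p' := by
    intro j' j
    congr 1
    funext r
    rw [avg_prod, avg_comm]
  simp only [h2]
  have h3 : ∀ j' : M → Bool, (avg fun j : M → Bool => avg fun r : ιR × ιR =>
      avg fun p' : ιT => avg fun p : ιT => G d j j' r p p') =
      avg fun r : ιR × ιR => avg fun p' : ιT => avg fun j : M → Bool => avg fun p : ιT =>
        G d j j' r p p' := by
    intro j'
    rw [avg_comm]
    congr 1
    funext r
    rw [avg_comm]
  simp only [h3]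
  rw [avg_comm]

/-- `Θ` through the vectors `U` -/
theorem Th_rep (ρ z s : ℤ) :
    Th L R T D f₁ f₂ ρ z = avg fun d : M → Bool × Bool => avg fun r : ιR × ιR =>
      (⟪UU L R T D f₁ f₂ d r (s + z) (s + ρ - 2 * z), UU L R T D f₁ f₂ d r s (s + ρ)⟫_ℂ).re := by
  have h1 : ∀ (d : M → Bool × Bool) (r : ιR × ιR),
      (⟪UU L R T D f₁ f₂ d r (s + z) (s + ρ - 2 * z), UU L R T D f₁ f₂ d r s (s + ρ)⟫_ℂ).re =
      avg fun j' : M → Bool => avg fun p' : ιT => avg fun j : M → Bool => avg fun p : ιT =>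
        gam f₁ f₂ (qv L T D d j p - qv L T D d j' p' + z)
          (2 * sg1 L R D d r - sg2 L R D d r + 3 * qv L T D d j p + ρ) := by
    intro d r
    unfold UU
    rw [re_inner_avg_left]
    congr 1
    funext j'
    rw [re_inner_avg_left]
    congr 1
    funext p'
    rw [re_inner_avg_right]
    congr 1
    funext j
    rw [re_inner_avg_right]
    congr 1
    funext p
    exact Th_rep_gam f₁ f₂ z ρ s _ _ _ _
  simp only [h1]
  rw [← Th_rep_perm (fun d j j' r p p' =>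
    gam f₁ f₂ (qv L T D d j p - qv L T D d j' p' + z)
          (2 * sg1 L R D d r - sg2 L R D d r + 3 * qv L T D d j p + ρ))]
  unfold Th
  congr 1
  funext w
  congr 1
  funext r
  congr 1
  funext p
  unfold qv sg1 sg2
  simp only [lin_sub, lin_add, lin_mul]
  congr 1 <;> ring




/-! #### Th_abs -/


theorem Th_abs_one {ι : Type} [Fintype ι] [Nonempty ι] (f : ι → ℝ) (h : ∀ i, |f i| ≤ 1) :
    |avg f| ≤ 1 := (abs_avg_le f).trans (avg_le _ 1 h)

theorem Th_abs_le (h₁ : f₁ ∈ PSys.ball) (h₂ : f₂ ∈ PSys.ball) (ρ z : ℤ) :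
    |Th L R T D f₁ f₂ ρ z| ≤ 1 := by
  unfold Th
  refine Th_abs_one _ fun w => Th_abs_one _ fun r => Th_abs_one _ fun p => ?_
  exact abs_gam_le f₁ f₂ h₁ h₂ _ _

theorem Th_nonneg (ρ : ℤ) : 0 ≤ Th L R T D f₁ f₂ ρ 0 := by
  rw [Th_rep L R T D f₁ f₂ ρ 0 0]
  refine avg_nonneg _ fun d => avg_nonneg _ fun r => ?_
  have h1 : (0 : ℤ) + ρ - 2 * 0 = 0 + ρ := by ring
  rw [h1, add_zero, re_inner_self]
  exact sq_nonneg _



/-! #### Th_upper -/


theorem Th_upper (ρ z : ℤ) :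
    Th L R T D f₁ f₂ ρ z ≤ (Th L R T D f₁ f₂ ρ 0 + Th L R T D f₁ f₂ (ρ - 3 * z) 0) / 2 := by
  have e1 : Th L R T D f₁ f₂ ρ 0 = avg fun d : M → Bool × Bool => avg fun r : ιR × ιR =>
      ‖UU L R T D f₁ f₂ d r 0 ρ‖ ^ 2 := by
    rw [Th_rep L R T D f₁ f₂ ρ 0 0]
    simp only [add_zero, zero_add, mul_zero, sub_zero, re_inner_self]
  have h1 : z + (ρ - 3 * z) = ρ - 2 * z := by ring
  have e2 : Th L R T D f₁ f₂ (ρ - 3 * z) 0 =
      avg fun d : M → Bool × Bool => avg fun r : ιR × ιR =>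
      ‖UU L R T D f₁ f₂ d r z (ρ - 2 * z)‖ ^ 2 := by
    rw [Th_rep L R T D f₁ f₂ (ρ - 3 * z) 0 z]
    simp only [add_zero, mul_zero, sub_zero, h1, re_inner_self]
  rw [Th_rep L R T D f₁ f₂ ρ z 0]
  simp only [zero_add]
  have h2 : ∀ a b : A, (⟪a, b⟫_ℂ).re ≤ (1 / 2 : ℝ) * (‖b‖ ^ 2 + ‖a‖ ^ 2) := by
    intro a b
    have h3 := norm_sub_sq_re a b
    have h4 : 0 ≤ ‖a - b‖ ^ 2 := sq_nonneg _
    linarith
  calc (avg fun d : M → Bool × Bool => avg fun r : ιR × ιR =>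
        (⟪UU L R T D f₁ f₂ d r z (ρ - 2 * z), UU L R T D f₁ f₂ d r 0 ρ⟫_ℂ).re)
      ≤ avg fun d : M → Bool × Bool => avg fun r : ιR × ιR =>
        (1 / 2 : ℝ) * (‖UU L R T D f₁ f₂ d r 0 ρ‖ ^ 2 +
          ‖UU L R T D f₁ f₂ d r z (ρ - 2 * z)‖ ^ 2) :=
        avg_mono _ _ fun d => avg_mono _ _ fun r => h2 _ _
    _ = (Th L R T D f₁ f₂ ρ 0 + Th L R T D f₁ f₂ (ρ - 3 * z) 0) / 2 := by
        simp only [avg_mul_left, avg_add]
        rw [← e1, ← e2]
        ring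



/-! #### Th_split -/


omit [Fintype M] in
theorem Th_split_aux (R' : Finset M) (hd' : Disjoint D R') (x y : M → B4) (φ : B4 → ℤ) :
    lin L (D ∪ R') (fun m => φ ((R'.piecewise x y) m)) =
      lin L D (fun m => φ (y m)) + lin L R' (fun m => φ (x m)) := by
  rw [lin, Finset.sum_union hd']
  congr 1
  · refine Finset.sum_congr rfl fun m hm => ?_
    rw [Finset.piecewise_eq_of_notMem _ _ _ (Finset.disjoint_left.1 hd' hm)]
  · refine Finset.sum_congr rfl fun m hm => ?_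
    rw [Finset.piecewise_eq_of_mem _ _ _ hm]

theorem Th_split (R' : Finset M) (hd' : Disjoint D R') (ρ z : ℤ) :
    Th L R T (D ∪ R') f₁ f₂ ρ z = avg fun w : M → B4 => Th L R T D f₁ f₂
      (ρ + lin L R' (fun m => 2 * bz (w m).1 - bz (w m).2.1 +
        3 * io (w m).1 (w m).2.1 (w m).2.2.1))
      (z + lin L R' (fun m => io (w m).1 (w m).2.1 (w m).2.2.1 -
        io (w m).1 (w m).2.1 (w m).2.2.2)) := by
  unfold Th
  rw [avg_piecewise R' (fun w : M → B4 => avg fun r : ιR × ιR => avg fun p : ιT × ιT =>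
    gam f₁ f₂
      (lin L (D ∪ R') (fun m => io (w m).1 (w m).2.1 (w m).2.2.1 -
        io (w m).1 (w m).2.1 (w m).2.2.2) + T p.1 - T p.2 + z)
      (lin L (D ∪ R') (fun m => 2 * bz (w m).1 - bz (w m).2.1 +
        3 * io (w m).1 (w m).2.1 (w m).2.2.1)
        + 2 * R r.1 - R r.2 + 3 * T p.1 + ρ))]
  congr 1
  funext x
  congr 1
  funext y
  congr 1
  funext r
  congr 1
  funext p
  have h1 := Th_split_aux L D R' hd' x y (fun v => io v.1 v.2.1 v.2.2.1 - io v.1 v.2.1 v.2.2.2)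
  have h2 := Th_split_aux L D R' hd' x y
    (fun v => 2 * bz v.1 - bz v.2.1 + 3 * io v.1 v.2.1 v.2.2.1)

  rw [h1, h2]
  congr 1 <;> ring



/-! #### U1 -/


/-- the four-fold correlation -/
noncomputable def U1_F (f₁ f₂ : A) (b b' s s' : ℤ) : ℝ :=
  (⟪PSys.tau (s' + b') f₁ * PSys.tau (2 * s + 2 * b) (star f₂),
    PSys.tau (s + b) f₁ * PSys.tau (2 * s' + 2 * b') (star f₂)⟫_ℂ).re

theorem U1_F_abs (h₁ : f₁ ∈ PSys.ball) (h₂ : f₂ ∈ PSys.ball) (b b' s s' : ℤ) :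
    |U1_F f₁ f₂ b b' s s'| ≤ 1 := by
  unfold U1_F
  refine (abs_re_inner_le _ _).trans ?_
  have h3 := norm_le_one_of_ball (PSys.mul_mem _ (PSys.tau_mem (s' + b') _ h₁) _
    (PSys.tau_mem (2 * s + 2 * b) _ (PSys.star_mem _ h₂)))
  have h4 := norm_le_one_of_ball (PSys.mul_mem _ (PSys.tau_mem (s + b) _ h₁) _
    (PSys.tau_mem (2 * s' + 2 * b') _ (PSys.star_mem _ h₂)))
  exact mul_le_one₀ h3 (norm_nonneg _) h4

theorem U1_F_shift (b b' s s' q : ℤ) :
    U1_F f₁ f₂ b b' (s + 2 * q) (s' + q) =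
      (⟪PSys.tau (s' + b' - q) f₁ * PSys.tau (2 * s + 2 * b + 2 * q) (star f₂),
        PSys.tau (s + b) f₁ * PSys.tau (2 * s' + 2 * b') (star f₂)⟫_ℂ).re := by
  rw [← inner_tau (2 * q) (PSys.tau (s' + b' - q) f₁ * PSys.tau (2 * s + 2 * b + 2 * q) (star f₂))]
  rw [map_mul, map_mul, tau_tau, tau_tau, tau_tau, tau_tau]
  have e1 : 2 * q + (s' + b' - q) = s' + q + b' := by ring
  have e2 : 2 * q + (2 * s + 2 * b + 2 * q) = 2 * (s + 2 * q) + 2 * b := by ring
  have e3 : 2 * q + (s + b) = s + 2 * q + b := by ring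
  have e4 : 2 * q + (2 * s' + 2 * b') = 2 * (s' + q) + 2 * b' := by ring
  rw [e1, e2, e3, e4]
  rfl

theorem U1_regroup (b b' s s' : ℤ) :
    (⟪PSys.tau (s' + b') f₁ * PSys.tau (2 * (s' + b')) f₂,
      PSys.tau (s + b) f₁ * PSys.tau (2 * (s + b)) f₂⟫_ℂ).re = U1_F f₁ f₂ b b' s s' := by
  unfold U1_F
  rw [inner_def, inner_def, mul_add, mul_add]
  congr 2
  simp only [star_mul', map_star, star_star]
  ring

theorem U1_abs_sub {ι : Type} [Fintype ι] [Nonempty ι] (f g : ι → ℝ) (C : ℝ)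
    (h : ∀ i, |f i - g i| ≤ C) : |avg f - avg g| ≤ C := by
  rw [← avg_sub]
  exact (abs_avg_le _).trans (avg_le _ _ h)

theorem U1_split (G : (M → Bool) → (M → Bool) → ℝ) :
    avg (fun d : M → Bool × Bool => G (fun m => (d m).1) (fun m => (d m).2)) =
      avg fun d : M → Bool => avg fun d' : M → Bool => G d d' := by
  have h1 := avg_equiv (Equiv.arrowProdEquivProdArrow M (fun _ => Bool) (fun _ => Bool))
    (fun p : (M → Bool) × (M → Bool) => G p.1 p.2)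
  rw [avg_prod] at h1
  rw [← h1]
  rfl

theorem U1_vv (b b' : ℤ) :
    (⟪vv L R D f₁ f₂ b', vv L R D f₁ f₂ b⟫_ℂ).re =
      avg (fun d : M → Bool × Bool => avg fun r : ιR × ιR =>
        U1_F f₁ f₂ b b' (sg1 L R D d r) (sg2 L R D d r)) := by
  have hR : avg (fun d : M → Bool × Bool => avg fun r : ιR × ιR =>
        U1_F f₁ f₂ b b' (sg1 L R D d r) (sg2 L R D d r)) =
      avg fun d : M → Bool => avg fun d' : M → Bool => avg fun r : ιR => avg fun r' : ιR =>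
        U1_F f₁ f₂ b b' (lin L D (fun m => bz (d m)) + R r)
          (lin L D (fun m => bz (d' m)) + R r') := by
    rw [← U1_split (fun d d' => avg fun r : ιR => avg fun r' : ιR =>
        U1_F f₁ f₂ b b' (lin L D (fun m => bz (d m)) + R r)
          (lin L D (fun m => bz (d' m)) + R r'))]
    congr 1
    funext d
    rw [avg_prod]
    rfl
  rw [hR]
  unfold vv
  rw [re_inner_avg_left]
  simp_rw [re_inner_avg_left, re_inner_avg_right, U1_regroup]
  -- avg d' , avg r', avg d, avg r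
  have h2 : ∀ d' : M → Bool, (avg fun r' : ιR => avg fun d : M → Bool => avg fun r : ιR =>
      U1_F f₁ f₂ b b' (lin L D (fun m => bz (d m)) + R r)
          (lin L D (fun m => bz (d' m)) + R r')) =
      avg fun d : M → Bool => avg fun r' : ιR => avg fun r : ιR =>
      U1_F f₁ f₂ b b' (lin L D (fun m => bz (d m)) + R r)
          (lin L D (fun m => bz (d' m)) + R r') := fun d' => avg_comm _
  simp_rw [h2]
  rw [avg_comm]
  congr 1
  funext d
  congr 1
  funext d'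
  rw [avg_comm]

theorem U1_UU (b b' : ℤ) (d : M → Bool × Bool) (r : ιR × ιR) :
    (⟪UU L R T D f₁ f₂ d r b' (2 * b), FF L R D f₁ f₂ d r b (2 * b')⟫_ℂ).re =
      avg fun j : M → Bool => avg fun p : ιT =>
        U1_F f₁ f₂ b b' (sg1 L R D d r + 2 * qv L T D d j p) (sg2 L R D d r + qv L T D d j p) := by
  unfold UU FF
  rw [re_inner_avg_left]
  simp_rw [re_inner_avg_left, U1_F_shift]

/-- swapping the bits at the places of `j` -/
def U1_sw (j : M → Bool) (d : M → Bool × Bool) : M → Bool × Bool :=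
  fun m => if j m then (d m).swap else d m

theorem U1_sw_sw (j : M → Bool) (d : M → Bool × Bool) : U1_sw j (U1_sw j d) = d := by
  funext m
  unfold U1_sw
  by_cases h : j m = true
  · simp [h]
  · simp [h]

/-- the swap as an equivalence -/
def U1_eq (j : M → Bool) : (M → Bool × Bool) ≃ (M → Bool × Bool) where
  toFun := U1_sw j
  invFun := U1_sw j
  left_inv := U1_sw_sw j
  right_inv := U1_sw_sw j

theorem U1_bits (x : Bool × Bool) (j : Bool) :
    bz x.1 + 2 * io x.1 x.2 j = bz (if j then x.swap else x).1 + 3 * io x.1 x.2 j ∧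
      bz x.2 + io x.1 x.2 j = bz (if j then x.swap else x).2 ∧ |io x.1 x.2 j| ≤ 12 := by
  obtain ⟨a, c⟩ := x
  cases a <;> cases c <;> cases j <;> simp [bz, io]

theorem U1_lin1 (d : M → Bool × Bool) (j : M → Bool) :
    lin L D (fun m => bz (d m).1) + 2 * lin L D (fun m => io (d m).1 (d m).2 (j m)) =
      lin L D (fun m => bz (U1_sw j d m).1) + 3 * lin L D (fun m => io (d m).1 (d m).2 (j m)) := by
  rw [← lin_mul, ← lin_mul, ← lin_add, ← lin_add]
  exact lin_congr L D _ _ (fun m _ => (U1_bits (d m) (j m)).1)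

theorem U1_lin2 (d : M → Bool × Bool) (j : M → Bool) :
    lin L D (fun m => bz (d m).2) + lin L D (fun m => io (d m).1 (d m).2 (j m)) =
      lin L D (fun m => bz (U1_sw j d m).2) := by
  rw [← lin_add]
  exact lin_congr L D _ _ (fun m _ => (U1_bits (d m) (j m)).2.1)

theorem U1_ni2 (F : ℤ → ℤ → ℝ) (hF : ∀ s s', |F s s'| ≤ 1) (ω₁ ω₂ : ℝ) (c₁ c₂ : ℤ)
    (hc₁ : NI R ω₁ c₁) (hc₂ : NI R ω₂ c₂) (α β : ℤ) :
    |avg (fun r : ιR × ιR => F (α + R r.1) (β + R r.2)) -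
      avg (fun r : ιR × ιR => F (α + R r.1 + c₁) (β + R r.2 + c₂))| ≤ ω₁ + ω₂ := by
  rw [avg_prod, avg_prod]
  have h1 : |avg (fun r : ιR => avg fun r' : ιR => F (α + R r) (β + R r')) -
      avg (fun r : ιR => avg fun r' : ιR => F (α + R r + c₁) (β + R r'))| ≤ ω₁ := by
    rw [avg_comm, avg_comm (fun (r : ιR) (r' : ιR) => F (α + R r + c₁) (β + R r'))]
    apply U1_abs_sub
    intro r'
    have h := hc₁ (fun n => F (α + n) (β + R r')) (fun n => hF _ _)
    rw [abs_sub_comm]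
    simp only [← add_assoc] at h
    exact h
  have h2 : |avg (fun r : ιR => avg fun r' : ιR => F (α + R r + c₁) (β + R r')) -
      avg (fun r : ιR => avg fun r' : ιR => F (α + R r + c₁) (β + R r' + c₂))| ≤ ω₂ := by
    apply U1_abs_sub
    intro r
    have h := hc₂ (fun n => F (α + R r + c₁) (β + n)) (fun n => hF _ _)
    rw [abs_sub_comm]
    simp only [← add_assoc] at h
    exact h
  have h3 := abs_sub_le (avg (fun r : ιR => avg fun r' : ιR => F (α + R r) (β + R r')))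
    (avg (fun r : ιR => avg fun r' : ιR => F (α + R r + c₁) (β + R r')))
    (avg (fun r : ιR => avg fun r' : ιR => F (α + R r + c₁) (β + R r' + c₂)))
  exact h3.trans (add_le_add h1 h2)

theorem U1_fixed (F : ℤ → ℤ → ℝ) (hF : ∀ s s', |F s s'| ≤ 1) (ω : ℝ) (hE : Env L R T ω)
    (j : M → Bool) (p : ιT) :
    |avg (fun d : M → Bool × Bool => avg fun r : ιR × ιR =>
        F (sg1 L R D d r) (sg2 L R D d r)) -
      avg (fun d : M → Bool × Bool => avg fun r : ιR × ιR =>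
        F (sg1 L R D d r + 2 * qv L T D d j p) (sg2 L R D d r + qv L T D d j p))| ≤ 4 * ω := by
  have h0 : avg (fun d : M → Bool × Bool => avg fun r : ιR × ιR =>
        F (sg1 L R D d r) (sg2 L R D d r)) =
      avg (fun d : M → Bool × Bool => avg fun r : ιR × ιR =>
        F (sg1 L R D (U1_sw j d) r) (sg2 L R D (U1_sw j d) r)) :=
    (avg_equiv (U1_eq j) (fun d : M → Bool × Bool => avg fun r : ιR × ιR =>
        F (sg1 L R D d r) (sg2 L R D d r))).symm
  rw [h0]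
  apply U1_abs_sub
  intro d
  have hb : NI R ω (3 * lin L D (fun m => io (d m).1 (d m).2 (j m))) :=
    NI3.lin L hE.r3 D _ (fun m _ => (U1_bits (d m) (j m)).2.2)
  have hT := hE.rt p
  have hT2 := hT.nsmul 2
  have h1 := hb.add hT2
  have h2 := U1_ni2 R F hF _ _ _ _ h1 hT (lin L D (fun m => bz (U1_sw j d m).1))
    (lin L D (fun m => bz (U1_sw j d m).2))
  have e1 : ∀ r : ιR × ιR, sg1 L R D d r + 2 * qv L T D d j p =
      lin L D (fun m => bz (U1_sw j d m).1) + R r.1 +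
        (3 * lin L D (fun m => io (d m).1 (d m).2 (j m)) + ((2 : ℕ) : ℤ) * T p) := by
    intro r
    have := U1_lin1 L D d j
    unfold sg1 qv
    push_cast
    linarith
  have e2 : ∀ r : ιR × ιR, sg2 L R D d r + qv L T D d j p =
      lin L D (fun m => bz (U1_sw j d m).2) + R r.2 + T p := by
    intro r
    have := U1_lin2 L D d j
    unfold sg2 qv
    linarith
  simp_rw [e1, e2]
  refine h2.trans (le_of_eq ?_)
  push_cast
  ring

/-- change of variables `(σ, σ') → (σ + 2q, σ' + q)` -/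
theorem U1 (h₁ : f₁ ∈ PSys.ball) (h₂ : f₂ ∈ PSys.ball) (ω : ℝ) (hE : Env L R T ω) (b b' : ℤ) :
    |(⟪vv L R D f₁ f₂ b', vv L R D f₁ f₂ b⟫_ℂ).re -
      avg (fun d : M → Bool × Bool => avg fun r : ιR × ιR =>
        (⟪UU L R T D f₁ f₂ d r b' (2 * b), FF L R D f₁ f₂ d r b (2 * b')⟫_ℂ).re)| ≤ 8 * ω := by
  rw [U1_vv]
  simp_rw [U1_UU]
  have hω : 0 ≤ ω := (hE.rt (Classical.arbitrary ιT)).nonneg
  have h1 : avg (fun d : M → Bool × Bool => avg fun r : ιR × ιR => avg fun j : M → Bool =>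
      avg fun p : ιT => U1_F f₁ f₂ b b' (sg1 L R D d r + 2 * qv L T D d j p)
        (sg2 L R D d r + qv L T D d j p)) =
      avg fun j : M → Bool => avg fun p : ιT => avg fun d : M → Bool × Bool =>
        avg fun r : ιR × ιR => U1_F f₁ f₂ b b' (sg1 L R D d r + 2 * qv L T D d j p)
        (sg2 L R D d r + qv L T D d j p) := by
    have h2 : ∀ d : M → Bool × Bool, (avg fun r : ιR × ιR => avg fun j : M → Bool =>
      avg fun p : ιT => U1_F f₁ f₂ b b' (sg1 L R D d r + 2 * qv L T D d j p)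
        (sg2 L R D d r + qv L T D d j p)) = avg fun j : M → Bool => avg fun p : ιT =>
        avg fun r : ιR × ιR => U1_F f₁ f₂ b b' (sg1 L R D d r + 2 * qv L T D d j p)
        (sg2 L R D d r + qv L T D d j p) := by
      intro d
      rw [avg_comm]
      congr 1
      funext j
      rw [avg_comm]
    simp_rw [h2]
    rw [avg_comm]
    congr 1
    funext j
    rw [avg_comm]
  rw [h1]
  have h3 : avg (fun d : M → Bool × Bool => avg fun r : ιR × ιR =>
        U1_F f₁ f₂ b b' (sg1 L R D d r) (sg2 L R D d r)) =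
      avg fun _ : M → Bool => avg fun _ : ιT => avg (fun d : M → Bool × Bool =>
        avg fun r : ιR × ιR => U1_F f₁ f₂ b b' (sg1 L R D d r) (sg2 L R D d r)) := by
    rw [avg_const, avg_const]
  rw [h3]
  refine (U1_abs_sub _ _ (4 * ω) (fun j => U1_abs_sub _ _ (4 * ω) (fun p => ?_))).trans
    (by linarith)
  exact U1_fixed L R T D (U1_F f₁ f₂ b b') (U1_F_abs f₁ f₂ h₁ h₂ b b') ω hE j p



/-! #### U3 -/


theorem U3_A1 {ι : Type} [Fintype ι] [Nonempty ι] {f g : ι → ℝ} {C : ℝ}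
    (h : ∀ i, |f i - g i| ≤ C) : |avg f - avg g| ≤ C := by
  rw [← avg_sub]
  exact (abs_avg_le _).trans (avg_le _ _ h)

theorem U3_Y (h₁ : f₁ ∈ PSys.ball) (h : ℤ) : f₁ * PSys.tau h (star f₁) ∈ (PSys.ball : Set A) :=
  PSys.mul_mem _ h₁ _ (PSys.tau_mem _ _ (PSys.star_mem _ h₁))

theorem U3_abs_E {Y : A} (hY : Y ∈ PSys.ball) (a : A) : |(PSys.E (Y * a)).re| ≤ ‖a‖ :=
  (Complex.abs_re_le_norm _).trans (norm_E_mul_le hY a)

theorem U3_gam (u w : ℤ) : gam f₁ f₂ u w =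
    (PSys.E (f₁ * PSys.tau u (star f₁) * PSys.tau w (Zf (-2) (star f₂) u))).re := by
  unfold gam Zf
  congr 2
  rw [map_mul, star_star, tau_tau]
  have : w + -2 * u = w - 2 * u := by ring
  rw [this]
  ring

/-- first coordinate of the digit law -/
def U3_ud (w : B4) : ℤ := io w.1 w.2.1 w.2.2.1 - io w.1 w.2.1 w.2.2.2

/-- residue digit -/
def U3_vp (w : B4) : ℤ := if w.1 = w.2.1 then bz w.1 else 2

/-- carry digit -/
def U3_cc (w : B4) : ℤ := if w.1 = w.2.1 then 0 else if w.1 = true then bz w.2.2.1 else -1 - bz w.2.2.1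

theorem U3_dig (w : B4) : 2 * bz w.1 - bz w.2.1 + 3 * io w.1 w.2.1 w.2.2.1 = U3_vp w + 3 * U3_cc w := by
  revert w; decide

theorem U3_cc_le (w : B4) : |U3_cc w| ≤ 12 := by
  revert w; decide

/-- the law of the digits -/
theorem U3_law : SameLaw (fun w : B4 => ((U3_ud w, U3_vp w) : ℤ × ℤ))
    (fun w : B4 × Fin 3 => ((kd w.1, if kd w.1 = 0 then ((w.2 : ℕ) : ℤ) else 2) : ℤ × ℤ)) := by
  apply SameLaw.of_count
  decide

theorem U3_resample (G : (M → ℤ) → (M → ℤ) → ℝ) :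
    (avg fun w : M → B4 => G (fun m => U3_ud (w m)) (fun m => U3_vp (w m))) =
      avg fun w : M → B4 => avg fun c : M → Fin 3 =>
        G (fun m => kd (w m)) (fun m => if kd (w m) = 0 then ((c m : ℕ) : ℤ) else 2) := by
  have h := U3_law.avg_pi (M := M) (V := ℝ)
    (fun x => G (fun m => (x m).1) (fun m => (x m).2))
  refine h.trans ?_
  rw [← avg_prod (f := fun p : (M → B4) × (M → Fin 3) =>
    G (fun m => kd (p.1 m)) (fun m => if kd (p.1 m) = 0 then ((p.2 m : ℕ) : ℤ) else 2))]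
  rw [← avg_equiv (Equiv.arrowProdEquivProdArrow M (fun _ => B4) (fun _ => Fin 3))]
  rfl

/-- the exact expression -/
theorem U3_approx (h₁ : f₁ ∈ PSys.ball) (h₂ : f₂ ∈ PSys.ball) (ω : ℝ) (hE : Env L R T ω)
    (ρ z : ℤ) :
    |Th L R T D f₁ f₂ ρ z -
      avg fun w : M → B4 => avg fun s : ιT × ιT => avg fun r : ιR × ιR =>
        (PSys.E (f₁ * PSys.tau (kcol L T D w s + z) (star f₁) *
          PSys.tau (2 * R r.1 - R r.2 + ρ)
            (Vcol L 1 (-2) (star f₂) T D (fun m => kd (w m)) (kcol L T D w s + z)))).re| ≤ 5 * ω := by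
  have hω : 0 ≤ ω := (hE.rt (Classical.arbitrary ιT)).nonneg
  -- insertion of t and removal of the carry
  have hS : |Th L R T D f₁ f₂ ρ z -
      avg fun w : M → B4 => avg fun s : ιT × ιT => avg fun r : ιR × ιR => avg fun t : ιT =>
        gam f₁ f₂ (lin L D (fun m => U3_ud (w m)) + T s.2 - T s.1 + z)
          (2 * R r.1 - R r.2 + ρ + (lin L D (fun m => U3_vp (w m)) + T t))| ≤ 5 * ω := by
    unfold Th
    refine U3_A1 fun w => ?_
    rw [avg_comm]
    rw [← avg_equiv (Equiv.prodComm ιT ιT)]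
    refine U3_A1 fun s => ?_
    rw [avg_comm (f := fun (r : ιR × ιR) (t : ιT) => _)]
    rw [← avg_const (ι := ιT) (avg fun r : ιR × ιR => gam f₁ f₂
      (lin L D (fun m => io (w m).1 (w m).2.1 (w m).2.2.1 - io (w m).1 (w m).2.1 (w m).2.2.2)
        + T ((Equiv.prodComm ιT ιT) s).1 - T ((Equiv.prodComm ιT ιT) s).2 + z)
      (lin L D (fun m => 2 * bz (w m).1 - bz (w m).2.1 + 3 * io (w m).1 (w m).2.1 (w m).2.2.1)
        + 2 * R r.1 - R r.2 + 3 * T ((Equiv.prodComm ιT ιT) s).1 + ρ))]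
    refine U3_A1 fun t => ?_
    rw [avg_prod, avg_prod]
    refine U3_A1 fun r₁ => ?_
    have e1 : (fun m => 2 * bz (w m).1 - bz (w m).2.1 + 3 * io (w m).1 (w m).2.1 (w m).2.2.1)
        = fun m => U3_vp (w m) + 3 * U3_cc (w m) := by
      funext m; exact U3_dig (w m)
    rw [e1, lin_add, lin_mul]
    have n1 : NI R ω (3 * lin L D (fun m => U3_cc (w m))) :=
      hE.r3.lin L D _ fun m _ => U3_cc_le (w m)
    have n2 : NI R (3 * ω) (3 * T s.2) := by
      have := (hE.rt s.2).nsmul 3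
      exact_mod_cast this
    have n3 : NI R ω (-T t) := (hE.rt t).neg
    have n4 := (n1.add n2).add n3
    have h := n4 (fun n => gam f₁ f₂
      (lin L D (fun m => io (w m).1 (w m).2.1 (w m).2.2.1 - io (w m).1 (w m).2.1 (w m).2.2.2)
        + T s.2 - T s.1 + z)
      (lin L D (fun m => U3_vp (w m)) + 3 * lin L D (fun m => U3_cc (w m))
        + 2 * R r₁ - n + 3 * T s.2 + ρ)) (fun n => abs_gam_le f₁ f₂ h₁ h₂ _ _)
    rw [abs_sub_comm] at h
    have e2 : ω + 3 * ω + ω = 5 * ω := by ring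
    rw [e2] at h
    refine le_trans (le_of_eq ?_) h
    congr 3
    funext r₂
    simp only [U3_ud]
    congr 1
    ring
  have hR : (avg fun w : M → B4 => avg fun s : ιT × ιT => avg fun r : ιR × ιR => avg fun t : ιT =>
        gam f₁ f₂ (lin L D (fun m => U3_ud (w m)) + T s.2 - T s.1 + z)
          (2 * R r.1 - R r.2 + ρ + (lin L D (fun m => U3_vp (w m)) + T t))) =
      avg fun w : M → B4 => avg fun s : ιT × ιT => avg fun r : ιR × ιR =>
        (PSys.E (f₁ * PSys.tau (kcol L T D w s + z) (star f₁) *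
          PSys.tau (2 * R r.1 - R r.2 + ρ)
            (Vcol L 1 (-2) (star f₂) T D (fun m => kd (w m)) (kcol L T D w s + z)))).re := by
    rw [U3_resample (fun x y => avg fun s : ιT × ιT => avg fun r : ιR × ιR => avg fun t : ιT =>
        gam f₁ f₂ (lin L D x + T s.2 - T s.1 + z)
          (2 * R r.1 - R r.2 + ρ + (lin L D y + T t)))]
    congr 1; funext w
    rw [avg_comm]
    congr 1; funext s
    rw [avg_comm]
    congr 1; funext r
    unfold Vcol
    rw [tau_avg, mul_avg, E_avg, re_avg]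
    congr 1; funext c
    rw [tau_avg, mul_avg, E_avg, re_avg]
    congr 1; funext t
    rw [U3_gam, tau_tau, kcol, one_mul]
  rw [← hR]
  exact hS

theorem U3 (h₁ : f₁ ∈ PSys.ball) (h₂ : f₂ ∈ PSys.ball) (ω : ℝ) (hE : Env L R T ω) (ρ c z : ℤ) :
    |Th L R T D f₁ f₂ (ρ + c) z - Th L R T D f₁ f₂ ρ z| ≤
      √(2 * (Bc L 1 (-2) (star f₂) T T D 0 z - Bc L 1 (-2) (star f₂) T T D c z)) + 10 * ω := by
  have hω : 0 ≤ ω := (hE.rt (Classical.arbitrary ιT)).nonneg
  have a1 := U3_approx L R T D f₁ f₂ h₁ h₂ ω hE (ρ + c) z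
  have a2 := U3_approx L R T D f₁ f₂ h₁ h₂ ω hE ρ z
  set X1 := avg fun w : M → B4 => avg fun s : ιT × ιT => avg fun r : ιR × ιR =>
        (PSys.E (f₁ * PSys.tau (kcol L T D w s + z) (star f₁) *
          PSys.tau (2 * R r.1 - R r.2 + (ρ + c))
            (Vcol L 1 (-2) (star f₂) T D (fun m => kd (w m)) (kcol L T D w s + z)))).re with hX1
  set X2 := avg fun w : M → B4 => avg fun s : ιT × ιT => avg fun r : ιR × ιR =>
        (PSys.E (f₁ * PSys.tau (kcol L T D w s + z) (star f₁) *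
          PSys.tau (2 * R r.1 - R r.2 + ρ)
            (Vcol L 1 (-2) (star f₂) T D (fun m => kd (w m)) (kcol L T D w s + z)))).re with hX2
  have h12 : |X1 - X2| ≤
      √(2 * (Bc L 1 (-2) (star f₂) T T D 0 z - Bc L 1 (-2) (star f₂) T T D c z)) := by
    have hcl := col_loss L 1 (-2) (star f₂) T T D c z
    have hb : |X1 - X2| ≤ avg fun w : M → B4 => avg fun s : ιT × ιT =>
        ‖PSys.tau (1 * c) (Vcol L 1 (-2) (star f₂) T D (fun m => kd (w m)) (kcol L T D w s + z)) -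
          Vcol L 1 (-2) (star f₂) T D (fun m => kd (w m)) (kcol L T D w s + z)‖ := by
      rw [hX1, hX2, ← avg_sub]
      refine (abs_avg_le _).trans (avg_mono _ _ fun w => ?_)
      rw [← avg_sub]
      refine (abs_avg_le _).trans (avg_mono _ _ fun s => ?_)
      refine U3_A1 fun r => ?_
      set W := Vcol L 1 (-2) (star f₂) T D (fun m => kd (w m)) (kcol L T D w s + z)
      rw [← Complex.sub_re, ← map_sub, ← mul_sub]
      have e1 : PSys.tau (2 * R r.1 - R r.2 + (ρ + c)) W - PSys.tau (2 * R r.1 - R r.2 + ρ) W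
          = PSys.tau (2 * R r.1 - R r.2 + ρ) (PSys.tau (1 * c) W - W) := by
        rw [map_sub, tau_tau]
        congr 2
        ring
      rw [e1]
      refine (U3_abs_E (U3_Y f₁ h₁ _) _).trans ?_
      rw [norm_tau]
    have hBA : 2 * (Bc L 1 (-2) (star f₂) T T D 0 z - Bc L 1 (-2) (star f₂) T T D c z) =
        avg fun w : M → B4 => avg fun s : ιT × ιT =>
        ‖PSys.tau (1 * c) (Vcol L 1 (-2) (star f₂) T D (fun m => kd (w m)) (kcol L T D w s + z)) -
          Vcol L 1 (-2) (star f₂) T D (fun m => kd (w m)) (kcol L T D w s + z)‖ ^ 2 := by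
      rw [hcl]
      ring
    rw [hBA]
    refine hb.trans (Real.le_sqrt_of_sq_le ?_)
    refine (avg_sq_le _).trans (avg_mono _ _ fun d => ?_)
    exact avg_sq_le _
  have t1 := abs_sub_le (Th L R T D f₁ f₂ (ρ + c) z) X1 (Th L R T D f₁ f₂ ρ z)
  have t2 := abs_sub_le X1 X2 (Th L R T D f₁ f₂ ρ z)
  rw [abs_sub_comm X2] at t2
  linarith



/-! #### U3lin -/


theorem U3lin_A1 {ι : Type} [Fintype ι] [Nonempty ι] {f g : ι → ℝ} {C : ℝ}
    (h : ∀ i, |f i - g i| ≤ C) : |avg f - avg g| ≤ C := by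
  rw [← avg_sub]
  exact (abs_avg_le _).trans (avg_le _ _ h)

theorem U3lin_neg (D : Finset M) (e : M → ℤ) : lin L D (fun m => -e m) = -lin L D e := by
  unfold lin
  rw [← Finset.sum_neg_distrib]
  exact Finset.sum_congr rfl fun m _ => by ring

theorem U3lin (h₁ : f₁ ∈ PSys.ball) (h₂ : f₂ ∈ PSys.ball) (ω : ℝ) (hE : Env L R T ω)
    (ρ z : ℤ) (R' : Finset M) (e : M → ℤ) (he : ∀ m, |e m| ≤ 12) :
    |Th L R T D f₁ f₂ (ρ + 3 * lin L R' e) z - Th L R T D f₁ f₂ ρ z| ≤ ω := by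
  have hNI : NI R ω (3 * lin L R' (fun m => -e m)) :=
    hE.r3.lin L R' (fun m => -e m) fun m _ => by rw [abs_neg]; exact he m
  rw [U3lin_neg] at hNI
  unfold Th
  refine U3lin_A1 fun w => ?_
  rw [avg_prod, avg_prod]
  refine U3lin_A1 fun r₁ => ?_
  rw [avg_comm, avg_comm (f := fun (j : ιR) (p : ιT × ιT) => _)]
  refine U3lin_A1 fun p => ?_
  have h := hNI (fun n => gam f₁ f₂
      (lin L D (fun m => io (w m).1 (w m).2.1 (w m).2.2.1 - io (w m).1 (w m).2.1 (w m).2.2.2)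
        + T p.1 - T p.2 + z)
      (lin L D (fun m => 2 * bz (w m).1 - bz (w m).2.1 + 3 * io (w m).1 (w m).2.1 (w m).2.2.1)
        + 2 * R r₁ - n + 3 * T p.1 + ρ)) (fun n => abs_gam_le f₁ f₂ h₁ h₂ _ _)
  refine le_trans (le_of_eq ?_) h
  congr 3
  funext r₂
  congr 1
  ring

theorem U5lin (h₁ : f₁ ∈ PSys.ball) (h₂ : f₂ ∈ PSys.ball) (ω : ℝ) (hE : Env L R T ω)
    (ρ z : ℤ) (R' : Finset M) (e : M → ℤ) (he : ∀ m, |e m| ≤ 12) :
    |Th L R T D f₁ f₂ ρ (z + 3 * lin L R' e) - Th L R T D f₁ f₂ ρ z| ≤ ω := by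
  have hNI : NI T ω (3 * lin L R' (fun m => -e m)) :=
    hE.t3.lin L R' (fun m => -e m) fun m _ => by rw [abs_neg]; exact he m
  rw [U3lin_neg] at hNI
  unfold Th
  refine U3lin_A1 fun w => ?_
  refine U3lin_A1 fun r => ?_
  rw [avg_prod, avg_prod]
  refine U3lin_A1 fun p₁ => ?_
  have h := hNI (fun n => gam f₁ f₂
      (lin L D (fun m => io (w m).1 (w m).2.1 (w m).2.2.1 - io (w m).1 (w m).2.1 (w m).2.2.2)
        + T p₁ - n + z)
      (lin L D (fun m => 2 * bz (w m).1 - bz (w m).2.1 + 3 * io (w m).1 (w m).2.1 (w m).2.2.1)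
        + 2 * R r.1 - R r.2 + 3 * T p₁ + ρ)) (fun n => abs_gam_le f₁ f₂ h₁ h₂ _ _)
  refine le_trans (le_of_eq ?_) h
  congr 3
  funext p₂
  congr 1
  ring



/-! #### stat -/


theorem stat_A1 {ι : Type} [Fintype ι] [Nonempty ι] {f g : ι → ℝ} {C : ℝ}
    (h : ∀ i, |f i - g i| ≤ C) : |avg f - avg g| ≤ C := by
  rw [← avg_sub]
  exact (abs_avg_le _).trans (avg_le _ _ h)

/-- the basic function -/
noncomputable def stat_Phi (f₁ f₂ : A) (h s : ℤ) : ℝ :=
  (PSys.E (f₁ * PSys.tau h (star f₁) * PSys.tau s (Zf 2 f₂ h))).re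

theorem stat_Y (h₁ : f₁ ∈ PSys.ball) (h : ℤ) : f₁ * PSys.tau h (star f₁) ∈ (PSys.ball : Set A) :=
  PSys.mul_mem _ h₁ _ (PSys.tau_mem _ _ (PSys.star_mem _ h₁))

theorem stat_abs_E {Y : A} (hY : Y ∈ PSys.ball) (a : A) : |(PSys.E (Y * a)).re| ≤ ‖a‖ :=
  (Complex.abs_re_le_norm _).trans (norm_E_mul_le hY a)

theorem stat_Zf (h₂ : f₂ ∈ PSys.ball) (h : ℤ) : ‖Zf 2 f₂ h‖ ≤ 1 := by
  apply norm_le_one_of_ball
  exact PSys.mul_mem _ h₂ _ (PSys.tau_mem _ _ (PSys.star_mem _ h₂))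

theorem stat_Phi_le (h₁ : f₁ ∈ PSys.ball) (h₂ : f₂ ∈ PSys.ball) (h s : ℤ) :
    |stat_Phi f₁ f₂ h s| ≤ 1 := by
  unfold stat_Phi
  refine (stat_abs_E (stat_Y f₁ h₁ h) _).trans ?_
  rw [norm_tau]
  exact stat_Zf f₂ h₂ h

theorem stat_pair (b b' : ℤ) :
    (⟪PSys.tau b' f₁ * PSys.tau (2 * b') f₂, PSys.tau b f₁ * PSys.tau (2 * b) f₂⟫_ℂ).re
      = stat_Phi f₁ f₂ (b' - b) b := by
  rw [inner_def, stat_Phi]
  congr 1
  rw [← PSys.E_tau (-b)]
  congr 1
  simp only [map_mul, map_star, star_mul', tau_tau, Zf]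
  have e1 : -b + b' = b' - b := by ring
  have e2 : -b + 2 * b' = b + 2 * (b' - b) := by ring
  have e3 : -b + b = 0 := by ring
  have e4 : -b + 2 * b = b := by ring
  rw [e1, e2, e3, e4, PSys.tau_zero]
  ring

theorem stat_gram (c c' : ℤ) :
    (⟪vv L R D f₁ f₂ c', vv L R D f₁ f₂ c⟫_ℂ).re =
      avg fun d : M → Bool × Bool => avg fun r : ιR × ιR =>
        stat_Phi f₁ f₂ (lin L D (fun m => bz (d m).2 - bz (d m).1) + R r.2 - R r.1 + (c' - c))
          (lin L D (fun m => bz (d m).1) + R r.1 + c) := by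
  have h1 : (⟪vv L R D f₁ f₂ c', vv L R D f₁ f₂ c⟫_ℂ).re =
      avg fun d' : M → Bool => avg fun r' : ιR => avg fun d : M → Bool => avg fun r : ιR =>
        stat_Phi f₁ f₂ ((lin L D (fun m => bz (d' m)) + R r' + c') - (lin L D (fun m => bz (d m)) + R r + c))
          (lin L D (fun m => bz (d m)) + R r + c) := by
    unfold vv
    rw [re_inner_avg_left]
    congr 1; funext d'
    rw [re_inner_avg_left]
    congr 1; funext r'
    rw [re_inner_avg_right]
    congr 1; funext d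
    rw [re_inner_avg_right]
    congr 1; funext r
    exact stat_pair f₁ f₂ _ _
  rw [h1, avg_comm]
  have h2 : (avg fun d : M → Bool × Bool => avg fun r : ιR × ιR =>
        stat_Phi f₁ f₂ (lin L D (fun m => bz (d m).2 - bz (d m).1) + R r.2 - R r.1 + (c' - c))
          (lin L D (fun m => bz (d m).1) + R r.1 + c)) =
      avg fun p : (M → Bool) × (M → Bool) => avg fun r : ιR × ιR =>
        stat_Phi f₁ f₂ (lin L D (fun m => bz (p.2 m) - bz (p.1 m)) + R r.2 - R r.1 + (c' - c))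
          (lin L D (fun m => bz (p.1 m)) + R r.1 + c) := by
    rw [← avg_equiv (Equiv.arrowProdEquivProdArrow M (fun _ => Bool) (fun _ => Bool))]
    rfl
  rw [h2, avg_prod]
  -- order d, d', r, r'
  have h3 : ∀ (G : (M → Bool) → (M → Bool) → ιR → ιR → ℝ),
      (avg fun r' : ιR => avg fun d' : M → Bool => avg fun d : M → Bool => avg fun r : ιR => G d d' r r')
      = avg fun d : M → Bool => avg fun d' : M → Bool => avg fun r : ιR × ιR => G d d' r.1 r.2 := by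
    intro G
    have e1 : ∀ d d', (avg fun r : ιR × ιR => G d d' r.1 r.2) = avg fun r => avg fun r' => G d d' r r' :=
      fun d d' => avg_prod _
    simp only [e1]
    rw [avg_comm]
    rw [avg_comm (f := fun (d d' : M → Bool) => avg fun r : ιR => avg fun r' => G d d' r r')]
    congr 1; funext d'
    rw [avg_comm]
    congr 1; funext d
    rw [avg_comm]
  rw [h3 (fun d d' r r' => stat_Phi f₁ f₂ ((lin L D (fun m => bz (d' m)) + R r' + c')
    - (lin L D (fun m => bz (d m)) + R r + c)) (lin L D (fun m => bz (d m)) + R r + c))]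
  congr 1; funext d
  congr 1; funext d'
  congr 1; funext r
  rw [lin_sub]
  congr 1
  ring

/-- the law of the digits -/
theorem stat_law : SameLaw (fun d : Bool × Bool => ((bz d.2 - bz d.1, bz d.1) : ℤ × ℤ))
    (fun d : (Bool × Bool) × Bool => ((bz d.1.2 - bz d.1.1, bz (resd d.1.1 d.1.2 d.2)) : ℤ × ℤ)) := by
  apply SameLaw.of_count
  decide

theorem stat_resample (G : (M → ℤ) → (M → ℤ) → ℝ) :
    (avg fun d : M → Bool × Bool => G (fun m => bz (d m).2 - bz (d m).1) (fun m => bz (d m).1)) =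
      avg fun d : M → Bool × Bool => avg fun e : M → Bool =>
        G (fun m => bz (d m).2 - bz (d m).1) (fun m => bz (resd (d m).1 (d m).2 (e m))) := by
  have h := stat_law.avg_pi (M := M) (V := ℝ)
    (fun x => G (fun m => (x m).1) (fun m => (x m).2))
  refine h.trans ?_
  rw [← avg_prod (f := fun p : (M → Bool × Bool) × (M → Bool) =>
    G (fun m => bz (p.1 m).2 - bz (p.1 m).1) (fun m => bz (resd (p.1 m).1 (p.1 m).2 (p.2 m))))]
  rw [← avg_equiv (Equiv.arrowProdEquivProdArrow M (fun _ => Bool × Bool) (fun _ => Bool))]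
  rfl

/-- the exact expression after the insertion of the small window -/
theorem stat_approx (h₁ : f₁ ∈ PSys.ball) (h₂ : f₂ ∈ PSys.ball) (ω : ℝ) (hE : Env L R T ω)
    (c c' : ℤ) :
    |(⟪vv L R D f₁ f₂ c', vv L R D f₁ f₂ c⟫_ℂ).re -
      avg fun d : M → Bool × Bool => avg fun r : ιR × ιR =>
        (PSys.E (f₁ * PSys.tau (hrow L R D d r + (c' - c)) (star f₁) *
          PSys.tau (R r.1 + c) (Wrow L 2 1 f₂ T D d (hrow L R D d r + (c' - c))))).re| ≤ 2 * ω := by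
  rw [stat_gram]
  have hω : 0 ≤ ω := (hE.rt (Classical.arbitrary ιT)).nonneg
  -- insertion of t
  have hS : |(avg fun d : M → Bool × Bool => avg fun r : ιR × ιR =>
        stat_Phi f₁ f₂ (lin L D (fun m => bz (d m).2 - bz (d m).1) + R r.2 - R r.1 + (c' - c))
          (lin L D (fun m => bz (d m).1) + R r.1 + c)) -
      avg fun d : M → Bool × Bool => avg fun r : ιR × ιR => avg fun t : ιT =>
        stat_Phi f₁ f₂ (lin L D (fun m => bz (d m).2 - bz (d m).1) + R r.2 - R r.1 + (c' - c))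
          (lin L D (fun m => bz (d m).1) + T t + R r.1 + c)| ≤ 2 * ω := by
    refine stat_A1 fun d => ?_
    rw [avg_comm (f := fun (r : ιR × ιR) (t : ιT) => _)]
    rw [← avg_const (ι := ιT) (avg fun r : ιR × ιR =>
        stat_Phi f₁ f₂ (lin L D (fun m => bz (d m).2 - bz (d m).1) + R r.2 - R r.1 + (c' - c))
          (lin L D (fun m => bz (d m).1) + R r.1 + c))]
    refine stat_A1 fun t => ?_
    set X := lin L D (fun m => bz (d m).2 - bz (d m).1) with hX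
    set Y := lin L D (fun m => bz (d m).1) with hY
    set Ψ : ℤ → ℤ → ℝ := fun n n' => stat_Phi f₁ f₂ (X + n' - n + (c' - c)) (Y + n + c) with hΨ
    have hΨ1 : ∀ n n', |Ψ n n'| ≤ 1 := fun n n' => stat_Phi_le f₁ f₂ h₁ h₂ _ _
    have e1 : (avg fun r : ιR × ιR => stat_Phi f₁ f₂ (X + R r.2 - R r.1 + (c' - c)) (Y + R r.1 + c))
        = avg fun r : ιR => avg fun r' : ιR => Ψ (R r) (R r') := avg_prod _
    have e2 : (avg fun r : ιR × ιR => stat_Phi f₁ f₂ (X + R r.2 - R r.1 + (c' - c))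
        (Y + T t + R r.1 + c))
        = avg fun r : ιR => avg fun r' : ιR => Ψ (R r + T t) (R r' + T t) := by
      rw [avg_prod]
      congr 1; funext r
      congr 1; funext r'
      simp only [hΨ]
      congr 1 <;> ring
    rw [e1, e2]
    have s1 : |(avg fun r : ιR => avg fun r' : ιR => Ψ (R r) (R r'))
        - avg fun r : ιR => avg fun r' : ιR => Ψ (R r) (R r' + T t)| ≤ ω := by
      refine stat_A1 fun r => ?_
      rw [abs_sub_comm]
      exact hE.rt t (fun n => Ψ (R r) n) fun n => hΨ1 _ _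
    have s2 : |(avg fun r : ιR => avg fun r' : ιR => Ψ (R r) (R r' + T t))
        - avg fun r : ιR => avg fun r' : ιR => Ψ (R r + T t) (R r' + T t)| ≤ ω := by
      rw [avg_comm, avg_comm (f := fun (r r' : ιR) => Ψ (R r + T t) (R r' + T t))]
      refine stat_A1 fun r' => ?_
      rw [abs_sub_comm]
      exact hE.rt t (fun n => Ψ n (R r' + T t)) fun n => hΨ1 _ _
    have := abs_sub_le (avg fun r : ιR => avg fun r' : ιR => Ψ (R r) (R r'))
      (avg fun r : ιR => avg fun r' : ιR => Ψ (R r) (R r' + T t))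
      (avg fun r : ιR => avg fun r' : ιR => Ψ (R r + T t) (R r' + T t))
    linarith
  have hR : (avg fun d : M → Bool × Bool => avg fun r : ιR × ιR => avg fun t : ιT =>
        stat_Phi f₁ f₂ (lin L D (fun m => bz (d m).2 - bz (d m).1) + R r.2 - R r.1 + (c' - c))
          (lin L D (fun m => bz (d m).1) + T t + R r.1 + c)) =
      avg fun d : M → Bool × Bool => avg fun r : ιR × ιR =>
        (PSys.E (f₁ * PSys.tau (hrow L R D d r + (c' - c)) (star f₁) *
          PSys.tau (R r.1 + c) (Wrow L 2 1 f₂ T D d (hrow L R D d r + (c' - c))))).re := by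
    rw [stat_resample (fun x y => avg fun r : ιR × ιR => avg fun t : ιT =>
        stat_Phi f₁ f₂ (lin L D x + R r.2 - R r.1 + (c' - c)) (lin L D y + T t + R r.1 + c))]
    congr 1; funext d
    rw [avg_comm]
    congr 1; funext r
    unfold Wrow
    rw [tau_avg, mul_avg, E_avg, re_avg]
    congr 1; funext e
    rw [tau_avg, mul_avg, E_avg, re_avg]
    congr 1; funext t
    rw [stat_Phi, tau_tau, hrow]
    have e3 : R r.1 + c + 1 * (lin L D (fun m => bz (resd (d m).1 (d m).2 (e m))) + T t)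
        = lin L D (fun m => bz (resd (d m).1 (d m).2 (e m))) + T t + R r.1 + c := by ring
    rw [e3]
  rw [← hR]
  exact hS

/-- near stationarity of the Gram matrix of the `v_b` -/
theorem stat (h₁ : f₁ ∈ PSys.ball) (h₂ : f₂ ∈ PSys.ball) (ω : ℝ) (hE : Env L R T ω)
    (c c' e : ℤ) :
    |(⟪vv L R D f₁ f₂ (c' + e), vv L R D f₁ f₂ (c + e)⟫_ℂ).re -
      (⟪vv L R D f₁ f₂ c', vv L R D f₁ f₂ c⟫_ℂ).re| ≤
      √(2 * (BA L R T D f₂ (c' - c) 0 - BA L R T D f₂ (c' - c) e)) + 10 * ω := by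
  have hω : 0 ≤ ω := (hE.rt (Classical.arbitrary ιT)).nonneg
  have a1 := stat_approx L R T D f₁ f₂ h₁ h₂ ω hE (c + e) (c' + e)
  have a2 := stat_approx L R T D f₁ f₂ h₁ h₂ ω hE c c'
  have hce : c' + e - (c + e) = c' - c := by ring
  rw [hce] at a1
  set X1 := avg fun d : M → Bool × Bool => avg fun r : ιR × ιR =>
        (PSys.E (f₁ * PSys.tau (hrow L R D d r + (c' - c)) (star f₁) *
          PSys.tau (R r.1 + (c + e)) (Wrow L 2 1 f₂ T D d (hrow L R D d r + (c' - c))))).re with hX1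
  set X2 := avg fun d : M → Bool × Bool => avg fun r : ιR × ιR =>
        (PSys.E (f₁ * PSys.tau (hrow L R D d r + (c' - c)) (star f₁) *
          PSys.tau (R r.1 + c) (Wrow L 2 1 f₂ T D d (hrow L R D d r + (c' - c))))).re with hX2
  have h12 : |X1 - X2| ≤ √(2 * (BA L R T D f₂ (c' - c) 0 - BA L R T D f₂ (c' - c) e)) := by
    have hrl := row_loss L 2 1 f₂ R T D (c' - c) e
    have hb : |X1 - X2| ≤ avg fun d : M → Bool × Bool => avg fun r : ιR × ιR =>
        ‖PSys.tau (1 * e) (Wrow L 2 1 f₂ T D d (hrow L R D d r + (c' - c))) -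
          Wrow L 2 1 f₂ T D d (hrow L R D d r + (c' - c))‖ := by
      rw [hX1, hX2, ← avg_sub]
      refine (abs_avg_le _).trans (avg_mono _ _ fun d => ?_)
      rw [← avg_sub]
      refine (abs_avg_le _).trans (avg_mono _ _ fun r => ?_)
      set W := Wrow L 2 1 f₂ T D d (hrow L R D d r + (c' - c))
      rw [← Complex.sub_re, ← map_sub, ← mul_sub]
      have e1 : PSys.tau (R r.1 + (c + e)) W - PSys.tau (R r.1 + c) W
          = PSys.tau (R r.1 + c) (PSys.tau (1 * e) W - W) := by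
        rw [map_sub, tau_tau]
        congr 2
        ring
      rw [e1]
      refine (stat_abs_E (stat_Y f₁ h₁ _) _).trans ?_
      rw [norm_tau]
    have hBA : 2 * (BA L R T D f₂ (c' - c) 0 - BA L R T D f₂ (c' - c) e) =
        avg fun d : M → Bool × Bool => avg fun r : ιR × ιR =>
        ‖PSys.tau (1 * e) (Wrow L 2 1 f₂ T D d (hrow L R D d r + (c' - c))) -
          Wrow L 2 1 f₂ T D d (hrow L R D d r + (c' - c))‖ ^ 2 := by
      unfold BA
      rw [hrl]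
      ring
    rw [hBA]
    refine hb.trans (Real.le_sqrt_of_sq_le ?_)
    refine (avg_sq_le _).trans (avg_mono _ _ fun d => ?_)
    exact avg_sq_le _
  have t1 := abs_sub_le (⟪vv L R D f₁ f₂ (c' + e), vv L R D f₁ f₂ (c + e)⟫_ℂ).re X1
    (⟪vv L R D f₁ f₂ c', vv L R D f₁ f₂ c⟫_ℂ).re
  have t2 := abs_sub_le X1 X2 (⟪vv L R D f₁ f₂ c', vv L R D f₁ f₂ c⟫_ℂ).re
  rw [abs_sub_comm X2] at t2
  linarith



/-! #### vv_split -/


theorem vv_split (R' : Finset M) (hd' : Disjoint D R') (x : ℤ) :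
    vv L R (D ∪ R') f₁ f₂ x = avg fun b : M → Bool =>
      vv L R D f₁ f₂ (x + lin L R' (fun m => bz (b m))) := by
  unfold vv
  rw [avg_piecewise (κ := fun _ => Bool) R' (fun d : M → Bool => avg fun r : ιR =>
    PSys.tau (lin L (D ∪ R') (fun m => bz (d m)) + R r + x) f₁ *
      PSys.tau (2 * (lin L (D ∪ R') (fun m => bz (d m)) + R r + x)) f₂)]
  congr 1
  funext b
  congr 1
  funext d
  congr 1
  funext r
  have h1 : lin L (D ∪ R') (fun m => bz (R'.piecewise b d m)) + R r + x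
      = lin L D (fun m => bz (d m)) + R r + (x + lin L R' (fun m => bz (b m))) := by
    rw [lin_union L D R' hd']
    have h2 : lin L D (fun m => bz (R'.piecewise b d m)) = lin L D (fun m => bz (d m)) := by
      apply lin_congr
      intro m hm
      rw [Finset.piecewise_eq_of_notMem _ _ _ (Finset.disjoint_left.mp hd' hm)]
    have h3 : lin L R' (fun m => bz (R'.piecewise b d m)) = lin L R' (fun m => bz (b m)) := by
      apply lin_congr
      intro m hm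
      rw [Finset.piecewise_eq_of_mem _ _ _ hm]
    rw [h2, h3]
    ring
  rw [h1]



/-! #### X2 -/


theorem X2 (h₁ : f₁ ∈ PSys.ball) (h₂ : f₂ ∈ PSys.ball) (ω ε : ℝ) (hE : Env L R T ω)
    (hω : ω ≤ ε) (hε : ε ≤ 1) (R' : Finset M) (hd' : Disjoint D R')
    (hl : BU L T D f₂ 0 0 - BU L T (D ∪ R') f₂ 0 0 ≤ ε) (c : M → ℤ) (hc : ∀ m, |c m| ≤ 24) :
    |Th L R T D f₁ f₂ (lin L R' c) 0 - Th L R T D f₁ f₂ 0 0| ≤ 40 * √ε := by
  have hω0 : 0 ≤ ω := (hE.rt (Classical.arbitrary ιT)).nonneg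
  have hε0 : 0 ≤ ε := hω0.trans hω
  have h3 := U3 L R T D f₁ f₂ h₁ h₂ ω hE 0 (lin L R' c) 0
  rw [zero_add] at h3
  have h4 : Bc L 1 (-2) (star f₂) T T D 0 0 - Bc L 1 (-2) (star f₂) T T D (lin L R' c) 0 ≤
      200 * (ε + ω) :=
    lossB L 1 (-2) (star f₂) T T D (PSys.star_mem _ h₂) ω ε (hω.trans hε) hε0 hE.t3 R' hd' hl c hc
  refine h3.trans ?_
  have h5 : √(2 * (Bc L 1 (-2) (star f₂) T T D 0 0 -
      Bc L 1 (-2) (star f₂) T T D (lin L R' c) 0)) ≤ 30 * √ε := by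
    have h6 : 2 * (Bc L 1 (-2) (star f₂) T T D 0 0 -
      Bc L 1 (-2) (star f₂) T T D (lin L R' c) 0) ≤ 30 ^ 2 * ε := by linarith
    refine (Real.sqrt_le_sqrt h6).trans (le_of_eq ?_)
    rw [Real.sqrt_mul (by norm_num), Real.sqrt_sq (by norm_num)]
  have h7 : ε ≤ √ε := by
    have h8 : √ε ≤ 1 := Real.sqrt_le_one.2 hε
    have h9 := Real.mul_self_sqrt hε0
    have h10 := Real.sqrt_nonneg ε
    nlinarith
  linarith



/-! #### X3 -/


theorem X3_bz (d : Bool) : |bz d| ≤ 1 := by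
  cases d <;> simp [bz]

theorem X3_io (d d' j : Bool) : |io d d' j| ≤ 1 := by
  cases d <;> cases d' <;> cases j <;> simp [io, bz]

theorem X3_c (d d' j : Bool) : |2 * bz d - bz d' + 3 * io d d' j| ≤ 24 := by
  have h1 := abs_le.mp (X3_bz d)
  have h2 := abs_le.mp (X3_bz d')
  have h3 := abs_le.mp (X3_io d d' j)
  rw [abs_le]
  constructor <;> linarith [h1.1, h1.2, h2.1, h2.2, h3.1, h3.2]

theorem X3 (h₁ : f₁ ∈ PSys.ball) (h₂ : f₂ ∈ PSys.ball) (ω ε : ℝ) (hE : Env L R T ω)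
    (hω : ω ≤ ε) (hε : ε ≤ 1) (R' : Finset M) (hd' : Disjoint D R')
    (hl : BU L T D f₂ 0 0 - BU L T (D ∪ R') f₂ 0 0 ≤ ε) :
    Th L R T (D ∪ R') f₁ f₂ 0 0 ≤ Th L R T D f₁ f₂ 0 0 + 40 * √ε := by
  rw [Th_split L R T D f₁ f₂ R' hd' 0 0]
  apply avg_le
  intro w
  refine (Th_upper L R T D f₁ f₂ _ _).trans ?_
  have e1 : (0 : ℤ) + lin L R' (fun m => 2 * bz (w m).1 - bz (w m).2.1 +
        3 * io (w m).1 (w m).2.1 (w m).2.2.1) = lin L R' (fun m => 2 * bz (w m).1 - bz (w m).2.1 +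
        3 * io (w m).1 (w m).2.1 (w m).2.2.1) := zero_add _
  have e2 : lin L R' (fun m => 2 * bz (w m).1 - bz (w m).2.1 +
        3 * io (w m).1 (w m).2.1 (w m).2.2.1) -
        3 * (0 + lin L R' (fun m => io (w m).1 (w m).2.1 (w m).2.2.1 -
        io (w m).1 (w m).2.1 (w m).2.2.2)) = lin L R' (fun m => 2 * bz (w m).1 - bz (w m).2.1 +
        3 * io (w m).1 (w m).2.1 (w m).2.2.2) := by
    rw [zero_add, ← lin_mul, ← lin_sub]
    apply lin_congr
    intro m _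
    ring
  rw [e1, e2]
  have k1 := X2 L R T D f₁ f₂ h₁ h₂ ω ε hE hω hε R' hd' hl
    (fun m => 2 * bz (w m).1 - bz (w m).2.1 + 3 * io (w m).1 (w m).2.1 (w m).2.2.1)
    (fun m => X3_c _ _ _)
  have k2 := X2 L R T D f₁ f₂ h₁ h₂ ω ε hE hω hε R' hd' hl
    (fun m => 2 * bz (w m).1 - bz (w m).2.1 + 3 * io (w m).1 (w m).2.1 (w m).2.2.2)
    (fun m => X3_c _ _ _)
  have k1' := (abs_le.mp k1).2
  have k2' := (abs_le.mp k2).2
  linarith



/-! #### X4 -/


/-- diagonal digit -/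
def X4_c (w : B4) : ℤ := if w.1 = w.2.1 then bz w.1 else 0

/-- tripled digit -/
def X4_e (w : B4) : ℤ := if w.1 = w.2.1 then 0 else if w.1 then bz w.2.2.1 else -1 - bz w.2.2.1

theorem X4_digit (w : B4) : 2 * bz w.1 - bz w.2.1 + 3 * io w.1 w.2.1 w.2.2.1 =
    2 * (if w.1 = w.2.1 then 0 else 1) + X4_c w + 3 * X4_e w := by
  revert w
  decide

theorem X4_law : SameLaw (fun w : B4 => io w.1 w.2.1 w.2.2.1 - io w.1 w.2.1 w.2.2.2) kd := by
  apply SameLaw.of_count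
  decide

theorem X4_ebd (w : B4) : |X4_e w| ≤ 12 := by
  revert w
  decide

theorem X4_cbd (w : B4) : |X4_c w| ≤ 24 := by
  revert w
  decide

theorem X4_c0 (w : B4) : io w.1 w.2.1 w.2.2.1 - io w.1 w.2.1 w.2.2.2 ≠ 0 → X4_c w = 0 := by
  revert w
  decide

omit [Fintype M] [DecidableEq M] in
theorem X4_rho (R' : Finset M) (w : M → B4) :
    lin L R' (fun m => 2 * bz (w m).1 - bz (w m).2.1 + 3 * io (w m).1 (w m).2.1 (w m).2.2.1) =
      2 * lin L R' (fun m => if (w m).1 = (w m).2.1 then 0 else 1) +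
        lin L R' (fun m => X4_c (w m)) + 3 * lin L R' (fun m => X4_e (w m)) := by
  unfold lin
  rw [Finset.mul_sum, Finset.mul_sum, ← Finset.sum_add_distrib, ← Finset.sum_add_distrib]
  apply Finset.sum_congr rfl
  intro m _
  beta_reduce
  rw [X4_digit (w m)]
  ring

theorem X4_nn (x y : ℤ) :
    0 ≤ Bc L 1 (-2) (star f₂) T T D 0 y - Bc L 1 (-2) (star f₂) T T D x y := by
  rw [col_loss]
  apply mul_nonneg (by norm_num)
  apply avg_nonneg
  intro w
  apply avg_nonneg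
  intro s
  exact sq_nonneg _

theorem X4_pt (h₁ : f₁ ∈ PSys.ball) (h₂ : f₂ ∈ PSys.ball) (ω : ℝ) (hE : Env L R T ω)
    (R' : Finset M) (w : M → B4) (z : ℤ) :
    Th L R T D f₁ f₂ 0 0 - Th L R T D f₁ f₂
      (2 * lin L R' (fun m => if (w m).1 = (w m).2.1 then 0 else 1)) z ≤
    (Th L R T D f₁ f₂ 0 0 - Th L R T D f₁ f₂ (lin L R' (fun m => 2 * bz (w m).1 - bz (w m).2.1 +
        3 * io (w m).1 (w m).2.1 (w m).2.2.1)) z) +
      (√(2 * (Bc L 1 (-2) (star f₂) T T D 0 z -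
        Bc L 1 (-2) (star f₂) T T D (lin L R' (fun m => X4_c (w m))) z)) + 11 * ω) := by
  rw [X4_rho]
  have a1 := U3lin L R T D f₁ f₂ h₁ h₂ ω hE
    (2 * lin L R' (fun m => if (w m).1 = (w m).2.1 then 0 else 1) + lin L R' (fun m => X4_c (w m))) z R'
    (fun m => X4_e (w m)) (fun m => X4_ebd (w m))
  have a2 := U3 L R T D f₁ f₂ h₁ h₂ ω hE
    (2 * lin L R' (fun m => if (w m).1 = (w m).2.1 then 0 else 1)) (lin L R' (fun m => X4_c (w m))) z
  have b1 := (abs_le.mp a1).2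
  have b2 := (abs_le.mp a2).2
  linarith

theorem X4 (h₁ : f₁ ∈ PSys.ball) (h₂ : f₂ ∈ PSys.ball) (ω ε : ℝ) (hE : Env L R T ω)
    (hω : ω ≤ ε) (hε : ε ≤ 1) (R' : Finset M) (hd' : Disjoint D R')
    (hl : BU L T D f₂ 0 0 - BU L T (D ∪ R') f₂ 0 0 ≤ ε)
    (hX : Th L R T D f₁ f₂ 0 0 - Th L R T (D ∪ R') f₁ f₂ 0 0 ≤ ε) :
    (avg fun w : M → B4 => Th L R T D f₁ f₂ 0 0 - Th L R T D f₁ f₂
      (2 * lin L R' (fun m => if (w m).1 = (w m).2.1 then 0 else 1))
      (lin L R' (fun m => io (w m).1 (w m).2.1 (w m).2.2.1 -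
        io (w m).1 (w m).2.1 (w m).2.2.2))) ≤ 100 * √ε := by
  have hω0 : 0 ≤ ω := (hE.t3 (fun _ => 0) (by intro m; norm_num)).nonneg
  have hε0 : 0 ≤ ε := le_trans hω0 hω
  have hsp := Th_split L R T D f₁ f₂ R' hd' 0 0
  simp only [zero_add] at hsp
  have hloss := lossC L 1 (-2) (star f₂) T T D (PSys.star_mem f₂ h₂) ω ε (le_trans hω hε) hε0 hE.t3 R' hd' hl
    (fun w : B4 => io w.1 w.2.1 w.2.2.1 - io w.1 w.2.1 w.2.2.2) X4_c X4_law X4_cbd X4_c0
  have hpt := avg_mono _ _ (fun w : M → B4 => X4_pt L R T D f₁ f₂ h₁ h₂ ω hE R' w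
    (lin L R' (fun m => io (w m).1 (w m).2.1 (w m).2.2.1 - io (w m).1 (w m).2.1 (w m).2.2.2)))
  refine le_trans hpt ?_
  rw [avg_add, avg_add, avg_const, avg_sub, avg_const, ← hsp]
  have hs : (avg fun w : M → B4 => √(2 * (Bc L 1 (-2) (star f₂) T T D 0
      (lin L R' (fun m => io (w m).1 (w m).2.1 (w m).2.2.1 - io (w m).1 (w m).2.1 (w m).2.2.2)) -
        Bc L 1 (-2) (star f₂) T T D (lin L R' (fun m => X4_c (w m)))
      (lin L R' (fun m => io (w m).1 (w m).2.1 (w m).2.2.1 - io (w m).1 (w m).2.1 (w m).2.2.2))))) ≤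
      √(800 * ε) := by
    refine le_trans (avg_sqrt_le _ (fun w => ?_)) ?_
    · exact mul_nonneg (by norm_num) (X4_nn L T D f₂ _ _)
    · apply Real.sqrt_le_sqrt
      rw [avg_mul_left]
      linarith
  have h800 : √(800 * ε) ≤ 29 * √ε := by
    rw [Real.sqrt_mul (by norm_num)]
    apply mul_le_mul_of_nonneg_right _ (Real.sqrt_nonneg _)
    rw [Real.sqrt_le_left (by norm_num)]
    norm_num
  have hεs : ε ≤ √ε := by
    have h1 := Real.sq_sqrt hε0
    have h2 : √ε ≤ 1 := by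
      rw [Real.sqrt_le_one]
      exact hε
    have h3 := Real.sqrt_nonneg ε
    nlinarith
  linarith



/-! #### X5 -/


/-- integer digits -/
def X5_v (α : M → ZMod 3) (m : M) : ℤ := ((α m).val : ℤ)

/-- noise -/
def X5_nu (y : Bool × Bool) : ZMod 3 := ((bz y.2 - bz y.1 : ℤ) : ZMod 3)

theorem X5_nu1 (y : Bool × Bool) : X5_nu y = 1 ↔ y = (false, true) := by
  revert y; decide

theorem X5_nu2 (y : Bool × Bool) : X5_nu y = -1 ↔ y = (true, false) := by
  revert y; decide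

theorem X5_avg1 : avg (fun n : Bool × Bool => if X5_nu n = 1 then (1 : ℝ) else 0) = 1 / 4 := by
  unfold avg
  simp only [X5_nu1]
  rw [Finset.sum_ite_eq']
  simp

theorem X5_avg2 : avg (fun n : Bool × Bool => if X5_nu n = -1 then (1 : ℝ) else 0) = 1 / 4 := by
  unfold avg
  simp only [X5_nu2]
  rw [Finset.sum_ite_eq']
  simp

/-- carry -/
def X5_dg (a : ZMod 3) (y : Bool × Bool) : ℤ :=
  (((a + X5_nu y).val : ℤ) - (a.val : ℤ) - (bz y.2 - bz y.1)) / 3

theorem X5_dg_eq (a : ZMod 3) (y : Bool × Bool) :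
    ((a + X5_nu y).val : ℤ) - (a.val : ℤ) = (bz y.2 - bz y.1) + 3 * X5_dg a y := by
  revert a y; decide

theorem X5_dg_le (a : ZMod 3) (y : Bool × Bool) : |X5_dg a y| ≤ 12 := by
  revert a y; decide

/-- carry -/
def X5_dh (a : ZMod 3) : ℤ := (((a + 1).val : ℤ) - (a.val : ℤ) - 1) / 3

theorem X5_dh_eq (a : ZMod 3) : ((a + 1).val : ℤ) - (a.val : ℤ) = 1 + 3 * X5_dh a := by
  revert a; decide

theorem X5_dh_le (a : ZMod 3) : |X5_dh a| ≤ 12 := by
  revert a; decide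

theorem X5_val_le (a : ZMod 3) : |-1 * (a.val : ℤ)| ≤ 12 := by
  revert a; decide

/-- the vectors -/
noncomputable def X5_e (Z : Finset M) (α : M → ZMod 3) (d : M → Bool × Bool) (r : ιR × ιR) : A :=
  UU L R T D f₁ f₂ d r (lin L Z (X5_v α)) ((2 * lin L Z fun _ => 1) - 2 * lin L Z (X5_v α))

/-- averaged squared distances -/
noncomputable def X5_E2 (Z : Finset M) (α α' : M → ZMod 3) : ℝ :=
  avg fun d : M → Bool × Bool => avg fun r : ιR × ιR =>
    ‖X5_e L R T D f₁ f₂ Z α d r - X5_e L R T D f₁ f₂ Z α' d r‖ ^ 2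

theorem X5_self (Z : Finset M) (α : M → ZMod 3) :
    Th L R T D f₁ f₂ ((2 * lin L Z fun _ => 1) - 3 * lin L Z (X5_v α)) 0 =
      avg fun d : M → Bool × Bool => avg fun r : ιR × ιR =>
        ‖X5_e L R T D f₁ f₂ Z α d r‖ ^ 2 := by
  rw [Th_rep L R T D f₁ f₂ _ 0 (lin L Z (X5_v α))]
  congr 1
  funext d
  congr 1
  funext r
  rw [← re_inner_self]
  unfold X5_e
  have h1 : lin L Z (X5_v α) + 0 = lin L Z (X5_v α) := by ring
  have h2 : lin L Z (X5_v α) + ((2 * lin L Z fun _ => 1) - 3 * lin L Z (X5_v α)) - 2 * 0 =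
    (2 * lin L Z fun _ => 1) - 2 * lin L Z (X5_v α) := by ring
  have h3 : lin L Z (X5_v α) + ((2 * lin L Z fun _ => 1) - 3 * lin L Z (X5_v α)) =
    (2 * lin L Z fun _ => 1) - 2 * lin L Z (X5_v α) := by ring
  rw [h1, h2, h3]

theorem X5_cross (Z : Finset M) (α α' : M → ZMod 3) :
    Th L R T D f₁ f₂ ((2 * lin L Z fun _ => 1) - 3 * lin L Z (X5_v α'))
        (lin L Z (X5_v α) - lin L Z (X5_v α')) =
      avg fun d : M → Bool × Bool => avg fun r : ιR × ιR =>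
        (⟪X5_e L R T D f₁ f₂ Z α d r, X5_e L R T D f₁ f₂ Z α' d r⟫_ℂ).re := by
  rw [Th_rep L R T D f₁ f₂ _ _ (lin L Z (X5_v α'))]
  congr 1
  funext d
  congr 1
  funext r
  unfold X5_e
  have h1 : lin L Z (X5_v α') + (lin L Z (X5_v α) - lin L Z (X5_v α')) = lin L Z (X5_v α) := by
    ring
  have h2 : lin L Z (X5_v α') + ((2 * lin L Z fun _ => 1) - 3 * lin L Z (X5_v α')) -
    2 * (lin L Z (X5_v α) - lin L Z (X5_v α')) =
    (2 * lin L Z fun _ => 1) - 2 * lin L Z (X5_v α) := by ring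
  have h3 : lin L Z (X5_v α') + ((2 * lin L Z fun _ => 1) - 3 * lin L Z (X5_v α')) =
    (2 * lin L Z fun _ => 1) - 2 * lin L Z (X5_v α') := by ring
  rw [h1, h2, h3]

theorem X5_E2_eq (Z : Finset M) (α α' : M → ZMod 3) :
    X5_E2 L R T D f₁ f₂ Z α α' =
      Th L R T D f₁ f₂ ((2 * lin L Z fun _ => 1) - 3 * lin L Z (X5_v α)) 0 +
      Th L R T D f₁ f₂ ((2 * lin L Z fun _ => 1) - 3 * lin L Z (X5_v α')) 0 -
      2 * Th L R T D f₁ f₂ ((2 * lin L Z fun _ => 1) - 3 * lin L Z (X5_v α'))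
        (lin L Z (X5_v α) - lin L Z (X5_v α')) := by
  rw [X5_self, X5_self, X5_cross]
  unfold X5_E2
  simp only [norm_sub_sq_re, avg_sub, avg_add, avg_mul_left]

theorem X5_U3 (h₁ : f₁ ∈ PSys.ball) (h₂ : f₂ ∈ PSys.ball) (ω : ℝ) (hE : Env L R T ω)
    (Z : Finset M) (α : M → ZMod 3) (x : ℤ) :
    |Th L R T D f₁ f₂ ((2 * lin L Z fun _ => 1) - 3 * lin L Z (X5_v α)) x -
      Th L R T D f₁ f₂ (2 * lin L Z fun _ => 1) x| ≤ ω := by
  have h := U3lin L R T D f₁ f₂ h₁ h₂ ω hE (2 * lin L Z fun _ => 1) x Z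
    (fun m => -1 * X5_v α m) (fun m => X5_val_le (α m))
  rw [lin_mul] at h
  have e1 : (2 * lin L Z fun _ => 1) + 3 * (-1 * lin L Z (X5_v α)) =
    (2 * lin L Z fun _ => 1) - 3 * lin L Z (X5_v α) := by ring
  have e2 : (lin L Z fun m => X5_v α m) = lin L Z (X5_v α) := rfl
  rw [e2, e1] at h
  exact h

theorem X5_E2_close (h₁ : f₁ ∈ PSys.ball) (h₂ : f₂ ∈ PSys.ball) (ω : ℝ) (hE : Env L R T ω)
    (Z : Finset M) (α α' : M → ZMod 3) :
    |X5_E2 L R T D f₁ f₂ Z α α' - (2 * Th L R T D f₁ f₂ (2 * lin L Z fun _ => 1) 0 -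
      2 * Th L R T D f₁ f₂ (2 * lin L Z fun _ => 1)
        (lin L Z (X5_v α) - lin L Z (X5_v α')))| ≤ 4 * ω := by
  rw [X5_E2_eq]
  have a1 := abs_le.1 (X5_U3 L R T D f₁ f₂ h₁ h₂ ω hE Z α 0)
  have a2 := abs_le.1 (X5_U3 L R T D f₁ f₂ h₁ h₂ ω hE Z α' 0)
  have a3 := abs_le.1 (X5_U3 L R T D f₁ f₂ h₁ h₂ ω hE Z α'
    (lin L Z (X5_v α) - lin L Z (X5_v α')))
  rw [abs_le]
  constructor <;> linarith [a1.1, a1.2, a2.1, a2.2, a3.1, a3.2]

theorem X5_lin_y (Z : Finset M) (α : M → ZMod 3) (y : M → Bool × Bool) :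
    lin L Z (X5_v fun m => α m + X5_nu (y m)) - lin L Z (X5_v α) =
      lin L Z (fun m => bz (y m).2 - bz (y m).1) +
        3 * lin L Z (fun m => X5_dg (α m) (y m)) := by
  unfold lin
  rw [Finset.mul_sum, ← Finset.sum_sub_distrib, ← Finset.sum_add_distrib]
  refine Finset.sum_congr rfl fun m _ => ?_
  have h := X5_dg_eq (α m) (y m)
  unfold X5_v
  linear_combination L m * h

theorem X5_lin_one (Z : Finset M) (α : M → ZMod 3) :
    lin L Z (X5_v fun m => α m + 1) - lin L Z (X5_v α) =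
      (lin L Z fun _ => 1) + 3 * lin L Z (fun m => X5_dh (α m)) := by
  unfold lin
  rw [Finset.mul_sum, ← Finset.sum_sub_distrib, ← Finset.sum_add_distrib]
  refine Finset.sum_congr rfl fun m _ => ?_
  have h := X5_dh_eq (α m)
  unfold X5_v
  linear_combination L m * h

theorem X5_E2_prod (Z : Finset M) (α α' : M → ZMod 3) :
    X5_E2 L R T D f₁ f₂ Z α α' = avg fun p : (M → Bool × Bool) × (ιR × ιR) =>
      ‖X5_e L R T D f₁ f₂ Z α p.1 p.2 - X5_e L R T D f₁ f₂ Z α' p.1 p.2‖ ^ 2 := by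
  rw [avg_prod]
  rfl

theorem X5_gap (Z : Finset M) :
    (avg fun a : M → ZMod 3 => avg fun a' : M → ZMod 3 => X5_E2 L R T D f₁ f₂ Z a a') ≤
      4 / 3 * avg fun a : M → ZMod 3 => avg fun y : M → Bool × Bool =>
        X5_E2 L R T D f₁ f₂ Z (fun m => a m + X5_nu (y m)) a := by
  simp only [X5_E2_prod]
  have e1 : (avg fun a : M → ZMod 3 => avg fun a' : M → ZMod 3 =>
      avg fun p : (M → Bool × Bool) × (ιR × ιR) =>
      ‖X5_e L R T D f₁ f₂ Z a p.1 p.2 - X5_e L R T D f₁ f₂ Z a' p.1 p.2‖ ^ 2) =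
      avg fun p : (M → Bool × Bool) × (ιR × ιR) => avg fun a : M → ZMod 3 =>
        avg fun a' : M → ZMod 3 =>
      ‖X5_e L R T D f₁ f₂ Z a p.1 p.2 - X5_e L R T D f₁ f₂ Z a' p.1 p.2‖ ^ 2 := by
    refine Eq.trans ?_ (avg_comm _)
    congr 1
    funext a
    exact avg_comm _
  have e2 : (avg fun a : M → ZMod 3 => avg fun y : M → Bool × Bool =>
      avg fun p : (M → Bool × Bool) × (ιR × ιR) =>
      ‖X5_e L R T D f₁ f₂ Z (fun m => a m + X5_nu (y m)) p.1 p.2 -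
        X5_e L R T D f₁ f₂ Z a p.1 p.2‖ ^ 2) =
      avg fun p : (M → Bool × Bool) × (ιR × ιR) => avg fun a : M → ZMod 3 =>
        avg fun y : M → Bool × Bool =>
      ‖X5_e L R T D f₁ f₂ Z (fun m => a m + X5_nu (y m)) p.1 p.2 -
        X5_e L R T D f₁ f₂ Z a p.1 p.2‖ ^ 2 := by
    refine Eq.trans ?_ (avg_comm _)
    congr 1
    funext a
    exact avg_comm _
  rw [e1, e2, ← avg_mul_left]
  refine avg_mono _ _ fun p => ?_
  have h := gap (R := M) (H := A) (N := Bool × Bool) X5_nu (1 / 4) (by norm_num) (by norm_num)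
    X5_avg1 X5_avg2 (fun a => X5_e L R T D f₁ f₂ Z a p.1 p.2)
  have e3 : (3 * (1 / 4 : ℝ))⁻¹ = 4 / 3 := by norm_num
  rw [e3] at h
  exact h

theorem X5_tri (Z : Finset M) (a b c : M → ZMod 3) :
    X5_E2 L R T D f₁ f₂ Z a c ≤ 2 * X5_E2 L R T D f₁ f₂ Z a b +
      2 * X5_E2 L R T D f₁ f₂ Z b c := by
  simp only [X5_E2_prod]
  rw [← avg_mul_left, ← avg_mul_left, ← avg_add]
  refine avg_mono _ _ fun p => ?_
  have h := norm_add_le (X5_e L R T D f₁ f₂ Z a p.1 p.2 - X5_e L R T D f₁ f₂ Z b p.1 p.2)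
    (X5_e L R T D f₁ f₂ Z b p.1 p.2 - X5_e L R T D f₁ f₂ Z c p.1 p.2)
  rw [sub_add_sub_cancel] at h
  nlinarith [norm_nonneg (X5_e L R T D f₁ f₂ Z a p.1 p.2 - X5_e L R T D f₁ f₂ Z c p.1 p.2),
    sq_nonneg (‖X5_e L R T D f₁ f₂ Z a p.1 p.2 - X5_e L R T D f₁ f₂ Z b p.1 p.2‖ -
      ‖X5_e L R T D f₁ f₂ Z b p.1 p.2 - X5_e L R T D f₁ f₂ Z c p.1 p.2‖)]

theorem X5_four (Z : Finset M) :
    (avg fun a : M → ZMod 3 => X5_E2 L R T D f₁ f₂ Z (fun m => a m + 1) a) ≤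
      4 * avg fun a : M → ZMod 3 => avg fun a' : M → ZMod 3 =>
        X5_E2 L R T D f₁ f₂ Z a a' := by
  have h1 : (avg fun a : M → ZMod 3 => X5_E2 L R T D f₁ f₂ Z (fun m => a m + 1) a) ≤
      avg fun a : M → ZMod 3 => avg fun b : M → ZMod 3 =>
        (2 * X5_E2 L R T D f₁ f₂ Z (fun m => a m + 1) b + 2 * X5_E2 L R T D f₁ f₂ Z b a) := by
    refine avg_mono _ _ fun a => ?_
    refine le_avg _ _ fun b => ?_
    exact X5_tri L R T D f₁ f₂ Z _ b a
  simp only [avg_add, avg_mul_left] at h1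
  have h2 : (avg fun a : M → ZMod 3 => avg fun b : M → ZMod 3 =>
      X5_E2 L R T D f₁ f₂ Z (fun m => a m + 1) b) =
      avg fun a : M → ZMod 3 => avg fun b : M → ZMod 3 => X5_E2 L R T D f₁ f₂ Z a b :=
    avg_equiv (Equiv.addRight (fun _ : M => (1 : ZMod 3)))
      (fun a => avg fun b : M → ZMod 3 => X5_E2 L R T D f₁ f₂ Z a b)
  have h3 : (avg fun a : M → ZMod 3 => avg fun b : M → ZMod 3 =>
      X5_E2 L R T D f₁ f₂ Z b a) =
      avg fun a : M → ZMod 3 => avg fun b : M → ZMod 3 => X5_E2 L R T D f₁ f₂ Z a b :=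
    avg_comm (fun a b : M → ZMod 3 => X5_E2 L R T D f₁ f₂ Z b a)
  rw [h2, h3] at h1
  linarith

theorem X5 (h₁ : f₁ ∈ PSys.ball) (h₂ : f₂ ∈ PSys.ball) (ω ε : ℝ) (hE : Env L R T ω)
    (hω : ω ≤ ε) (hε : ε ≤ 1) (R' : Finset M) (hd' : Disjoint D R')
    (hl : BU L T D f₂ 0 0 - BU L T (D ∪ R') f₂ 0 0 ≤ ε) (Z : Finset M) (hZ : Z ⊆ R') :
    (avg fun d : M → Bool × Bool => avg fun r : ιR × ιR =>
      ‖UU L R T D f₁ f₂ d r (lin L Z fun _ => 1) 0 -
        UU L R T D f₁ f₂ d r 0 (2 * lin L Z fun _ => 1)‖ ^ 2) ≤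
      32 / 3 * (avg fun y : M → Bool × Bool => Th L R T D f₁ f₂ 0 0 - Th L R T D f₁ f₂
        (2 * lin L Z fun _ => 1) (lin L Z (fun m => bz (y m).2 - bz (y m).1))) +
      1000 * √ε := by
  have hω0 : 0 ≤ ω := (hE.r3 (fun _ => 0) (fun m => by simp)).nonneg
  have hε0 : 0 ≤ ε := hω0.trans hω
  have hsq : ε ≤ √ε := by
    have h1 := Real.sq_sqrt hε0
    have h2 : √ε ≤ 1 := Real.sqrt_le_one.2 hε
    nlinarith [Real.sqrt_nonneg ε]
  -- the left side
  have hL : (avg fun d : M → Bool × Bool => avg fun r : ιR × ιR =>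
      ‖UU L R T D f₁ f₂ d r (lin L Z fun _ => 1) 0 -
        UU L R T D f₁ f₂ d r 0 (2 * lin L Z fun _ => 1)‖ ^ 2) =
      X5_E2 L R T D f₁ f₂ Z (fun _ => 1) (fun _ => 0) := by
    unfold X5_E2 X5_e
    have v1 : X5_v (fun _ : M => (1 : ZMod 3)) = fun _ => 1 := by
      funext m; rfl
    have v0 : X5_v (fun _ : M => (0 : ZMod 3)) = fun _ => 0 := by
      funext m; rfl
    have l0 : lin L Z (fun _ => 0) = 0 := by
      unfold lin; simp
    rw [v1, v0, l0, sub_self, mul_zero, sub_zero]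
  rw [hL]
  set Θ : ℤ → ℝ := fun x => Th L R T D f₁ f₂ (2 * lin L Z fun _ => 1) x with hΘ
  set X : ℝ := avg fun a : M → ZMod 3 => avg fun a' : M → ZMod 3 =>
    X5_E2 L R T D f₁ f₂ Z a a' with hX
  have v10 : lin L Z (X5_v (fun _ : M => (1 : ZMod 3))) - lin L Z (X5_v (fun _ : M => (0 : ZMod 3)))
      = lin L Z fun _ => 1 := by
    have v1 : X5_v (fun _ : M => (1 : ZMod 3)) = fun _ => 1 := by
      funext m; rfl
    have v0 : X5_v (fun _ : M => (0 : ZMod 3)) = fun _ => 0 := by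
      funext m; rfl
    have l0 : lin L Z (fun _ => 0) = 0 := by
      unfold lin; simp
    rw [v1, v0, l0, sub_zero]
  have c10 := abs_le.1 (X5_E2_close L R T D f₁ f₂ h₁ h₂ ω hE Z (fun _ => 1) (fun _ => 0))
  rw [v10] at c10
  -- step 4
  have h4 : ∀ α : M → ZMod 3, X5_E2 L R T D f₁ f₂ Z (fun _ => 1) (fun _ => 0) - 10 * ω ≤
      X5_E2 L R T D f₁ f₂ Z (fun m => α m + 1) α := by
    intro α
    have c1 := abs_le.1 (X5_E2_close L R T D f₁ f₂ h₁ h₂ ω hE Z (fun m => α m + 1) α)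
    rw [X5_lin_one] at c1
    have c2 := abs_le.1 (U5lin L R T D f₁ f₂ h₁ h₂ ω hE (2 * lin L Z fun _ => 1)
      (lin L Z fun _ => 1) Z (fun m => X5_dh (α m)) (fun m => X5_dh_le (α m)))
    linarith [c1.1, c1.2, c2.1, c2.2, c10.1, c10.2]
  have h4' : X5_E2 L R T D f₁ f₂ Z (fun _ => 1) (fun _ => 0) - 10 * ω ≤ 4 * X :=
    (le_avg _ _ h4).trans (X5_four L R T D f₁ f₂ Z)
  -- step 3
  have h3 : (avg fun a : M → ZMod 3 => avg fun y : M → Bool × Bool =>
      X5_E2 L R T D f₁ f₂ Z (fun m => a m + X5_nu (y m)) a) ≤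
      2 * Θ 0 - 2 * (avg fun y : M → Bool × Bool => Θ (lin L Z (fun m => bz (y m).2 - bz (y m).1)))
        + 6 * ω := by
    have h : ∀ a : M → ZMod 3, (avg fun y : M → Bool × Bool =>
        X5_E2 L R T D f₁ f₂ Z (fun m => a m + X5_nu (y m)) a) ≤
        2 * Θ 0 - 2 * (avg fun y : M → Bool × Bool =>
          Θ (lin L Z (fun m => bz (y m).2 - bz (y m).1))) + 6 * ω := by
      intro a
      have e : 2 * Θ 0 - 2 * (avg fun y : M → Bool × Bool =>
          Θ (lin L Z (fun m => bz (y m).2 - bz (y m).1))) + 6 * ω =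
          avg fun y : M → Bool × Bool => (2 * Θ 0 + 6 * ω) -
            2 * Θ (lin L Z (fun m => bz (y m).2 - bz (y m).1)) := by
        rw [avg_sub, avg_const, avg_mul_left]
        ring
      rw [e]
      refine avg_mono _ _ fun y => ?_
      have c1 := abs_le.1 (X5_E2_close L R T D f₁ f₂ h₁ h₂ ω hE Z
        (fun m => a m + X5_nu (y m)) a)
      rw [X5_lin_y] at c1
      have c2 := abs_le.1 (U5lin L R T D f₁ f₂ h₁ h₂ ω hE (2 * lin L Z fun _ => 1)
        (lin L Z (fun m => bz (y m).2 - bz (y m).1)) Z (fun m => X5_dg (a m) (y m))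
        (fun m => X5_dg_le (a m) (y m)))
      simp only [hΘ]
      linarith [c1.1, c1.2, c2.1, c2.2]
    exact avg_le _ _ h
  have hgap := X5_gap L R T D f₁ f₂ Z
  -- the constant
  have hX2 := X2 L R T D f₁ f₂ h₁ h₂ ω ε hE hω hε R' hd' hl (fun m => if m ∈ Z then 2 else 0)
    (fun m => by split_ifs <;> norm_num)
  have hlin : lin L R' (fun m => if m ∈ Z then 2 else 0) = 2 * lin L Z fun _ => 1 := by
    unfold lin
    rw [Finset.mul_sum]
    simp only [ite_mul, zero_mul, one_mul]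
    rw [← Finset.sum_filter]
    refine Finset.sum_congr ?_ fun _ _ => rfl
    ext m
    rw [Finset.mem_filter]
    exact ⟨fun h => h.2, fun h => ⟨hZ h, h⟩⟩
  rw [hlin] at hX2
  have hX2' := (abs_le.1 hX2).2
  have hfin : (avg fun y : M → Bool × Bool => Th L R T D f₁ f₂ 0 0 - Th L R T D f₁ f₂
        (2 * lin L Z fun _ => 1) (lin L Z (fun m => bz (y m).2 - bz (y m).1))) =
      Th L R T D f₁ f₂ 0 0 - avg fun y : M → Bool × Bool =>
        Θ (lin L Z (fun m => bz (y m).2 - bz (y m).1)) := by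
    rw [avg_sub, avg_const]
  rw [hfin]
  have hΘ0 : Θ 0 ≤ Th L R T D f₁ f₂ 0 0 + 40 * √ε := by
    simp only [hΘ]
    linarith
  linarith



/-! #### X6 -/


theorem X6_law : SameLaw (fun z : Bool × (Bool × Bool) =>
      ((bz z.1, if z.1 = true then bz z.2.2 - bz z.2.1 else 0) : ℤ × ℤ))
    (fun w : B4 => ((if w.1 = w.2.1 then 0 else 1,
      io w.1 w.2.1 w.2.2.1 - io w.1 w.2.1 w.2.2.2) : ℤ × ℤ)) := by
  apply SameLaw.of_count
  decide

theorem X6_lin (b : M → Bool) (R' : Finset M) (c : M → ℤ) :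
    lin L (R'.filter fun m => b m = true) c = lin L R' (fun m => if b m = true then c m else 0) := by
  unfold lin
  rw [Finset.sum_filter]
  apply Finset.sum_congr rfl
  intro m _
  by_cases h : b m = true
  · simp only [h, if_true]
  · simp only [h, if_false, zero_mul, Bool.false_eq_true]

theorem X6_avg (F : (M → ℤ × ℤ) → ℝ) :
    (avg fun b : M → Bool => avg fun y : M → Bool × Bool =>
      F (fun m => (bz (b m), if b m = true then bz (y m).2 - bz (y m).1 else 0))) =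
    avg fun w : M → B4 => F (fun m => (if (w m).1 = (w m).2.1 then 0 else 1,
      io (w m).1 (w m).2.1 (w m).2.2.1 - io (w m).1 (w m).2.1 (w m).2.2.2)) := by
  have h1 := SameLaw.avg_pi (M := M) X6_law F
  rw [← h1]
  have h2 := avg_prod (ι := M → Bool) (κ := M → Bool × Bool) (fun p =>
    F (fun m => (bz (p.1 m), if p.1 m = true then bz (p.2 m).2 - bz (p.2 m).1 else 0)))
  have h3 := avg_equiv (Equiv.arrowProdEquivProdArrow M (fun _ => Bool) (fun _ => Bool × Bool))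
    (fun p => F (fun m => (bz (p.1 m), if p.1 m = true then bz (p.2 m).2 - bz (p.2 m).1 else 0)))
  rw [← h2, ← h3]
  rfl

theorem X6 (h₁ : f₁ ∈ PSys.ball) (h₂ : f₂ ∈ PSys.ball) (ω ε : ℝ) (hE : Env L R T ω)
    (hω : ω ≤ ε) (hε : ε ≤ 1) (R' : Finset M) (hd' : Disjoint D R')
    (hl : BU L T D f₂ 0 0 - BU L T (D ∪ R') f₂ 0 0 ≤ ε)
    (hX : Th L R T D f₁ f₂ 0 0 - Th L R T (D ∪ R') f₁ f₂ 0 0 ≤ ε) :
    (avg fun b : M → Bool => avg fun d : M → Bool × Bool => avg fun r : ιR × ιR =>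
      ‖UU L R T D f₁ f₂ d r (lin L R' fun m => bz (b m)) 0 -
        UU L R T D f₁ f₂ d r 0 (2 * lin L R' fun m => bz (b m))‖ ^ 2) ≤ 20000 * √ε := by
  have h4 := X4 L R T D f₁ f₂ h₁ h₂ ω ε hE hω hε R' hd' hl hX
  have hs : 0 ≤ √ε := Real.sqrt_nonneg ε
  have h5 : ∀ b : M → Bool, (avg fun d : M → Bool × Bool => avg fun r : ιR × ιR =>
      ‖UU L R T D f₁ f₂ d r (lin L R' fun m => bz (b m)) 0 -
        UU L R T D f₁ f₂ d r 0 (2 * lin L R' fun m => bz (b m))‖ ^ 2) ≤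
      32 / 3 * (avg fun y : M → Bool × Bool => Th L R T D f₁ f₂ 0 0 - Th L R T D f₁ f₂
        (2 * lin L R' fun m => bz (b m))
        (lin L R' (fun m => if b m = true then bz (y m).2 - bz (y m).1 else 0))) +
      1000 * √ε := by
    intro b
    have h := X5 L R T D f₁ f₂ h₁ h₂ ω ε hE hω hε R' hd' hl (R'.filter fun m => b m = true)
      (Finset.filter_subset _ _)
    have e1 : lin L (R'.filter fun m => b m = true) (fun _ => 1) =
        lin L R' (fun m => bz (b m)) := by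
      rw [X6_lin]
      rfl
    rw [e1] at h
    simp only [X6_lin] at h
    exact h
  have h6 := avg_mono _ _ h5
  refine h6.trans ?_
  have h7 := X6_avg (M := M) (fun c => Th L R T D f₁ f₂ 0 0 - Th L R T D f₁ f₂
        (2 * lin L R' fun m => (c m).1) (lin L R' (fun m => (c m).2)))
  simp only at h7
  rw [avg_add, avg_mul_left, avg_const, h7]
  linarith



/-! #### X7 -/


theorem X7 (h₁ : f₁ ∈ PSys.ball) (h₂ : f₂ ∈ PSys.ball) (ω : ℝ) (hE : Env L R T ω) (b : ℤ) :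
    |(⟪vv L R D f₁ f₂ b, vv L R D f₁ f₂ 0⟫_ℂ).re - ‖vv L R D f₁ f₂ (2 * b)‖ ^ 2| ≤
      √(avg fun d : M → Bool × Bool => avg fun r : ιR × ιR =>
        ‖UU L R T D f₁ f₂ d r b 0 - UU L R T D f₁ f₂ d r 0 (2 * b)‖ ^ 2) + 16 * ω := by
  have a1 := U1 L R T D f₁ f₂ h₁ h₂ ω hE 0 b
  have a2 := U1 L R T D f₁ f₂ h₁ h₂ ω hE (2 * b) (2 * b)
  rw [re_inner_self] at a2
  have hs : ∀ (d : M → Bool × Bool) (r : ιR × ιR),
      (⟪UU L R T D f₁ f₂ d r (2 * b) (2 * (2 * b)), FF L R D f₁ f₂ d r (2 * b) (2 * (2 * b))⟫_ℂ).re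
        = (⟪UU L R T D f₁ f₂ d r 0 (2 * b), FF L R D f₁ f₂ d r 0 (2 * b)⟫_ℂ).re := by
    intro d r
    have e1 := UU_shift L R T D f₁ f₂ d r 0 (2 * b) (2 * b)
    have e2 := FF_shift L R D f₁ f₂ d r 0 (2 * b) (2 * b)
    have e3 : (0 : ℤ) + 2 * b = 2 * b := by ring
    have e4 : 2 * b + 2 * b = 2 * (2 * b) := by ring
    rw [e3, e4] at e1 e2
    rw [e1, e2, inner_tau]
  simp only [hs] at a2
  rw [mul_zero] at a1
  set G1 : ℝ := avg (fun d : M → Bool × Bool => avg fun r : ιR × ιR =>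
        (⟪UU L R T D f₁ f₂ d r b 0, FF L R D f₁ f₂ d r 0 (2 * b)⟫_ℂ).re) with hG1
  set G2 : ℝ := avg (fun d : M → Bool × Bool => avg fun r : ιR × ιR =>
        (⟪UU L R T D f₁ f₂ d r 0 (2 * b), FF L R D f₁ f₂ d r 0 (2 * b)⟫_ℂ).re) with hG2
  have hG : |G1 - G2| ≤ √(avg fun d : M → Bool × Bool => avg fun r : ιR × ιR =>
        ‖UU L R T D f₁ f₂ d r b 0 - UU L R T D f₁ f₂ d r 0 (2 * b)‖ ^ 2) := by
    have b1 : G1 - G2 = avg (fun d : M → Bool × Bool => avg fun r : ιR × ιR =>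
        (⟪UU L R T D f₁ f₂ d r b 0 - UU L R T D f₁ f₂ d r 0 (2 * b),
          FF L R D f₁ f₂ d r 0 (2 * b)⟫_ℂ).re) := by
      rw [hG1, hG2, ← avg_sub]
      congr 1
      funext d
      rw [← avg_sub]
      congr 1
      funext r
      rw [inner_sub_left, Complex.sub_re]
    have b2 : |G1 - G2| ≤ avg (fun d : M → Bool × Bool => avg fun r : ιR × ιR =>
        ‖UU L R T D f₁ f₂ d r b 0 - UU L R T D f₁ f₂ d r 0 (2 * b)‖) := by
      rw [b1]
      refine (abs_avg_le _).trans (avg_mono _ _ fun d => ?_)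
      refine (abs_avg_le _).trans (avg_mono _ _ fun r => ?_)
      refine (abs_re_inner_le _ _).trans ?_
      exact mul_le_of_le_one_right (norm_nonneg _) (norm_FF_le L R D f₁ f₂ h₁ h₂ d r 0 (2 * b))
    refine b2.trans ?_
    have b3 := avg_prod (fun p : (M → Bool × Bool) × (ιR × ιR) =>
      ‖UU L R T D f₁ f₂ p.1 p.2 b 0 - UU L R T D f₁ f₂ p.1 p.2 0 (2 * b)‖)
    have b4 := avg_prod (fun p : (M → Bool × Bool) × (ιR × ιR) =>
      ‖UU L R T D f₁ f₂ p.1 p.2 b 0 - UU L R T D f₁ f₂ p.1 p.2 0 (2 * b)‖ ^ 2)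
    simp only at b3 b4
    rw [← b3, ← b4]
    exact (le_abs_self _).trans (Real.abs_le_sqrt (avg_sq_le _))
  rw [abs_le] at a1 a2 hG ⊢
  constructor <;> linarith [a1.1, a1.2, a2.1, a2.2, hG.1, hG.2]



/-! #### DC -/


theorem DC_N (h₁ : f₁ ∈ PSys.ball) (h₂ : f₂ ∈ PSys.ball) (ω ε : ℝ) (hE : Env L R T ω)
    (hω0 : 0 ≤ ω) (hω : ω ≤ ε) (hε : ε ≤ 1) (R' : Finset M) (hd' : Disjoint D R')
    (hA : BA L R T D f₂ 0 0 - BA L R T (D ∪ R') f₂ 0 0 ≤ ε) (c : M → ℤ) (hc : ∀ m, |c m| ≤ 24) :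
    |‖vv L R D f₁ f₂ (lin L R' c)‖ ^ 2 - ‖vv L R D f₁ f₂ 0‖ ^ 2| ≤ 40 * √ε := by
  have hε0 : 0 ≤ ε := hω0.trans hω
  have h := stat L R T D f₁ f₂ h₁ h₂ ω hE 0 0 (lin L R' c)
  rw [zero_add, sub_self, re_inner_self, re_inner_self] at h
  have hl := lossA L 2 1 f₂ R T D h₂ ω ε (hω.trans hε) hε0 hE.r3 hE.t3 R' hd' hA c hc
  have hl' : BA L R T D f₂ 0 0 - BA L R T D f₂ 0 (lin L R' c) ≤ 200 * (ε + ω) := hl
  have hs0 : 0 ≤ √ε := Real.sqrt_nonneg _
  have hs2 : √ε ^ 2 = ε := Real.sq_sqrt hε0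
  have hs1 : √ε ≤ 1 := by
    rw [Real.sqrt_le_one]
    exact hε
  have h1 : √(2 * (BA L R T D f₂ 0 0 - BA L R T D f₂ 0 (lin L R' c))) ≤ 29 * √ε := by
    rw [Real.sqrt_le_iff]
    refine ⟨by positivity, ?_⟩
    rw [mul_pow, hs2]
    linarith
  have h2 : ε ≤ √ε := by nlinarith
  linarith

/-- THEOREM DC: no loss of energy implies closeness of the averages -/
theorem DC (h₁ : f₁ ∈ PSys.ball) (h₂ : f₂ ∈ PSys.ball) (ω ε : ℝ) (hE : Env L R T ω)
    (hω : ω ≤ ε) (hε : ε ≤ 1) (R' : Finset M) (hd' : Disjoint D R')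
    (hA : BA L R T D f₂ 0 0 - BA L R T (D ∪ R') f₂ 0 0 ≤ ε)
    (hl : BU L T D f₂ 0 0 - BU L T (D ∪ R') f₂ 0 0 ≤ ε)
    (hX : Th L R T D f₁ f₂ 0 0 - Th L R T (D ∪ R') f₁ f₂ 0 0 ≤ ε) :
    ‖vv L R (D ∪ R') f₁ f₂ 0 - vv L R D f₁ f₂ 0‖ ^ 2 ≤ 1000 * √(√ε) := by
  have hω0 : 0 ≤ ω := by
    obtain ⟨t⟩ := (inferInstance : Nonempty ιT)
    exact (hE.rt t).nonneg
  have hε0 : 0 ≤ ε := hω0.trans hω
  obtain ⟨s, hs⟩ : ∃ s, s = √(√ε) := ⟨_, rfl⟩
  have hs0 : 0 ≤ s := by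
    rw [hs]
    exact Real.sqrt_nonneg _
  have hs2 : s ^ 2 = √ε := by
    rw [hs]
    exact Real.sq_sqrt (Real.sqrt_nonneg _)
  have hs4 : s ^ 4 = ε := by
    have : s ^ 4 = (s ^ 2) ^ 2 := by ring
    rw [this, hs2]
    exact Real.sq_sqrt hε0
  have hs1 : s ≤ 1 := by
    by_contra hlt
    rw [not_le] at hlt
    have : 1 < s ^ 4 := one_lt_pow₀ hlt (by norm_num)
    linarith
  rw [← hs]
  have hsplit : vv L R (D ∪ R') f₁ f₂ 0 - vv L R D f₁ f₂ 0 = avg fun b : M → Bool =>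
      (vv L R D f₁ f₂ (lin L R' (fun m => bz (b m))) - vv L R D f₁ f₂ 0) := by
    rw [avg_sub, avg_const, vv_split L R D f₁ f₂ R' hd' 0]
    simp only [zero_add]
  rw [hsplit]
  refine (norm_avg_sq_le _).trans ?_
  have hbz : ∀ x : Bool, |bz x| ≤ 1 := by
    intro x
    cases x <;> simp [bz]
  have hpt : ∀ b : M → Bool,
      ‖vv L R D f₁ f₂ (lin L R' (fun m => bz (b m))) - vv L R D f₁ f₂ 0‖ ^ 2 ≤
      (120 * √ε + 32 * ε) + 2 * √(avg fun d : M → Bool × Bool => avg fun r : ιR × ιR =>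
        ‖UU L R T D f₁ f₂ d r (lin L R' fun m => bz (b m)) 0 -
          UU L R T D f₁ f₂ d r 0 (2 * lin L R' fun m => bz (b m))‖ ^ 2) := by
    intro b
    have e1 := DC_N L R T D f₁ f₂ h₁ h₂ ω ε hE hω0 hω hε R' hd' hA (fun m => bz (b m))
      (fun m => (hbz (b m)).trans (by norm_num))
    have e2 := DC_N L R T D f₁ f₂ h₁ h₂ ω ε hE hω0 hω hε R' hd' hA (fun m => 2 * bz (b m))
      (fun m => by
        rw [abs_mul]
        have := hbz (b m)
        have h2 : |(2 : ℤ)| = 2 := rfl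
        rw [h2]
        linarith)
    rw [lin_mul] at e2
    have e3 := X7 L R T D f₁ f₂ h₁ h₂ ω hE (lin L R' (fun m => bz (b m)))
    rw [norm_sub_sq_re]
    have f1 := abs_le.1 e1
    have f2 := abs_le.1 e2
    have f3 := abs_le.1 e3
    linarith [f1.1, f1.2, f2.1, f2.2, f3.1, f3.2]
  refine (avg_mono _ _ hpt).trans ?_
  rw [avg_add, avg_const, avg_mul_left]
  have hX6 := X6 L R T D f₁ f₂ h₁ h₂ ω ε hE hω hε R' hd' hl hX
  have hsq := avg_sqrt_le (fun b : M → Bool => avg fun d : M → Bool × Bool =>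
    avg fun r : ιR × ιR => ‖UU L R T D f₁ f₂ d r (lin L R' fun m => bz (b m)) 0 -
      UU L R T D f₁ f₂ d r 0 (2 * lin L R' fun m => bz (b m))‖ ^ 2)
    (fun b => avg_nonneg _ fun d => avg_nonneg _ fun r => sq_nonneg _)
  have hsq2 : √(avg fun b : M → Bool => avg fun d : M → Bool × Bool =>
    avg fun r : ιR × ιR => ‖UU L R T D f₁ f₂ d r (lin L R' fun m => bz (b m)) 0 -
      UU L R T D f₁ f₂ d r 0 (2 * lin L R' fun m => bz (b m))‖ ^ 2) ≤ 142 * s := by
    rw [Real.sqrt_le_iff]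
    refine ⟨by positivity, ?_⟩
    rw [mul_pow, hs2]
    have := Real.sqrt_nonneg ε
    linarith
  have hfin := hsq.trans hsq2
  rw [← hs2, ← hs4]
  have g1 : s ^ 2 ≤ s := by nlinarith
  have g2 : s ^ 4 ≤ s := by
    have : s ^ 4 = s * s ^ 3 := by ring
    rw [this]
    have h3 : s ^ 3 ≤ 1 := pow_le_one₀ hs0 hs1
    nlinarith
  linarith


/-! ## enlarging the environment by window-only levels -/

variable {ιR' ιT' : Type} [Fintype ιR'] [Fintype ιT'] [Nonempty ιR'] [Nonempty ιT']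


/-! #### Th_env -/


theorem Th_env_swap {α β V : Type} [Fintype α] [Fintype β] [AddCommGroup V] [Module ℝ V]
    (G : (α × β) × (α × β) → V) :
    avg G = avg fun r' : β × β => avg fun r : α × α => G ((r.1, r'.1), (r.2, r'.2)) := by
  rw [← avg_equiv (Equiv.prodProdProdComm α α β β) G, avg_prod, avg_comm]
  rfl

theorem Th_env_gen {W α β γ δ V : Type} [Fintype W] [Fintype α] [Fintype β] [Fintype γ]
    [Fintype δ] [AddCommGroup V] [Module ℝ V]
    (F : W → (α × β) × (α × β) → (γ × δ) × (γ × δ) → V) :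
    (avg fun w => avg fun r => avg fun p => F w r p) =
      avg fun r' : β × β => avg fun p' : δ × δ => avg fun w => avg fun r : α × α =>
        avg fun p : γ × γ => F w ((r.1, r'.1), (r.2, r'.2)) ((p.1, p'.1), (p.2, p'.2)) := by
  calc (avg fun w => avg fun r => avg fun p => F w r p)
      = avg fun w => avg fun r' : β × β => avg fun r : α × α => avg fun p' : δ × δ =>
        avg fun p : γ × γ => F w ((r.1, r'.1), (r.2, r'.2)) ((p.1, p'.1), (p.2, p'.2)) := by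
        congr 1
        funext w
        rw [Th_env_swap]
        congr 1
        funext r'
        congr 1
        funext r
        rw [Th_env_swap]
    _ = avg fun r' : β × β => avg fun w => avg fun r : α × α => avg fun p' : δ × δ =>
        avg fun p : γ × γ => F w ((r.1, r'.1), (r.2, r'.2)) ((p.1, p'.1), (p.2, p'.2)) :=
        avg_comm _
    _ = avg fun r' : β × β => avg fun w => avg fun p' : δ × δ => avg fun r : α × α =>
        avg fun p : γ × γ => F w ((r.1, r'.1), (r.2, r'.2)) ((p.1, p'.1), (p.2, p'.2)) := by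
        congr 1
        funext r'
        congr 1
        funext w
        exact avg_comm _
    _ = _ := by
        congr 1
        funext r'
        exact avg_comm _

theorem Th_env (R' : ιR' → ℤ) (T' : ιT' → ℤ) (ρ z : ℤ) :
    Th L (fun r : ιR × ιR' => R r.1 + R' r.2) (fun t : ιT × ιT' => T t.1 + T' t.2) D f₁ f₂ ρ z =
      avg fun r : ιR' × ιR' => avg fun p : ιT' × ιT' => Th L R T D f₁ f₂
        (ρ + 2 * R' r.1 - R' r.2 + 3 * T' p.1) (z + T' p.1 - T' p.2) := by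
  unfold Th
  rw [Th_env_gen]
  congr 1
  funext r'
  congr 1
  funext p'
  congr 1
  funext w
  congr 1
  funext r
  congr 1
  funext p
  congr 1
  · ring
  · ring



/-! #### Th_env_mono -/


/-- `Ξ` is quasi-monotone under enlarging the windows -/
theorem Th_env_mono (h₁ : f₁ ∈ PSys.ball) (h₂ : f₂ ∈ PSys.ball) (ω δ : ℝ) (hE : Env L R T ω)
    (R' : ιR' → ℤ) (T' : ιT' → ℤ)
    (hδ : ∀ (r r' : ιR') (p : ιT'), Bc L 1 (-2) (star f₂) T T D 0 0 -
        Bc L 1 (-2) (star f₂) T T D (2 * R' r - R' r' + 3 * T' p) 0 ≤ δ) :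
    Th L (fun r : ιR × ιR' => R r.1 + R' r.2) (fun t : ιT × ιT' => T t.1 + T' t.2)
      D f₁ f₂ 0 0 ≤ Th L R T D f₁ f₂ 0 0 + √(2 * δ) + 10 * ω := by
  rw [Th_env]
  have key : ∀ (r : ιR' × ιR') (q : ιT'),
      Th L R T D f₁ f₂ (2 * R' r.1 - R' r.2 + 3 * T' q) 0
        ≤ Th L R T D f₁ f₂ 0 0 + √(2 * δ) + 10 * ω := by
    intro r q
    have h1 := U3 L R T D f₁ f₂ h₁ h₂ ω hE 0 (2 * R' r.1 - R' r.2 + 3 * T' q) 0
    have h2 := hδ r.1 r.2 q
    have h3 : √(2 * (Bc L 1 (-2) (star f₂) T T D 0 0 -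
        Bc L 1 (-2) (star f₂) T T D (2 * R' r.1 - R' r.2 + 3 * T' q) 0)) ≤ √(2 * δ) :=
      Real.sqrt_le_sqrt (by linarith)
    rw [zero_add] at h1
    have h4 := (abs_le.mp h1).2
    linarith
  refine avg_le _ _ fun r => avg_le _ _ fun p => ?_
  refine (Th_upper L R T D f₁ f₂ _ _).trans ?_
  have e1 : (0 : ℤ) + 2 * R' r.1 - R' r.2 + 3 * T' p.1 = 2 * R' r.1 - R' r.2 + 3 * T' p.1 := by ring
  have e2 : (0 : ℤ) + 2 * R' r.1 - R' r.2 + 3 * T' p.1 - 3 * (0 + T' p.1 - T' p.2)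
      = 2 * R' r.1 - R' r.2 + 3 * T' p.2 := by ring
  rw [e2, e1]
  have k1 := key r p.1
  have k2 := key r p.2
  linarith


end ulevel

end Pool.TC
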